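import Pool.Agent.FR2.Pr

/-!
# The half Stickelberger element

`f` odd, `r` a prime, `r = 3 mod 4`, `r` prime to `f`, `m = f r`, `k` a field of characteristic two,
`φ : (Z/f)^* → k^*`. The sum `H` of the `φ(a)` over the units `a` of `Z/m` with `(a/r) = -1`,
`2 a > m`, satisfies `H (1 + φ(2)⁻¹) = φ(r) (1 + φ(r)⁻¹) D(φ)`, so it is not zero if `φ(r) ≠ 1` and
`D(φ) ≠ 0`. By `sum_cocycle` it is the sum of two sums; one vanishes by the Chinese remainder
theorem and `sum_odd`, the other one is found by adding and subtracting the multiples of `r`.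
-/

open NumberField Pointwise Finset

namespace Pool.Agent.FR2

private theorem cmb_units {k : Type} [Field k] {n : ℕ} [NeZero n] (g : ℕ → k) :
    ∑ a : (ZMod n)ˣ, g (a : ZMod n).val = ∑ x ∈ range n, if x.Coprime n then g x else 0 := by
  rw [← Finset.sum_filter]
  refine Finset.sum_bij' (fun a _ => (a : ZMod n).val)
    (fun x hx => ZMod.unitOfCoprime x (Finset.mem_filter.1 hx).2) ?_ ?_ ?_ ?_ ?_
  · intro a _
    exact Finset.mem_filter.2 ⟨Finset.mem_range.2 (ZMod.val_lt _), ZMod.val_coe_unit_coprime a⟩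
  · intro x _
    exact Finset.mem_univ _
  · intro a _
    apply Units.ext
    rw [ZMod.coe_unitOfCoprime]
    exact ZMod.natCast_rightInverse _
  · intro x hx
    rw [ZMod.coe_unitOfCoprime]
    exact ZMod.val_natCast_of_lt (Finset.mem_range.1 (Finset.mem_filter.1 hx).1)
  · intro a _
    rfl

private theorem cmb_range {k : Type} [Field k] (f r : ℕ) (g : ℕ → k) :
    ∑ x ∈ range (f * r), g x = ∑ j ∈ range r, ∑ b ∈ range f, g (f * j + b) := by
  induction r with
  | zero => rw [Nat.mul_zero, Finset.range_zero, Finset.sum_empty, Finset.sum_empty]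
  | succ r ih => rw [Nat.mul_succ, Finset.sum_range_add, ih, Finset.sum_range_succ]

/-- the sum over the multiples of `r` -/
private theorem cmb_mult {k : Type} [Field k] (f r : ℕ) (hr : 0 < r) (g : ℕ → k) :
    ∑ x ∈ range (f * r), (if r ∣ x then g x else 0) = ∑ i ∈ range f, g (r * i) := by
  rw [Nat.mul_comm, cmb_range]
  refine Finset.sum_congr rfl fun i _ => ?_
  rw [Finset.sum_eq_single_of_mem 0 (Finset.mem_range.2 hr), Nat.add_zero,
    if_pos (Nat.dvd_mul_right r i)]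
  intro c hc hc0
  rw [if_neg]
  intro h
  have h1 : r ∣ c := (Nat.dvd_add_right (Nat.dvd_mul_right r i)).1 h
  have h2 := Nat.le_of_dvd (Nat.pos_of_ne_zero hc0) h1
  have h3 := Finset.mem_range.1 hc
  omega

private theorem cmb_cnt {k : Type} [Field k] [CharP k 2] {f r b : ℕ} (hr4 : r % 4 = 3)
    (h1 : f < 2 * b) (h2 : b < f) :
    ∑ j ∈ range r, (if f * r < 2 * (f * j + b) then (1 : k) else 0) = 0 := by
  obtain ⟨t, ht⟩ : ∃ t, r = (2 * t + 1) + (2 * t + 2) := ⟨r / 4, by omega⟩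
  have hf0 : 0 < f := by omega
  rw [ht, Finset.sum_range_add]
  have e1 : ∑ j ∈ range (2 * t + 1),
      (if f * ((2 * t + 1) + (2 * t + 2)) < 2 * (f * j + b) then (1 : k) else 0) = 0 := by
    refine Finset.sum_eq_zero fun j hj => if_neg ?_
    have hj := Finset.mem_range.1 hj
    have h3 : f * j ≤ f * (2 * t) := Nat.mul_le_mul_left f (by omega)
    have h4 : f * ((2 * t + 1) + (2 * t + 2)) = 2 * (f * (2 * t)) + 3 * f := by ring
    omega
  have e2 : ∑ j ∈ range (2 * t + 2),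
      (if f * ((2 * t + 1) + (2 * t + 2)) < 2 * (f * (2 * t + 1 + j) + b) then (1 : k) else 0) =
        ∑ j ∈ range (2 * t + 2), (1 : k) := by
    refine Finset.sum_congr rfl fun j _ => if_pos ?_
    have h3 : f * (2 * t + 1) ≤ f * (2 * t + 1 + j) := Nat.mul_le_mul_left f (by omega)
    have h4 : f * ((2 * t + 1) + (2 * t + 2)) = 2 * (f * (2 * t + 1)) + f := by ring
    omega
  rw [e1, e2, zero_add, Finset.sum_const, Finset.card_range, nsmul_one]
  have h5 : ((2 * t + 2 : ℕ) : k) = ((2 : ℕ) : k) * ((t + 1 : ℕ) : k) := by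
    rw [← Nat.cast_mul]
    congr 1
  rw [h5, CharP.cast_eq_zero, zero_mul]

private theorem cmb_chi {k : Type} [Field k] {f : ℕ} [NeZero f] (φ : (ZMod f)ˣ →* kˣ) {x : ℕ}
    (hx : ¬ x.Coprime f) : (MulChar.ofUnitHom φ) (x : ZMod f) = 0 :=
  MulChar.map_nonunit _ fun h => hx ((ZMod.isUnit_iff_coprime x f).1 h)

/-- the sum over all units, by the multiples of `r` -/
private theorem cmb_first {k : Type} [Field k] [CharP k 2] {f r : ℕ} [NeZero f] [NeZero (f * r)]
    (hr : r.Prime) (hr4 : r % 4 = 3) (φ : (ZMod f)ˣ →* kˣ)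
    (uᵣ : (ZMod f)ˣ) (hᵣ : (uᵣ : ZMod f) = r) :
    ∑ a : (ZMod (f * r))ˣ, (φ (ZMod.unitsMap (dvd_mul_right f r) a) : k) *
      ((ep a : k) * ep (ZMod.unitsMap (dvd_mul_right f r) a)) =
    (φ uᵣ : k) * ∑ a, (φ a : k) * (ep a * ep (uᵣ * a)) := by
  have hf0 : 0 < f := Nat.pos_of_ne_zero (NeZero.ne f)
  let G : ℕ → k := fun x => (MulChar.ofUnitHom φ) (x : ZMod f) *
    ((if f * r < 2 * x then 1 else 0) * (if f < 2 * (x % f) then 1 else 0))
  have h1 : ∀ a : (ZMod (f * r))ˣ, (φ (ZMod.unitsMap (dvd_mul_right f r) a) : k) *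
      ((ep a : k) * ep (ZMod.unitsMap (dvd_mul_right f r) a)) = G (a : ZMod (f * r)).val := by
    intro a
    have h2 : ((ZMod.unitsMap (dvd_mul_right f r) a : (ZMod f)ˣ) : ZMod f) =
        (((a : ZMod (f * r)).val : ℕ) : ZMod f) := by
      rw [ZMod.unitsMap_val, ZMod.natCast_val]
    show _ = (MulChar.ofUnitHom φ) _ * _
    rw [← h2, MulChar.ofUnitHom_coe]
    congr 2
    unfold ep
    rw [h2, ZMod.val_natCast]
  rw [Finset.sum_congr rfl fun a _ => h1 a, cmb_units]
  have h3 : ∀ x : ℕ, (if x.Coprime (f * r) then G x else 0) = G x - (if r ∣ x then G x else 0) := by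
    intro x
    by_cases hx : x.Coprime f
    · by_cases hx' : r ∣ x
      · rw [if_pos hx', sub_self, if_neg]
        intro h
        have h4 := (Nat.coprime_mul_iff_right.1 h).2
        exact hr.one_lt.ne' (Nat.Coprime.eq_one_of_dvd h4.symm hx')
      · rw [if_neg hx', sub_zero, if_pos]
        exact Nat.coprime_mul_iff_right.2 ⟨hx, ((Nat.Prime.coprime_iff_not_dvd hr).2 hx').symm⟩
    · have h5 : G x = 0 := by
        show (MulChar.ofUnitHom φ) _ * _ = 0
        rw [cmb_chi φ hx, zero_mul]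
      rw [h5]
      simp
  rw [Finset.sum_congr rfl fun x _ => h3 x, Finset.sum_sub_distrib, cmb_mult f r hr.pos]
  have h6 : ∑ x ∈ range (f * r), G x = 0 := by
    rw [cmb_range, Finset.sum_comm]
    refine Finset.sum_eq_zero fun b hb => ?_
    have hb := Finset.mem_range.1 hb
    have h7 : ∀ j : ℕ, G (f * j + b) = (MulChar.ofUnitHom φ) (b : ZMod f) *
        ((if f * r < 2 * (f * j + b) then 1 else 0) * (if f < 2 * b then 1 else 0)) := by
      intro j
      show (MulChar.ofUnitHom φ) _ * (_ * _) = _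
      have h8 : ((f * j + b : ℕ) : ZMod f) = (b : ZMod f) := by
        rw [Nat.cast_add, Nat.cast_mul, ZMod.natCast_self, zero_mul, zero_add]
      rw [h8, Nat.mul_add_mod, Nat.mod_eq_of_lt hb]
    rw [Finset.sum_congr rfl fun j _ => h7 j, ← Finset.mul_sum, ← Finset.sum_mul]
    by_cases h9 : f < 2 * b
    · rw [cmb_cnt hr4 h9 hb, zero_mul, mul_zero]
    · rw [if_neg h9, mul_zero, mul_zero]
  rw [h6, zero_sub, CharTwo.neg_eq, Finset.mul_sum]
  have h10 : ∀ a : (ZMod f)ˣ, (φ uᵣ : k) * ((φ a : k) * (ep a * ep (uᵣ * a))) =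
      G (r * (a : ZMod f).val) := by
    intro a
    have h11 : ((r * (a : ZMod f).val : ℕ) : ZMod f) = ((uᵣ * a : (ZMod f)ˣ) : ZMod f) := by
      rw [Nat.cast_mul, ← hᵣ, ZMod.natCast_zmod_val, Units.val_mul]
    show _ = (MulChar.ofUnitHom φ) _ * _
    rw [h11, MulChar.ofUnitHom_coe, map_mul, Units.val_mul, mul_assoc]
    congr 2
    unfold ep
    rw [← h11, ZMod.val_natCast]
    congr 1
    refine if_congr ?_ rfl rfl
    have h12 : 2 * (r * (a : ZMod f).val) = (2 * (a : ZMod f).val) * r := by ring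
    rw [h12]
    exact (Nat.mul_lt_mul_right hr.pos).symm
  rw [Finset.sum_congr rfl fun a _ => h10 a, cmb_units (fun x => G (r * x))]
  refine Finset.sum_congr rfl fun x _ => ?_
  by_cases hx : x.Coprime f
  · rw [if_pos hx]
  · rw [if_neg hx]
    show (MulChar.ofUnitHom φ) _ * _ = 0
    rw [cmb_chi φ, zero_mul]
    intro h
    exact hx (Nat.Coprime.coprime_mul_left h)

private theorem cmb_second {k : Type} [Field k] {f r : ℕ} [NeZero f] [NeZero (f * r)]
    [Fact r.Prime] (hrf : r.Coprime f) (u v : (ZMod f)ˣ → k) (w : ZMod r → k)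
    (h0 : ∑ b, u b * v b = 0) :
    ∑ a : (ZMod (f * r))ˣ, u (ZMod.unitsMap (dvd_mul_right f r) a) *
      (v (ZMod.unitsMap (dvd_mul_right f r) a) * w (a : ZMod (f * r)).cast) = 0 := by
  let E : (ZMod (f * r))ˣ ≃* (ZMod f)ˣ × (ZMod r)ˣ :=
    (Units.mapEquiv (ZMod.chineseRemainder hrf.symm).toMulEquiv).trans MulEquiv.prodUnits
  have h1 : ∀ a, (E a).1 = ZMod.unitsMap (dvd_mul_right f r) a := by
    intro a
    apply Units.ext
    rw [ZMod.unitsMap_val]
    exact Prod.fst_zmod_cast _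
  have h2 : ∀ a : (ZMod (f * r))ˣ, ((E a).2 : ZMod r) = (a : ZMod (f * r)).cast := by
    intro a
    exact Prod.snd_zmod_cast _
  have h3 : ∀ a : (ZMod (f * r))ˣ, u (ZMod.unitsMap (dvd_mul_right f r) a) *
      (v (ZMod.unitsMap (dvd_mul_right f r) a) * w (a : ZMod (f * r)).cast) =
      (fun p : (ZMod f)ˣ × (ZMod r)ˣ => (u p.1 * v p.1) * w (p.2 : ZMod r)) (E a) := by
    intro a
    show _ = (u (E a).1 * v (E a).1) * w ((E a).2 : ZMod r)
    rw [h1, h2, mul_assoc]
  rw [Finset.sum_congr rfl fun a _ => h3 a]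
  refine (Equiv.sum_comp E.toEquiv
    (fun p : (ZMod f)ˣ × (ZMod r)ˣ => (u p.1 * v p.1) * w (p.2 : ZMod r))).trans ?_
  rw [Fintype.sum_prod_type]
  have h4 : ∀ b : (ZMod f)ˣ, ∑ c : (ZMod r)ˣ, (u b * v b) * w (c : ZMod r) =
      (u b * v b) * ∑ c : (ZMod r)ˣ, w (c : ZMod r) := fun b => (Finset.mul_sum _ _ _).symm
  rw [Finset.sum_congr rfl fun b _ => h4 b, ← Finset.sum_mul, h0, zero_mul]

theorem cmb {k : Type} [Field k] [CharP k 2] {f r : ℕ} [NeZero f] [NeZero (f * r)] (hf : 2 < f)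
    (hodd : Odd f) [Fact r.Prime] (hr4 : r % 4 = 3) (hrf : r.Coprime f) (φ : (ZMod f)ˣ →* kˣ)
    (u₂ uᵣ : (ZMod f)ˣ) (h₂ : (u₂ : ZMod f) = 2) (hᵣ : (uᵣ : ZMod f) = r) (hφ₂ : φ u₂ ≠ 1)
    (hφᵣ : φ uᵣ ≠ 1) (hD : DD φ ≠ 0) :
    ∑ a : (ZMod (f * r))ˣ, (φ (ZMod.unitsMap (dvd_mul_right f r) a) : k) *
      (if legendreSym r ((a : ZMod (f * r)).val : ℤ) = -1 then
        ((AAP.fl 2 (f * r) a : ℕ) : k) else 0) ≠ 0 := by
  have hr : r.Prime := Fact.out
  have hφ : φ ≠ 1 := fun h => hφ₂ (by rw [h, MonoidHom.one_apply])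
  have hf0 : 0 < f := Nat.pos_of_ne_zero (NeZero.ne f)
  have hm : 2 < f * r := by
    have := Nat.mul_le_mul hf.le hr.one_lt.le
    have h3 : 1 < r := hr.one_lt
    nlinarith
  have hrodd : Odd r := Nat.odd_iff.2 (by omega)
  have hmodd : Odd (f * r) := hodd.mul hrodd
  let P : (ZMod (f * r))ˣ →* (ZMod f)ˣ := ZMod.unitsMap (dvd_mul_right f r)
  have hP1 : φ.comp P ≠ 1 := by
    intro h
    obtain ⟨a, ha⟩ := ZMod.unitsMap_surjective (dvd_mul_right f r) u₂
    have h1 : (φ.comp P) a = 1 := by rw [h, MonoidHom.one_apply]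
    rw [MonoidHom.comp_apply] at h1
    exact hφ₂ (by rw [← ha]; exact h1)
  have hPneg : ∀ a, P (-a) = -P a := by
    intro a
    apply Units.ext
    rw [Units.val_neg]
    show (ZMod.castHom (dvd_mul_right f r) (ZMod f)) (((-a : (ZMod (f * r))ˣ)) : ZMod (f * r)) =
      -(ZMod.castHom (dvd_mul_right f r) (ZMod f)) (a : ZMod (f * r))
    rw [Units.val_neg, map_neg]
  let w : ZMod r → k := fun c => if quadraticChar (ZMod r) c = -1 then 1 else 0
  have hleg : ∀ a : (ZMod (f * r))ˣ, legendreSym r ((a : ZMod (f * r)).val : ℤ) =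
      quadraticChar (ZMod r) ((a : ZMod (f * r)).cast) := by
    intro a
    unfold legendreSym
    rw [Int.cast_natCast, ZMod.natCast_val]
  have hw : ∀ a : (ZMod (f * r))ˣ, w (((-a : (ZMod (f * r))ˣ) : ZMod (f * r)).cast) =
      1 + w ((a : ZMod (f * r)).cast) := by
    intro a
    have h1 : (((-a : (ZMod (f * r))ˣ) : ZMod (f * r)).cast : ZMod r) =
        -((a : ZMod (f * r)).cast : ZMod r) := by
      show (ZMod.castHom (dvd_mul_left r f) (ZMod r)) (((-a : (ZMod (f * r))ˣ)) : ZMod (f * r)) =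
        -(ZMod.castHom (dvd_mul_left r f) (ZMod r)) (a : ZMod (f * r))
      rw [Units.val_neg, map_neg]
    have h2 : quadraticChar (ZMod r) (-1) = -1 := by
      have h3 := legendreSym.at_neg_one (p := r) (by rintro rfl; omega)
      rw [ZMod.χ₄_nat_three_mod_four hr4] at h3
      unfold legendreSym at h3
      rw [Int.cast_neg, Int.cast_one] at h3
      exact h3
    have h4 : ((a : ZMod (f * r)).cast : ZMod r) ≠ 0 :=
      (ZMod.isUnit_cast_of_dvd (dvd_mul_left r f) a).ne_zero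
    have h5 : quadraticChar (ZMod r) (-((a : ZMod (f * r)).cast : ZMod r)) =
        -quadraticChar (ZMod r) ((a : ZMod (f * r)).cast : ZMod r) := by
      rw [neg_eq_neg_one_mul, map_mul, h2, neg_one_mul]
    show (if quadraticChar (ZMod r) _ = -1 then (1 : k) else 0) =
      1 + (if quadraticChar (ZMod r) _ = -1 then 1 else 0)
    rw [h1, h5]
    rcases quadraticChar_dichotomy h4 with h6 | h6
    · rw [h6, if_pos rfl, if_neg (by norm_num), add_zero]
    · rw [h6, if_neg (by norm_num), if_pos rfl]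
      exact (CharTwo.add_self_eq_zero _).symm
  have hH : ∀ a : (ZMod (f * r))ˣ, (φ (ZMod.unitsMap (dvd_mul_right f r) a) : k) *
      (if legendreSym r ((a : ZMod (f * r)).val : ℤ) = -1 then
        ((AAP.fl 2 (f * r) a : ℕ) : k) else 0) =
      ((φ.comp P) a : k) * ((ep a : k) * w ((a : ZMod (f * r)).cast)) := by
    intro a
    rw [MonoidHom.comp_apply, hleg]
    congr 1
    have h1 : ((AAP.fl 2 (f * r) a : ℕ) : k) = ep a := by
      unfold AAP.fl ep
      have h2 := ZMod.val_lt (a : ZMod (f * r))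
      have h3 : 2 * (a : ZMod (f * r)).val ≠ f * r := by
        intro h
        have h4 := Nat.odd_iff.1 hmodd
        omega
      by_cases h5 : f * r < 2 * (a : ZMod (f * r)).val
      · have h6 : 2 * (a : ZMod (f * r)).val / (f * r) = 1 :=
          Nat.div_eq_of_lt_le (by omega) (by omega)
        rw [if_pos h5, h6, Nat.cast_one]
      · rw [if_neg h5, Nat.div_eq_of_lt (by omega), Nat.cast_zero]
    show (if quadraticChar (ZMod r) _ = -1 then _ else _) =
      ep a * (if quadraticChar (ZMod r) _ = -1 then 1 else 0)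
    rw [h1]
    split_ifs
    · rw [mul_one]
    · rw [mul_zero]
  rw [Finset.sum_congr rfl fun a _ => hH a,
    ← sum_cocycle hm (φ.comp P) hP1 (fun a => ep a) (fun a => ep (P a))
      (fun a => w ((a : ZMod (f * r)).cast)) (ep_neg hm hmodd)
      (fun a => by rw [hPneg]; exact ep_neg hf hodd _) hw]
  have hs : ∑ a : (ZMod (f * r))ˣ, ((φ.comp P) a : k) *
      ((ep (P a) : k) * w ((a : ZMod (f * r)).cast)) = 0 :=
    cmb_second hrf (fun b => (φ b : k)) (fun b => ep b) w
      (sum_odd hf φ hφ (fun b => ep b) (ep_neg hf hodd))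
  have hs1 : ∑ a : (ZMod (f * r))ˣ, ((φ.comp P) a : k) * ((ep a : k) * ep (P a)) =
      (φ uᵣ : k) * ∑ a, (φ a : k) * (ep a * ep (uᵣ * a)) :=
    cmb_first hr hr4 φ uᵣ hᵣ
  rw [hs, hs1, add_zero]
  refine mul_ne_zero (Units.ne_zero _) fun hW => ?_
  have h1 := ww_comm hf hodd φ hφ uᵣ u₂
  rw [hW, zero_mul, ww_two hf hodd φ u₂ h₂] at h1
  rcases mul_eq_zero.1 h1.symm with h2 | h2
  · exact hD h2
  · have h3 : (((φ uᵣ)⁻¹ : kˣ) : k) = 1 := by
      have h4 := eq_neg_of_add_eq_zero_right h2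
      rw [h4, CharTwo.neg_eq]
    exact hφᵣ (inv_eq_one.1 (Units.ext (by rw [h3, Units.val_one])))

end Pool.Agent.FR2
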