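import Pool.Agent.FR2.DefsS

/-! # FR2-Qex: the auxiliary power `q` of `2` (copy of FRD/Qex) -/

open Finset

namespace Pool.Agent.FR2

open Pool.Agent.FRD

private theorem pow_part {p N : ℕ} (hp : p.Prime) {K : Type} [Field K] [CharP K p] (e m : ℕ)
    (hN : N = p ^ e * m) (ζ : Kˣ) (hζ : ζ ^ N = 1) : ζ ^ m = 1 := by
  have : ExpChar K p := ExpChar.prime hp
  apply Units.ext
  have h1 : (ζ : K) ^ (p ^ e * m) = 1 := by
    rw [← hN, ← Units.val_pow_eq_pow_val, hζ, Units.val_one]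
  rw [ExpChar.pow_prime_pow_mul_eq_one_iff] at h1
  rw [Units.val_pow_eq_pow_val, h1, Units.val_one]

private theorem X_ne {S : Finset ℕ} (hS : ∀ l ∈ S, l.Prime) :
    4 * ∏ l ∈ S, (l * (l - 1)) ≠ 0 := by
  apply mul_ne_zero (by norm_num)
  rw [Finset.prod_ne_zero_iff]
  intro l hl
  have h1 := (hS l hl).two_le
  have h2 : 0 < l - 1 := by omega
  exact (Nat.mul_pos (by omega) h2).ne'

theorem q_ex2 {S : Finset ℕ} (hS : ∀ l ∈ S, l.Prime) :
    ∃ q : ℕ, GoodQ2 S q := by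
  have hp : (2 : ℕ).Prime := Nat.prime_two
  obtain ⟨p, hpe⟩ : ∃ p : ℕ, p = 2 := ⟨2, rfl⟩
  rw [← hpe] at hp
  obtain ⟨e, D, hD, hX⟩ := Nat.exists_eq_pow_mul_and_not_dvd (X_ne hS) p hp.ne_one
  have hco : Nat.Coprime p D := (Nat.Prime.coprime_iff_not_dvd hp).2 hD
  have hD0 : D ≠ 0 := by
    rintro rfl
    exact hD (dvd_zero p)
  have hq1 : D ∣ p ^ (2 * Nat.totient D) - 1 := by
    have h1 : (p ^ 2) ^ Nat.totient D ≡ 1 [MOD D] :=
      Nat.ModEq.pow_totient (Nat.Coprime.pow_left 2 hco)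
    rw [← pow_mul] at h1
    exact (Nat.modEq_iff_dvd' (Nat.one_le_pow _ _ hp.pos)).1 h1.symm
  have hdvD : ∀ m : ℕ, m ∣ 4 * ∏ l ∈ S, (l * (l - 1)) → ¬ p ∣ m → m ∣ D := by
    intro m hm hpm
    rw [hX] at hm
    have h1 : Nat.Coprime m (p ^ e) :=
      Nat.Coprime.pow_right e ((Nat.Prime.coprime_iff_not_dvd hp).2 hpm).symm
    exact h1.dvd_of_dvd_mul_left hm
  refine ⟨p ^ (2 * Nat.totient D), ⟨2 * Nat.totient D, by rw [hpe]⟩, ?_, ?_⟩
  · apply Nat.one_lt_pow _ hp.one_lt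
    have := Nat.totient_pos.2 (Nat.pos_of_ne_zero hD0)
    omega
  · intro m hm hpm
    rw [← hpe] at hpm
    exact (hdvD m hm hpm).trans hq1

theorem m_ex2 {q : ℕ} {S : Finset ℕ} (hS : ∀ l ∈ S, l.Prime) (hq : GoodQ2 S q)
    {f : ℕ} [NeZero f] (hf : InS S f) :
    ∃ m : ℕ, ¬ 2 ∣ m ∧ (∀ s : ℕ, s.Prime → s ∣ m → s ∣ q - 1) ∧
      ∀ (K : Type) [Field K] [CharP K 2] (χ : (ZMod f)ˣ →* Kˣ) (x : (ZMod f)ˣ), χ x ^ m = 1 := by
  have hp : (2 : ℕ).Prime := Nat.prime_two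
  have hf0 : f ≠ 0 := NeZero.ne f
  have hφ : Nat.totient f ≠ 0 := (Nat.totient_pos.2 (Nat.pos_of_ne_zero hf0)).ne'
  obtain ⟨e, m, hm, hfm⟩ := Nat.exists_eq_pow_mul_and_not_dvd hφ 2 hp.ne_one
  refine ⟨m, hm, ?_, ?_⟩
  · intro s hs hsm
    apply hq.dv s
    · have h1 : s ∣ f * ∏ l ∈ f.primeFactors, (l - 1) := by
        rw [← Nat.totient_mul_prod_primeFactors, hfm]
        exact ((hsm.mul_left _)).mul_right _
      apply Dvd.dvd.mul_left
      rcases (Nat.Prime.dvd_mul hs).1 h1 with h2 | h2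
      · exact (dvd_mul_right s (s - 1)).trans
          (Finset.dvd_prod_of_mem (fun l => l * (l - 1)) (hf s hs h2))
      · obtain ⟨l, hl, h3⟩ := (Prime.dvd_finsetProd_iff hs.prime _).1 h2
        rw [Nat.mem_primeFactors] at hl
        exact (h3.mul_left l).trans
          (Finset.dvd_prod_of_mem (fun l => l * (l - 1)) (hf l hl.1 hl.2.1))
    · intro h
      exact hm (h.trans hsm)
  · intro K _ _ χ x
    apply pow_part hp e m hfm
    rw [← map_pow, ZMod.pow_totient, map_one]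

theorem l_pow2 {q : ℕ} {S : Finset ℕ} (hS : ∀ l ∈ S, l.Prime) (hq : GoodQ2 S q)
    {K : Type} [Field K] [CharP K 2] {l : ℕ} (hl : l ∈ S) (ζ : Kˣ) (hζ : ζ ^ (l * (l - 1)) = 1) :
    ζ ^ (q - 1) = 1 := by
  have hp : (2 : ℕ).Prime := Nat.prime_two
  have hl2 := (hS l hl).two_le
  have h0 : l * (l - 1) ≠ 0 := (Nat.mul_pos (by omega) (by omega)).ne'
  obtain ⟨e, m, hm, hfm⟩ := Nat.exists_eq_pow_mul_and_not_dvd h0 2 hp.ne_one
  have h1 : ζ ^ m = 1 := pow_part hp e m hfm ζ hζ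
  have h2 : m ∣ q - 1 := by
    apply hq.dv m _ hm
    apply Dvd.dvd.mul_left
    exact (Dvd.intro_left _ hfm.symm).trans
      (Finset.dvd_prod_of_mem (fun l => l * (l - 1)) hl)
  obtain ⟨c, hc⟩ := h2
  rw [hc, pow_mul, h1, one_pow]

end Pool.Agent.FR2
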