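import Pool.Agent.FR2.Avg
import Pool.Agent.FRD.Ker
import Pool.Agent.FR2.Qex

/-!
# FR2-NonU: the relation for all `y` in `Z/f` (copy of FRD/NonU)

Units: averaging; non units: translate by a unit fixing `y`.
-/

open Finset

namespace Pool.Agent.FR2

open Pool.Agent.FRD

private theorem unit_fix {f l : ℕ} [NeZero f] (hlf : l ∣ f) {y : ZMod f} (hy : l ∣ y.val)
    {u : (ZMod f)ˣ} (hu : OneMod (f / l) u) : (u : ZMod f) * y = y := by
  obtain ⟨a, ha⟩ := hu
  obtain ⟨b, hb⟩ := hy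
  have h1 : (f : ℤ) ∣ (((u : ZMod f).val : ℤ) - 1) * (y.val : ℤ) := by
    refine ⟨a * b, ?_⟩
    have h2 : ((f / l : ℕ) : ℤ) * (l : ℤ) = (f : ℤ) := by
      exact_mod_cast Nat.div_mul_cancel hlf
    rw [ha, hb, ← h2]
    push_cast
    ring
  have h2 := (ZMod.intCast_zmod_eq_zero_iff_dvd _ f).2 h1
  push_cast at h2
  rw [ZMod.natCast_zmod_val, ZMod.natCast_zmod_val, sub_mul, one_mul, sub_eq_zero] at h2
  exact h2

theorem non_unit2 {q : ℕ} {S : Finset ℕ} (hS : ∀ l ∈ S, l.Prime)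
    (hq : GoodQ2 S q) {K : Type} [Field K] [CharP K 2] {f : ℕ} [NeZero f] (hf : InS S f)
    (χ : (ZMod f)ˣ →* Kˣ) (hχ : Prim χ) (g : ZMod f → K) (hg : ∀ y, g y ^ 2 = g y)
    (h : ∑ r : (ZMod f)ˣ, (χ r : K) * g r = 0) (y : ZMod f) :
    ∑ x ∈ HH q χ, (χ x : K) * g (x * y) = 0 := by
  have hp : (2 : ℕ).Prime := Nat.prime_two
  have hpf : Fact (Nat.Prime 2) := ⟨hp⟩
  by_cases hy : IsUnit y
  · obtain ⟨v, rfl⟩ := hy
    obtain ⟨m, hm, hd, hm'⟩ := m_ex2 hS hq hf
    have h1 := avg2 (p := 2) (q := q) (m := m) hq.pow hm hd hm χ (hm' K χ)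
      (fun x : (ZMod f)ˣ => g (x : ZMod f)) (fun x => hg _) h v
    simp only [Units.val_mul] at h1
    exact h1
  · have h1 : ¬ Nat.Coprime y.val f := by
      intro h2
      apply hy
      have h3 := (ZMod.isUnit_iff_coprime y.val f).2 h2
      rwa [ZMod.natCast_zmod_val] at h3
    obtain ⟨l, hl, hly, hlf⟩ := Nat.Prime.not_coprime_iff_dvd.1 h1
    obtain ⟨u, hu, hu1⟩ := hχ l hl hlf
    have huy := unit_fix hlf hly hu
    have huq : χ u ^ (q - 1) = 1 := by
      refine l_pow2 hS hq (hf l hl hlf) (χ u) ?_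
      rw [← map_pow, ker_pow hl hlf u hu, map_one]
    obtain ⟨T, hT⟩ : ∃ T, T = ∑ x ∈ HH q χ, (χ x : K) * g (x * y) := ⟨_, rfl⟩
    have h2 : ∑ x ∈ HH q χ, (χ (x * u) : K) * g (((x * u : (ZMod f)ˣ) : ZMod f) * y) = T := by
      rw [hT]
      refine Finset.sum_nbij' (fun x => x * u) (fun x => x * u⁻¹) ?_ ?_ ?_ ?_ ?_
      · intro x hx
        rw [mem_HH] at hx ⊢
        rw [map_mul, mul_pow, hx, huq, one_mul]
      · intro x hx
        rw [mem_HH] at hx ⊢
        rw [map_mul, mul_pow, hx, map_inv, inv_pow, huq, inv_one, one_mul]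
      · intro x _
        exact mul_inv_cancel_right x u
      · intro x _
        exact inv_mul_cancel_right x u
      · intro x _
        rfl
    have h3 : ∑ x ∈ HH q χ, (χ (x * u) : K) * g (((x * u : (ZMod f)ˣ) : ZMod f) * y) =
        (χ u : K) * T := by
      rw [hT, Finset.mul_sum]
      refine Finset.sum_congr rfl fun x _ => ?_
      rw [map_mul, Units.val_mul, Units.val_mul, mul_assoc (x : ZMod f), huy]
      ring
    rw [h3] at h2
    have h4 : ((χ u : K) - 1) * T = 0 := by rw [sub_mul, one_mul, h2, sub_self]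
    rcases mul_eq_zero.1 h4 with h5 | h5
    · exact absurd (Units.ext (sub_eq_zero.1 h5)) hu1
    · rw [← hT, h5]

end Pool.Agent.FR2
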