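import Pool.Agent.FRD.Kap
import Pool.Agent.FRD.Nzd
import Pool.Agent.FRD.Rat

/-!
# FR2-Pole: the cleared relation is not zero, characteristic two (variant of FRD/Pole)
-/

open Finset Polynomial

namespace Pool.Agent.FR2

open Pool.Agent.FRD

private theorem po_scal {K Γ : Type} [Field K] [AddCommGroup Γ] (c : K) (hc : c ≠ 1)
    (Y : AddMonoidAlgebra K Γ) (hY : (1 - AddMonoidAlgebra.single (0 : Γ) c) * Y = 0) : Y = 0 := by
  have h1 : (AddMonoidAlgebra.single (0 : Γ) c : AddMonoidAlgebra K Γ) = c • 1 := by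
    rw [AddMonoidAlgebra.one_def, AddMonoidAlgebra.smul_single, smul_eq_mul, mul_one]
  rw [h1, sub_mul, one_mul, smul_mul_assoc, one_mul] at hY
  have h2 : (1 - c) • Y = 0 := by
    rw [sub_smul, one_smul]
    exact hY
  rcases smul_eq_zero.1 h2 with h3 | h3
  · exact absurd (sub_eq_zero.1 h3).symm hc
  · exact h3

private theorem po_pow {B : Type} [CommRing B] (F : B) (hF : ∀ Y, F * Y = 0 → Y = 0) (n : ℕ) :
    ∀ Y, F ^ n * Y = 0 → Y = 0 := by
  induction n with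
  | zero =>
    intro Y hY
    rwa [pow_zero, one_mul] at hY
  | succ n ih =>
    intro Y hY
    rw [pow_succ, mul_assoc] at hY
    exact hF Y (ih _ hY)

private theorem po_prod {B ι : Type} [CommRing B] (s : Finset ι) (F : ι → B)
    (hF : ∀ i ∈ s, ∀ Y, F i * Y = 0 → Y = 0) : ∀ Y, (∏ i ∈ s, F i) * Y = 0 → Y = 0 := by
  classical
  induction s using Finset.induction_on with
  | empty =>
    intro Y hY
    rwa [prod_empty, one_mul] at hY
  | insert a s ha ih =>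
    intro Y hY
    rw [prod_insert ha, mul_assoc] at hY
    exact ih (fun i hi => hF i (mem_insert_of_mem hi)) Y (hF a (mem_insert_self a s) _ hY)

theorem pole2 {K : Type} [Field K] [IsAlgClosed K] (l : ℕ) [Fact l.Prime]
    {ι : Type} (s : Finset ι) {n T : ℕ} (hn : 1 ≤ n) (hT : T ≠ 0) (A A₂ : K[X])
    (hA : A₂.eval 1 ≠ 0) (z : K) (hz : z ≠ 0)
    (hAA : aeval (mon z 1 : AddMonoidAlgebra K ℤ_[l]) A +
      (mon z 1 : AddMonoidAlgebra K ℤ_[l]) ^ (n + 1) *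
        aeval (mon z⁻¹ (-1) : AddMonoidAlgebra K ℤ_[l]) A =
      (1 - mon z 1) * aeval (mon z 1 : AddMonoidAlgebra K ℤ_[l]) A₂) (c ρ : ι → K) (η : ι → ℤ_[l]) (hη : ∀ i ∈ s, η i ^ T = 1)
    (hρ : ∀ i ∈ s, ρ i ≠ 0) (h1 : ∀ i ∈ s, η i = 1 → ρ i ≠ z)
    (hm : ∀ i ∈ s, η i = -1 → ρ i ≠ z⁻¹) : YY s (n + 1) A z c ρ η ≠ 0 := by
  classical
  obtain ⟨κ, hκ⟩ := kap l (Units.mk0 z hz)⁻¹
  have hκ1 : ((κ (Multiplicative.ofAdd 1) : Kˣ) : K) = z⁻¹ := by
    rw [hκ, Units.val_inv_eq_inv_val, Units.val_mk0]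
  have hκm : ((κ (Multiplicative.ofAdd (-1)) : Kˣ) : K) = z := by
    rw [ofAdd_neg, map_inv, hκ, inv_inv, Units.val_mk0]
  let pr : ℤ_[l] →+ ℤ_[l] ⧸ AddSubgroup.zmultiples (1 : ℤ_[l]) :=
    QuotientAddGroup.mk' (AddSubgroup.zmultiples (1 : ℤ_[l]))
  have hpr1 : pr 1 = 0 := (QuotientAddGroup.eq_zero_iff _).2 (AddSubgroup.mem_zmultiples _)
  have hprm : pr (-1) = 0 := by rw [map_neg, hpr1, neg_zero]
  let F : Multiplicative ℤ_[l] →*
      AddMonoidAlgebra K (ℤ_[l] ⧸ AddSubgroup.zmultiples (1 : ℤ_[l])) :=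
    { toFun := fun e => AddMonoidAlgebra.single (pr e.toAdd) ((κ e : Kˣ) : K)
      map_one' := by
        rw [toAdd_one, map_zero, map_one, Units.val_one]
        rfl
      map_mul' := fun e e' => by
        rw [toAdd_mul, map_add, map_mul, Units.val_mul, AddMonoidAlgebra.single_mul_single] }
  let Φ := AddMonoidAlgebra.lift K (AddMonoidAlgebra K (ℤ_[l] ⧸ AddSubgroup.zmultiples (1 : ℤ_[l])))
    ℤ_[l] F
  have hΦ : ∀ (x : K) (e : ℤ_[l]), Φ (mon x e) =
      AddMonoidAlgebra.single (pr e) (x * ((κ (Multiplicative.ofAdd e) : Kˣ) : K)) := by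
    intro x e
    show AddMonoidAlgebra.lift K _ ℤ_[l] F (AddMonoidAlgebra.single e x) = _
    rw [AddMonoidAlgebra.lift_single]
    show x • AddMonoidAlgebra.single (pr e) ((κ (Multiplicative.ofAdd e) : Kˣ) : K) = _
    rw [AddMonoidAlgebra.smul_single, smul_eq_mul]
  have hΦ1 : Φ (mon z 1) = 1 := by
    rw [hΦ, hpr1, hκ1, mul_inv_cancel₀ hz]
    rfl
  have hΦm : Φ (mon z⁻¹ (-1)) = 1 := by
    rw [hΦ, hprm, hκm, inv_mul_cancel₀ hz]
    rfl
  have hae : ∀ y, Φ y = 1 → Φ (aeval y A₂) = algebraMap K _ (A₂.eval 1) := by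
    intro y hy
    rw [← Polynomial.aeval_algHom_apply, hy]
    have h3 := Polynomial.aeval_algebraMap_apply
      (AddMonoidAlgebra K (ℤ_[l] ⧸ AddSubgroup.zmultiples (1 : ℤ_[l]))) (1 : K) A₂
    rw [map_one] at h3
    rw [h3, Polynomial.coe_aeval_eq_eval]
  intro hY
  set Y' : AddMonoidAlgebra K ℤ_[l] :=
    aeval (mon z 1 : AddMonoidAlgebra K ℤ_[l]) A₂ * ∏ i ∈ s, (1 - mon (ρ i) (η i)) ^ (n + 1) +
    (1 - mon z 1) ^ n * ∑ i ∈ s, (c i • aeval (mon (ρ i) (η i) : AddMonoidAlgebra K ℤ_[l]) A) *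
      ∏ j ∈ s.erase i, (1 - mon (ρ j) (η j)) ^ (n + 1) with hY'
  have hfac : YY s (n + 1) A z c ρ η = (1 - mon z 1) * Y' := by
    unfold YY
    rw [hAA, hY', pow_succ (1 - mon z 1 : AddMonoidAlgebra K ℤ_[l]) n, mul_add]
    congr 1
    · rw [mul_assoc]
    · rw [mul_comm ((1 - mon z 1 : AddMonoidAlgebra K ℤ_[l]) ^ n) (1 - mon z 1), mul_assoc]
  have hY0 : Y' = 0 := by
    rw [hfac] at hY
    refine nzd (1 : ℤ_[l]) ?_ z hz Y' hY
    intro m hm0 hm1
    rw [nsmul_eq_mul, mul_one] at hm1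
    exact hm0 (by exact_mod_cast hm1)
  have hΦY : Φ Y' = (∏ i ∈ s, (1 - AddMonoidAlgebra.single (pr (η i))
      (ρ i * ((κ (Multiplicative.ofAdd (η i)) : Kˣ) : K))) ^ (n + 1)) *
      algebraMap K _ (A₂.eval 1) := by
    rw [hY', map_add, map_mul, map_mul Φ ((1 - mon z 1) ^ n), map_pow,
      map_sub, map_one, hΦ1, sub_self, zero_pow (by omega), zero_mul, add_zero,
      hae _ hΦ1, map_prod]
    have h3 : ∀ i ∈ s, Φ ((1 - mon (ρ i) (η i)) ^ (n + 1)) = (1 - AddMonoidAlgebra.single (pr (η i))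
      (ρ i * ((κ (Multiplicative.ofAdd (η i)) : Kˣ) : K))) ^ (n + 1) := by
      intro i _
      rw [map_pow, map_sub, map_one, hΦ]
    rw [prod_congr rfl h3, mul_comm]
  rw [hY0, map_zero] at hΦY
  have h3 := po_prod s (fun i => (1 - AddMonoidAlgebra.single (pr (η i))
      (ρ i * ((κ (Multiplicative.ofAdd (η i)) : Kˣ) : K))) ^ (n + 1)) (by
    intro i hi
    apply po_pow
    intro Y hYi
    by_cases e1 : η i = 1
    · rw [e1, hpr1, hκ1] at hYi
      refine po_scal _ ?_ Y hYi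
      intro h4
      apply h1 i hi e1
      exact (mul_inv_eq_one₀ hz).1 h4
    by_cases e2 : η i = -1
    · rw [e2, hprm, hκm] at hYi
      refine po_scal _ ?_ Y hYi
      intro h4
      apply hm i hi e2
      exact eq_inv_of_mul_eq_one_left h4
    · refine nzd (pr (η i)) ?_ _ (mul_ne_zero (hρ i hi) (Units.ne_zero _)) Y hYi
      intro m hm0 hm1
      rw [← map_nsmul] at hm1
      have h4 : m • η i ∈ AddSubgroup.zmultiples (1 : ℤ_[l]) := (QuotientAddGroup.eq_zero_iff _).1 hm1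
      obtain ⟨k, hk⟩ := AddSubgroup.mem_zmultiples_iff.1 h4
      rcases rat_root l hT (η i) (hη i hi) m hm0 k (by
        rw [nsmul_eq_mul, zsmul_eq_mul, mul_one] at hk
        exact hk.symm) with h5 | h5
      · exact e1 h5
      · exact e2 h5) _ hΦY.symm
  have h4 : A₂.eval 1 = 0 := by
    apply FaithfulSMul.algebraMap_injective K
      (AddMonoidAlgebra K (ℤ_[l] ⧸ AddSubgroup.zmultiples (1 : ℤ_[l])))
    rw [h3, map_zero]
  exact hA h4

end Pool.Agent.FR2
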