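import Pool.Agent.FRD.Faith
import Pool.Agent.FRD.Cnt
import Pool.Agent.FRD.Hens
import Pool.Agent.FR2.NonU
import Pool.Agent.FRD.Four
import Pool.Agent.FRD.Ind
import Pool.Agent.FR2.Pole
import Pool.Agent.FRD.Evl
import Pool.Agent.FRD.Spt
import Pool.Agent.FRD.OrdM
import Pool.Agent.FRD.Sep

/-!
# FR2-Core: the theorem of Washington and Friedman in characteristic two, in the form needed here (variant of FRD/Core)
-/

open Finset Polynomial Pointwise

namespace Pool.Agent.FR2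

open Pool.Agent.FRD

/-- the bounds for one prime -/
private def Bd (T k₀ l a : ℕ) [Fact l.Prime] : Prop :=
  ∃ (b : ℕ) (Θ : Finset ℤ_[l]), b < a ∧ (0 : ℤ_[l]) ∈ Θ ∧ (1 : ℤ_[l]) ∈ Θ ∧ (-1 : ℤ_[l]) ∈ Θ ∧
    (∀ η : ℤ_[l], η ^ T = 1 → η ∈ Θ) ∧
    (∀ X : Finset ℤ_[l], (∀ y ∈ X, y ∈ ((k₀ • (Θ : Set ℤ_[l])) : Set ℤ_[l])) →
      Set.InjOn (PadicInt.toZModPow b : ℤ_[l] → ZMod (l ^ b)) X) ∧
    ∀ x : ℤ, (l : ℤ) ^ a ∣ x ^ T - 1 → ∃ η : ℤ_[l], η ^ T = 1 ∧ (l : ℤ_[l]) ^ b ∣ η - (x : ℤ_[l])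

private theorem bd_ex (T k₀ l : ℕ) [Fact l.Prime] (hT : T ≠ 0) : ∃ a, Bd T k₀ l a := by
  classical
  let Θ : Finset ℤ_[l] := {0, 1, -1} ∪ nthRootsFinset T (1 : ℤ_[l])
  obtain ⟨b, hb⟩ := sep l (k₀ • Θ)
  obtain ⟨A, hA⟩ := hens l hT b
  refine ⟨max A (b + 1), b, Θ, lt_of_lt_of_le (Nat.lt_succ_self b) (le_max_right _ _), ?_, ?_, ?_,
    ?_, ?_, ?_⟩
  · exact mem_union_left _ (by simp)
  · exact mem_union_left _ (by simp)
  · exact mem_union_left _ (by simp)
  · intro η hη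
    exact mem_union_right _ ((mem_nthRootsFinset (Nat.pos_of_ne_zero hT) _).2 hη)
  · intro X hX
    refine (hb b le_rfl).mono ?_
    intro y hy
    have h1 := hX y hy
    rwa [← Finset.coe_nsmul] at h1
  · intro x hx
    exact hA _ (le_max_left _ _) x hx

private theorem exists_dvd {S : Finset ℕ} (hS : ∀ l ∈ S, l.Prime) {f : ℕ} (hf0 : f ≠ 0)
    (hf : InS S f) (A : ℕ → ℕ) (hB : ∏ l ∈ S, l ^ A l < f) : ∃ l ∈ S, l ^ A l ∣ f := by
  classical
  by_contra hcon
  push Not at hcon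
  have h0 : ∏ l ∈ S, l ^ A l ≠ 0 :=
    Finset.prod_ne_zero_iff.2 fun l hl => pow_ne_zero _ (hS l hl).ne_zero
  have h1 : f ∣ ∏ l ∈ S, l ^ A l := by
    rw [← Nat.factorization_prime_le_iff_dvd hf0 h0]
    intro r hr
    by_cases hrf : r ∣ f
    · have hrS := hf r hr hrf
      have h2 : f.factorization r ≤ A r := by
        by_contra h3
        exact hcon r hrS ((hr.pow_dvd_iff_le_factorization hf0).2 (not_le.1 h3).le)
      refine h2.trans ?_
      rw [← hr.pow_dvd_iff_le_factorization h0]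
      exact Finset.dvd_prod_of_mem (fun l => l ^ A l) hrS
    · rw [Nat.factorization_eq_zero_of_not_dvd hrf]
      exact Nat.zero_le _
  exact absurd (Nat.le_of_dvd (Nat.pos_of_ne_zero h0) h1) (not_le.2 hB)

private theorem two_terms {K : Type} [Field K] (n : ℕ) (w a b : K) (hw : w ≠ 0)
    (h1 : 1 - w ≠ 0) : (a + w ^ n * b) / (1 - w) ^ n =
      a / (1 - w) ^ n + (-1) ^ n * (b / (1 - w⁻¹) ^ n) := by
  have h3 : 1 - w⁻¹ = (-1) * ((1 - w) / w) := by
    rw [sub_div, div_self hw, one_div]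
    ring
  have h4 : ((-1 : K) ^ n) ≠ 0 := pow_ne_zero _ (neg_ne_zero.2 one_ne_zero)
  have h5 : (1 - w) ^ n ≠ 0 := pow_ne_zero _ h1
  have h6 : w ^ n ≠ 0 := pow_ne_zero _ hw
  rw [h3, mul_pow, div_pow, add_div]
  congr 1
  rw [← mul_div_assoc, div_mul_eq_div_div_swap, mul_div_assoc, div_div_eq_mul_div]
  field_simp

private theorem core_l2 {S : Finset ℕ}
    (hS : ∀ l ∈ S, l.Prime) (h2S : 2 ∉ S) {q : ℕ} (hq : GoodQ2 S q) {l : ℕ} [Fact l.Prime]
    (hlS : l ∈ S) {k₀ a : ℕ} (hBd : Bd ((q - 1) * ES S) k₀ l a)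
    (hk₀ : 3 * (P0 S * ((q - 1) * ES S) + 4) ≤ k₀) {f : ℕ} [NeZero f] (hf : InS S f)
    (hf2 : 2 < f) (hlf : l ^ a ∣ f) {K : Type} [Field K]
    [IsAlgClosed K] [CharP K 2] (χ : (ZMod f)ˣ →* Kˣ) (g : ZMod f → K) (A A₂ : K[X])
    (hχ : Prim χ) (hg : ∀ y, g y ^ 2 = g y)
    (hAd : A.natDegree ≤ 3) (hA1 : A₂.eval 1 ≠ 0)
    (hAA : ∀ z : K, z ≠ 0 → aeval (mon z 1 : AddMonoidAlgebra K ℤ_[l]) A +
      (mon z 1 : AddMonoidAlgebra K ℤ_[l]) ^ 3 *
        aeval (mon z⁻¹ (-1) : AddMonoidAlgebra K ℤ_[l]) A =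
      (1 - mon z 1) * aeval (mon z 1 : AddMonoidAlgebra K ℤ_[l]) A₂)
    (hG : ∀ w : K, w ^ f = 1 → w ≠ 1 → Gs g w * (1 - w) ^ 3 = A.eval w)
    (hsum : ∑ r : (ZMod f)ˣ, ((χ r : Kˣ) : K) * g r = 0) : False := by
  classical
  have hpp : (2 : ℕ).Prime := Nat.prime_two
  have h2K : (2 : K) = 0 := by
    have h1 := CharP.cast_eq_zero K 2
    exact_mod_cast h1
  have hneg : ∀ x : K, -x = x := by
    intro x
    linear_combination (-x) * h2K
  have hl : l.Prime := Fact.out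
  have hf0 : f ≠ 0 := NeZero.ne f
  obtain ⟨b, Θ, hba, h0Θ, h1Θ, hmΘ, hΘ, hinj, hhens⟩ := hBd
  set T := (q - 1) * ES S with hT
  have hq1 : q - 1 ≠ 0 := by
    have := hq.one_lt
    omega
  have hES : ES S ≠ 0 := by
    unfold ES
    refine mul_ne_zero two_ne_zero (Finset.prod_ne_zero_iff.2 fun l hl => ?_)
    have := (hS l hl).two_le
    omega
  have hT0 : T ≠ 0 := mul_ne_zero hq1 hES
  have hlp : l ≠ 2 := fun h => h2S (h ▸ hlS)
  have hlK : (l : K) ≠ 0 := by
    rw [Ne, CharP.cast_eq_zero_iff K 2]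
    intro h
    exact hlp ((Nat.prime_dvd_prime_iff_eq hpp hl).1 h).symm
  have hfK : (f : K) ≠ 0 := by
    rw [Ne, CharP.cast_eq_zero_iff K 2]
    intro h
    exact h2S (hf 2 hpp h)
  -- the relation
  have hrel := non_unit2 hS hq hf χ hχ g hg hsum
  have hrel2 := fun z hz => four χ g hrel z hz
  -- the group
  have hxT : ∀ x ∈ HH q χ, x ^ T = 1 := fun x hx => faith hS hf χ hχ (q - 1) x (mem_HH.1 hx)
  have h1H : (1 : (ZMod f)ˣ) ∈ HH q χ := by
    rw [mem_HH, map_one, one_pow]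
  have hχm : χ (-1) = 1 := by
    have h1 : (χ (-1) : Kˣ) ^ 2 = 1 := by
      rw [← map_pow, neg_one_sq, map_one]
    apply Units.ext
    have h2 : ((χ (-1) : Kˣ) : K) ^ 2 = 1 := by
      rw [← Units.val_pow_eq_pow_val, h1, Units.val_one]
    have h3 : (((χ (-1) : Kˣ) : K) - 1) ^ 2 = 0 := by
      linear_combination h2 + (1 - ((χ (-1) : Kˣ) : K)) * h2K
    rw [Units.val_one]
    exact sub_eq_zero.1 (pow_eq_zero_iff two_ne_zero |>.1 h3)
  have hmH : (-1 : (ZMod f)ˣ) ∈ HH q χ := by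
    rw [mem_HH, hχm, one_pow]
  have hne : (-1 : (ZMod f)ˣ) ≠ 1 := by
    intro h
    have h1 : ((-1 : (ZMod f)ˣ) : ZMod f) = ((1 : (ZMod f)ˣ) : ZMod f) := by rw [h]
    rw [Units.val_neg, Units.val_one, eq_comm, ← sub_eq_zero, sub_neg_eq_add, one_add_one_eq_two]
      at h1
    have h2 : ((2 : ℕ) : ZMod f) = 0 := by exact_mod_cast h1
    rw [ZMod.natCast_eq_zero_iff] at h2
    exact absurd (Nat.le_of_dvd (by norm_num) h2) (not_le.2 hf2)
  have hcard : (HH q χ).card ≤ P0 S * T := by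
    refine le_trans (card_le_card ?_) (cnt hS hf hT0)
    intro x hx
    exact mem_filter.2 ⟨mem_univ _, hxT x hx⟩
  -- the `l`-adic exponents
  have hex : ∀ x : (ZMod f)ˣ, ∃ e : ℤ_[l], x ∈ HH q χ → e ^ T = 1 ∧
      (l : ℤ_[l]) ^ b ∣ e - (((x : ZMod f).val : ℤ) : ℤ_[l]) := by
    intro x
    by_cases hx : x ∈ HH q χ
    · have h1 : (l : ℤ) ^ a ∣ ((x : ZMod f).val : ℤ) ^ T - 1 := by
        refine dvd_trans ?_ (val_pow_dvd x T (hxT x hx))
        exact_mod_cast hlf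
      obtain ⟨e, he, he2⟩ := hhens _ h1
      exact ⟨e, fun _ => ⟨he, he2⟩⟩
    · exact ⟨0, fun h => absurd h hx⟩
  choose η hη using hex
  have hηval : ∀ x ∈ HH q χ, PadicInt.toZModPow b (η x) = ((x : ZMod f).val : ZMod (l ^ b)) := by
    intro x hx
    have h1 : PadicInt.toZModPow b (η x - (((x : ZMod f).val : ℤ) : ℤ_[l])) = 0 := by
      rw [← RingHom.mem_ker, PadicInt.ker_toZModPow]
      exact Ideal.mem_span_singleton.2 (hη x hx).2
    rw [map_sub, sub_eq_zero, map_intCast] at h1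
    rw [h1]
    push_cast
    rfl
  have hb0 : NeZero (l ^ b) := ⟨pow_ne_zero _ hl.ne_zero⟩
  have hξval : ∀ x ∈ HH q χ, ∀ ξ : K, ξ ^ (l ^ b) = 1 →
      ξ ^ (PadicInt.toZModPow b (η x)).val = ξ ^ (x : ZMod f).val := by
    intro x hx ξ hξ
    rw [hηval x hx, ZMod.val_natCast]
    conv_rhs => rw [← Nat.mod_add_div (x : ZMod f).val (l ^ b), pow_add, pow_mul, hξ, one_pow,
      mul_one]
  -- a root of unity of order `f`
  have : NeZero (f : K) := ⟨hfK⟩
  obtain ⟨z, hz⟩ := HasEnoughRootsOfUnity.exists_primitiveRoot K f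
  have hzf : orderOf z = f := hz.eq_orderOf.symm
  have hz0 : z ≠ 0 := by
    intro h
    have := hz.pow_eq_one
    rw [h, zero_pow hf0] at this
    exact zero_ne_one this
  set s : Finset (ZMod f)ˣ := ((HH q χ).erase 1).erase (-1) with hs
  have hsH : ∀ x ∈ s, x ∈ HH q χ ∧ x ≠ 1 ∧ x ≠ -1 := by
    intro x hx
    rw [hs, mem_erase, mem_erase] at hx
    exact ⟨hx.2.2, hx.2.1, hx.1⟩
  let ρ : (ZMod f)ˣ → K := fun x => z ^ (x : ZMod f).val
  let cc : (ZMod f)ˣ → K := fun x => (((χ x)⁻¹ : Kˣ) : K)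
  have hinj1 : ∀ x y : (ZMod f)ˣ, z ^ (x : ZMod f).val = z ^ (y : ZMod f).val → x = y := by
    intro x y h
    have h1 := hz.pow_inj (ZMod.val_lt _) (ZMod.val_lt _) h
    exact Units.ext (ZMod.val_injective f h1)
  -- the main contradiction
  refine pole2 l s (n := 2) (by norm_num) hT0 A A₂ hA1 z hz0 (hAA z hz0) cc ρ η ?_ ?_ ?_ ?_ ?_
  · intro x hx
    exact (hη x (hsH x hx).1).1
  · intro x _
    exact pow_ne_zero _ hz0
  · intro x hx _ h
    apply (hsH x hx).2.1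
    apply hinj1
    have h1 : ((1 : (ZMod f)ˣ) : ZMod f).val = 1 := by
      rw [Units.val_one, ZMod.val_one'' (by omega)]
    rw [h1, pow_one]
    exact h
  · intro x hx _ h
    apply (hsH x hx).2.2
    have h1 : z ^ ((x : ZMod f).val + 1) = 1 := by
      rw [pow_succ]
      change ρ x * z = 1
      rw [h, inv_mul_cancel₀ hz0]
    have h2 := (hz.pow_eq_one_iff_dvd _).1 h1
    have h3 : (((x : ZMod f).val + 1 : ℕ) : ZMod f) = 0 := (ZMod.natCast_eq_zero_iff _ _).2 h2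
    push_cast at h3
    rw [ZMod.natCast_zmod_val] at h3
    apply Units.ext
    rw [Units.val_neg, Units.val_one]
    exact eq_neg_of_add_eq_zero_left h3
  · refine ind l hlK b _ ?_ ?_
    · refine hinj _ ?_
      have h1 := spt l s 3 A hAd z cc ρ η Θ h0Θ h1Θ hmΘ
        (fun x hx => hΘ _ (hη x (hsH x hx).1).1) k₀ ?_
      · intro y hy
        have h2 := h1 hy
        rw [← Finset.coe_nsmul]
        exact h2
      · refine le_trans ?_ hk₀
        refine Nat.mul_le_mul le_rfl ?_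
        have h2 : s.card ≤ (HH q χ).card :=
          card_le_card fun x hx => (hsH x hx).1
        omega
    · intro ξ hξ
      have hord : orderOf (z * ξ) = f :=
        ord_m hl hf0 ((pow_dvd_pow l (Nat.succ_le_of_lt hba)).trans hlf) z ξ hzf hξ
      have hzξ : IsPrimitiveRoot (z * ξ) f := by
        rw [← hord]
        exact IsPrimitiveRoot.orderOf _
      have hw : ∀ x : (ZMod f)ˣ, (z * ξ) ^ (x : ZMod f).val ≠ 1 := by
        intro x h
        have h1 := (hzξ.pow_eq_one_iff_dvd _).1 h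
        have h2 : (x : ZMod f) = 0 := by
          rw [← ZMod.natCast_zmod_val (x : ZMod f), ZMod.natCast_eq_zero_iff]
          exact h1
        have h3 : Nontrivial (ZMod f) := ZMod.nontrivial_iff.2 (by omega)
        exact x.ne_zero h2
      have hρ : ∀ x ∈ HH q χ, ρ x * ξ ^ (PadicInt.toZModPow b (η x)).val =
          (z * ξ) ^ (x : ZMod f).val := by
        intro x hx
        rw [hξval x hx ξ hξ, mul_pow]
      have hone : (z * ξ) ^ ((1 : (ZMod f)ˣ) : ZMod f).val = z * ξ := by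
        rw [Units.val_one, ZMod.val_one'' (by omega), pow_one]
      have hmone : (z * ξ) ^ ((-1 : (ZMod f)ˣ) : ZMod f).val = (z * ξ)⁻¹ := by
        apply eq_inv_of_mul_eq_one_left
        rw [← pow_succ, hzξ.pow_eq_one_iff_dvd, ← ZMod.natCast_eq_zero_iff]
        push_cast
        rw [ZMod.natCast_zmod_val, neg_add_cancel]
      have hw1 : z * ξ ≠ 1 := by
        have := hw 1
        rwa [hone] at this
      -- the relation, term by term
      have hterm : ∀ x ∈ HH q χ, (((χ x)⁻¹ : Kˣ) : K) * Gs g ((z * ξ) ^ (x : ZMod f).val) =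
          cc x * (A.eval ((z * ξ) ^ (x : ZMod f).val) /
            (1 - (z * ξ) ^ (x : ZMod f).val) ^ 3) := by
        intro x _
        have h1 := hG ((z * ξ) ^ (x : ZMod f).val)
          (by rw [← pow_mul, mul_comm (x : ZMod f).val f, pow_mul, hzξ.pow_eq_one, one_pow]) (hw x)
        have h2 : (1 - (z * ξ) ^ (x : ZMod f).val) ^ 3 ≠ 0 :=
          pow_ne_zero _ (sub_ne_zero.2 (hw x).symm)
        rw [← eq_div_iff h2] at h1
        rw [h1]
      have hr := hrel2 (z * ξ) hzξ.pow_eq_one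
      rw [Finset.sum_congr rfl hterm] at hr
      have hr2 := hr
      have hmem : (-1 : (ZMod f)ˣ) ∈ (HH q χ).erase 1 := mem_erase.2 ⟨hne, hmH⟩
      rw [← Finset.add_sum_erase _ _ h1H, ← Finset.add_sum_erase _ _ hmem, ← add_assoc] at hr2
      refine evl l b s 3 A z hz0 cc ρ η ξ hξ hw1 ?_ ?_
      · intro x hx
        rw [hρ x (hsH x hx).1]
        exact hw x
      · rw [← hr2]
        have hzξ0 : z * ξ ≠ 0 := by
          intro h
          have := hzξ.pow_eq_one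
          rw [h, zero_pow hf0] at this
          exact zero_ne_one this
        have h1w : (1 - z * ξ) ≠ 0 := sub_ne_zero.2 hw1.symm
        congr 1
        · rw [hone, hmone]
          have hcc1 : cc 1 = 1 := by
            change (((χ 1)⁻¹ : Kˣ) : K) = 1
            rw [map_one, inv_one, Units.val_one]
          have hccm : cc (-1) = (-1) ^ 3 := by
            change (((χ (-1))⁻¹ : Kˣ) : K) = (-1) ^ 3
            rw [hχm, inv_one, Units.val_one, hneg, one_pow]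
          rw [hcc1, hccm]
          rw [one_mul]
          exact two_terms 3 (z * ξ) _ _ hzξ0 h1w
        · refine Finset.sum_congr rfl fun x hx => ?_
          rw [hρ x (hsH x hx).1]

private theorem two_alg {K : Type} [Field K] [CharP K 2] (l : ℕ) [Fact l.Prime] :
    (2 : AddMonoidAlgebra K ℤ_[l]) = 0 := by
  have h1 : (2 : K) = 0 := by
    have h1 := CharP.cast_eq_zero K 2
    exact_mod_cast h1
  have h2 : algebraMap K (AddMonoidAlgebra K ℤ_[l]) 2 = 0 := by rw [h1, map_zero]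
  rwa [map_ofNat] at h2

private theorem mon_inv {K : Type} [Field K] (l : ℕ) [Fact l.Prime] (z : K) (hz : z ≠ 0) :
    (mon z 1 : AddMonoidAlgebra K ℤ_[l]) * mon z⁻¹ (-1) = 1 := by
  unfold mon
  rw [AddMonoidAlgebra.single_mul_single, add_neg_cancel, mul_inv_cancel₀ hz]
  rfl

/-- the number of `j` with `4 j < f` -/
private theorem cnt4 {f : ℕ} (hf : f % 2 = 1) : ∃ m : ℕ, (∀ j, 4 * j < f ↔ j < m) ∧
    ((f % 4 = 3 ∧ 4 * m = f + 1) ∨ (f % 4 = 1 ∧ 4 * m = f + 3)) := by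
  refine ⟨(f + 3) / 4, fun j => by omega, by omega⟩

private theorem gs4 {K : Type} [Field K] [CharP K 2] {f : ℕ} [NeZero f] (u : (ZMod f)ˣ)
    (hu : (u : ZMod f) = ((4 : ℕ) : ZMod f)) {m : ℕ} (hm : ∀ j, 4 * j < f ↔ j < m) (w : K)
    (hw : w ^ f = 1) :
    Gs (fun y : ZMod f => if 4 * (((u⁻¹ : (ZMod f)ˣ) : ZMod f) * y).val < f then (1 : K) else 0) w *
      (1 - w) ^ 4 = 1 - w ^ (4 * m) := by
  have h2K : (2 : K) = 0 := by
    have h1 := CharP.cast_eq_zero K 2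
    exact_mod_cast h1
  have h1 : Gs (fun y : ZMod f => if 4 * (((u⁻¹ : (ZMod f)ˣ) : ZMod f) * y).val < f then (1 : K)
      else 0) w = ∑ j ∈ range m, (w ^ 4) ^ j := by
    unfold Gs
    rw [← Equiv.sum_comp (Units.mulLeft u)]
    have h3 : ∀ y : ZMod f, w ^ (Units.mulLeft u y).val *
        (if 4 * (((u⁻¹ : (ZMod f)ˣ) : ZMod f) * (Units.mulLeft u y)).val < f then (1 : K) else 0) =
        if y.val < m then (w ^ 4) ^ y.val else 0 := by
      intro y
      rw [Units.mulLeft_apply, Units.inv_mul_cancel_left]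
      by_cases h4 : 4 * y.val < f
      · rw [if_pos h4, if_pos ((hm _).1 h4), mul_one, hu, ZMod.val_mul, ZMod.val_natCast,
          ← pow_mul, Nat.mod_mul_mod]
        conv_rhs => rw [← Nat.mod_add_div (4 * y.val) f, pow_add, pow_mul w f, hw, one_pow, mul_one]
      · rw [if_neg h4, if_neg (fun h => h4 ((hm _).2 h)), mul_zero]
    rw [Finset.sum_congr rfl fun y _ => h3 y, ← Finset.sum_filter]
    refine Finset.sum_nbij' (fun y => y.val) (fun j => (j : ZMod f)) ?_ ?_ ?_ ?_ ?_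
    · intro y hy
      exact mem_range.2 (mem_filter.1 hy).2
    · intro j hj
      have h4 := mem_range.1 hj
      have h5 : 4 * j < f := (hm j).2 h4
      rw [mem_filter, ZMod.val_natCast, Nat.mod_eq_of_lt (by omega)]
      exact ⟨mem_univ _, h4⟩
    · intro y _
      exact ZMod.natCast_zmod_val y
    · intro j hj
      have h4 := mem_range.1 hj
      have h5 : 4 * j < f := (hm j).2 h4
      rw [ZMod.val_natCast, Nat.mod_eq_of_lt (by omega)]
    · intro y _
      rfl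
  have h3 : (1 - w) ^ 4 = 1 - w ^ 4 := by
    linear_combination (-2 * w + 3 * w ^ 2 - 2 * w ^ 3 + w ^ 4) * h2K
  have h4 := geom_sum_mul_neg (w ^ 4) m
  rw [h1, h3, h4, ← pow_mul]

theorem core2 (S : Finset ℕ) (hS : ∀ l ∈ S, l.Prime) (h2S : 2 ∉ S) :
    ∃ B : ℕ, ∀ (f : ℕ) [NeZero f], B < f → InS S f →
      ∀ (K : Type) [Field K] [IsAlgClosed K] [CharP K 2] (χ : (ZMod f)ˣ →* Kˣ), Prim χ →
        ∑ r : (ZMod f)ˣ, ((χ r : Kˣ) : K) * (if 4 * (r : ZMod f).val < f then 1 else 0) ≠ 0 := by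
  obtain ⟨q, hq⟩ := q_ex2 hS
  have hq1 : q - 1 ≠ 0 := by
    have := hq.one_lt
    omega
  have hES : ES S ≠ 0 := by
    unfold ES
    refine mul_ne_zero two_ne_zero (Finset.prod_ne_zero_iff.2 fun l hl => ?_)
    have := (hS l hl).two_le
    omega
  have hT0 : (q - 1) * ES S ≠ 0 := mul_ne_zero hq1 hES
  have hA : ∀ l : ℕ, ∃ a : ℕ, ∀ h : l.Prime, have := Fact.mk h
      Bd ((q - 1) * ES S) (3 * (P0 S * ((q - 1) * ES S) + 4)) l a := by
    intro l
    by_cases h : l.Prime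
    · have := Fact.mk h
      obtain ⟨a, ha⟩ := bd_ex ((q - 1) * ES S) (3 * (P0 S * ((q - 1) * ES S) + 4)) l hT0
      exact ⟨a, fun _ => ha⟩
    · exact ⟨0, fun h' => absurd h' h⟩
  choose Al hAl using hA
  refine ⟨max 2 (∏ l ∈ S, l ^ Al l), ?_⟩
  intro f _ hBf hf K _ _ _ χ hχ hsum
  have hf2 : 2 < f := lt_of_le_of_lt (le_max_left _ _) hBf
  obtain ⟨l, hlS, hlf⟩ := exists_dvd hS (NeZero.ne f) hf Al
    (lt_of_le_of_lt (le_max_right _ _) hBf)
  have := Fact.mk (hS l hlS)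
  have hodd : f % 2 = 1 := by
    rcases Nat.mod_two_eq_zero_or_one f with h | h
    · exact absurd (hf 2 Nat.prime_two (Nat.dvd_of_mod_eq_zero h)) h2S
    · exact h
  have hcop : Nat.Coprime 4 f := by
    have h1 : Nat.Coprime 2 f := Nat.coprime_two_left.2 (Nat.odd_iff.2 hodd)
    exact Nat.Coprime.pow_left 2 h1
  obtain ⟨u, hu⟩ := (ZMod.isUnit_iff_coprime 4 f).2 hcop
  obtain ⟨m, hm, hm4⟩ := cnt4 hodd
  have h2K : (2 : K) = 0 := by
    have h1 := CharP.cast_eq_zero K 2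
    exact_mod_cast h1
  have h2A := two_alg (K := K) l
  set g : ZMod f → K := fun y => if 4 * (((u⁻¹ : (ZMod f)ˣ) : ZMod f) * y).val < f then (1 : K)
    else 0 with hgdef
  have hg : ∀ y, g y ^ 2 = g y := by
    intro y
    rw [hgdef]
    simp only
    split_ifs
    · rw [one_pow]
    · rw [zero_pow two_ne_zero]
  have hs2 : ∑ r : (ZMod f)ˣ, ((χ r : Kˣ) : K) * g r = 0 := by
    rw [← Equiv.sum_comp (Equiv.mulLeft u)]
    have h3 : ∀ r : (ZMod f)ˣ, ((χ (Equiv.mulLeft u r) : Kˣ) : K) *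
        g ((Equiv.mulLeft u r : (ZMod f)ˣ) : ZMod f) =
        ((χ u : Kˣ) : K) * (((χ r : Kˣ) : K) * (if 4 * (r : ZMod f).val < f then 1 else 0)) := by
      intro r
      rw [Equiv.coe_mulLeft, map_mul, Units.val_mul, Units.val_mul, mul_assoc, hgdef]
      simp only
      rw [Units.inv_mul_cancel_left]
    rw [Finset.sum_congr rfl fun r _ => h3 r, ← Finset.mul_sum, hsum, mul_zero]
  have hA2 : (1 + X + X ^ 2 : K[X]).eval 1 ≠ 0 := by
    simp only [eval_add, eval_one, eval_X, eval_pow, one_pow]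
    intro h
    exact one_ne_zero (α := K) (by linear_combination h - h2K)
  have hGw : ∀ w : K, w ^ f = 1 → w ≠ 1 → Gs g w * (1 - w) ^ 4 = 1 - w ^ (4 * m) :=
    fun w hw _ => gs4 u hu hm w hw
  rcases hm4 with ⟨_, hm4⟩ | ⟨_, hm4⟩
  · refine core_l2 hS h2S hq hlS (hAl l (hS l hlS)) le_rfl hf hf2 hlf χ g 1 (1 + X + X ^ 2) hχ hg
      (by rw [natDegree_one]; norm_num) hA2 ?_ ?_ hs2
    · intro z hz
      simp only [map_add, map_one, map_pow, aeval_X]
      linear_combination ((mon z 1 : AddMonoidAlgebra K ℤ_[l]) ^ 3) * h2A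
    · intro w hw hw1
      have h1 := hGw w hw hw1
      rw [hm4, pow_succ w f, hw, one_mul] at h1
      have h3 : (1 - w) ≠ 0 := sub_ne_zero.2 hw1.symm
      rw [eval_one]
      apply mul_right_cancel₀ h3
      linear_combination h1
  · refine core_l2 hS h2S hq hlS (hAl l (hS l hlS)) le_rfl hf hf2 hlf χ g (1 + X + X ^ 2)
      (1 + X + X ^ 2) hχ hg ?_ hA2 ?_ ?_ hs2
    · have h1 : (1 + X + X ^ 2 : K[X]).natDegree ≤ 2 := by compute_degree
      omega
    · intro z hz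
      have h3 := mon_inv l z hz
      simp only [map_add, map_one, map_pow, aeval_X]
      generalize (mon z 1 : AddMonoidAlgebra K ℤ_[l]) = M at h3 ⊢
      generalize (mon z⁻¹ (-1) : AddMonoidAlgebra K ℤ_[l]) = M' at h3 ⊢
      linear_combination (M ^ 2 + M * (M * M' + 1)) * h3 + (M + M ^ 2 + M ^ 3) * h2A
    · intro w hw hw1
      have h1 := hGw w hw hw1
      rw [hm4, pow_add w f, hw, one_mul] at h1
      have h3 : (1 - w) ≠ 0 := sub_ne_zero.2 hw1.symm
      simp only [eval_add, eval_one, eval_X, eval_pow]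
      apply mul_right_cancel₀ h3
      linear_combination h1

end Pool.Agent.FR2
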