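import Pool.Agent.AAP.Cyc
import Pool.Agent.FRD.Defs

/-!
# Project FR2: definitions for the class group and the units.  DO NOT CHANGE.

`K` is a number field, Galois over `ℚ`, `k` a field of characteristic two, `ψ : Gal(K/ℚ) → k^*`
an injective character (so `Gal(K/ℚ)` is cyclic of odd order and `K` is totally real).
-/

open NumberField Pointwise Finset

namespace Pool.Agent.FR2

/-- `∑ t(σ) ψ(σ)` -/
noncomputable def es {G k : Type} [Group G] [Fintype G] [Field k] (ψ : G →* kˣ) (t : G → ℕ) : k :=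
  ∑ σ, (t σ : k) * (ψ σ : k)

/-- after application of an element `t` of the group ring with `ψ(t) ≠ 0` the class of `𝔞` is a
square -/
def Half {k : Type} [Field k] {K : Type} [Field K] [NumberField K] (ψ : Gal(K/ℚ) →* kˣ)
    (𝔞 : Ideal (𝓞 K)) : Prop :=
  ∃ (t : Gal(K/ℚ) → ℕ) (x y : 𝓞 K) (𝔟 : Ideal (𝓞 K)), es ψ t ≠ 0 ∧ x ≠ 0 ∧ y ≠ 0 ∧
    Ideal.span {x} * ∏ σ, (σ • 𝔞) ^ t σ = Ideal.span {y} * 𝔟 ^ 2

/-- `D(χ) = ∑_{0 < a < f/4} χ(a)` -/
noncomputable def DD {k : Type} [Field k] {f : ℕ} [NeZero f] (χ : (ZMod f)ˣ →* kˣ) : k :=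
  ∑ r : (ZMod f)ˣ, ((χ r : kˣ) : k) * (if 4 * (r : ZMod f).val < f then 1 else 0)

/-- `1` if `2 a > f`, `0` otherwise -/
def ep {k : Type} [Field k] {f : ℕ} (a : (ZMod f)ˣ) : k :=
  if f < 2 * (a : ZMod f).val then 1 else 0

open Classical in
/-- the `a` with `χ(a) = 1` and `2 a < f` -/
noncomputable def hset {k : Type} [Field k] {f : ℕ} [NeZero f] (χ : (ZMod f)ˣ →* kˣ) :
    Finset (ZMod f)ˣ :=
  univ.filter fun a => χ a = 1 ∧ 2 * (a : ZMod f).val < f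

theorem mem_hset {k : Type} [Field k] {f : ℕ} [NeZero f] {χ : (ZMod f)ˣ →* kˣ}
    {a : (ZMod f)ˣ} : a ∈ hset χ ↔ χ a = 1 ∧ 2 * (a : ZMod f).val < f := by
  classical
  unfold hset
  rw [mem_filter]
  exact ⟨fun h => h.2, fun h => ⟨mem_univ _, h⟩⟩

/-- `σ` as an element of `Gal(K/ℚ)` -/
noncomputable abbrev rs {K F : Type} [Field K] [NumberField K] [IsGalois ℚ K] [Field F]
    [NumberField F] [Algebra K F] : Gal(F/ℚ) →* Gal(K/ℚ) :=
  AlgEquiv.restrictNormalHom K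

/-- the action of the Galois group on the units -/
noncomputable instance uact (K : Type) [Field K] [NumberField K] :
    MulDistribMulAction Gal(K/ℚ) (𝓞 K)ˣ where
  smul σ u := Units.map (MulSemiringAction.toRingHom Gal(K/ℚ) (𝓞 K) σ : 𝓞 K →* 𝓞 K) u
  one_smul u := Units.ext (one_smul Gal(K/ℚ) (u : 𝓞 K))
  mul_smul σ τ u := Units.ext (mul_smul σ τ (u : 𝓞 K))
  smul_mul σ u v := Units.ext (smul_mul' σ (u : 𝓞 K) (v : 𝓞 K))
  smul_one σ := Units.ext (smul_one σ)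

theorem val_smul (K : Type) [Field K] [NumberField K] (σ : Gal(K/ℚ)) (u : (𝓞 K)ˣ) :
    ((σ • u : (𝓞 K)ˣ) : 𝓞 K) = σ • (u : 𝓞 K) := rfl

end Pool.Agent.FR2
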