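import Pool.Agent.AAP.Defs
import Pool.Agent.AAP.Cyc
import Pool.Agent.FR2.DefsK
import Pool.Agent.Helper60.FM.ModB

/-!
# Cyclotomic fields inside `Qb`, and the tower

The field generated by a primitive `m`-th root of unity, the action of `GQ` on the `m`-th roots of unity, and
the inclusion of a field cut out by a character modulo `m`.
-/

open NumberField Pointwise Finset

namespace Pool.Agent.FR2

open Pool.Agent.Helper60.FM in
theorem cycQ (m : ℕ) [NeZero m] : ∃ (F : IntermediateField ℚ Qb) (_ : FiniteDimensional ℚ F)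
    (_ : IsGalois ℚ F) (_ : IsCyclotomicExtension {m} ℚ F),
    ∀ g : GQ, AAP.ActsAs m g ((AAP.gq m F (res F g) : (ZMod m)ˣ) : ZMod m).val := by
  obtain ⟨ζ, hζ⟩ := HasEnoughRootsOfUnity.exists_primitiveRoot Qb m
  have hc : IsCyclotomicExtension {m} ℚ (IntermediateField.adjoin ℚ {ζ}) :=
    hζ.intermediateField_adjoin_isCyclotomicExtension ℚ
  have hfd : FiniteDimensional ℚ (IntermediateField.adjoin ℚ {ζ}) :=
    IsCyclotomicExtension.finiteDimensional {m} ℚ _
  have hg : IsGalois ℚ (IntermediateField.adjoin ℚ {ζ}) := IsCyclotomicExtension.isGalois {m} ℚ _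
  refine ⟨IntermediateField.adjoin ℚ {ζ}, hfd, hg, hc, fun g ξ hξ => ?_⟩
  set F : IntermediateField ℚ Qb := IntermediateField.adjoin ℚ {ζ} with hF
  have hz : IsPrimitiveRoot ((AAP.zt m F : F) : Qb) m :=
    (AAP.zt_spec m F).map_of_injective (f := algebraMap F Qb) (algebraMap F Qb).injective
  obtain ⟨i, -, hi⟩ := hz.eq_pow_of_pow_eq_one hξ
  have h1 : g ((AAP.zt m F : F) : Qb) = ((res F g (AAP.zt m F) : F) : Qb) :=
    (AlgEquiv.restrictNormal_commutes g F (AAP.zt m F)).symm
  rw [AAP.gq_spec] at h1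
  rw [← hi, map_pow, h1, SubmonoidClass.coe_pow, ← pow_mul, ← pow_mul, mul_comm]

open Pool.Agent.Helper60.FM in
theorem cycQ_le {k : Type} [Field k] (m : ℕ) [NeZero m] (K F : IntermediateField ℚ Qb)
    [FiniteDimensional ℚ K] [IsGalois ℚ K] [FiniteDimensional ℚ F] [IsGalois ℚ F]
    [IsCyclotomicExtension {m} ℚ F]
    (hF : ∀ g : GQ, AAP.ActsAs m g ((AAP.gq m F (res F g) : (ZMod m)ˣ) : ZMod m).val)
    (χ : (ZMod m)ˣ →* kˣ) (ψ : Gal(K/ℚ) →* kˣ) (hψ : Function.Injective ψ)
    (hcut : ∀ (g : GQ) (a : (ZMod m)ˣ), AAP.ActsAs m g (a : ZMod m).val → ψ (res K g) = χ a) :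
    K ≤ F := by
  have key : F.fixingSubgroup ≤ K.fixingSubgroup := by
    intro g hg
    have h1 : res F g = 1 := by
      ext x
      have h2 : ((res F g x : F) : Qb) = g (x : Qb) := AlgEquiv.restrictNormal_commutes g F x
      exact h2.trans ((IntermediateField.mem_fixingSubgroup_iff F g).1 hg (x : Qb) x.2)
    have h2 := hF g
    rw [h1, map_one] at h2
    have h3 := hcut g 1 h2
    rw [map_one] at h3
    have h4 : res K g = 1 := hψ (h3.trans (map_one ψ).symm)
    rw [IntermediateField.mem_fixingSubgroup_iff]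
    intro x hx
    have h5 : ((res K g ⟨x, hx⟩ : K) : Qb) = g x := AlgEquiv.restrictNormal_commutes g K ⟨x, hx⟩
    rw [h4] at h5
    exact h5.symm
  rw [← InfiniteGalois.fixedField_fixingSubgroup K, ← InfiniteGalois.fixedField_fixingSubgroup F]
  intro x hx
  rw [IntermediateField.mem_fixedField_iff] at hx ⊢
  exact fun g hg => hx g (key hg)

end Pool.Agent.FR2
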