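import Pool.Agent.FRD.Defs

/-!
# Project FR2 (MP_b583a4_nt.FiniteReductions at `p = 2`): definitions for the theorem in the style
of Sinnott in characteristic two
-/

open Finset Polynomial

namespace Pool.Agent.FR2

open Pool.Agent.FRD

/-- The auxiliary power `q` of `2`. -/
structure GoodQ2 (S : Finset ℕ) (q : ℕ) : Prop where
  pow : ∃ k : ℕ, q = 2 ^ k
  one_lt : 1 < q
  dv : ∀ m : ℕ, m ∣ 4 * ∏ l ∈ S, (l * (l - 1)) → ¬ 2 ∣ m → m ∣ q - 1

end Pool.Agent.FR2
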