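import Pool.Agent.FR2.DefsK

/-!
# FR2-Dir: choice of the auxiliary prime

`f` odd, `χ` a nontrivial character of `(Z/f)^*`, `q` an odd prime not dividing `f`. There is a
prime `r` prime to `f` which is `-1` modulo `4 q` and has `χ r ≠ 1` (Chinese remainder theorem and
Dirichlet's theorem).
-/

open NumberField Pointwise Finset

namespace Pool.Agent.FR2

theorem dir {k : Type} [Field k] {f : ℕ} [NeZero f] (hodd : Odd f) (χ : (ZMod f)ˣ →* kˣ)
    (hχ : χ ≠ 1) (q : ℕ) (hq : q.Prime) (hq2 : q ≠ 2) (hqf : q.Coprime f) :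
    ∃ r : ℕ, r.Prime ∧ r % 4 = 3 ∧ r.Coprime f ∧ q ∣ r + 1 ∧
      ∃ u : (ZMod f)ˣ, (u : ZMod f) = r ∧ χ u ≠ 1 := by
  obtain ⟨b, hb⟩ : ∃ b, χ b ≠ 1 := by
    by_contra hcon
    push Not at hcon
    exact hχ (MonoidHom.ext hcon)
  have hq0 : 0 < q := hq.pos
  have hf0 : f ≠ 0 := NeZero.ne f
  have h2 : Nat.Coprime 2 f := hodd.coprime_two_left
  have h4 : Nat.Coprime 4 f := by
    have : Nat.Coprime (2 ^ 2) f := h2.pow_left 2
    simpa using this
  have hM : Nat.Coprime (4 * q) f := Nat.Coprime.mul_left h4 hqf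
  have hbc : Nat.Coprime (b : ZMod f).val f := ZMod.val_coe_unit_coprime b
  obtain ⟨c, hc1, hc2⟩ := Nat.chineseRemainder hM (4 * q - 1) (b : ZMod f).val
  have hcM : Nat.Coprime c (4 * q) := by
    have h1 : Nat.Coprime (4 * q - 1) (4 * q) := by
      have h3 : 4 * q = (4 * q - 1) + 1 := by omega
      have h5 : Nat.Coprime (4 * q - 1) ((4 * q - 1) + 1) := by simp
      rwa [← h3] at h5
    have h6 := hc1.gcd_eq
    rw [Nat.Coprime, h6]
    exact h1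
  have hcf : Nat.Coprime c f := by
    have h6 := hc2.gcd_eq
    rw [Nat.Coprime, h6]
    exact hbc
  have hcu : Nat.Coprime c (4 * q * f) := Nat.Coprime.mul_right hcM hcf
  have : NeZero (4 * q * f) := ⟨by positivity⟩
  obtain ⟨r, -, hrp, hrc⟩ := Nat.forall_exists_prime_gt_and_eq_mod
    ((ZMod.isUnit_iff_coprime c (4 * q * f)).2 hcu) 0
  have hr0 : r ≡ c [MOD 4 * q * f] := (ZMod.natCast_eq_natCast_iff _ _ _).1 hrc
  have hrM : r ≡ 4 * q - 1 [MOD 4 * q] :=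
    (hr0.of_dvd (Dvd.intro _ rfl)).trans hc1
  have hrf : r ≡ (b : ZMod f).val [MOD f] :=
    (hr0.of_dvd (Dvd.intro_left _ rfl)).trans hc2
  refine ⟨r, hrp, ?_, ?_, ?_, b, ?_, hb⟩
  · have h5 : r ≡ 4 * q - 1 [MOD 4] := hrM.of_dvd (Dvd.intro _ rfl)
    have h6 : r % 4 = (4 * q - 1) % 4 := h5
    omega
  · have h6 := hrf.gcd_eq
    rw [Nat.Coprime, h6]
    exact hbc
  · have h5 : r ≡ 4 * q - 1 [MOD q] := hrM.of_dvd (Dvd.intro_left _ rfl)
    have h6 : r + 1 ≡ 4 * q - 1 + 1 [MOD q] := h5.add_right 1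
    have h7 : 4 * q - 1 + 1 = 4 * q := by omega
    rw [h7] at h6
    exact (Nat.modEq_zero_iff_dvd).1 (h6.trans ((Nat.modEq_zero_iff_dvd).2 (Dvd.intro_left _ rfl)))
  · have h5 : ((r : ℕ) : ZMod f) = (((b : ZMod f).val : ℕ) : ZMod f) :=
      (ZMod.natCast_eq_natCast_iff _ _ _).2 hrf
    rw [h5, ZMod.natCast_zmod_val]

end Pool.Agent.FR2
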