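import Pool.Agent.FR2.DefsK

/-!
# FR2-Dual: an equivariant functional

`A` a commutative group (written multiplicatively) with an action of the finite group `G` of odd order,
`x ∈ A` not a square, and all relations of `ψ` make `x` a square. Then there is an equivariant
homomorphism `λ : A → k` with `λ(x) = 1`. The proof works with the group algebra of `G` over
`ZMod 2`, which acts on `A / A^2`.
-/

open NumberField Pointwise Finset

namespace Pool.Agent.FR2

/-- a nonzero element of the image of a finite ring in a field has a power equal to one -/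
private theorem Dual_pow {R k : Type} [Ring R] [Finite R] [Field k] (E : R →+* k) (r : R)
    (hr : E r ≠ 0) : ∃ N : ℕ, E (r ^ N * r) = 1 := by
  obtain ⟨i, j, hij, he⟩ := Finite.exists_ne_map_eq_of_infinite (fun n : ℕ => r ^ n)
  wlog h : i < j generalizing i j
  · exact this j i hij.symm he.symm (lt_of_le_of_ne (not_lt.mp h) hij.symm)
  obtain ⟨d, rfl⟩ := Nat.exists_eq_add_of_lt h
  refine ⟨d, ?_⟩
  have h1 : E r ^ i = E r ^ (i + d + 1) := by
    have := congrArg E he
    simpa using this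
  have h2 : E r ^ i * 1 = E r ^ i * (E r ^ d * E r) := by
    rw [mul_one, ← pow_succ, ← pow_add, ← add_assoc]
    exact h1
  have h3 := mul_left_cancel₀ (pow_ne_zero i hr) h2
  rw [map_mul, map_pow]
  exact h3.symm

private theorem Dual_ext {R V k : Type} [Ring R] [Finite R] [Algebra (ZMod 2) R] [AddCommGroup V]
    [Module (ZMod 2) V] [Field k] [Algebra (ZMod 2) k]
    (E : R →ₐ[ZMod 2] k) (F : R →ₐ[ZMod 2] Module.End (ZMod 2) V) (v : V) (hv : v ≠ 0)
    (h : ∀ r, E r = 0 → F r v = 0) : ∃ ν : V →ₗ[ZMod 2] k, ∀ r, ν (F r v) = E r := by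
  have hker : ∀ r, F r v = 0 → E r = 0 := by
    intro r hr
    by_contra hne
    obtain ⟨N, hN⟩ := Dual_pow (E : R →+* k) r hne
    have h1 : E (r ^ N * r - 1) = 0 := by
      rw [map_sub, map_one, sub_eq_zero]
      exact hN
    have h2 := h _ h1
    rw [map_sub, map_one, map_mul, LinearMap.sub_apply, Module.End.mul_apply, hr, map_zero,
      Module.End.one_apply, zero_sub, neg_eq_zero] at h2
    exact hv h2
  let T : R →ₗ[ZMod 2] V := (LinearMap.applyₗ v).comp F.toLinearMap
  have hT : ∀ r, T r = F r v := fun r => rfl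
  have hle : LinearMap.ker T ≤ LinearMap.ker E.toLinearMap := by
    intro r hr
    rw [LinearMap.mem_ker] at hr ⊢
    exact hker r (by rw [← hT]; exact hr)
  -- the map on the range of `T`
  let f0 : (R ⧸ LinearMap.ker T) →ₗ[ZMod 2] k := (LinearMap.ker T).liftQ E.toLinearMap hle
  let f1 : LinearMap.range T →ₗ[ZMod 2] k := f0.comp (T.quotKerEquivRange.symm : _ →ₗ[ZMod 2] _)
  obtain ⟨g, hg⟩ := LinearMap.exists_extend f1
  refine ⟨g, fun r => ?_⟩
  have h1 : g (F r v) = f1 ⟨T r, LinearMap.mem_range_self T r⟩ := by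
    rw [← hg]
    rfl
  rw [h1]
  have h2 : T.quotKerEquivRange.symm ⟨T r, LinearMap.mem_range_self T r⟩ =
      Submodule.Quotient.mk r := by
    rw [LinearEquiv.symm_apply_eq]
    rfl
  change f0 (T.quotKerEquivRange.symm ⟨T r, LinearMap.mem_range_self T r⟩) = _
  rw [h2]
  rfl

theorem dual {A : Type} [CommGroup A] {G : Type} [Group G] [Fintype G] [MulDistribMulAction G A]
    {k : Type} [Field k] [CharP k 2] (ψ : G →* kˣ) (hodd : Odd (Fintype.card G)) (x : A)
    (hx : ¬ ∃ w, x = w ^ 2)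
    (hrel : ∀ n : G → ℕ, es ψ n = 0 → ∃ w, ∏ σ, (σ • x) ^ n σ = w ^ 2) :
    ∃ lam : A → k, (∀ a b, lam (a * b) = lam a + lam b) ∧
      (∀ (σ : G) a, lam (σ • a) = ψ σ * lam a) ∧ lam x = 1 := by
  classical
  let _ : Algebra (ZMod 2) k := ZMod.algebra k 2
  let S : AddSubgroup (Additive A) := (nsmulAddMonoidHom (α := Additive A) 2).range
  have hS : ∀ a : A, Additive.ofMul a ∈ S ↔ ∃ w, a = w ^ 2 := by
    intro a
    constructor
    · rintro ⟨w, hw⟩
      exact ⟨w.toMul, by rw [← toMul_nsmul]; exact (congrArg Additive.toMul hw).symm⟩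
    · rintro ⟨w, rfl⟩
      exact ⟨Additive.ofMul w, by simp⟩
  let mV : Module (ZMod 2) (Additive A ⧸ S) :=
    QuotientAddGroup.zmodModule (fun y => ⟨y, rfl⟩)
  let mk : Additive A →+ (Additive A ⧸ S) := QuotientAddGroup.mk' S
  have hmk0 : ∀ a : A, mk (Additive.ofMul a) = 0 ↔ ∃ w, a = w ^ 2 := by
    intro a
    rw [← hS]
    exact QuotientAddGroup.eq_zero_iff _
  have hmap : ∀ σ : G, S ≤ S.comap (MonoidHom.toAdditive (MulDistribMulAction.toMonoidHom A σ)) := by
    rintro σ _ ⟨w, rfl⟩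
    exact ⟨MonoidHom.toAdditive (MulDistribMulAction.toMonoidHom A σ) w, by
      simp⟩
  let ρ0 : G → (Additive A ⧸ S) →+ (Additive A ⧸ S) := fun σ =>
    QuotientAddGroup.map S S (MonoidHom.toAdditive (MulDistribMulAction.toMonoidHom A σ)) (hmap σ)
  have hρ0 : ∀ σ (a : A), ρ0 σ (mk (Additive.ofMul a)) = mk (Additive.ofMul (σ • a)) :=
    fun σ a => rfl
  have hind : ∀ y : Additive A ⧸ S, ∃ a : A, y = mk (Additive.ofMul a) := by
    intro y
    obtain ⟨a, ha⟩ := QuotientAddGroup.mk'_surjective S y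
    exact ⟨a.toMul, ha.symm⟩
  let ρ : G →* Module.End (ZMod 2) (Additive A ⧸ S) :=
    { toFun := fun σ => (ρ0 σ).toZModLinearMap 2
      map_one' := by
        refine LinearMap.ext fun y => ?_
        obtain ⟨a, rfl⟩ := hind y
        rw [AddMonoidHom.coe_toZModLinearMap, hρ0, one_smul, Module.End.one_apply]
      map_mul' := fun σ τ => by
        refine LinearMap.ext fun y => ?_
        obtain ⟨a, rfl⟩ := hind y
        rw [Module.End.mul_apply, AddMonoidHom.coe_toZModLinearMap,
          AddMonoidHom.coe_toZModLinearMap, AddMonoidHom.coe_toZModLinearMap, hρ0, hρ0, hρ0,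
          mul_smul] }
  have hρ : ∀ σ (a : A), ρ σ (mk (Additive.ofMul a)) = mk (Additive.ofMul (σ • a)) :=
    fun σ a => rfl
  let ψ' : G →* k := (Units.coeHom k).comp ψ
  let E := MonoidAlgebra.lift (ZMod 2) k G ψ'
  let F := MonoidAlgebra.lift (ZMod 2) (Module.End (ZMod 2) (Additive A ⧸ S)) G ρ
  have hE : ∀ r : MonoidAlgebra (ZMod 2) G, E r = es ψ (fun σ => (r.coeff σ).val) := by
    intro r
    rw [MonoidAlgebra.lift_apply, Finsupp.sum_fintype _ _ (fun i => by simp)]
    unfold es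
    refine Finset.sum_congr rfl fun σ _ => ?_
    rw [Algebra.smul_def]
    congr 1
  have hF : ∀ (r : MonoidAlgebra (ZMod 2) G), F r (mk (Additive.ofMul x)) =
      mk (Additive.ofMul (∏ σ, (σ • x) ^ (r.coeff σ).val)) := by
    intro r
    rw [MonoidAlgebra.lift_apply, Finsupp.sum_fintype _ _ (fun i => by simp), LinearMap.sum_apply,
      ofMul_prod, map_sum]
    refine Finset.sum_congr rfl fun σ _ => ?_
    rw [LinearMap.smul_apply, hρ, ofMul_pow, map_nsmul]
    conv_lhs => rw [← ZMod.natCast_zmod_val (r.coeff σ)]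
    rw [Nat.cast_smul_eq_nsmul]
  have hfin : Finite (MonoidAlgebra (ZMod 2) G) :=
    Finite.of_injective (fun r => (fun σ => r.coeff σ : G → ZMod 2)) fun r s h => by
      ext σ
      exact congrFun h σ
  have hx0 : mk (Additive.ofMul x) ≠ 0 := fun h => hx ((hmk0 x).mp h)
  obtain ⟨ν, hν⟩ := Dual_ext E F (mk (Additive.ofMul x)) hx0 (fun r hr => by
    rw [hF, hmk0]
    exact hrel _ ((hE r).symm.trans hr))
  have hνx : ∀ σ : G, ν (mk (Additive.ofMul (σ • x))) = (ψ σ : k) := by
    intro σ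
    have h1 := hν (MonoidAlgebra.of (ZMod 2) G σ)
    rw [MonoidAlgebra.lift_of, MonoidAlgebra.lift_of, hρ] at h1
    exact h1
  refine ⟨fun a => ∑ σ : G, ((ψ σ)⁻¹ : kˣ) * ν (mk (Additive.ofMul (σ • a))), ?_, ?_, ?_⟩
  · intro a b
    rw [← Finset.sum_add_distrib]
    refine Finset.sum_congr rfl fun σ _ => ?_
    rw [smul_mul', ofMul_mul, map_add, map_add, mul_add]
  · intro τ a
    rw [Finset.mul_sum]
    refine Fintype.sum_equiv (Equiv.mulRight τ) _ _ fun σ => ?_
    rw [Equiv.coe_mulRight, ← mul_smul, ← mul_assoc, map_mul, mul_inv_rev, Units.val_mul,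
      ← mul_assoc, Units.mul_inv, one_mul]
  · have h1 : ∀ σ : G, (((ψ σ)⁻¹ : kˣ) : k) * ν (mk (Additive.ofMul (σ • x))) = 1 := fun σ => by
      rw [hνx, Units.inv_mul]
    change ∑ σ : G, (((ψ σ)⁻¹ : kˣ) : k) * ν (mk (Additive.ofMul (σ • x))) = 1
    rw [Finset.sum_congr rfl fun σ _ => h1 σ, Finset.sum_const, nsmul_eq_mul, mul_one,
      Finset.card_univ]
    obtain ⟨m, hm⟩ := hodd
    rw [hm, Nat.cast_add, Nat.cast_mul, Nat.cast_two, CharTwo.two_eq_zero, zero_mul, zero_add,
      Nat.cast_one]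

end Pool.Agent.FR2
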