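import Pool.Agent.FR2.DefsK

/-!
# The cyclotomic unit of `K` and its conjugates

`u_a = ζ^a + ζ^(-a)` is a unit for `a` prime to `f`; the product of the `u_a`, `χ(a) = 1`, `2 a < f`, is
fixed by the Galois group of `F/K`, it is a unit of `K`, and its conjugates are products of real
numbers `2 cos(2π a b / f)`.
-/

open NumberField Pointwise Finset

namespace Pool.Agent.FR2

section root

variable {F : Type} [Field F] {f : ℕ} [NeZero f] {z : F}

/-- `z ^ x` for `x` modulo `f` -/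
private def etaE (z : F) (x : ZMod f) : F := z ^ x.val

private theorem etaE_nat (hz : z ^ f = 1) (n : ℕ) : etaE z ((n : ℕ) : ZMod f) = z ^ n := by
  unfold etaE
  rw [ZMod.val_natCast]
  conv_rhs => rw [← Nat.div_add_mod n f, pow_add, pow_mul, hz, one_pow, one_mul]

private theorem etaE_add (hz : z ^ f = 1) (x y : ZMod f) :
    etaE z (x + y) = etaE z x * etaE z y := by
  have h : x + y = ((x.val + y.val : ℕ) : ZMod f) := by
    rw [Nat.cast_add, ZMod.natCast_zmod_val, ZMod.natCast_zmod_val]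
  rw [h, etaE_nat hz, pow_add]
  rfl

private theorem etaE_zero : etaE z (0 : ZMod f) = 1 := by
  unfold etaE
  rw [ZMod.val_zero, pow_zero]

private theorem etaE_neg (hz : z ^ f = 1) (x : ZMod f) : etaE z x * etaE z (-x) = 1 := by
  rw [← etaE_add hz, add_neg_cancel, etaE_zero]

private theorem etaE_pow (hz : z ^ f = 1) (x : ZMod f) (n : ℕ) :
    etaE z x ^ n = etaE z ((n : ZMod f) * x) := by
  have h : (n : ZMod f) * x = ((x.val * n : ℕ) : ZMod f) := by
    rw [Nat.cast_mul, ZMod.natCast_zmod_val, mul_comm]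
  rw [h, etaE_nat hz, pow_mul]
  rfl

/-- `z ^ x + z ^ (-x)` -/
private def etaU (z : F) (x : ZMod f) : F := etaE z x + etaE z (-x)

private theorem etaU_neg (x : ZMod f) : etaU z (-x) = etaU z x := by
  unfold etaU
  rw [neg_neg, add_comm]

/-- an inverse of `z ^ x + z ^ (-x)` -/
private def etaW (z : F) (x : ZMod f) : F :=
  etaE z x * ∑ i ∈ range ((f + 1) / 2), (etaE z (2 * x) ^ 2) ^ i

private theorem etaU_mul_W (hz : IsPrimitiveRoot z f) (hf : 2 < f) (hodd : Odd f) (x : (ZMod f)ˣ) :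
    etaU z (x : ZMod f) * etaW z (x : ZMod f) = 1 := by
  have h1 := hz.pow_eq_one
  set w := etaE z (2 * (x : ZMod f)) with hw
  have hwf : w ^ f = 1 := by
    rw [hw, etaE_pow h1, ZMod.natCast_self, zero_mul, etaE_zero]
  have hw1 : w ≠ 1 := by
    intro h
    have h2 : f ∣ (2 * (x : ZMod f)).val := (hz.pow_eq_one_iff_dvd _).1 h
    have h3 : (2 * (x : ZMod f)).val = 0 := Nat.eq_zero_of_dvd_of_lt h2 (ZMod.val_lt _)
    rw [ZMod.val_eq_zero] at h3
    have h4 : (2 : ZMod f) = 0 := by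
      have := congrArg (fun t => t * ((x⁻¹ : (ZMod f)ˣ) : ZMod f)) h3
      simpa [mul_assoc] using this
    have h5 : ((2 : ℕ) : ZMod f) = 0 := by exact_mod_cast h4
    rw [ZMod.natCast_eq_zero_iff] at h5
    have := Nat.le_of_dvd two_pos h5
    omega
  have hS : (w + 1) * ∑ i ∈ range ((f + 1) / 2), (w ^ 2) ^ i = 1 := by
    have h2 : (∑ i ∈ range ((f + 1) / 2), (w ^ 2) ^ i) * (w ^ 2 - 1) = w - 1 := by
      rw [geom_sum_mul, ← pow_mul]
      obtain ⟨k, hk⟩ := hodd
      have h3 : 2 * ((f + 1) / 2) = f + 1 := by omega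
      rw [h3, pow_succ, hwf, one_mul]
    have h4 : w - 1 ≠ 0 := sub_ne_zero.2 hw1
    apply mul_right_cancel₀ h4
    rw [one_mul]
    calc (w + 1) * (∑ i ∈ range ((f + 1) / 2), (w ^ 2) ^ i) * (w - 1)
        = (∑ i ∈ range ((f + 1) / 2), (w ^ 2) ^ i) * (w ^ 2 - 1) := by ring
      _ = w - 1 := h2
  have hU : etaU z (x : ZMod f) = etaE z (-(x : ZMod f)) * (w + 1) := by
    unfold etaU
    have h2 : etaE z (-(x : ZMod f)) * w = etaE z (x : ZMod f) := by
      rw [hw, ← etaE_add h1]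
      congr 1
      ring
    rw [mul_add, h2, mul_one]
  have hN := etaE_neg h1 (x : ZMod f)
  unfold etaW
  rw [hU, ← hw]
  calc etaE z (-(x : ZMod f)) * (w + 1) *
        (etaE z (x : ZMod f) * ∑ i ∈ range ((f + 1) / 2), (w ^ 2) ^ i)
      = (etaE z (x : ZMod f) * etaE z (-(x : ZMod f))) *
        ((w + 1) * ∑ i ∈ range ((f + 1) / 2), (w ^ 2) ^ i) := by ring
    _ = 1 := by rw [hN, hS, one_mul]

private theorem eta_int (hz : IsIntegral ℤ z) (x : ZMod f) :
    IsIntegral ℤ (etaU z x) ∧ IsIntegral ℤ (etaW z x) := by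
  have h : ∀ y : ZMod f, IsIntegral ℤ (etaE z y) := fun y => hz.pow _
  exact ⟨(h _).add (h _), (h _).mul (IsIntegral.sum _ fun i _ => ((h _).pow 2).pow i)⟩

end root

section norm

variable {f : ℕ} [NeZero f]

/-- `a` or `-a` -/
private def etaN (a : (ZMod f)ˣ) : (ZMod f)ˣ := if 2 * (a : ZMod f).val < f then a else -a

private theorem etaN_cases (a : (ZMod f)ˣ) : etaN a = a ∨ etaN a = -a := by
  unfold etaN
  split_ifs
  · exact Or.inl rfl
  · exact Or.inr rfl

private theorem eta_val_neg (hf : 2 < f) (a : (ZMod f)ˣ) :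
    ((-a : (ZMod f)ˣ) : ZMod f).val = f - (a : ZMod f).val := by
  have h : (a : ZMod f) ≠ 0 := by
    have : Nontrivial (ZMod f) := by
      have : Fact (1 < f) := ⟨by omega⟩
      infer_instance
    exact a.ne_zero
  rw [Units.val_neg, ZMod.neg_val, if_neg h]

private theorem etaN_lt (hf : 2 < f) (hodd : Odd f) (a : (ZMod f)ˣ) :
    2 * ((etaN a : (ZMod f)ˣ) : ZMod f).val < f := by
  unfold etaN
  split_ifs with h
  · exact h
  · rw [eta_val_neg hf]
    obtain ⟨k, hk⟩ := hodd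
    have := ZMod.val_lt (a : ZMod f)
    omega

private theorem etaN_self {a : (ZMod f)ˣ} (h : 2 * (a : ZMod f).val < f) : etaN a = a := by
  unfold etaN
  rw [if_pos h]

private theorem etaN_neg (hf : 2 < f) {a : (ZMod f)ˣ} (h : 2 * (a : ZMod f).val < f) :
    etaN (-a) = a := by
  unfold etaN
  rw [if_neg, neg_neg]
  rw [eta_val_neg hf]
  omega

variable {k : Type} [Field k] [CharP k 2]

private theorem eta_chi_neg (χ : (ZMod f)ˣ →* kˣ) (a : (ZMod f)ˣ) : χ (-a) = χ a := by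
  have h1 : χ (-1) * χ (-1) = 1 := by
    rw [← map_mul, neg_mul_neg, one_mul, map_one]
  have h2 : χ (-1) = 1 := by
    have h3 : ((χ (-1) : kˣ) : k) * ((χ (-1) : kˣ) : k) = 1 := by
      rw [← Units.val_mul, h1, Units.val_one]
    have h4 : (((χ (-1) : kˣ) : k) - 1) ^ 2 = 0 := by
      have h5 : (((χ (-1) : kˣ) : k) - 1) ^ 2 =
          ((χ (-1) : kˣ) : k) * ((χ (-1) : kˣ) : k) - 2 * ((χ (-1) : kˣ) : k) + 1 := by ring
      rw [h5, h3, CharTwo.two_eq_zero, zero_mul, sub_zero, CharTwo.add_self_eq_zero]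
    have h6 := pow_eq_zero_iff (two_ne_zero) |>.1 h4
    exact Units.ext (sub_eq_zero.1 h6)
  rw [← neg_one_mul, map_mul, h2, one_mul]

private theorem eta_chi_N (χ : (ZMod f)ˣ →* kˣ) (a : (ZMod f)ˣ) : χ (etaN a) = χ a := by
  rcases etaN_cases a with h | h
  · rw [h]
  · rw [h, eta_chi_neg]

private theorem eta_inv (hf : 2 < f) {a : (ZMod f)ˣ} (h : 2 * (a : ZMod f).val < f)
    (b c : (ZMod f)ˣ) (hbc : b * c = 1) : etaN (b * etaN (c * a)) = a := by
  rcases etaN_cases (c * a) with h1 | h1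
  · rw [h1, ← mul_assoc, hbc, one_mul, etaN_self h]
  · rw [h1, mul_neg, ← mul_assoc, hbc, one_mul, etaN_neg hf h]

/-- the product over `hset χ` of an even function does not change under multiplication by `b`,
`χ(b) = 1` -/
private theorem eta_prod {R : Type*} [CommMonoid R] (hf : 2 < f) (hodd : Odd f)
    (χ : (ZMod f)ˣ →* kˣ) (u : (ZMod f)ˣ → R) (hu : ∀ a, u (-a) = u a) {b : (ZMod f)ˣ}
    (hb : χ b = 1) : ∏ a ∈ hset χ, u (b * a) = ∏ a ∈ hset χ, u a := by
  have huN : ∀ a, u (etaN a) = u a := fun a => by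
    rcases etaN_cases a with h | h
    · rw [h]
    · rw [h, hu]
  have hmap : ∀ c : (ZMod f)ˣ, χ c = 1 → ∀ a ∈ hset χ, etaN (c * a) ∈ hset χ := by
    intro c hc a ha
    rw [mem_hset] at ha ⊢
    refine ⟨?_, etaN_lt hf hodd _⟩
    rw [eta_chi_N, map_mul, hc, ha.1, one_mul]
  have hb' : χ b⁻¹ = 1 := by rw [map_inv, hb, inv_one]
  refine Finset.prod_nbij' (fun a => etaN (b * a)) (fun a => etaN (b⁻¹ * a)) (hmap b hb)
    (hmap b⁻¹ hb') ?_ ?_ ?_
  · intro a ha
    exact eta_inv hf (mem_hset.1 ha).2 _ _ (inv_mul_cancel b)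
  · intro a ha
    exact eta_inv hf (mem_hset.1 ha).2 _ _ (mul_inv_cancel b)
  · intro a _
    exact (huN _).symm

end norm

section gal

variable {F : Type} [Field F] [NumberField F] {f : ℕ} [NeZero f] [IsCyclotomicExtension {f} ℚ F]

private theorem eta_gal_E (σ : Gal(F/ℚ)) (x : ZMod f) :
    σ (etaE (AAP.zt f F) x) = etaE (AAP.zt f F) (((AAP.gq f F σ : (ZMod f)ˣ) : ZMod f) * x) := by
  have h1 := (AAP.zt_spec f F).pow_eq_one
  have h2 : ((AAP.gq f F σ : (ZMod f)ˣ) : ZMod f) * x =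
      ((((AAP.gq f F σ : (ZMod f)ˣ) : ZMod f).val * x.val : ℕ) : ZMod f) := by
    rw [Nat.cast_mul, ZMod.natCast_zmod_val, ZMod.natCast_zmod_val]
  rw [h2, etaE_nat h1, pow_mul, ← AAP.gq_spec, ← map_pow]
  rfl

private theorem eta_gal_U (σ : Gal(F/ℚ)) (x : ZMod f) :
    σ (etaU (AAP.zt f F) x) = etaU (AAP.zt f F) (((AAP.gq f F σ : (ZMod f)ˣ) : ZMod f) * x) := by
  unfold etaU
  rw [map_add, eta_gal_E, eta_gal_E, mul_neg]

private theorem eta_exists_emb : ∃ ι : F →ₐ[ℚ] ℂ,
    ι (AAP.zt f F) = Complex.exp (2 * Real.pi * Complex.I / f) := by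
  have hirr := Polynomial.cyclotomic.irreducible_rat (Nat.pos_of_ne_zero (NeZero.ne f))
  have hp := Complex.isPrimitiveRoot_exp f (NeZero.ne f)
  have hm : Complex.exp (2 * Real.pi * Complex.I / f) ∈ primitiveRoots f ℂ :=
    (mem_primitiveRoots (Nat.pos_of_ne_zero (NeZero.ne f))).2 hp
  refine ⟨((AAP.zt_spec f F).embeddingsEquivPrimitiveRoots ℂ hirr).symm ⟨_, hm⟩, ?_⟩
  have h := (AAP.zt_spec f F).embeddingsEquivPrimitiveRoots_apply_coe ℂ hirr
    (((AAP.zt_spec f F).embeddingsEquivPrimitiveRoots ℂ hirr).symm ⟨_, hm⟩)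
  rw [Equiv.apply_symm_apply] at h
  exact h.symm

private theorem eta_emb_E {ι : F →ₐ[ℚ] ℂ}
    (hι : ι (AAP.zt f F) = Complex.exp (2 * Real.pi * Complex.I / f)) (x : ZMod f) :
    ι (etaE (AAP.zt f F) x) = Complex.exp ((2 * Real.pi * (x.val : ℝ) / f : ℝ) * Complex.I) := by
  unfold etaE
  rw [map_pow, hι, ← Complex.exp_nat_mul]
  congr 1
  push_cast
  ring

private theorem eta_emb_U {ι : F →ₐ[ℚ] ℂ}
    (hι : ι (AAP.zt f F) = Complex.exp (2 * Real.pi * Complex.I / f)) (x : ZMod f) :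
    ι (etaU (AAP.zt f F) x) = ((2 * Real.cos (2 * Real.pi * (x.val : ℝ) / f) : ℝ) : ℂ) := by
  have h1 := (AAP.zt_spec f F).pow_eq_one
  have h2 : ι (etaE (AAP.zt f F) x) * ι (etaE (AAP.zt f F) (-x)) = 1 := by
    rw [← map_mul, etaE_neg h1, map_one]
  have h3 := eta_emb_E hι x
  have h4 : ι (etaE (AAP.zt f F) (-x)) =
      Complex.exp (-(2 * Real.pi * (x.val : ℝ) / f : ℝ) * Complex.I) := by
    rw [neg_mul, Complex.exp_neg, ← h3]
    exact eq_inv_of_mul_eq_one_right h2
  unfold etaU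
  rw [map_add, h3, h4]
  push_cast
  rw [Complex.two_cos]

end gal

theorem eta {k : Type} [Field k] [CharP k 2] {f : ℕ} [NeZero f] (hf : 2 < f) (hodd : Odd f)
    (χ : (ZMod f)ˣ →* kˣ) {K F : Type} [Field K] [NumberField K] [IsGalois ℚ K] [Field F]
    [NumberField F] [IsCyclotomicExtension {f} ℚ F] [Algebra K F] (ψ : Gal(K/ℚ) →* kˣ)
    (hψ : Function.Injective ψ)
    (hcomp : ∀ σ : Gal(F/ℚ), ψ (rs (K := K) σ) = χ (AAP.gq f F σ)) :
    ∃ (η : (𝓞 K)ˣ) (φ : K →+* ℝ), ∀ b : (ZMod f)ˣ,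
      φ (((rs (K := K) ((AAP.gq f F).symm b) • η : (𝓞 K)ˣ) : 𝓞 K) : K) =
        ∏ a ∈ hset χ,
          2 * Real.cos (2 * Real.pi * (((a * b : (ZMod f)ˣ) : ZMod f).val : ℝ) / f) := by
  have hz := AAP.zt_spec f F
  have hzi : IsIntegral ℤ (AAP.zt f F) := hz.isIntegral (Nat.pos_of_ne_zero (NeZero.ne f))
  set u : (ZMod f)ˣ → F := fun a => etaU (AAP.zt f F) (a : ZMod f) with hu
  set w : (ZMod f)ˣ → F := fun a => etaW (AAP.zt f F) (a : ZMod f) with hw
  have hun : ∀ a, u (-a) = u a := fun a => by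
    simp only [hu, Units.val_neg, etaU_neg]
  have huw : ∀ a, u a * w a = 1 := fun a => etaU_mul_W hz hf hodd a
  have hσu : ∀ (σ : Gal(F/ℚ)) (a : (ZMod f)ˣ), σ (u a) = u (AAP.gq f F σ * a) := fun σ a => by
    simp only [hu, eta_gal_U, Units.val_mul]
  set E : F := ∏ a ∈ hset χ, u a with hE
  set E' : F := ∏ a ∈ hset χ, w a with hE'
  have hEE : E * E' = 1 := by
    rw [hE, hE', ← Finset.prod_mul_distrib]
    exact Finset.prod_eq_one fun a _ => huw a
  have hEi : IsIntegral ℤ E := IsIntegral.prod _ fun a _ => (eta_int hzi _).1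
  have hEi' : IsIntegral ℤ E' := IsIntegral.prod _ fun a _ => (eta_int hzi _).2
  have hfix : ∀ σ : Gal(F/ℚ), rs (K := K) σ = 1 → σ E = E := by
    intro σ hσ
    have h1 : χ (AAP.gq f F σ) = 1 := by rw [← hcomp, hσ, map_one]
    rw [hE, map_prod]
    simp only [hσu]
    exact eta_prod hf hodd χ u hun h1
  have hres : ∀ (σ : Gal(F/ℚ)) (x : K), algebraMap K F (rs (K := K) σ x) = σ (algebraMap K F x) :=
    fun σ x => AlgEquiv.restrictNormal_commutes σ K x
  have hFK : FiniteDimensional K F := Module.Finite.of_restrictScalars_finite ℚ K F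
  have hgF : IsGalois ℚ F := IsCyclotomicExtension.isGalois {f} ℚ F
  have hgK : IsGalois K F := IsGalois.tower_top_of_isGalois ℚ K F
  have hrange : E ∈ Set.range (algebraMap K F) := by
    rw [IsGalois.mem_range_algebraMap_iff_fixed]
    intro τ
    have h1 : rs (K := K) (τ.restrictScalars ℚ) = 1 := by
      apply AlgEquiv.ext
      intro x
      apply (algebraMap K F).injective
      rw [hres, AlgEquiv.restrictScalars_apply, τ.commutes, AlgEquiv.one_apply]
    exact hfix _ h1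
  obtain ⟨e, he⟩ := hrange
  have hinj : Function.Injective (algebraMap K F) := (algebraMap K F).injective
  have hei : IsIntegral ℤ e := by
    rw [← he] at hEi
    exact (isIntegral_algebraMap_iff hinj).1 hEi
  have hE0 : E ≠ 0 := left_ne_zero_of_mul_eq_one hEE
  have he' : algebraMap K F e⁻¹ = E' := by
    rw [map_inv₀, he]
    exact (eq_inv_of_mul_eq_one_right hEE).symm
  have hei' : IsIntegral ℤ e⁻¹ := by
    rw [← he'] at hEi'
    exact (isIntegral_algebraMap_iff hinj).1 hEi'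
  have he0 : e ≠ 0 := by
    rintro rfl
    exact hE0 (by rw [← he, map_zero])
  let η : (𝓞 K)ˣ :=
    { val := ⟨e, hei⟩
      inv := ⟨e⁻¹, hei'⟩
      val_inv := RingOfIntegers.ext (mul_inv_cancel₀ he0)
      inv_val := RingOfIntegers.ext (inv_mul_cancel₀ he0) }
  have hη : ((η : 𝓞 K) : K) = e := rfl
  obtain ⟨ι, hι⟩ := eta_exists_emb (F := F) (f := f)
  set ιK : K →+* ℂ := (ι : F →+* ℂ).comp (algebraMap K F) with hιK
  -- the embedding is real
  have hreal : ComplexEmbedding.IsReal ιK := by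
    rw [ComplexEmbedding.isReal_iff]
    set σ : Gal(F/ℚ) := (AAP.gq f F).symm (-1) with hσ
    have hgσ : AAP.gq f F σ = -1 := (AAP.gq f F).apply_symm_apply _
    have hσ1 : rs (K := K) σ = 1 := by
      apply hψ
      rw [hcomp, hgσ, eta_chi_neg, map_one, map_one]
    have hconj : ∀ y : F, (starRingEnd ℂ) (ι y) = ι (σ y) := by
      have h1 : (Complex.conjAe.restrictScalars ℚ).toAlgHom.comp ι = ι.comp σ.toAlgHom := by
        have hirr := Polynomial.cyclotomic.irreducible_rat (Nat.pos_of_ne_zero (NeZero.ne f))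
        apply ((AAP.zt_spec f F).embeddingsEquivPrimitiveRoots ℂ hirr).injective
        apply Subtype.ext
        rw [IsPrimitiveRoot.embeddingsEquivPrimitiveRoots_apply_coe,
          IsPrimitiveRoot.embeddingsEquivPrimitiveRoots_apply_coe]
        have h2 : σ (AAP.zt f F) = etaE (AAP.zt f F) (-1 : ZMod f) := by
          have h3 : AAP.zt f F = etaE (AAP.zt f F) (1 : ZMod f) := by
            have := etaE_nat (AAP.zt_spec f F).pow_eq_one 1
            rw [Nat.cast_one, pow_one] at this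
            exact this.symm
          conv_lhs => rw [h3]
          rw [eta_gal_E, hgσ, Units.val_neg, Units.val_one, mul_one]
        change (starRingEnd ℂ) (ι (AAP.zt f F)) = ι (σ (AAP.zt f F))
        have h4 : ι (AAP.zt f F) * ι (etaE (AAP.zt f F) (-1 : ZMod f)) = 1 := by
          have h5 := etaE_neg (AAP.zt_spec f F).pow_eq_one (1 : ZMod f)
          have h6 : etaE (AAP.zt f F) (1 : ZMod f) = AAP.zt f F := by
            have := etaE_nat (AAP.zt_spec f F).pow_eq_one 1
            rw [Nat.cast_one, pow_one] at this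
            exact this
          rw [h6] at h5
          rw [← map_mul, h5, map_one]
        rw [h2, eq_inv_of_mul_eq_one_right h4, hι, ← Complex.exp_neg, ← Complex.exp_conj]
        congr 1
        rw [map_div₀, map_mul, map_mul, Complex.conj_ofReal, Complex.conj_I, map_natCast,
          map_ofNat]
        ring
      intro y
      exact DFunLike.congr_fun h1 y
    ext x
    change (starRingEnd ℂ) (ι (algebraMap K F x)) = ι (algebraMap K F x)
    rw [hconj, ← hres, hσ1, AlgEquiv.one_apply]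
  refine ⟨η, hreal.embedding, ?_⟩
  intro b
  have h1 : ((hreal.embedding (((rs (K := K) ((AAP.gq f F).symm b) • η : (𝓞 K)ˣ) : 𝓞 K) : K) : ℝ) : ℂ)
      = ((∏ a ∈ hset χ,
          2 * Real.cos (2 * Real.pi * (((a * b : (ZMod f)ˣ) : ZMod f).val : ℝ) / f) : ℝ) : ℂ) := by
    rw [ComplexEmbedding.IsReal.coe_embedding_apply, val_smul]
    have h2 : (((rs (K := K) ((AAP.gq f F).symm b)) • (η : 𝓞 K) : 𝓞 K) : K) =
        rs (K := K) ((AAP.gq f F).symm b) e := rfl
    rw [h2]
    change ι (algebraMap K F (rs (K := K) ((AAP.gq f F).symm b) e)) = _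
    rw [hres, he, hE, map_prod, map_prod]
    simp only [hσu, MulEquiv.apply_symm_apply]
    rw [Complex.ofReal_prod]
    refine Finset.prod_congr rfl fun a _ => ?_
    simp only [hu]
    rw [eta_emb_U hι, mul_comm b a]
  exact_mod_cast h1

end Pool.Agent.FR2
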