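import Pool.Agent.FR2.DefsK

/-!
# The signature of units

`sg x = 1` if `x < 0`, `0` otherwise, and `sgs φ ψ u = ∑ ψ(σ)⁻¹ sg(φ(σ u))`.
-/

open NumberField Pointwise Finset

namespace Pool.Agent.FR2

/-- `1` if `x` is negative -/
noncomputable def sg {k : Type} [Field k] (x : ℝ) : k := if x < 0 then 1 else 0

/-- the `ψ`-part of the signature of a unit -/
noncomputable def sgs {k : Type} [Field k] {K : Type} [Field K] [NumberField K] (φ : K →+* ℝ)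
    (ψ : Gal(K/ℚ) →* kˣ) (u : (𝓞 K)ˣ) : k :=
  ∑ σ : Gal(K/ℚ), (((ψ σ)⁻¹ : kˣ) : k) * sg (φ (((σ • u : (𝓞 K)ˣ) : 𝓞 K) : K))

theorem sg_mul {k : Type} [Field k] [CharP k 2] {x y : ℝ} (hx : x ≠ 0) (hy : y ≠ 0) :
    (sg (x * y) : k) = sg x + sg y := by
  have h2 : (1 : k) + 1 = 0 := CharTwo.add_self_eq_zero 1
  unfold sg
  rcases lt_or_gt_of_ne hx with h | h <;> rcases lt_or_gt_of_ne hy with h' | h'
  · rw [if_neg (not_lt.2 (mul_pos_of_neg_of_neg h h').le), if_pos h, if_pos h', h2]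
  · rw [if_pos (mul_neg_of_neg_of_pos h h'), if_pos h, if_neg (not_lt.2 h'.le), add_zero]
  · rw [if_pos (mul_neg_of_pos_of_neg h h'), if_neg (not_lt.2 h.le), if_pos h', zero_add]
  · rw [if_neg (not_lt.2 (mul_pos h h').le), if_neg (not_lt.2 h.le), if_neg (not_lt.2 h'.le),
      add_zero]

private theorem Sgn_ne {K : Type} [Field K] [NumberField K] (φ : K →+* ℝ) (u : (𝓞 K)ˣ) :
    φ ((u : 𝓞 K) : K) ≠ 0 := by
  intro h
  have h1 : ((u : 𝓞 K) : K) = 0 := (map_eq_zero φ).1 h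
  exact NumberField.Units.coe_ne_zero u h1

theorem sgs_mul {k : Type} [Field k] [CharP k 2] {K : Type} [Field K] [NumberField K]
    (φ : K →+* ℝ) (ψ : Gal(K/ℚ) →* kˣ) (u v : (𝓞 K)ˣ) :
    sgs φ ψ (u * v) = sgs φ ψ u + sgs φ ψ v := by
  unfold sgs
  rw [← sum_add_distrib]
  refine sum_congr rfl fun σ _ => ?_
  have h1 : (((σ • (u * v) : (𝓞 K)ˣ) : 𝓞 K) : K) =
      (((σ • u : (𝓞 K)ˣ) : 𝓞 K) : K) * (((σ • v : (𝓞 K)ˣ) : 𝓞 K) : K) := by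
    rw [smul_mul']
    simp
  rw [h1, map_mul, sg_mul (Sgn_ne φ _) (Sgn_ne φ _), mul_add]

theorem sgs_smul {k : Type} [Field k] [CharP k 2] {K : Type} [Field K] [NumberField K]
    (φ : K →+* ℝ) (ψ : Gal(K/ℚ) →* kˣ) (τ : Gal(K/ℚ)) (u : (𝓞 K)ˣ) :
    sgs φ ψ (τ • u) = ψ τ * sgs φ ψ u := by
  unfold sgs
  rw [mul_sum]
  refine Fintype.sum_equiv (Equiv.mulRight τ) _ _ fun σ => ?_
  rw [Equiv.coe_mulRight, ← mul_smul, map_mul, mul_inv_rev, Units.val_mul, ← mul_assoc,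
    ← mul_assoc, ← Units.val_mul, mul_inv_cancel, Units.val_one, one_mul]

private theorem Sgn_smul {K : Type} [Field K] [NumberField K] (σ : Gal(K/ℚ)) (u : (𝓞 K)ˣ) :
    (((σ • u : (𝓞 K)ˣ) : 𝓞 K) : K) = σ ((u : 𝓞 K) : K) := rfl

theorem sgs_pos {k : Type} [Field k] {K : Type} [Field K] [NumberField K]
    (φ : K →+* ℝ) (ψ : Gal(K/ℚ) →* kˣ) (u : (𝓞 K)ˣ)
    (h : ∀ φ' : K →+* ℝ, 0 < φ' ((u : 𝓞 K) : K)) : sgs φ ψ u = 0 := by
  unfold sgs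
  refine sum_eq_zero fun σ _ => ?_
  have h1 := h (φ.comp (σ : K →+* K))
  rw [Sgn_smul]
  unfold sg
  rw [if_neg, mul_zero]
  rw [not_lt]
  exact h1.le

end Pool.Agent.FR2
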