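import Pool.Agent.FR2.Pr
import Pool.Agent.FR2.Sgn

/-!
# FR2-EtaS: the signature of the cyclotomic unit

`η` a unit of `K` whose conjugates are the products of the numbers `2 cos(2 π a b / f)` over the
half system `hset χ` of the kernel of `χ`. Its `ψ`-signature is `DD χ⁻¹`, the sum of `χ(a)⁻¹` over
`0 < a < f/4`.
-/

open NumberField Pointwise Finset

namespace Pool.Agent.FR2

private theorem EtaS_two (k : Type) [Field k] [CharP k 2] : (2 : k) = 0 := by
  have h4 : ((2 : ℕ) : k) = 0 := CharP.cast_eq_zero k 2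
  exact_mod_cast h4

private theorem EtaS_val {f : ℕ} [NeZero f] (hf : 2 < f) (a : (ZMod f)ˣ) :
    (a : ZMod f).val < f ∧ ((-a : (ZMod f)ˣ) : ZMod f).val = f - (a : ZMod f).val := by
  have : Fact (1 < f) := ⟨by omega⟩
  have h1 : (a : ZMod f) ≠ 0 := a.ne_zero
  have : NeZero (a : ZMod f) := ⟨h1⟩
  refine ⟨ZMod.val_lt _, ?_⟩
  rw [Units.val_neg, ZMod.val_neg_of_ne_zero]

private theorem EtaS_cos_ne {f : ℕ} [NeZero f] (hodd : Odd f) (v : ℕ) :
    2 * Real.cos (2 * Real.pi * (v : ℝ) / f) ≠ 0 := by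
  intro h
  have hf0 : (f : ℝ) ≠ 0 := Nat.cast_ne_zero.2 (NeZero.ne f)
  have h1 : Real.cos (2 * Real.pi * (v : ℝ) / f) = 0 := by linarith
  obtain ⟨n, hn⟩ := Real.cos_eq_zero_iff.1 h1
  have hpi := Real.pi_ne_zero
  have h2 : (4 * v : ℝ) = (2 * n + 1) * f := by
    field_simp at hn
    linarith
  have h3 : (4 * v : ℤ) = (2 * n + 1) * f := by exact_mod_cast h2
  obtain ⟨r, hr⟩ := hodd
  rw [hr] at h3
  push_cast at h3
  have h4 : (2 * (2 * (v : ℤ) - 2 * n * r - n - r)) = 1 := by linarith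
  omega

private noncomputable def EtaS_s {k : Type} [Field k] {f : ℕ} (y : (ZMod f)ˣ) : k :=
  sg (2 * Real.cos (2 * Real.pi * ((y : ZMod f).val : ℝ) / f))

private theorem EtaS_s_neg {k : Type} [Field k] {f : ℕ} [NeZero f] (hf : 2 < f) (y : (ZMod f)ˣ) :
    (EtaS_s (-y) : k) = EtaS_s y := by
  obtain ⟨h1, h2⟩ := EtaS_val hf y
  have hf0 : (f : ℝ) ≠ 0 := Nat.cast_ne_zero.2 (NeZero.ne f)
  unfold EtaS_s
  rw [h2, Nat.cast_sub h1.le]
  have e : 2 * Real.pi * ((f : ℝ) - ((y : ZMod f).val : ℝ)) / f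
      = 2 * Real.pi - 2 * Real.pi * ((y : ZMod f).val : ℝ) / f := by
    field_simp
  rw [e, Real.cos_two_pi_sub]

private theorem EtaS_s_eq {k : Type} [Field k] {f : ℕ} [NeZero f] (hodd : Odd f)
    (y : (ZMod f)ˣ) (hy : 2 * (y : ZMod f).val < f) :
    (EtaS_s y : k) = if 4 * (y : ZMod f).val < f then 0 else 1 := by
  set v := (y : ZMod f).val with hv
  have hf0 : (0 : ℝ) < f := Nat.cast_pos.2 (NeZero.pos f)
  have hpi := Real.pi_pos
  unfold EtaS_s sg
  rw [← hv]
  by_cases h : 4 * v < f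
  · rw [if_pos h, if_neg]
    rw [not_lt]
    have h1 : (4 * v : ℝ) < f := by exact_mod_cast h
    have h2 : 0 < Real.cos (2 * Real.pi * (v : ℝ) / f) := by
      refine Real.cos_pos_of_mem_Ioo ⟨?_, ?_⟩
      · have : 0 ≤ 2 * Real.pi * (v : ℝ) / f := by positivity
        linarith
      · rw [div_lt_iff₀ hf0]
        nlinarith
    linarith
  · rw [if_neg h, if_pos]
    have h0 : f < 4 * v := by
      obtain ⟨r, hr⟩ := hodd
      omega
    have h1 : (f : ℝ) < 4 * v := by exact_mod_cast h0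
    have h2 : (2 * v : ℝ) < f := by exact_mod_cast hy
    have h3 : Real.cos (2 * Real.pi * (v : ℝ) / f) < 0 := by
      refine Real.cos_neg_of_pi_div_two_lt_of_lt ?_ ?_
      · rw [lt_div_iff₀ hf0]
        nlinarith
      · rw [div_lt_iff₀ hf0]
        nlinarith
    linarith

private theorem EtaS_prod {k : Type} [Field k] [CharP k 2] {ι : Type*} (t : Finset ι) (g : ι → ℝ)
    (hg : ∀ i ∈ t, g i ≠ 0) : (sg (∏ i ∈ t, g i) : k) = ∑ i ∈ t, sg (g i) := by
  classical
  induction t using Finset.induction_on with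
  | empty =>
    rw [prod_empty, sum_empty]
    unfold sg
    rw [if_neg (by norm_num)]
  | insert i t hi ih =>
    rw [prod_insert hi, sum_insert hi, sg_mul (hg i (mem_insert_self i t)), ih]
    · exact fun j hj => hg j (mem_insert_of_mem hj)
    · exact prod_ne_zero_iff.2 fun j hj => hg j (mem_insert_of_mem hj)

private theorem EtaS_half {k : Type} [Field k] [CharP k 2] {f : ℕ} (hodd : Odd f)
    (a : (ZMod f)ˣ) : (if 2 * (a : ZMod f).val < f then (1 : k) else 0) = 1 + ep a := by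
  unfold ep
  by_cases h : 2 * (a : ZMod f).val < f
  · rw [if_pos h, if_neg (by omega), add_zero]
  · rw [if_neg h, if_pos (by obtain ⟨r, hr⟩ := hodd; omega)]
    linear_combination -EtaS_two k

theorem etaS {k : Type} [Field k] [CharP k 2] {f : ℕ} [NeZero f] (hf : 2 < f) (hodd : Odd f)
    (χ : (ZMod f)ˣ →* kˣ) (hχ : χ ≠ 1) {K F : Type} [Field K] [NumberField K] [IsGalois ℚ K]
    [Field F] [NumberField F] [IsCyclotomicExtension {f} ℚ F] [Algebra K F]
    (ψ : Gal(K/ℚ) →* kˣ) (hψ : Function.Injective ψ)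
    (hcomp : ∀ σ : Gal(F/ℚ), ψ (rs (K := K) σ) = χ (AAP.gq f F σ)) (η : (𝓞 K)ˣ) (φ : K →+* ℝ)
    (hη : ∀ b : (ZMod f)ˣ,
      φ (((rs (K := K) ((AAP.gq f F).symm b) • η : (𝓞 K)ˣ) : 𝓞 K) : K) =
        ∏ a ∈ hset χ,
          2 * Real.cos (2 * Real.pi * (((a * b : (ZMod f)ˣ) : ZMod f).val : ℝ) / f)) :
    sgs φ ψ η = DD χ⁻¹ := by
  classical
  set π : (ZMod f)ˣ → Gal(K/ℚ) := fun b => rs (K := K) ((AAP.gq f F).symm b) with hπ
  have hψπ : ∀ b, ψ (π b) = χ b := by
    intro b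
    rw [hπ]
    simp only
    rw [hcomp, MulEquiv.apply_symm_apply]
  have hsurj : Function.Surjective π := by
    intro σ
    have hG : IsGalois ℚ F := IsCyclotomicExtension.isGalois {f} ℚ F
    obtain ⟨τ, hτ⟩ := AlgEquiv.restrictNormalHom_surjective (F := ℚ) (K₁ := K) F σ
    exact ⟨AAP.gq f F τ, by rw [hπ]; simp only; rw [MulEquiv.symm_apply_apply]; exact hτ⟩
  choose c hc using hsurj
  have hχneg : ∀ a, χ (-a) = χ a := by
    have h1 : χ (-1) = 1 := by
      have h1 : χ (-1) * χ (-1) = 1 := by rw [← map_mul, neg_one_mul, neg_neg, map_one]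
      apply Units.ext
      have h2 : ((χ (-1) : kˣ) : k) * ((χ (-1) : kˣ) : k) = 1 := by
        rw [← Units.val_mul, h1, Units.val_one]
      have h3 : (((χ (-1) : kˣ) : k) - 1) * (((χ (-1) : kˣ) : k) - 1) = 0 := by
        have h4 := EtaS_two k
        linear_combination h2 - h4 * ((χ (-1) : kˣ) : k) + h4
      rw [Units.val_one]
      exact sub_eq_zero.1 (mul_self_eq_zero.1 h3)
    intro a
    rw [← neg_one_mul a, map_mul, h1, one_mul]
  have hπneg : ∀ a, π (-a) = π a := by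
    intro a
    apply hψ
    rw [hψπ, hψπ, hχneg]
  have hχc : ∀ σ, χ (c σ) = ψ σ := by
    intro σ
    rw [← hψπ, hc]
  -- the left side
  have hL : sgs φ ψ η = ∑ y : (ZMod f)ˣ, (((χ y)⁻¹ : kˣ) : k) *
      (EtaS_s y * (1 + ep (y * (c (π y))⁻¹))) := by
    unfold sgs
    have h1 : ∀ σ : Gal(K/ℚ), (((ψ σ)⁻¹ : kˣ) : k) * sg (φ (((σ • η : (𝓞 K)ˣ) : 𝓞 K) : K))
        = ∑ y : (ZMod f)ˣ, if σ = π y then (((χ y)⁻¹ : kˣ) : k) *
          (EtaS_s y * (1 + ep (y * (c σ)⁻¹))) else 0 := by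
      intro σ
      have h2 := hη (c σ)
      have h3 : rs (K := K) ((AAP.gq f F).symm (c σ)) = σ := hc σ
      rw [h3] at h2
      rw [h2, EtaS_prod _ _ (fun a _ => EtaS_cos_ne hodd _), mul_sum]
      unfold hset
      rw [sum_filter, ← Equiv.sum_comp (Equiv.mulRight (c σ)⁻¹)]
      refine sum_congr rfl fun y _ => ?_
      rw [Equiv.coe_mulRight, inv_mul_cancel_right]
      have h4 : χ (y * (c σ)⁻¹) = 1 ↔ σ = π y := by
        rw [map_mul, map_inv, mul_inv_eq_one, hχc, ← hψπ y]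
        exact ⟨fun h => (hψ h).symm, fun h => by rw [h]⟩
      by_cases h5 : σ = π y
      · rw [if_pos h5]
        have h6 : χ y = ψ σ := by rw [h5, hψπ]
        by_cases h7 : 2 * ((y * (c σ)⁻¹ : (ZMod f)ˣ) : ZMod f).val < f
        · rw [if_pos ⟨h4.2 h5, h7⟩, h6]
          have h8 := EtaS_half (k := k) hodd (y * (c σ)⁻¹)
          rw [if_pos h7] at h8
          rw [← h8, mul_one]
          rfl
        · rw [if_neg (fun h => h7 h.2)]
          have h8 := EtaS_half (k := k) hodd (y * (c σ)⁻¹)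
          rw [if_neg h7] at h8
          rw [← h8, mul_zero, mul_zero]
      · rw [if_neg h5, if_neg (fun h => h5 (h4.1 h.1))]
    rw [sum_congr rfl fun σ _ => h1 σ, sum_comm]
    refine sum_congr rfl fun y _ => ?_
    rw [sum_ite_eq' univ (π y) fun σ => (((χ y)⁻¹ : kˣ) : k) *
          (EtaS_s y * (1 + ep (y * (c σ)⁻¹))), if_pos (mem_univ _)]
  have hinv : χ⁻¹ ≠ 1 := by
    intro h
    apply hχ
    ext a
    have h1 := DFunLike.congr_fun h a
    rw [MonoidHom.inv_apply, MonoidHom.one_apply] at h1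
    rw [inv_eq_one.1 h1, MonoidHom.one_apply]
  have h2 := EtaS_two k
  have hE := sum_even (k := k) hf χ⁻¹ (fun y => EtaS_s y * (ep (y * (c (π y))⁻¹) + ep y))
    (fun y => by
      rw [EtaS_s_neg hf, hπneg, ep_neg hf hodd, neg_mul, ep_neg hf hodd]
      linear_combination EtaS_s y * h2)
  have hO := sum_odd (k := k) hf χ⁻¹ hinv (fun y => 1 + ep y) (fun y => by
    rw [ep_neg hf hodd])
  have hD : DD χ⁻¹ = ∑ y : (ZMod f)ˣ, (((χ⁻¹ y : kˣ) : k)) *
      (if 4 * (y : ZMod f).val < f then 1 else 0) := rfl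
  have hkey : ∀ y : (ZMod f)ˣ, (((χ y)⁻¹ : kˣ) : k) *
      (EtaS_s y * (1 + ep (y * (c (π y))⁻¹)))
      = (((χ⁻¹ y : kˣ) : k)) * (EtaS_s y * (ep (y * (c (π y))⁻¹) + ep y))
        + ((((χ⁻¹ y : kˣ) : k)) * (1 + ep y) + (((χ⁻¹ y : kˣ) : k)) *
      (if 4 * (y : ZMod f).val < f then 1 else 0)) := by
    intro y
    rw [MonoidHom.inv_apply]
    have h3 : (EtaS_s y : k) * (1 + ep y) = (1 + ep y) + (if 4 * (y : ZMod f).val < f then 1 else 0) := by
      have h8 := EtaS_half (k := k) hodd y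
      by_cases h7 : 2 * (y : ZMod f).val < f
      · rw [if_pos h7] at h8
        rw [← h8, EtaS_s_eq hodd y h7]
        by_cases h9 : 4 * (y : ZMod f).val < f
        · rw [if_pos h9, if_pos h9]
          linear_combination -h2
        · rw [if_neg h9, if_neg h9]
          ring
      · rw [if_neg h7] at h8
        rw [← h8, mul_zero, if_neg (by omega), add_zero]
    linear_combination (((χ y)⁻¹ : kˣ) : k) * h3 - (((χ y)⁻¹ : kˣ) : k) * EtaS_s y * ep y * h2
  rw [hL, sum_congr rfl fun y _ => hkey y, sum_add_distrib, sum_add_distrib, hE, hO, hD]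
  ring

end Pool.Agent.FR2
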