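import Pool.Agent.Helper60.FM.MainA
import Pool.Agent.AAP.Tame

/-!
# FR2-GaDet: the determinant from the trace in residue characteristic two, tame inertia

(1) `gaDet`: for 2x2 matrices `det B * tr C = tr (C B) * tr B - tr (C B B)` (Cayley-Hamilton). With `B = V g`, `C = V g₀`, modulo
elements of norm less than 1: `tr C ≡ χ₁(g₀) + χ₂(g₀)`, of norm 1, and the right side is
`≡ (χ₁(g₀ g) + χ₂(g₀ g)) (χ₁ g + χ₂ g) - χ₁(g₀ g g) - χ₂(g₀ g g) = χ₁ g χ₂ g (χ₁(g₀) + χ₂(g₀))`.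
(2) `gaTame`: `mat_eq_one` of AAP/Tame.lean with `s = tr - 2`, `t = 1 - tr + det` (Cayley-Hamilton).
-/

open Matrix

namespace Pool.Agent.FR2

open Pool.Agent.Helper60.FM

private theorem gaDet_ch {E : Type*} [CommRing E] (C B : Matrix (Fin 2) (Fin 2) E) :
    det B * trace C = trace (C * B) * trace B - trace (C * B * B) := by
  simp only [Matrix.trace_fin_two, Matrix.det_fin_two, Matrix.mul_apply, Fin.sum_univ_two]
  ring

theorem gaDet {E : Type*} [NormedField E] [IsUltrametricDist E] (h2 : ‖(2 : E)‖ < 1)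
    {G : Type*} [Group G] (V : G →* GL (Fin 2) E) (χ₁ χ₂ : G →* Eˣ)
    (h₁ : ∀ g, ‖(χ₁ g : E)‖ = 1) (h₂ : ∀ g, ‖(χ₂ g : E)‖ = 1)
    (htr : ∀ g, ‖trace (V g : Matrix (Fin 2) (Fin 2) E) - χ₁ g - χ₂ g‖ < 1)
    (g₀ : G) (hg₀ : 1 ≤ ‖(χ₁ g₀ : E) - χ₂ g₀‖) (g : G) :
    ‖det (V g : Matrix (Fin 2) (Fin 2) E) - χ₁ g * χ₂ g‖ < 1 := by
  have hC : ∀ g, AAP.Cg (trace (V g : Matrix (Fin 2) (Fin 2) E)) ((χ₁ g : E) + χ₂ g) := fun g => by
    have h := htr g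
    rw [sub_sub] at h
    exact h
  have hn : ∀ g, ‖(χ₁ g : E) + χ₂ g‖ ≤ 1 := fun g => norm_add_le_one E (h₁ g).le (h₂ g).le
  set B : Matrix (Fin 2) (Fin 2) E := (V g : Matrix (Fin 2) (Fin 2) E) with hB
  set C : Matrix (Fin 2) (Fin 2) E := (V g₀ : Matrix (Fin 2) (Fin 2) E) with hCC
  have e1 : (V (g₀ * g) : Matrix (Fin 2) (Fin 2) E) = C * B := by
    rw [map_mul, Units.val_mul]
  have e2 : (V (g₀ * g * g) : Matrix (Fin 2) (Fin 2) E) = C * B * B := by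
    rw [map_mul, Units.val_mul, e1]
  have c0 := hC g₀
  rw [← hCC] at c0
  have cB := hC g
  rw [← hB] at cB
  have c1 := hC (g₀ * g)
  rw [e1] at c1
  have c2 := hC (g₀ * g * g)
  rw [e2] at c2
  have hd : ‖(χ₁ g₀ : E) + χ₂ g₀‖ = 1 := by
    have h3 : ‖(χ₁ g₀ : E) - χ₂ g₀‖ = 1 := by
      refine le_antisymm ?_ hg₀
      rw [sub_eq_add_neg]
      exact norm_add_le_one E (h₁ g₀).le (by rw [norm_neg]; exact (h₂ g₀).le)
    refine AAP.Cg.norm_eq (y := (χ₁ g₀ : E) - χ₂ g₀) ?_ h3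
    have h4 : (χ₁ g₀ : E) + χ₂ g₀ - ((χ₁ g₀ : E) - χ₂ g₀) = 2 * χ₂ g₀ := by ring
    rw [AAP.Cg, h4, norm_mul, h₂ g₀, mul_one]
    exact h2
  have hT : ‖trace C‖ = 1 := c0.norm_eq hd
  have k1 : AAP.Cg (trace (C * B) * trace B - trace (C * B * B))
      (((χ₁ (g₀ * g) : E) + χ₂ (g₀ * g)) * ((χ₁ g : E) + χ₂ g) -
        ((χ₁ (g₀ * g * g) : E) + χ₂ (g₀ * g * g))) :=
    (c1.mul cB (hn _) (hn _)).sub c2
  have k2 : ((χ₁ (g₀ * g) : E) + χ₂ (g₀ * g)) * ((χ₁ g : E) + χ₂ g) -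
      ((χ₁ (g₀ * g * g) : E) + χ₂ (g₀ * g * g)) = (χ₁ g * χ₂ g) * ((χ₁ g₀ : E) + χ₂ g₀) := by
    simp only [map_mul, Units.val_mul]
    ring
  rw [k2, ← gaDet_ch] at k1
  have hp : ‖(χ₁ g * χ₂ g : E)‖ ≤ 1 := by
    rw [norm_mul, h₁ g, h₂ g, mul_one]
  have k3 : AAP.Cg ((χ₁ g * χ₂ g : E) * ((χ₁ g₀ : E) + χ₂ g₀)) ((χ₁ g * χ₂ g : E) * trace C) := by
    refine AAP.Cg.symm (AAP.Cg.mul AAP.Cg.rfl c0 hp hd.le)
  have k4 := k1.trans k3
  rw [AAP.Cg, ← sub_mul, norm_mul, hT, mul_one] at k4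
  exact k4

theorem gaTame {E : Type*} [NormedField E] [IsUltrametricDist E]
    (A : GL (Fin 2) E) (htr : ‖trace (A : Matrix (Fin 2) (Fin 2) E) - 2‖ < 1)
    (hdet : ‖det (A : Matrix (Fin 2) (Fin 2) E) - 1‖ < 1) (k : ℕ) (hk : ‖(k : E)‖ = 1)
    (hkA : A ^ k = 1) : A = 1 := by
  set B : Matrix (Fin 2) (Fin 2) E := (A : Matrix (Fin 2) (Fin 2) E) with hB
  have hCH : (B - 1) * (B - 1) = (trace B - 2) • (B - 1) -
      (1 - trace B + det B) • (1 : Matrix (Fin 2) (Fin 2) E) := by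
    have h3 : B * B = trace B • B - det B • (1 : Matrix (Fin 2) (Fin 2) E) := by
      ext i j
      rw [Matrix.trace_fin_two, Matrix.det_fin_two]
      fin_cases i <;> fin_cases j <;>
        simp [Matrix.mul_apply, Fin.sum_univ_two] <;> ring
    have h4 : (B - 1) * (B - 1) = B * B - B - B + 1 := by noncomm_ring
    rw [h4, h3]
    module
  have ht : ‖1 - trace B + det B‖ < 1 := by
    have h3 : 1 - trace B + det B = (det B - 1) + -(trace B - 2) := by ring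
    rw [h3]
    exact norm_add_lt_one E hdet (by rw [norm_neg]; exact htr)
  have h3 := AAP.mat_eq_one hk B (trace B - 2) (1 - trace B + det B) htr ht hCH (by
    rw [hB, ← Units.val_pow_eq_pow_val, hkA, Units.val_one])
  exact Units.ext h3

end Pool.Agent.FR2
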