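import Pool.Agent.FR2.GaKum
import Pool.Agent.FR2.GaDet

/-!
# FR2-GaDis: the main theorem for `p = 2` and distinct characters

As `main_distinct` (Helper60/FM/MainB.lean) with `p = 2` and without the cyclotomic character; complex conjugations are scalar
matrices, so they are in the kernel of the extension class, and `gaKum` gives the contradiction.
-/

open NumberField Pointwise Matrix

namespace Pool.Agent.FR2

open Pool.Agent.Helper60.FM

private theorem GaDis_scalar {E : Type*} [Field E] [CharZero E] {G : Type*} [Group G]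
    (V : G →* GL (Fin 2) E) (c : G) (hc : c * c = 1)
    (hdet : det (V c : Matrix (Fin 2) (Fin 2) E) = 1) (k : G) :
    c * k * c⁻¹ * k⁻¹ ∈ V.ker := by
  have h1 : (V c : Matrix (Fin 2) (Fin 2) E) * (V c : Matrix (Fin 2) (Fin 2) E) = 1 := by
    rw [← Units.val_mul, ← map_mul, hc, map_one, Units.val_one]
  have h2 : (trace (V c : Matrix (Fin 2) (Fin 2) E)) • (V c : Matrix (Fin 2) (Fin 2) E) =
      (2 : E) • (1 : Matrix (Fin 2) (Fin 2) E) := by
    set A := (V c : Matrix (Fin 2) (Fin 2) E) with hA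
    rw [Matrix.det_fin_two] at hdet
    have e00 := congrFun (congrFun h1 0) 0
    have e01 := congrFun (congrFun h1 0) 1
    have e10 := congrFun (congrFun h1 1) 0
    have e11 := congrFun (congrFun h1 1) 1
    simp only [Matrix.mul_apply, Fin.sum_univ_two, Matrix.one_apply_eq] at e00 e11
    simp only [Matrix.mul_apply, Fin.sum_univ_two] at e01 e10
    rw [Matrix.one_apply_ne (by decide)] at e01 e10
    ext i j
    rw [Matrix.smul_apply, Matrix.smul_apply, smul_eq_mul, smul_eq_mul, Matrix.trace_fin_two]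
    fin_cases i <;> fin_cases j
    · simp only [Fin.zero_eta, Matrix.one_apply_eq]
      linear_combination e00 + hdet
    · simp only [Fin.zero_eta, Fin.mk_one]
      rw [Matrix.one_apply_ne (by decide)]
      linear_combination e01
    · simp only [Fin.zero_eta, Fin.mk_one]
      rw [Matrix.one_apply_ne (by decide)]
      linear_combination e10
    · simp only [Fin.mk_one, Matrix.one_apply_eq]
      linear_combination e11 + hdet
  have h3 : trace (V c : Matrix (Fin 2) (Fin 2) E) ≠ 0 := by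
    intro h
    rw [h, zero_smul] at h2
    have h4 := congrFun (congrFun h2 0) 0
    rw [Matrix.smul_apply, Matrix.one_apply_eq, smul_eq_mul, mul_one, Matrix.zero_apply] at h4
    exact two_ne_zero h4.symm
  have h5 : (V c : Matrix (Fin 2) (Fin 2) E) =
      ((trace (V c : Matrix (Fin 2) (Fin 2) E))⁻¹ * 2) • (1 : Matrix (Fin 2) (Fin 2) E) := by
    rw [mul_smul, ← h2, smul_smul, inv_mul_cancel₀ h3, one_smul]
  have h6 : V c * V k = V k * V c := by
    apply Units.ext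
    rw [Units.val_mul, Units.val_mul, h5, smul_mul_assoc, one_mul, mul_smul_comm, mul_one]
  rw [MonoidHom.mem_ker, map_mul, map_mul, map_mul, h6, map_inv, map_inv, mul_inv_cancel_right,
    mul_inv_cancel]

theorem gaDis (K : IntermediateField ℚ Qb) [FiniteDimensional ℚ K] [IsAbelianGalois ℚ K]
    {E : Type*} [NormedField E] [IsUltrametricDist E] [CompleteSpace E] [NormedAlgebra ℚ_[2] E]
    (hKc : ∀ c : GQ, IsCC c → c ∈ K.fixingSubgroup)
    (χ₁ χ₂ : Gal(K/ℚ) →* Eˣ) (S : Set ℕ)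
    (hdec : ∀ P : Ideal (𝓞 K), P.IsPrime → P ≠ ⊥ → (∃ ℓ ∈ S, (ℓ : 𝓞 K) ∈ P) →
      ∃ σ : Gal(K/ℚ), σ • P = P ∧ 1 ≤ ‖(χ₂ σ : E) - χ₁ σ‖)
    (hcl : ∀ 𝔞 : Ideal (𝓞 K), 𝔞 ≠ ⊥ →
      (∀ n : Gal(K/ℚ) → ℕ, ‖∑ σ, (n σ : E) * ((χ₂ σ * (χ₁ σ)⁻¹ : Eˣ) : E)‖ < 1 →
        (∏ σ, (σ • 𝔞) ^ n σ).IsPrincipal) → 𝔞.IsPrincipal)
    (hun : ∀ u : (𝓞 K)ˣ, (∀ ι : K →+* ℝ, 0 < ι ((u : 𝓞 K) : K)) →
      (∀ n : Gal(K/ℚ) → ℕ, ‖∑ σ, (n σ : E) * ((χ₂ σ * (χ₁ σ)⁻¹ : Eˣ) : E)‖ < 1 →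
        ∃ w : (𝓞 K)ˣ, ∏ σ, (σ • (u : 𝓞 K)) ^ n σ = (w : 𝓞 K) ^ 2) →
      ∃ w : (𝓞 K)ˣ, (u : 𝓞 K) = (w : 𝓞 K) ^ 2)
    (hχ : ∃ σ, 1 ≤ ‖(χ₁ σ : E) - χ₂ σ‖)
    (V : GQ →* GL (Fin 2) E) (hV : Continuous V)
    (htr : ∀ g, ‖trace (V g : Matrix (Fin 2) (Fin 2) E) - χ₁ (res K g) - χ₂ (res K g)‖ < 1)
    (hunr : ∀ ℓ : ℕ, ℓ.Prime → ℓ ∉ S → UnramAt V ℓ)
    (heven : ∀ c : GQ, IsCC c → det (V c : Matrix (Fin 2) (Fin 2) E) = 1) :
    ∃ v : Fin 2 → E, v ≠ 0 ∧ ∀ g, ∃ c : E, (V g : Matrix (Fin 2) (Fin 2) E) *ᵥ v = c • v := by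
  classical
  by_contra hline
  have hE0 : CharZero E := charZero_of_injective_algebraMap (algebraMap ℚ_[2] E).injective
  have h2E : ‖(2 : E)‖ < 1 := by
    have := (norm_natCast_lt_one_iff (p := 2) (E := E) 2).2 dvd_rfl
    exact_mod_cast this
  have hn₁ : ∀ σ, ‖(χ₁ σ : E)‖ = 1 := norm_chi χ₁
  have hn₂ : ∀ σ, ‖(χ₂ σ : E)‖ = 1 := norm_chi χ₂
  have hchar : CharP (kE E) 2 := charP_kE 2 E
  -- the extension class
  obtain ⟨σ₀, hσ₀⟩ := hχ
  obtain ⟨g₀, hg₀⟩ := AlgEquiv.restrictNormalHom_surjective (F := ℚ) (K₁ := K) Qb σ₀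
  have hg₀' : 1 ≤ ‖((χ₁.comp (res K)) g₀ : E) - (χ₂.comp (res K)) g₀‖ := by
    rw [MonoidHom.comp_apply, MonoidHom.comp_apply]
    change 1 ≤ ‖(χ₁ (AlgEquiv.restrictNormalHom K g₀) : E) -
      (χ₂ (AlgEquiv.restrictNormalHom K g₀) : E)‖
    rw [hg₀]
    exact hσ₀
  have hdet := gaDet h2E V (χ₁.comp (res K)) (χ₂.comp (res K)) (fun g => hn₁ _)
    (fun g => hn₂ _) htr g₀ hg₀'
  obtain ⟨b, hb1, ⟨k₀, hk₀, hbk₀⟩, hbmul, hopen, hker⟩ := exists_bdata V hV
    (χ₁.comp (res K)) (χ₂.comp (res K)) (fun g => hn₁ _) (fun g => hn₂ _) htr hdet g₀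
    (by
      apply le_antisymm
      · rw [sub_eq_add_neg]
        exact norm_add_le_one E (hn₁ _).le (by rw [norm_neg]; exact (hn₂ _).le)
      · exact hg₀')
    K.fixingSubgroup
    (fun k hk => by
      rw [MonoidHom.comp_apply, (mem_fix_iff_res K k).1 hk, map_one])
    (fun k hk => by
      rw [MonoidHom.comp_apply, (mem_fix_iff_res K k).1 hk, map_one])
    (comm_mem_fix K) hline
  -- reductions
  let B : GQ → kE E := fun g => red (b g)
  let C₁ : GQ →* kE E := (redHom χ₁).comp (res K)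
  let C₂ : GQ →* kE E := (redHom χ₂).comp (res K)
  have hBmul : ∀ g h, B (g * h) = C₁ g * B h + B g * C₂ h := by
    intro g h
    have e1 : ‖(χ₁ (res K g) : E) * b h‖ ≤ 1 := by
      rw [norm_mul, hn₁, one_mul]; exact hb1 h
    have e2 : ‖b g * (χ₂ (res K h) : E)‖ ≤ 1 := by
      rw [norm_mul, hn₂, mul_one]; exact hb1 g
    have e3 := (red_eq_red (hb1 (g * h)) (norm_add_le_one E e1 e2)).2 (hbmul g h)
    change red (b (g * h)) = _
    rw [e3, red_add e1 e2, red_mul (hn₁ _).le (hb1 h), red_mul (hb1 g) (hn₂ _).le]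
    rfl
  have hB0 : ∀ g, B g = 0 ↔ ‖b g‖ < 1 := fun g => red_eq_zero (hb1 g)
  have hC₁ : ∀ g, C₁ g = 1 ↔ ‖(χ₁ (res K g) : E) - 1‖ < 1 := by
    intro g
    rw [← red_eq_red (hn₁ _).le (by simp), red_one]
    rfl
  have hC₂ : ∀ g, C₂ g = 1 ↔ ‖(χ₂ (res K g) : E) - 1‖ < 1 := by
    intro g
    rw [← red_eq_red (hn₂ _).le (by simp), red_one]
    rfl
  have hB1 : B 1 = 0 := (hB0 1).2 (hker 1 (Subgroup.one_mem _)).1
  have hfixC₁ : ∀ k ∈ K.fixingSubgroup, C₁ k = 1 := by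
    intro k hk
    change redHom χ₁ (res K k) = 1
    rw [(mem_fix_iff_res K k).1 hk, map_one]
  have hfixC₂ : ∀ k ∈ K.fixingSubgroup, C₂ k = 1 := by
    intro k hk
    change redHom χ₂ (res K k) = 1
    rw [(mem_fix_iff_res K k).1 hk, map_one]
  have hne : C₁ g₀ ≠ C₂ g₀ := by
    intro h
    have h1 : red (χ₁ (res K g₀) : E) = red (χ₂ (res K g₀) : E) := h
    rw [red_eq_red (hn₁ _).le (hn₂ _).le] at h1
    exact absurd h1 (not_lt.2 hg₀')
  -- the functional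
  let _ : Algebra (ZMod 2) (kE E) := ZMod.algebra (kE E) 2
  have hBk₀ : B k₀ ≠ 0 := by
    intro h
    have := (hB0 k₀).1 h
    rw [hbk₀] at this
    exact lt_irrefl _ this
  obtain ⟨f, hf⟩ : ∃ f : Module.Dual (ZMod 2) (kE E), f (B k₀) ≠ 0 := by
    by_contra hcon
    push Not at hcon
    exact hBk₀ ((Module.forall_dual_apply_eq_zero_iff (ZMod 2) (B k₀)).1 hcon)
  -- the character `χ₂/χ₁`
  let χ : Gal(K/ℚ) →* Eˣ := χ₂ / χ₁
  have hχval : ∀ σ, (χ σ : E) = (χ₂ σ * (χ₁ σ)⁻¹ : Eˣ) := by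
    intro σ
    change ((χ₂ σ / χ₁ σ : Eˣ) : E) = _
    rw [div_eq_mul_inv]
  have hχ₁ : ∀ σ, redHom χ₁ σ * redHom χ σ = redHom χ₂ σ := by
    intro σ
    rw [redHom_apply, redHom_apply, redHom_apply, ← red_mul (hn₁ σ).le (norm_chi χ σ).le, hχval,
      ← Units.val_mul, mul_comm (χ₂ σ), mul_inv_cancel_left]
  have hr₁ : ∀ σ, redHom χ₁ σ ≠ 0 := by
    intro σ h
    have := map_mul_eq_one (redHom χ₁) (mul_inv_cancel σ)
    rw [h, zero_mul] at this
    exact zero_ne_one this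
  let D : KData 2 K (fun _ => 1) (kE E) :=
    { ψ := redHom χ
      F := fun k => f.toAddMonoidHom.comp (AddMonoidHom.mulRight (B k))
      F_mul := by
        intro k hk k' hk' y
        change f (y * B (k * k')) = f (y * B k) + f (y * B k')
        rw [hBmul, hfixC₁ k hk, hfixC₂ k' hk', one_mul, mul_one, mul_add, map_add, add_comm]
      F_conj := by
        intro g k hk y
        change ((1 : ℕ) : ZMod 2) * f (y * B (g⁻¹ * k * g)) = f (redHom χ (res K g) * y * B k)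
        have e1 : B (k * g) = B g + B k * C₂ g := by
          rw [hBmul, hfixC₁ k hk, one_mul]
        have e2 : B (g * (g⁻¹ * k * g)) = C₁ g * B (g⁻¹ * k * g) + B g := by
          rw [hBmul, hfixC₂ _ (conj_mem_fix K g hk), mul_one]
        have e3 : g * (g⁻¹ * k * g) = k * g := by group
        rw [e3, e1] at e2
        have e4 : B k * C₂ g = C₁ g * B (g⁻¹ * k * g) := by
          have := e2
          rw [add_comm] at this
          exact add_right_cancel this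
        have e5 : C₁ g * B (g⁻¹ * k * g) = C₁ g * (redHom χ (res K g) * B k) := by
          rw [← e4, ← mul_assoc]
          have : C₁ g * redHom χ (res K g) = C₂ g := hχ₁ _
          rw [this, mul_comm]
        have e6 : B (g⁻¹ * k * g) = redHom χ (res K g) * B k := mul_left_cancel₀ (hr₁ _) e5
        rw [e6, Nat.cast_one, one_mul]
        congr 1
        ring
      ne := by
        refine ⟨k₀, hk₀, ?_⟩
        change f (1 * B k₀) ≠ 0
        rw [one_mul]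
        exact hf
      fo := by
        intro z hz hz0
        refine finite_order (p := 2) (Set.range (redHom χ)) (Set.finite_range _) ?_ z hz hz0
        rintro _ ⟨σ, rfl⟩
        exact ⟨Nat.card Gal(K/ℚ), Nat.card_pos, by
          rw [← map_pow, pow_card_eq_one', map_one]⟩ }
  have hDψ : ∀ σ, D.ψ σ = redHom χ σ := fun σ => rfl
  -- the field cut out by the class
  let N := (rho C₁ C₂ B hB1 hBmul).ker
  have hNmem : ∀ g, g ∈ N ↔ B g = 0 ∧ C₁ g = 1 ∧ C₂ g = 1 := mem_ker_rho C₁ C₂ B hB1 hBmul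
  have hNopen : IsOpen (N : Set GQ) := by
    have hset : (N : Set GQ) = {g : GQ | ‖b g‖ < 1 ∧ ‖((χ₁.comp (res K)) g : E) - 1‖ < 1 ∧
        ‖((χ₂.comp (res K)) g : E) - 1‖ < 1} := by
      ext g
      change g ∈ N ↔ _
      rw [hNmem, hB0, hC₁, hC₂]
      rfl
    rw [hset]
    exact hopen
  obtain ⟨hfd, hgal, hfix⟩ := open_field N hNopen
  have hsum : ∀ n : Gal(K/ℚ) → ℕ, ‖∑ σ, (n σ : E) * ((χ₂ σ * (χ₁ σ)⁻¹ : Eˣ) : E)‖ < 1 →
      ∑ σ, (n σ : kE E) * D.ψ σ = 0 := by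
    intro n hn
    have e0 : ∀ σ ∈ (Finset.univ : Finset Gal(K/ℚ)),
        ‖(n σ : E) * ((χ₂ σ * (χ₁ σ)⁻¹ : Eˣ) : E)‖ ≤ 1 := by
      intro σ _
      rw [← hχval, norm_mul, norm_chi χ, mul_one]
      exact norm_natCast_le_one _
    have e1 := red_sum Finset.univ _ e0
    rw [(red_eq_zero e1.1).2 hn] at e1
    rw [e1.2]
    refine Finset.sum_congr rfl (fun σ _ => ?_)
    rw [hDψ, ← hχval, red_mul (norm_natCast_le_one _) (norm_chi χ σ).le, red_natCast]
    rfl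
  refine gaKum D (IntermediateField.fixedField N)
    (by
      intro k hk y
      have : k ∈ N := by
        rw [← hfix]
        exact hk.2
      change f (y * B k) = 0
      rw [((hNmem k).1 this).1, mul_zero, map_zero])
    (by
      intro c hc
      have hcK := hKc c hc
      refine ⟨hcK, ?_⟩
      rw [hfix]
      refine (hNmem c).2 ?_
      have hc1 := hfixC₁ c hcK
      have hc2 := hfixC₂ c hcK
      refine ⟨?_, hc1, hc2⟩
      have h1 := hker _ (GaDis_scalar V c (isCC_mul_self hc) (heven c hc) g₀)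
      have h2 : B (c * g₀ * c⁻¹ * g₀⁻¹) = 0 := (hB0 _).2 h1.1
      have h3 : C₁ (c * g₀ * c⁻¹ * g₀⁻¹) = 1 := (hC₁ _).2 h1.2.1
      have h4 : B (c * g₀) = B (g₀ * c) := by
        have h5 : c * g₀ = (c * g₀ * c⁻¹ * g₀⁻¹) * (g₀ * c) := by group
        rw [h5, hBmul (c * g₀ * c⁻¹ * g₀⁻¹), h2, h3, one_mul, zero_mul, add_zero]
      rw [hBmul, hBmul, hc1, hc2] at h4
      have h6 : B c * (C₂ g₀ - C₁ g₀) = 0 := by linear_combination h4
      rcases mul_eq_zero.1 h6 with h7 | h7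
      · exact h7
      · exact absurd (sub_eq_zero.1 h7).symm hne)
    S
    (by
      intro ℓ hℓ hℓS
      refine hunr ℓ hℓ hℓS _ hfd hgal ?_
      rw [hfix]
      intro g hg
      rw [hNmem, hB0, hC₁, hC₂]
      exact hker g hg)
    (by
      intro P hP hP0 hℓ
      obtain ⟨σ, hσ, hσ1⟩ := hdec P hP hP0 hℓ
      refine ⟨σ, hσ, fun hcon => ?_⟩
      rw [hDψ] at hcon
      have e1 : redHom χ₂ σ = redHom χ₁ σ := by
        rw [← hχ₁, hcon, mul_one]
      rw [redHom_apply, redHom_apply, red_eq_red (hn₂ σ).le (hn₁ σ).le] at e1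
      exact absurd e1 (not_lt.2 hσ1))
    (fun 𝔞 h𝔞 h => hcl 𝔞 h𝔞 (fun n hn => h n (hsum n hn)))
    (fun u hu h => hun u hu (fun n hn => h n (hsum n hn)))

end Pool.Agent.FR2
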