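import Pool.Agent.Helper60.FM.ModA

/-!
# FR2-GaBd: the extension class and a line which is stable under a subgroup

The theorem `exists_bdata` (Helper60/FM/ModA.lean) with one more clause: if `D` is a subgroup
containing `g₀` and a line is stable under `D`, with an eigenvalue of `V g₀` on it congruent to
`χ₂ g₀`, then the entry `b` is small on `D` (it vanishes there).
-/

open Matrix

namespace Pool.Agent.FR2

open Pool.Agent.Helper60.FM

theorem gaBd {E : Type*} [NormedField E] [IsUltrametricDist E] [CompleteSpace E]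
    {G : Type*} [Group G] [TopologicalSpace G] [IsTopologicalGroup G]
    [CompactSpace G] (V : G →* GL (Fin 2) E) (hV : Continuous V)
    (χ₁ χ₂ : G →* Eˣ) (h₁ : ∀ g, ‖(χ₁ g : E)‖ = 1) (h₂ : ∀ g, ‖(χ₂ g : E)‖ = 1)
    (htr : ∀ g, ‖trace (V g : Matrix (Fin 2) (Fin 2) E) - χ₁ g - χ₂ g‖ < 1)
    (hdet : ∀ g, ‖det (V g : Matrix (Fin 2) (Fin 2) E) - χ₁ g * χ₂ g‖ < 1)
    (g₀ : G) (hg₀ : ‖(χ₁ g₀ : E) - χ₂ g₀‖ = 1)
    (N : Subgroup G) (hN₁ : ∀ k ∈ N, χ₁ k = 1) (hN₂ : ∀ k ∈ N, χ₂ k = 1)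
    (hab : ∀ g h : G, g * h * g⁻¹ * h⁻¹ ∈ N)
    (hline : ¬ ∃ v : Fin 2 → E, v ≠ 0 ∧ ∀ g, ∃ c : E,
      (V g : Matrix (Fin 2) (Fin 2) E) *ᵥ v = c • v) :
    ∃ b : G → E, (∀ g, ‖b g‖ ≤ 1) ∧ (∃ k ∈ N, ‖b k‖ = 1) ∧
      (∀ g h, ‖b (g * h) - ((χ₁ g : E) * b h + b g * χ₂ h)‖ < 1) ∧
      IsOpen {g : G | ‖b g‖ < 1 ∧ ‖(χ₁ g : E) - 1‖ < 1 ∧ ‖(χ₂ g : E) - 1‖ < 1} ∧
      (∀ g ∈ V.ker, ‖b g‖ < 1 ∧ ‖(χ₁ g : E) - 1‖ < 1 ∧ ‖(χ₂ g : E) - 1‖ < 1) ∧
      ∀ (D : Subgroup G), g₀ ∈ D → ∀ v : Fin 2 → E, v ≠ 0 →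
        (∀ g ∈ D, ∃ c : E, (V g : Matrix (Fin 2) (Fin 2) E) *ᵥ v = c • v) →
        (∀ c : E, (V g₀ : Matrix (Fin 2) (Fin 2) E) *ᵥ v = c • v → ‖c - χ₂ g₀‖ < 1) →
        ∀ g ∈ D, ‖b g‖ < 1 := by
  classical
  set T : G → E := fun g => trace (V g : Matrix (Fin 2) (Fin 2) E) with hT
  obtain ⟨l₁, hl₁, hl₁c⟩ := exists_root_quadratic (T g₀)
    (det (V g₀ : Matrix (Fin 2) (Fin 2) E)) (χ₁ g₀ : E) (χ₂ g₀ : E) (h₁ g₀) (htr g₀) (hdet g₀) hg₀
  set l₂ : E := T g₀ - l₁ with hl₂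
  have hl₂c : ‖l₂ - χ₂ g₀‖ < 1 := by
    have e : l₂ - χ₂ g₀ = (T g₀ - χ₁ g₀ - χ₂ g₀) - (l₁ - χ₁ g₀) := by rw [hl₂]; ring
    rw [e]
    exact sm_sub (htr g₀) hl₁c
  have hl12 : ‖l₁ - l₂‖ = 1 := by
    refine norm_one_of_sub hg₀ ?_
    have e : l₁ - l₂ - (χ₁ g₀ - χ₂ g₀) = (l₁ - χ₁ g₀) - (l₂ - χ₂ g₀) := by ring
    rw [e]
    exact sm_sub hl₁c hl₂c
  have hl12' : l₁ - l₂ ≠ 0 := by
    intro h
    rw [h, norm_zero] at hl12
    exact zero_ne_one hl12
  have hl₁n : ‖l₁‖ = 1 := norm_one_of_sub (h₁ g₀) hl₁c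
  have hl₂n : ‖l₂‖ = 1 := norm_one_of_sub (h₂ g₀) hl₂c
  obtain ⟨P, hP⟩ := exists_diag (V g₀ : Matrix (Fin 2) (Fin 2) E) l₁ l₂ (sub_ne_zero.1 hl12')
    (by rw [hl₂]; ring) (by rw [hl₂]; linear_combination hl₁)
  -- the conjugated representation
  set W : G → Matrix (Fin 2) (Fin 2) E :=
    fun g => ((P⁻¹ * V g * P : GL (Fin 2) E) : Matrix (Fin 2) (Fin 2) E) with hW
  have hWmul : ∀ g h, W (g * h) = W g * W h := by
    intro g h
    simp only [hW]
    rw [← Units.val_mul, map_mul]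
    congr 1
    group
  have hWone : ∀ g, V g = 1 → W g = 1 := by
    intro g hg
    simp only [hW]
    rw [hg, mul_one, inv_mul_cancel, Units.val_one]
  have hPW : ∀ g, (V g : Matrix (Fin 2) (Fin 2) E) * (P : Matrix (Fin 2) (Fin 2) E)
      = (P : Matrix (Fin 2) (Fin 2) E) * W g := by
    intro g
    simp only [hW]
    rw [← Units.val_mul, ← Units.val_mul]
    congr 1
    group
  have hW0 : W g₀ = !![l₁, 0; 0, l₂] := by
    have h := (hPW g₀).symm.trans hP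
    have h2 := congrArg (fun M => ((P⁻¹ : GL (Fin 2) E) : Matrix (Fin 2) (Fin 2) E) * M) h
    simp only [← mul_assoc] at h2
    rw [← Units.val_mul, inv_mul_cancel, Units.val_one, one_mul, one_mul] at h2
    exact h2
  have hWtr : ∀ g, W g 0 0 + W g 1 1 = T g := by
    intro g
    have : trace (W g) = T g := by
      simp only [hW, hT, Units.val_mul]
      rw [trace_mul_comm, ← mul_assoc, ← Units.val_mul, mul_inv_cancel, Units.val_one, one_mul]
    rw [← this, trace_fin_two]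
  have hWcont : ∀ i j, Continuous fun g => W g i j := by
    intro i j
    have h1 : Continuous fun g => (V g : Matrix (Fin 2) (Fin 2) E) := Units.continuous_val.comp hV
    have h2 : Continuous W := by
      simp only [hW, Units.val_mul]
      exact (continuous_const.matrix_mul h1).matrix_mul continuous_const
    exact h2.matrix_elem i j
  -- the diagonal entries
  have hTl : ∀ g, ‖T g‖ ≤ 1 := by
    intro g
    have e : T g = (T g - χ₁ g - χ₂ g) + (χ₁ g + χ₂ g) := by ring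
    rw [e]
    exact le_add' (htr g).le (le_add' (h₁ g).le (h₂ g).le)
  have hT0 : ∀ g, T (g₀ * g) = l₁ * W g 0 0 + l₂ * W g 1 1 := by
    intro g
    rw [← hWtr, hWmul, hW0]
    simp [mul_apply, Fin.sum_univ_two]
  have hτ : ∀ g, ‖T g - χ₁ g - χ₂ g‖ < 1 := htr
  have ha : ∀ g, ‖W g 0 0 - χ₁ g‖ < 1 := by
    intro g
    have e : (l₁ - l₂) * (W g 0 0 - χ₁ g)
        = (T (g₀ * g) - χ₁ (g₀ * g) - χ₂ (g₀ * g)) - χ₂ g₀ * (T g - χ₁ g - χ₂ g)
          - (l₂ - χ₂ g₀) * χ₂ g - (l₂ - χ₂ g₀) * (T g - χ₁ g - χ₂ g) - (l₁ - χ₁ g₀) * χ₁ g := by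
      rw [map_mul, map_mul, Units.val_mul, Units.val_mul]
      linear_combination (-1 : E) * hT0 g - l₂ * hWtr g
    have h : ‖(l₁ - l₂) * (W g 0 0 - χ₁ g)‖ < 1 := by
      rw [e]
      refine sm_sub (sm_sub (sm_sub (sm_sub (hτ _) ?_) ?_) ?_) ?_
      · exact sm_mul_left (h₂ _).le (hτ _)
      · exact sm_mul_right hl₂c (h₂ _).le
      · exact sm_mul_right hl₂c (hτ _).le
      · exact sm_mul_right hl₁c (h₁ _).le
    rwa [norm_mul, hl12, one_mul] at h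
  have hd : ∀ g, ‖W g 1 1 - χ₂ g‖ < 1 := by
    intro g
    have e : W g 1 1 - χ₂ g = (T g - χ₁ g - χ₂ g) - (W g 0 0 - χ₁ g) := by
      rw [← hWtr]; ring
    rw [e]
    exact sm_sub (hτ g) (ha g)
  have han : ∀ g, ‖W g 0 0‖ = 1 := fun g => norm_one_of_sub (h₁ g) (ha g)
  have hdn : ∀ g, ‖W g 1 1‖ = 1 := fun g => norm_one_of_sub (h₂ g) (hd g)
  -- the upper right entry
  have hbne : ∃ g, W g 0 1 ≠ 0 := by
    by_contra hcon
    push Not at hcon
    refine hline ⟨(P : Matrix (Fin 2) (Fin 2) E) *ᵥ Pi.single 1 1, ?_, fun g => ⟨W g 1 1, ?_⟩⟩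
    · intro h0
      have h3 := congrArg
        (fun v => ((P⁻¹ : GL (Fin 2) E) : Matrix (Fin 2) (Fin 2) E) *ᵥ v) h0
      simp only [mulVec_mulVec, mulVec_zero] at h3
      rw [← Units.val_mul, inv_mul_cancel, Units.val_one, one_mulVec] at h3
      have := congrFun h3 1
      simp at this
    · rw [mulVec_mulVec, hPW g, ← mulVec_mulVec, ← mulVec_smul]
      congr 1
      funext i
      fin_cases i
      · simp [hcon g]
      · simp
  obtain ⟨g₁, -, hg₁⟩ := isCompact_univ.exists_isMaxOn (s := (Set.univ : Set G))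
    ⟨1, Set.mem_univ _⟩ (hWcont 0 1).norm.continuousOn
  have hmax : ∀ g, ‖W g 0 1‖ ≤ ‖W g₁ 0 1‖ := fun g => hg₁ (Set.mem_univ g)
  have hb1 : W g₁ 0 1 ≠ 0 := by
    obtain ⟨g, hg⟩ := hbne
    intro h0
    have := hmax g
    rw [h0, norm_zero] at this
    exact hg (norm_eq_zero.1 (le_antisymm this (norm_nonneg _)))
  have hb1' : 0 < ‖W g₁ 0 1‖ := norm_pos_iff.2 hb1
  set b : G → E := fun g => W g 0 1 / W g₁ 0 1 with hb
  have hble : ∀ g, ‖b g‖ ≤ 1 := by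
    intro g
    simp only [hb]
    rw [norm_div, div_le_one hb1']
    exact hmax g
  have hbg₁ : b g₁ = 1 := div_self hb1
  have hbmul : ∀ g h, b (g * h) = W g 0 0 * b h + b g * W h 1 1 := by
    intro g h
    simp only [hb]
    rw [hWmul, mul_apply, Fin.sum_univ_two]
    ring
  have hbg₀ : b g₀ = 0 := by
    simp only [hb]
    rw [hW0]
    simp
  have hset : {g : G | ‖b g‖ < 1 ∧ ‖(χ₁ g : E) - 1‖ < 1 ∧ ‖(χ₂ g : E) - 1‖ < 1}
      = {g : G | ‖b g‖ < 1 ∧ ‖W g 0 0 - 1‖ < 1 ∧ ‖W g 1 1 - 1‖ < 1} := by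
    have hiff : ∀ x y : E, ‖x - y‖ < 1 → (‖y - 1‖ < 1 ↔ ‖x - 1‖ < 1) := by
      intro x y hxy
      constructor
      · intro h
        have := sm_add hxy h
        rwa [sub_add_sub_cancel] at this
      · intro h
        have := sm_sub h hxy
        rwa [sub_sub_sub_cancel_left] at this
    ext g
    show (‖b g‖ < 1 ∧ ‖(χ₁ g : E) - 1‖ < 1 ∧ ‖(χ₂ g : E) - 1‖ < 1)
      ↔ (‖b g‖ < 1 ∧ ‖W g 0 0 - 1‖ < 1 ∧ ‖W g 1 1 - 1‖ < 1)
    rw [hiff _ _ (ha g), hiff _ _ (hd g)]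
  refine ⟨b, hble, ?_, ?_, ?_, ?_, ?_⟩
  · by_contra hcon
    push Not at hcon
    have hlt : ∀ k ∈ N, ‖b k‖ < 1 := fun k hk => lt_of_le_of_ne (hble k) (hcon k hk)
    set k : G := g₁ * g₀ * g₁⁻¹ * g₀⁻¹ with hk
    have hkN : k ∈ N := hab g₁ g₀
    have hkey : k * (g₀ * g₁) = g₁ * g₀ := by rw [hk]; group
    have e1 : b (g₁ * g₀) = b g₁ * l₂ := by
      rw [hbmul, hbg₀, mul_zero, zero_add, hW0]
      simp
    have e2 : b (g₀ * g₁) = l₁ * b g₁ := by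
      rw [hbmul, hbg₀, zero_mul, add_zero, hW0]
      simp
    have e3 : b g₁ * (l₂ - l₁) = (W k 0 0 - 1) * (l₁ * b g₁) + b k * W (g₀ * g₁) 1 1 := by
      have h := hbmul k (g₀ * g₁)
      rw [hkey, e1, e2] at h
      linear_combination h
    have h4 : ‖W k 0 0 - 1‖ < 1 := by
      have h := ha k
      rw [hN₁ k hkN, Units.val_one] at h
      exact h
    have h5 : ‖b g₁ * (l₂ - l₁)‖ < 1 := by
      rw [e3]
      refine sm_add (sm_mul_right h4 ?_) (sm_mul_right (hlt k hkN) (hdn _).le)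
      rw [norm_mul, hl₁n, one_mul]
      exact hble g₁
    rw [hbg₁, one_mul, norm_sub_rev, hl12] at h5
    exact lt_irrefl _ h5
  · intro g h
    have e : b (g * h) - ((χ₁ g : E) * b h + b g * χ₂ h)
        = (W g 0 0 - χ₁ g) * b h + b g * (W h 1 1 - χ₂ h) := by
      rw [hbmul]; ring
    rw [e]
    exact sm_add (sm_mul_right (ha g) (hble h)) (sm_mul_left (hble g) (hd h))
  · rw [hset]
    have hc1 : Continuous fun g => ‖b g‖ := ((hWcont 0 1).div_const _).norm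
    have hc2 : Continuous fun g => ‖W g 0 0 - 1‖ := ((hWcont 0 0).sub continuous_const).norm
    have hc3 : Continuous fun g => ‖W g 1 1 - 1‖ := ((hWcont 1 1).sub continuous_const).norm
    exact (isOpen_lt hc1 continuous_const).inter
      ((isOpen_lt hc2 continuous_const).inter (isOpen_lt hc3 continuous_const))
  · intro g hg
    have hW1 : W g = 1 := hWone g ((MonoidHom.mem_ker).1 hg)
    have h3 : g ∈ {g : G | ‖b g‖ < 1 ∧ ‖W g 0 0 - 1‖ < 1 ∧ ‖W g 1 1 - 1‖ < 1} := by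
      show ‖b g‖ < 1 ∧ ‖W g 0 0 - 1‖ < 1 ∧ ‖W g 1 1 - 1‖ < 1
      simp only [hb]
      rw [hW1]
      simp
    rw [← hset] at h3
    exact h3
  · intro D hD v hv hst hc g hg
    set w : Fin 2 → E := ((P⁻¹ : GL (Fin 2) E) : Matrix (Fin 2) (Fin 2) E) *ᵥ v with hw
    have hPw : (P : Matrix (Fin 2) (Fin 2) E) *ᵥ w = v := by
      rw [hw, mulVec_mulVec, ← Units.val_mul, mul_inv_cancel, Units.val_one, one_mulVec]
    have hWw : ∀ (h : G) (c : E), (V h : Matrix (Fin 2) (Fin 2) E) *ᵥ v = c • v →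
        W h *ᵥ w = c • w := by
      intro h c hvc
      have h1 : (P : Matrix (Fin 2) (Fin 2) E) *ᵥ (W h *ᵥ w)
          = (P : Matrix (Fin 2) (Fin 2) E) *ᵥ (c • w) := by
        rw [mulVec_mulVec, ← hPW h, ← mulVec_mulVec, hPw, hvc, mulVec_smul, hPw]
      have h2 := congrArg
        (fun u => ((P⁻¹ : GL (Fin 2) E) : Matrix (Fin 2) (Fin 2) E) *ᵥ u) h1
      simp only [mulVec_mulVec, ← Units.val_mul] at h2
      rw [← Matrix.mul_assoc, ← Units.val_mul, inv_mul_cancel, Units.val_one, Matrix.one_mul,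
        one_mulVec] at h2
      exact h2
    obtain ⟨c, hvc⟩ := hst g₀ hD
    have hcc := hc c hvc
    have hw0 := hWw g₀ c hvc
    rw [hW0] at hw0
    have hcl : c ≠ l₁ := by
      intro h0
      rw [h0] at hcc
      have h1 : (χ₁ g₀ : E) - χ₂ g₀ = (l₁ - χ₂ g₀) - (l₁ - χ₁ g₀) := by ring
      have h2 := sm_sub hcc hl₁c
      rw [← h1, hg₀] at h2
      exact lt_irrefl _ h2
    have hz : w 0 = 0 := by
      have h1 := congrFun hw0 0
      simp [mulVec, dotProduct, Fin.sum_univ_two] at h1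
      rcases h1 with h1 | h1
      · exact absurd h1.symm hcl
      · exact h1
    have hw1 : w 1 ≠ 0 := by
      intro h0
      refine hv ?_
      have h1 : w = 0 := by
        funext i
        fin_cases i
        · exact hz
        · exact h0
      rw [← hPw, h1, mulVec_zero]
    obtain ⟨e, hve⟩ := hst g hg
    have h1 := congrFun (hWw g e hve) 0
    simp [mulVec, dotProduct, Fin.sum_univ_two, hz] at h1
    have h2 : W g 0 1 = 0 := h1.resolve_right hw1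
    simp only [hb]
    rw [h2, zero_div, norm_zero]
    exact zero_lt_one

end Pool.Agent.FR2
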