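import Pool.Agent.FR2.GaKumL
import Pool.Agent.FR2.GaDet
import Pool.Agent.FR2.GaBd

/-!
# FR2-GaDisL: the main theorem for `p = 2` and a representation which is reducible on a decomposition group at `2`

As `gaDis` (FR2/GaDis.lean), with `gaBd` in place of `exists_bdata` and `gaKumL` in place of `gaKum`. The extension class vanishes on the
decomposition group of `𝔓₀` by `gaBd`; all prime ideals above `2` are conjugate, and the subgroup `N` on which the class and both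
characters are trivial is normal, so it contains the elements of the decomposition groups at `2` which fix `K`, in particular
the inertia groups at `2`.
-/

open NumberField Pointwise Matrix

namespace Pool.Agent.FR2

open Pool.Agent.Helper60.FM Pool.Agent.AAP

private theorem gaDisL_int (x : ZQ) (hx : ∀ g : GQ, g • x = x) : ∃ w : ℤ, x = (w : ZQ) := by
  have h1 : (x : Qb) ∈ (⊥ : IntermediateField ℚ Qb) := by
    rw [InfiniteGalois.mem_bot_iff_fixed]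
    intro g
    exact congrArg Subtype.val (hx g)
  rw [IntermediateField.mem_bot] at h1
  obtain ⟨q, hq⟩ := h1
  have h2 : IsIntegral ℤ (algebraMap ℚ Qb q) := by
    rw [hq]
    exact x.2
  have h3 : IsIntegral ℤ q := (isIntegral_algebraMap_iff (algebraMap ℚ Qb).injective).1 h2
  obtain ⟨w, hw⟩ := IsIntegrallyClosed.isIntegral_iff.1 h3
  refine ⟨w, ?_⟩
  apply Subtype.ext
  rw [← hq, ← hw]
  simp

private theorem gaDisL_even (𝔓 : Ideal ZQ) (hP : 𝔓.IsPrime) (h2 : (2 : ZQ) ∈ 𝔓) (w : ℤ) :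
    (w : ZQ) ∈ 𝔓 ↔ Even w := by
  constructor
  · intro h
    by_contra hodd
    rw [Int.not_even_iff_odd] at hodd
    obtain ⟨m, hm⟩ := hodd
    apply hP.ne_top
    rw [Ideal.eq_top_iff_one]
    have h3 : (1 : ZQ) = (w : ZQ) - 2 * (m : ZQ) := by
      rw [hm]
      push_cast
      ring
    rw [h3]
    exact 𝔓.sub_mem h (𝔓.mul_mem_right _ h2)
  · rintro ⟨m, hm⟩
    have h3 : (w : ZQ) = 2 * (m : ZQ) := by
      rw [hm]
      push_cast
      ring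
    rw [h3]
    exact 𝔓.mul_mem_right _ h2

private theorem gaDisL_conj (𝔓 𝔔 : Ideal ZQ) (hP : 𝔓.IsPrime) (hQ : 𝔔.IsPrime)
    (h2 : (2 : ZQ) ∈ 𝔓) (h2' : (2 : ZQ) ∈ 𝔔) : ∃ h : GQ, h • 𝔓 = 𝔔 := by
  obtain ⟨k, -, hk⟩ := lift_conj ⊤ isClosed_univ 𝔓 𝔔 hP hQ (by
    intro x hx
    obtain ⟨w, rfl⟩ := gaDisL_int x (fun g => hx g (Subgroup.mem_top g))
    rw [gaDisL_even 𝔓 hP h2, gaDisL_even 𝔔 hQ h2'])
  exact ⟨k, hk⟩

private theorem gaDisL_stab (𝔓 : Ideal ZQ) (g : GQ) (hg : g ∈ In 𝔓) : g • 𝔓 = 𝔓 := by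
  have hg' : g⁻¹ ∈ In 𝔓 := inv_mem hg
  rw [mem_In] at hg'
  ext x
  rw [Ideal.mem_pointwise_smul_iff_inv_smul_mem]
  constructor
  · intro h
    have h1 := 𝔓.sub_mem h (hg' x)
    rwa [sub_sub_cancel] at h1
  · intro h
    have h1 := 𝔓.add_mem (hg' x) h
    rwa [sub_add_cancel] at h1

theorem gaDisL (K : IntermediateField ℚ Qb) [FiniteDimensional ℚ K] [IsAbelianGalois ℚ K]
    {E : Type*} [NormedField E] [IsUltrametricDist E] [CompleteSpace E] [NormedAlgebra ℚ_[2] E]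
    (hKI : ∀ 𝔓 : Ideal ZQ, 𝔓.IsPrime → (2 : ZQ) ∈ 𝔓 → ∀ g ∈ In 𝔓, g ∈ K.fixingSubgroup)
    (χ₁ χ₂ : Gal(K/ℚ) →* Eˣ) (S : Set ℕ)
    (hdec : ∀ P : Ideal (𝓞 K), P.IsPrime → P ≠ ⊥ → (∃ ℓ ∈ S, (ℓ : 𝓞 K) ∈ P) →
      ∃ σ : Gal(K/ℚ), σ • P = P ∧ 1 ≤ ‖(χ₂ σ : E) - χ₁ σ‖)
    (hcl : ∀ 𝔞 : Ideal (𝓞 K), 𝔞 ≠ ⊥ →
      (∀ n : Gal(K/ℚ) → ℕ, ‖∑ σ, (n σ : E) * ((χ₂ σ * (χ₁ σ)⁻¹ : Eˣ) : E)‖ < 1 →
        (∏ σ, (σ • 𝔞) ^ n σ).IsPrincipal) → 𝔞.IsPrincipal)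
    (hun : ∀ u : (𝓞 K)ˣ, (∃ N : ℕ, Odd N ∧ (4 : 𝓞 K) ∣ (u : 𝓞 K) ^ N - 1) →
      (∀ n : Gal(K/ℚ) → ℕ, ‖∑ σ, (n σ : E) * ((χ₂ σ * (χ₁ σ)⁻¹ : Eˣ) : E)‖ < 1 →
        ∃ w : (𝓞 K)ˣ, ∏ σ, (σ • (u : 𝓞 K)) ^ n σ = (w : 𝓞 K) ^ 2) →
      ∃ w : (𝓞 K)ˣ, (u : 𝓞 K) = (w : 𝓞 K) ^ 2)
    (V : GQ →* GL (Fin 2) E) (hV : Continuous V)
    (htr : ∀ g, ‖trace (V g : Matrix (Fin 2) (Fin 2) E) - χ₁ (res K g) - χ₂ (res K g)‖ < 1)
    (hunr : ∀ ℓ : ℕ, ℓ.Prime → ℓ ∉ S → UnramAt V ℓ)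
    (𝔓₀ : Ideal ZQ) (h𝔓₀ : 𝔓₀.IsPrime) (h2𝔓₀ : (2 : ZQ) ∈ 𝔓₀)
    (g₀ : GQ) (hg₀ : g₀ • 𝔓₀ = 𝔓₀) (hχ : 1 ≤ ‖(χ₁ (res K g₀) : E) - χ₂ (res K g₀)‖)
    (v : Fin 2 → E) (hv : v ≠ 0)
    (hstab : ∀ g : GQ, g • 𝔓₀ = 𝔓₀ → ∃ c : E, (V g : Matrix (Fin 2) (Fin 2) E) *ᵥ v = c • v)
    (hc : ∀ c : E, (V g₀ : Matrix (Fin 2) (Fin 2) E) *ᵥ v = c • v →
      ‖c - χ₂ (res K g₀)‖ < 1) :
    ∃ v : Fin 2 → E, v ≠ 0 ∧ ∀ g, ∃ c : E, (V g : Matrix (Fin 2) (Fin 2) E) *ᵥ v = c • v := by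
  classical
  by_contra hline
  have hE0 : CharZero E := charZero_of_injective_algebraMap (algebraMap ℚ_[2] E).injective
  have h2E : ‖(2 : E)‖ < 1 := by
    have := (norm_natCast_lt_one_iff (p := 2) (E := E) 2).2 dvd_rfl
    exact_mod_cast this
  have hn₁ : ∀ σ, ‖(χ₁ σ : E)‖ = 1 := norm_chi χ₁
  have hn₂ : ∀ σ, ‖(χ₂ σ : E)‖ = 1 := norm_chi χ₂
  have hchar : CharP (kE E) 2 := charP_kE 2 E
  -- the extension class
  have hg₀' : 1 ≤ ‖((χ₁.comp (res K)) g₀ : E) - (χ₂.comp (res K)) g₀‖ := hχ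
  have hdet := gaDet h2E V (χ₁.comp (res K)) (χ₂.comp (res K)) (fun g => hn₁ _)
    (fun g => hn₂ _) htr g₀ hg₀'
  obtain ⟨b, hb1, ⟨k₀, hk₀, hbk₀⟩, hbmul, hopen, hker, hbD⟩ := gaBd V hV
    (χ₁.comp (res K)) (χ₂.comp (res K)) (fun g => hn₁ _) (fun g => hn₂ _) htr hdet g₀
    (by
      apply le_antisymm
      · rw [sub_eq_add_neg]
        exact norm_add_le_one E (hn₁ _).le (by rw [norm_neg]; exact (hn₂ _).le)
      · exact hg₀')
    K.fixingSubgroup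
    (fun k hk => by
      rw [MonoidHom.comp_apply, (mem_fix_iff_res K k).1 hk, map_one])
    (fun k hk => by
      rw [MonoidHom.comp_apply, (mem_fix_iff_res K k).1 hk, map_one])
    (comm_mem_fix K) hline
  -- reductions
  let B : GQ → kE E := fun g => red (b g)
  let C₁ : GQ →* kE E := (redHom χ₁).comp (res K)
  let C₂ : GQ →* kE E := (redHom χ₂).comp (res K)
  have hBmul : ∀ g h, B (g * h) = C₁ g * B h + B g * C₂ h := by
    intro g h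
    have e1 : ‖(χ₁ (res K g) : E) * b h‖ ≤ 1 := by
      rw [norm_mul, hn₁, one_mul]; exact hb1 h
    have e2 : ‖b g * (χ₂ (res K h) : E)‖ ≤ 1 := by
      rw [norm_mul, hn₂, mul_one]; exact hb1 g
    have e3 := (red_eq_red (hb1 (g * h)) (norm_add_le_one E e1 e2)).2 (hbmul g h)
    change red (b (g * h)) = _
    rw [e3, red_add e1 e2, red_mul (hn₁ _).le (hb1 h), red_mul (hb1 g) (hn₂ _).le]
    rfl
  have hB0 : ∀ g, B g = 0 ↔ ‖b g‖ < 1 := fun g => red_eq_zero (hb1 g)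
  have hC₁ : ∀ g, C₁ g = 1 ↔ ‖(χ₁ (res K g) : E) - 1‖ < 1 := by
    intro g
    rw [← red_eq_red (hn₁ _).le (by simp), red_one]
    rfl
  have hC₂ : ∀ g, C₂ g = 1 ↔ ‖(χ₂ (res K g) : E) - 1‖ < 1 := by
    intro g
    rw [← red_eq_red (hn₂ _).le (by simp), red_one]
    rfl
  have hB1 : B 1 = 0 := (hB0 1).2 (hker 1 (Subgroup.one_mem _)).1
  have hfixC₁ : ∀ k ∈ K.fixingSubgroup, C₁ k = 1 := by
    intro k hk
    change redHom χ₁ (res K k) = 1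
    rw [(mem_fix_iff_res K k).1 hk, map_one]
  have hfixC₂ : ∀ k ∈ K.fixingSubgroup, C₂ k = 1 := by
    intro k hk
    change redHom χ₂ (res K k) = 1
    rw [(mem_fix_iff_res K k).1 hk, map_one]
  have hne : C₁ g₀ ≠ C₂ g₀ := by
    intro h
    have h1 : red (χ₁ (res K g₀) : E) = red (χ₂ (res K g₀) : E) := h
    rw [red_eq_red (hn₁ _).le (hn₂ _).le] at h1
    exact absurd h1 (not_lt.2 hg₀')
  -- the functional
  let _ : Algebra (ZMod 2) (kE E) := ZMod.algebra (kE E) 2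
  have hBk₀ : B k₀ ≠ 0 := by
    intro h
    have := (hB0 k₀).1 h
    rw [hbk₀] at this
    exact lt_irrefl _ this
  obtain ⟨f, hf⟩ : ∃ f : Module.Dual (ZMod 2) (kE E), f (B k₀) ≠ 0 := by
    by_contra hcon
    push Not at hcon
    exact hBk₀ ((Module.forall_dual_apply_eq_zero_iff (ZMod 2) (B k₀)).1 hcon)
  -- the character `χ₂/χ₁`
  let χ : Gal(K/ℚ) →* Eˣ := χ₂ / χ₁
  have hχval : ∀ σ, (χ σ : E) = (χ₂ σ * (χ₁ σ)⁻¹ : Eˣ) := by
    intro σ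
    change ((χ₂ σ / χ₁ σ : Eˣ) : E) = _
    rw [div_eq_mul_inv]
  have hχ₁ : ∀ σ, redHom χ₁ σ * redHom χ σ = redHom χ₂ σ := by
    intro σ
    rw [redHom_apply, redHom_apply, redHom_apply, ← red_mul (hn₁ σ).le (norm_chi χ σ).le, hχval,
      ← Units.val_mul, mul_comm (χ₂ σ), mul_inv_cancel_left]
  have hr₁ : ∀ σ, redHom χ₁ σ ≠ 0 := by
    intro σ h
    have := map_mul_eq_one (redHom χ₁) (mul_inv_cancel σ)
    rw [h, zero_mul] at this
    exact zero_ne_one this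
  let D : KData 2 K (fun _ => 1) (kE E) :=
    { ψ := redHom χ
      F := fun k => f.toAddMonoidHom.comp (AddMonoidHom.mulRight (B k))
      F_mul := by
        intro k hk k' hk' y
        change f (y * B (k * k')) = f (y * B k) + f (y * B k')
        rw [hBmul, hfixC₁ k hk, hfixC₂ k' hk', one_mul, mul_one, mul_add, map_add, add_comm]
      F_conj := by
        intro g k hk y
        change ((1 : ℕ) : ZMod 2) * f (y * B (g⁻¹ * k * g)) = f (redHom χ (res K g) * y * B k)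
        have e1 : B (k * g) = B g + B k * C₂ g := by
          rw [hBmul, hfixC₁ k hk, one_mul]
        have e2 : B (g * (g⁻¹ * k * g)) = C₁ g * B (g⁻¹ * k * g) + B g := by
          rw [hBmul, hfixC₂ _ (conj_mem_fix K g hk), mul_one]
        have e3 : g * (g⁻¹ * k * g) = k * g := by group
        rw [e3, e1] at e2
        have e4 : B k * C₂ g = C₁ g * B (g⁻¹ * k * g) := by
          have := e2
          rw [add_comm] at this
          exact add_right_cancel this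
        have e5 : C₁ g * B (g⁻¹ * k * g) = C₁ g * (redHom χ (res K g) * B k) := by
          rw [← e4, ← mul_assoc]
          have : C₁ g * redHom χ (res K g) = C₂ g := hχ₁ _
          rw [this, mul_comm]
        have e6 : B (g⁻¹ * k * g) = redHom χ (res K g) * B k := mul_left_cancel₀ (hr₁ _) e5
        rw [e6, Nat.cast_one, one_mul]
        congr 1
        ring
      ne := by
        refine ⟨k₀, hk₀, ?_⟩
        change f (1 * B k₀) ≠ 0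
        rw [one_mul]
        exact hf
      fo := by
        intro z hz hz0
        refine finite_order (p := 2) (Set.range (redHom χ)) (Set.finite_range _) ?_ z hz hz0
        rintro _ ⟨σ, rfl⟩
        exact ⟨Nat.card Gal(K/ℚ), Nat.card_pos, by
          rw [← map_pow, pow_card_eq_one', map_one]⟩ }
  have hDψ : ∀ σ, D.ψ σ = redHom χ σ := fun σ => rfl
  -- the field cut out by the class
  let N := (rho C₁ C₂ B hB1 hBmul).ker
  have hNmem : ∀ g, g ∈ N ↔ B g = 0 ∧ C₁ g = 1 ∧ C₂ g = 1 := mem_ker_rho C₁ C₂ B hB1 hBmul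
  have hNopen : IsOpen (N : Set GQ) := by
    have hset : (N : Set GQ) = {g : GQ | ‖b g‖ < 1 ∧ ‖((χ₁.comp (res K)) g : E) - 1‖ < 1 ∧
        ‖((χ₂.comp (res K)) g : E) - 1‖ < 1} := by
      ext g
      change g ∈ N ↔ _
      rw [hNmem, hB0, hC₁, hC₂]
      rfl
    rw [hset]
    exact hopen
  obtain ⟨hfd, hgal, hfix⟩ := open_field N hNopen
  have hsum : ∀ n : Gal(K/ℚ) → ℕ, ‖∑ σ, (n σ : E) * ((χ₂ σ * (χ₁ σ)⁻¹ : Eˣ) : E)‖ < 1 →
      ∑ σ, (n σ : kE E) * D.ψ σ = 0 := by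
    intro n hn
    have e0 : ∀ σ ∈ (Finset.univ : Finset Gal(K/ℚ)),
        ‖(n σ : E) * ((χ₂ σ * (χ₁ σ)⁻¹ : Eˣ) : E)‖ ≤ 1 := by
      intro σ _
      rw [← hχval, norm_mul, norm_chi χ, mul_one]
      exact norm_natCast_le_one _
    have e1 := red_sum Finset.univ _ e0
    rw [(red_eq_zero e1.1).2 hn] at e1
    rw [e1.2]
    refine Finset.sum_congr rfl (fun σ _ => ?_)
    rw [hDψ, ← hχval, red_mul (norm_natCast_le_one _) (norm_chi χ σ).le, red_natCast]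
    rfl
  have hNnor : N.Normal := MonoidHom.normal_ker _
  have hbD0 : ∀ g : GQ, g • 𝔓₀ = 𝔓₀ → B g = 0 := by
    intro g hg
    refine (hB0 g).2 (hbD (MulAction.stabilizer GQ 𝔓₀) (MulAction.mem_stabilizer_iff.2 hg₀) v hv
      (fun g hg => hstab g (MulAction.mem_stabilizer_iff.1 hg)) hc g
      (MulAction.mem_stabilizer_iff.2 hg))
  have hDN : ∀ 𝔓 : Ideal ZQ, 𝔓.IsPrime → (2 : ZQ) ∈ 𝔓 → ∀ g : GQ, g • 𝔓 = 𝔓 →
      g ∈ K.fixingSubgroup → g ∈ N := by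
    intro 𝔓 h𝔓 h2 g hg hgK
    obtain ⟨h, hh⟩ := gaDisL_conj 𝔓₀ 𝔓 h𝔓₀ h𝔓 h2𝔓₀ h2
    have hkN : h⁻¹ * g * h ∈ N := by
      rw [hNmem]
      refine ⟨hbD0 _ ?_, hfixC₁ _ (conj_mem_fix K h hgK), hfixC₂ _ (conj_mem_fix K h hgK)⟩
      rw [mul_smul, mul_smul, hh, hg, ← hh, inv_smul_smul]
    have h3 := hNnor.conj_mem _ hkN h
    have h4 : h * (h⁻¹ * g * h) * h⁻¹ = g := by group
    rwa [h4] at h3
  refine gaKumL D (IntermediateField.fixedField N)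
    (by
      intro k hk y
      have : k ∈ N := by
        rw [← hfix]
        exact hk.2
      change f (y * B k) = 0
      rw [((hNmem k).1 this).1, mul_zero, map_zero])
    (by
      intro 𝔓 h𝔓 h2 g hg
      have hgK := hKI 𝔓 h𝔓 h2 g hg
      refine ⟨hgK, ?_⟩
      rw [hfix]
      exact hDN 𝔓 h𝔓 h2 g (gaDisL_stab 𝔓 g hg) hgK)
    (by
      intro 𝔓 h𝔓 h2 g hg hgK
      have h3 := hDN 𝔓 h𝔓 h2 g hg hgK
      change f (1 * B g) = 0
      rw [((hNmem g).1 h3).1, mul_zero, map_zero])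
    S
    (by
      intro ℓ hℓ hℓS
      refine hunr ℓ hℓ hℓS _ hfd hgal ?_
      rw [hfix]
      intro g hg
      rw [hNmem, hB0, hC₁, hC₂]
      exact hker g hg)
    (by
      intro P hP hP0 hℓ
      obtain ⟨σ, hσ, hσ1⟩ := hdec P hP hP0 hℓ
      refine ⟨σ, hσ, fun hcon => ?_⟩
      rw [hDψ] at hcon
      have e1 : redHom χ₂ σ = redHom χ₁ σ := by
        rw [← hχ₁, hcon, mul_one]
      rw [redHom_apply, redHom_apply, red_eq_red (hn₂ σ).le (hn₁ σ).le] at e1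
      exact absurd e1 (not_lt.2 hσ1))
    (fun 𝔞 h𝔞 h => hcl 𝔞 h𝔞 (fun n hn => h n (hsum n hn)))
    (fun u hu h => hun u hu (fun n hn => h n (hsum n hn)))

end Pool.Agent.FR2
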