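import Pool.Agent.AAP.Defs
import Pool.Agent.AAP.RedC
import Pool.Agent.Helper60.FM.CC

/-!
# FR2-GaFld: the field cut out by a character, twists

`ActsAs m g b`: `g ζ = ζ ^ b` for all `ζ` in `Qb` with `ζ ^ m = 1`; `IsCC c`: `c` is a complex conjugation.
* `gaCyc`: the cyclotomic character `A : GQ →* (ZMod N)ˣ`, surjective with open kernel.
* `gaFld`: the finite abelian field cut out by a character of odd order of `(ZMod f)ˣ`; it is fixed by
  all complex conjugations.
* `gaTw`: the twist of a two-dimensional representation by a character of `(ZMod N)ˣ`.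
-/

open NumberField Pointwise Matrix

namespace Pool.Agent.FR2

open Pool.Agent.Helper60.FM Pool.Agent.AAP

private theorem gaFld_acts_inj (N : ℕ) [NeZero N] {ζ : Qb} (hζ : IsPrimitiveRoot ζ N) (g : GQ)
    (a b : (ZMod N)ˣ) (ha : ActsAs N g (a : ZMod N).val) (hb : ActsAs N g (b : ZMod N).val) :
    a = b := by
  have h1 : ζ ^ (a : ZMod N).val = ζ ^ (b : ZMod N).val := by
    rw [← ha ζ hζ.pow_eq_one, ← hb ζ hζ.pow_eq_one]
  have h2 := hζ.pow_inj (ZMod.val_lt _) (ZMod.val_lt _) h1
  exact Units.ext (ZMod.val_injective N h2)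

theorem gaCyc (N : ℕ) [NeZero N] : ∃ A : GQ →* (ZMod N)ˣ, Function.Surjective A ∧
    IsOpen (A.ker : Set GQ) ∧
    ∀ (g : GQ) (a : (ZMod N)ˣ), ActsAs N g (a : ZMod N).val ↔ a = A g := by
  obtain ⟨K, _, _, hK, _⟩ := exists_cyc N
  have : IsAbelianGalois ℚ K := IsCyclotomicExtension.isAbelianGalois {N} ℚ K
  let j : K →+* Qb := (IsAlgClosed.lift : K →ₐ[ℚ] Qb).toRingHom
  have hn : Normal ℚ (imField K j) := Normal.of_algEquiv (aeqv K j)
  have hfd : FiniteDimensional ℚ (imField K j) := LinearEquiv.finiteDimensional (aeqv K j).toLinearEquiv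
  let A : GQ →* (ZMod N)ˣ :=
    (gq N K).toMonoidHom.comp ((geqv K j).symm.toMonoidHom.comp (res (imField K j)))
  have hA : ∀ g, A g = gq N K ((geqv K j).symm (res (imField K j) g)) := fun _ => rfl
  have hζ : IsPrimitiveRoot (j (zt N K)) N := (zt_spec N K).map_of_injective j.injective
  have hact : ∀ g, ActsAs N g (A g : ZMod N).val := by
    intro g
    have h1 := acts N K j g ((geqv K j).symm (res (imField K j) g))
      (fun x => geqv_symm_res K j g x) N dvd_rfl
    have h2 : ZMod.unitsMap (dvd_refl N) = MonoidHom.id (ZMod N)ˣ := ZMod.unitsMap_self N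
    rw [h2] at h1
    exact h1
  refine ⟨A, ?_, ?_, ?_⟩
  · refine (gq N K).surjective.comp ((geqv K j).symm.surjective.comp ?_)
    exact AlgEquiv.restrictNormalHom_surjective Qb
  · have h1 : (A.ker : Set GQ) = ((imField K j).fixingSubgroup : Set GQ) := by
      ext g
      rw [SetLike.mem_coe, SetLike.mem_coe, MonoidHom.mem_ker, hA, map_eq_one_iff _ (gq N K).injective,
        map_eq_one_iff _ (geqv K j).symm.injective]
      rw [IntermediateField.mem_fixingSubgroup_iff]
      constructor
      · intro h x hx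
        have h2 := coe_res (imField K j) g ⟨x, hx⟩
        rw [h] at h2
        exact h2.symm
      · intro h
        ext x
        rw [coe_res]
        exact h x x.2
    rw [h1]
    exact IntermediateField.fixingSubgroup_isOpen (imField K j)
  · intro g a
    constructor
    · intro h
      exact gaFld_acts_inj N hζ g a (A g) h (hact g)
    · rintro rfl
      exact hact g

theorem gaFld (f : ℕ) [NeZero f] {E : Type} [Field E] (γ : (ZMod f)ˣ →* Eˣ) (m : ℕ) (hm : Odd m)
    (hγ : ∀ a, γ a ^ m = 1) :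
    ∃ (K : IntermediateField ℚ Qb) (_ : FiniteDimensional ℚ K) (_ : IsAbelianGalois ℚ K)
      (θ : Gal(K/ℚ) →* Eˣ), Function.Injective θ ∧
      (∀ (g : GQ) (a : (ZMod f)ˣ), ActsAs f g (a : ZMod f).val → θ (res K g) = γ a) ∧
      ∀ c : GQ, IsCC c → c ∈ K.fixingSubgroup := by
  obtain ⟨A, hA, hAo, hact⟩ := gaCyc f
  let N : Subgroup GQ := (γ.comp A).ker
  have hle : A.ker ≤ N := by
    intro g hg
    rw [MonoidHom.mem_ker] at hg
    change γ (A g) = 1
    rw [hg, map_one]
  have hNo : IsOpen (N : Set GQ) := Subgroup.isOpen_mono hle hAo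
  obtain ⟨h1, h2, h3⟩ := open_field N hNo
  let K : IntermediateField ℚ Qb := IntermediateField.fixedField N
  have hfd : FiniteDimensional ℚ K := h1
  have hgal : IsGalois ℚ K := h2
  have hfix : K.fixingSubgroup = N := h3
  have hres : Function.Surjective (res K) := AlgEquiv.restrictNormalHom_surjective Qb
  have hker : ∀ g : GQ, res K g = 1 ↔ g ∈ K.fixingSubgroup := by
    intro g
    rw [IntermediateField.mem_fixingSubgroup_iff]
    constructor
    · intro h x hx
      have h2 := coe_res K g ⟨x, hx⟩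
      rw [h] at h2
      exact h2.symm
    · intro h
      ext x
      rw [coe_res]
      exact h x x.2
  have hkle : (res K).ker ≤ (γ.comp A).ker := by
    intro g hg
    rw [MonoidHom.mem_ker, hker, hfix] at hg
    exact hg
  let θ : Gal(K/ℚ) →* Eˣ := (MonoidHom.liftOfSurjective (res K) hres) ⟨γ.comp A, hkle⟩
  have hθ : ∀ g, θ (res K g) = γ (A g) := fun g =>
    MonoidHom.liftOfRightInverse_comp_apply (res K) _ _ ⟨γ.comp A, hkle⟩ g
  have hinj : Function.Injective θ := by
    rw [injective_iff_map_eq_one]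
    intro σ hσ
    obtain ⟨g, rfl⟩ := hres σ
    rw [hθ] at hσ
    rw [hker, hfix]
    exact hσ
  have hab : IsAbelianGalois ℚ K := by
    refine { toIsGalois := hgal, toIsMulCommutative := ?_ }
    refine ⟨⟨fun a b => hinj ?_⟩⟩
    rw [map_mul, map_mul, mul_comm]
  refine ⟨K, hfd, hab, θ, hinj, ?_, ?_⟩
  · intro g a hga
    have h4 := (hact g a).1 hga
    rw [h4]
    exact hθ g
  · intro c hc
    rw [← hker]
    apply hinj
    rw [map_one]
    have h5 : θ (res K c) ^ 2 = 1 := by
      rw [← map_pow, ← map_pow, sq, isCC_mul_self hc, map_one, map_one]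
    have h6 : θ (res K c) ^ m = 1 := by
      rw [hθ]
      exact hγ _
    obtain ⟨k, hk⟩ := hm
    rw [hk, pow_succ, pow_mul, h5, one_pow, one_mul] at h6
    exact h6

theorem gaTw {E : Type} [NormedField E] (N : ℕ) [NeZero N] (V : GQ →* GL (Fin 2) E)
    (hV : Continuous V) (α : (ZMod N)ˣ →* Eˣ) :
    ∃ V' : GQ →* GL (Fin 2) E, Continuous V' ∧
      ∀ (g : GQ) (a : (ZMod N)ˣ), ActsAs N g (a : ZMod N).val →
        (V' g : Matrix (Fin 2) (Fin 2) E) =
          (((α a)⁻¹ : Eˣ) : E) • (V g : Matrix (Fin 2) (Fin 2) E) := by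
  obtain ⟨A, hA, hAo, hact⟩ := gaCyc N
  let S : Eˣ →* GL (Fin 2) E := Units.map (algebraMap E (Matrix (Fin 2) (Fin 2) E)).toMonoidHom
  have hS : ∀ (u : Eˣ) (M : GL (Fin 2) E), S u * M = M * S u := by
    intro u M
    refine Units.ext ?_
    rw [Units.val_mul, Units.val_mul]
    exact Algebra.commutes (u : E) (M : Matrix (Fin 2) (Fin 2) E)
  let V' : GQ →* GL (Fin 2) E :=
    { toFun := fun g => S (α (A g))⁻¹ * V g
      map_one' := by
        rw [map_one A, map_one α, inv_one, map_one S, map_one V, one_mul]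
      map_mul' := by
        intro g h
        rw [map_mul A, map_mul α, mul_inv, map_mul S, map_mul V, mul_assoc, mul_assoc, ← mul_assoc _ (V g),
          hS _ (V g), mul_assoc] }
  have hV' : ∀ g, V' g = S (α (A g))⁻¹ * V g := fun _ => rfl
  have hloc : IsLocallyConstant (fun g : GQ => S (α (A g))⁻¹) := by
    rw [IsLocallyConstant.iff_exists_open]
    intro g
    refine ⟨(fun h : GQ => g⁻¹ * h) ⁻¹' (A.ker : Set GQ), hAo.preimage (continuous_const_mul _), ?_, ?_⟩
    · rw [Set.mem_preimage, inv_mul_cancel]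
      exact A.ker.one_mem
    · intro h hh
      rw [Set.mem_preimage, SetLike.mem_coe, MonoidHom.mem_ker, map_mul, map_inv, inv_mul_eq_one] at hh
      rw [hh]
  refine ⟨V', ?_, ?_⟩
  · have h1 : (V' : GQ → GL (Fin 2) E) = fun g => S (α (A g))⁻¹ * V g := rfl
    rw [h1]
    exact hloc.continuous.mul hV
  · intro g a hga
    rw [hV', (hact g a).1 hga, Units.val_mul]
    change algebraMap E (Matrix (Fin 2) (Fin 2) E) (((α (A g))⁻¹ : Eˣ) : E) * _ = _
    rw [← Algebra.smul_def]

end Pool.Agent.FR2
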