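import Pool.Agent.AAP.Stmt2

/-!
# Decomposition groups
-/

namespace Pool.Agent.FR2

open Pool.Agent.AAP Matrix

/-- `g` is in the decomposition group of `𝔓`: it maps `𝔓` to itself -/
def Decomp (𝔓 : Ideal AI) (g : Gam) : Prop :=
  ∀ x y : AI, y.val = g.ap x.val → (x ∈ 𝔓 ↔ y ∈ 𝔓)

/-- the restriction of `V` to the decomposition group at a prime `𝔓` over `p` is reducible -/
def RedAt {E : Type} [NormedField E] (p : ℕ) (V : Gam →* GL2 E) : Prop :=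
  ∃ 𝔓 : Ideal AI, 𝔓.IsPrime ∧ (p : AI) ∈ 𝔓 ∧ ∃ v : Fin 2 → E, v ≠ 0 ∧
    ∀ g, Decomp 𝔓 g → ∃ c : E, (V g).mat *ᵥ v = c • v

end Pool.Agent.FR2
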