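import Pool.Agent.FR2.GaNum
import Pool.Agent.FR2.GaDis
import Pool.Agent.FR2.GaDisL
import Pool.Agent.FR2.Stmt
import Pool.Agent.FR2.GaFld
import Pool.Agent.FR2.Core
import Pool.Agent.AAP.Lift
import Pool.Agent.FRD.Fin

/-!
# Assembly of FiniteReductions for `p = 2`, even representations and representations which are reducible at `2`
-/

open NumberField Pointwise Matrix

namespace Pool.Agent.FR2

open Pool.Agent.AAP Pool.Agent.Helper60.FM Pool.Agent.FRD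

section

variable {E k : Type} [NormedField E] [IsUltrametricDist E] [Field k]

private theorem gfl_pi_eq {π : FRD.OE E →+* k} (hπ : Red π) {x y : FRD.OE E} :
    π x = π y ↔ ‖(x : E) - y‖ < 1 := by
  rw [← sub_eq_zero, ← map_sub, hπ]
  rfl

private theorem gfl_equ_div {N : ℕ} [NeZero N] (α β : (ZMod N)ˣ →* Eˣ) (r : (ZMod N)ˣ) :
    Equ (((β / α : (ZMod N)ˣ →* Eˣ) r : Eˣ) : E) 1 ↔
      Equ (((β r : Eˣ) : E)) (((α r : Eˣ) : E)) := by
  have h1 : (((β / α : (ZMod N)ˣ →* Eˣ) r : Eˣ) : E) * (α r : Eˣ) = (β r : Eˣ) := by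
    change ((β r / α r : Eˣ) : E) * α r = β r
    rw [← Units.val_mul, div_mul_cancel]
  have h2 : ((β r : Eˣ) : E) - ((α r : Eˣ) : E) =
      ((α r : Eˣ) : E) * ((((β / α : (ZMod N)ˣ →* Eˣ) r : Eˣ) : E) - 1) := by
    rw [← h1]
    ring
  unfold Equ
  rw [h2, norm_mul, norm_chi, one_mul]

/-- the reduction of a character of a finite group -/
private theorem gfl_red (π : FRD.OE E →+* k) {G : Type} [Group G] [Finite G] (γ : G →* Eˣ) :
    ∃ χ : G →* kˣ, ∀ (r : G) (h : ((γ r : Eˣ) : E) ∈ FRD.OE E),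
      ((χ r : kˣ) : k) = π ⟨γ r, h⟩ := by
  have hm : ∀ r : G, ((γ r : Eˣ) : E) ∈ FRD.OE E := fun r => (norm_chi γ r).le
  let f : G →* k :=
    { toFun := fun r => π ⟨((γ r : Eˣ) : E), hm r⟩
      map_one' := by
        have h1 : (⟨((γ 1 : Eˣ) : E), hm 1⟩ : FRD.OE E) = 1 := by
          refine Subtype.ext ?_
          show ((γ 1 : Eˣ) : E) = 1
          rw [map_one, Units.val_one]
        rw [h1, map_one]
      map_mul' := fun r s => by
        have h1 : (⟨((γ (r * s) : Eˣ) : E), hm (r * s)⟩ : FRD.OE E) =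
            ⟨((γ r : Eˣ) : E), hm r⟩ * ⟨((γ s : Eˣ) : E), hm s⟩ := by
          refine Subtype.ext ?_
          show ((γ (r * s) : Eˣ) : E) = ((γ r : Eˣ) : E) * ((γ s : Eˣ) : E)
          rw [map_mul, Units.val_mul]
        rw [h1, map_mul] }
  refine ⟨f.toHomUnits, ?_⟩
  intro r h
  rw [MonoidHom.coe_toHomUnits]
  rfl


/-- the class group and the units for a character and its reduction -/
private theorem gfl_sum {π : FRD.OE E →+* k} (hπ : Red π) {G : Type} [Group G] [Fintype G]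
    (θ : G →* Eˣ) (ψ : G →* kˣ)
    (hψ : ∀ (r : G) (h : ((θ r : Eˣ) : E) ∈ FRD.OE E), ((ψ r : kˣ) : k) = π ⟨θ r, h⟩)
    (n : G → ℕ) (hn : es ψ n = 0) : ‖∑ σ, (n σ : E) * ((θ σ : Eˣ) : E)‖ < 1 := by
  have mem_th : ∀ σ, ((θ σ : Eˣ) : E) ∈ FRD.OE E := fun σ => (norm_chi θ σ).le
  have h2 : ((∑ σ, ((n σ : ℕ) : FRD.OE E) * ⟨((θ σ : Eˣ) : E), mem_th σ⟩ : FRD.OE E) : E) =
      ∑ σ, (n σ : E) * ((θ σ : Eˣ) : E) := by
    rw [AddSubmonoidClass.coe_finsetSum]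
    exact Finset.sum_congr rfl fun σ _ => rfl
  rw [← h2, ← hπ, map_sum, ← hn]
  refine Finset.sum_congr rfl fun σ _ => ?_
  rw [map_mul, map_natCast, hψ σ (mem_th σ)]

/-- a root of unity near `1` is `1` -/
private theorem gfl_root {𝔓 : Ideal ZQ} (hP : 𝔓.IsPrime) {m : ℕ} (hm : (m : ZQ) ∉ 𝔓)
    {u : ZQ} (hu : u ^ m = 1) (h1 : u - 1 ∈ 𝔓) : u = 1 := by
  by_contra hu1
  apply hm
  have h6 : (∑ i ∈ Finset.range m, u ^ i) = 0 := by
    have h7 := geom_sum_mul u m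
    rw [hu, sub_self] at h7
    exact (mul_eq_zero.1 h7).resolve_right (sub_ne_zero.2 hu1)
  have h9 : (m : ZQ) = -∑ i ∈ Finset.range m, (u ^ i - 1) := by
    rw [Finset.sum_sub_distrib, h6]
    simp
  rw [h9]
  refine 𝔓.neg_mem (𝔓.sum_mem fun i _ => ?_)
  exact Ideal.mem_of_dvd _ (sub_one_dvd_pow_sub_one u i) h1

/-- a Frobenius element at `ℓ` acts on the roots of unity of order prime to `ℓ` as the `ℓ`-th power -/
private theorem gfl_frob {𝔓 : Ideal ZQ} (hP : 𝔓.IsPrime) {m ℓ : ℕ} (hm0 : 0 < m)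
    (hm : (m : ZQ) ∉ 𝔓) {g : GQ} (hg : IsFrob ℓ 𝔓 g) : ActsAs m g ℓ := by
  intro ζ hζ
  have hint : ∀ x : Qb, x ^ m = 1 → IsIntegral ℤ x := fun x hx =>
    IsIntegral.of_pow hm0 (by rw [hx]; exact isIntegral_one)
  have hζ0 : ζ ≠ 0 := by
    rintro rfl
    rw [zero_pow hm0.ne'] at hζ
    exact zero_ne_one hζ
  let z : ZQ := ⟨ζ, hint ζ hζ⟩
  have hz : z ^ m = 1 := Subtype.ext hζ
  have hu : (g ζ * (ζ ^ ℓ)⁻¹) ^ m = 1 := by
    rw [mul_pow, ← map_pow, hζ, map_one, inv_pow, ← pow_mul, mul_comm ℓ m, pow_mul, hζ, one_pow,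
      inv_one, one_mul]
  let u : ZQ := ⟨g ζ * (ζ ^ ℓ)⁻¹, hint _ hu⟩
  have h2 : u - 1 ∈ 𝔓 := by
    have h3 : (u - 1) * z ^ ℓ ∈ 𝔓 := by
      have h4 : (u - 1) * z ^ ℓ = g • z - z ^ ℓ := by
        apply Subtype.ext
        change (g ζ * (ζ ^ ℓ)⁻¹ - 1) * ζ ^ ℓ = g ζ - ζ ^ ℓ
        rw [sub_mul, one_mul, inv_mul_cancel_right₀ (pow_ne_zero _ hζ0)]
      rw [h4]
      exact hg.2 z
    refine (hP.mem_or_mem h3).resolve_right ?_
    intro h
    apply hP.ne_top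
    rw [Ideal.eq_top_iff_one, ← hz]
    exact 𝔓.pow_mem_of_mem (hP.mem_of_pow_mem ℓ h) m hm0
  have h3 := gfl_root hP hm (Subtype.ext hu : u ^ m = 1) h2
  have h4 : g ζ * (ζ ^ ℓ)⁻¹ = 1 := congrArg Subtype.val h3
  rwa [mul_inv_eq_one₀ (pow_ne_zero _ hζ0)] at h4

end

/-- an eigenvalue is a root of the characteristic polynomial -/
private theorem gfl_char {F : Type} [Field F] (M : Matrix (Fin 2) (Fin 2) F) (v : Fin 2 → F)
    (hv : v ≠ 0) (c : F) (h : M *ᵥ v = c • v) : c * c - trace M * c + det M = 0 := by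
  have h1 : M * M - trace M • M + det M • (1 : Matrix (Fin 2) (Fin 2) F) = 0 := by
    ext i j
    fin_cases i <;> fin_cases j <;>
      simp [Matrix.mul_apply, Fin.sum_univ_two, trace_fin_two, det_fin_two] <;> ring
  have h2 : (M * M - trace M • M + det M • (1 : Matrix (Fin 2) (Fin 2) F)) *ᵥ v = 0 := by
    rw [h1, zero_mulVec]
  rw [add_mulVec, sub_mulVec, smul_mulVec, smul_mulVec, one_mulVec, ← mulVec_mulVec, h,
    mulVec_smul, h, smul_smul, smul_smul, ← sub_smul, ← add_smul] at h2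
  exact (smul_eq_zero.1 h2).resolve_right hv

/-- a root of a quadratic polynomial congruent to `(X - 1)(X - θ)` -/
private theorem gfl_root2 {F : Type} [NormedField F] [IsUltrametricDist F] (c θ t d : F)
    (hθ : ‖θ‖ = 1) (ht : ‖t - 1 - θ‖ < 1) (hd : ‖d - θ‖ < 1) (h : c * c - t * c + d = 0) :
    ‖c - θ‖ < 1 ∨ ‖c - 1‖ < 1 := by
  have ht1 : ‖t‖ ≤ 1 := by
    have e : t = (t - 1 - θ) + (1 + θ) := by ring
    rw [e]
    exact norm_add_le_one F ht.le (norm_add_le_one F norm_one.le hθ.le)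
  have hd1 : ‖d‖ ≤ 1 := by
    have e : d = (d - θ) + θ := by ring
    rw [e]
    exact norm_add_le_one F hd.le hθ.le
  have hc1 : ‖c‖ ≤ 1 := by
    by_contra hcon
    push Not at hcon
    have h1 : c * c = t * c - d := by linear_combination h
    have h2 : ‖c * c‖ ≤ ‖c‖ := by
      rw [h1, sub_eq_add_neg]
      refine (IsUltrametricDist.norm_add_le_max _ _).trans (max_le ?_ ?_)
      · rw [norm_mul]
        exact mul_le_of_le_one_left (norm_nonneg _) ht1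
      · rw [norm_neg]
        exact hd1.trans hcon.le
    rw [norm_mul] at h2
    have h3 : 0 < ‖c‖ := lt_trans zero_lt_one hcon
    have h4 : ‖c‖ ≤ 1 := le_of_mul_le_mul_left (by rwa [mul_one]) h3
    exact absurd h4 (not_le.2 hcon)
  have h1 : (c - θ) * (c - 1) = (t - 1 - θ) * c - (d - θ) := by linear_combination h
  have h2 : ‖(c - θ) * (c - 1)‖ < 1 := by
    rw [h1, sub_eq_add_neg]
    refine norm_add_lt_one F ?_ (by rw [norm_neg]; exact hd)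
    rw [norm_mul]
    exact mul_lt_one_of_nonneg_of_lt_one_left (norm_nonneg _) ht hc1
  by_contra hcon
  push Not at hcon
  rw [norm_mul] at h2
  exact absurd (one_le_mul_of_one_le_of_one_le hcon.1 hcon.2) (not_le.2 h2)

private theorem gfl_dec (𝔓 : Ideal ZQ) (g : GQ) (hg : g • 𝔓 = 𝔓) : Decomp 𝔓 g := by
  have key : ∀ x y : ZQ, y = g • x → (x ∈ 𝔓 ↔ y ∈ 𝔓) := by
    intro x y h1
    rw [h1]
    constructor
    · intro h
      have h2 := Ideal.smul_mem_pointwise_smul g x 𝔓 h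
      rwa [hg] at h2
    · intro h
      have h2 : g • x ∈ g • 𝔓 := by
        rw [hg]
        exact h
      exact Ideal.smul_mem_pointwise_smul_iff.1 h2
  intro x y hxy
  exact key x y (Subtype.ext hxy)

private theorem gfl_redAt {E : Type} [NormedField E] (V : Gam →* GL2 E) (h : RedAt 2 V) :
    ∃ 𝔓 : Ideal ZQ, 𝔓.IsPrime ∧ (2 : ZQ) ∈ 𝔓 ∧ ∃ v : Fin 2 → E, v ≠ 0 ∧
      ∀ g : GQ, g • 𝔓 = 𝔓 → ∃ c : E, (old V g : Matrix (Fin 2) (Fin 2) E) *ᵥ v = c • v := by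
  obtain ⟨𝔓, h𝔓, h2, v, hv, hvD⟩ := h
  refine ⟨𝔓, h𝔓, ?_, v, hv, fun g hg => hvD g (gfl_dec 𝔓 g hg)⟩
  have h1 : ((2 : ℕ) : AI) = (2 : ZQ) := Nat.cast_ofNat
  rw [← h1]
  exact h2

theorem fin_main2L (S : Finset ℕ) (hS : ∀ l ∈ S, l.Prime) (h2S : 2 ∉ S) :
    ∃ N₀ : ℕ, 0 < N₀ ∧ ∀ (N : ℕ) [NeZero N],
      (∀ l : ℕ, l.Prime → l ∣ N → l ∈ S) →
      ∀ {E : Type} [NormedField E] [IsUltrametricDist E] [CompleteSpace E] [NormedAlgebra ℚ_[2] E]
        (V : Gam →* GL2 E) (α β : (ZMod N)ˣ →* Eˣ) (j : ℕ), Continuous V → (Even2 V ∨ RedAt 2 V) →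
        SumType 2 1 N α β j V →
        (∀ (ℓ : ℕ) (a : (ZMod N)ˣ), ℓ.Prime → ℓ ≠ 2 → ℓ ∉ S → (a : ZMod N) = ℓ →
          Equ (β a * (ℓ : E) ^ (1 - 1)) (α a : E) → TameAt 2 ℓ V) →
        ¬ Line V → ∀ r : (ZMod N)ˣ, (r : ZMod N).val ≡ 1 [MOD N.gcd N₀] →
          Equ (β r : E) (α r) := by
  classical
  obtain ⟨B, hB⟩ := core2 S hS h2S
  obtain ⟨B', hB'⟩ := eul Nat.prime_two hS
  refine ⟨(max B B').factorial, Nat.factorial_pos _, ?_⟩
  intro N _ hNS E _ _ _ _ V α β j hV heven hsum htame hline r hr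
  by_contra hcon
  have h2N : ¬ 2 ∣ N := fun h => h2S (hNS 2 Nat.prime_two h)
  obtain ⟨s, m, hm, hsm⟩ := teiPow N 2 E
  obtain ⟨hγ1, hγm⟩ := hsm (β / α)
  obtain ⟨hα1, hαm⟩ := hsm α
  obtain ⟨k, _, _, _, π, hπ⟩ := res 2 E
  have hγcg : ∀ a, Cg ((((β / α : (ZMod N)ˣ →* Eˣ) ^ s) a : Eˣ) : E)
      (((β / α : (ZMod N)ˣ →* Eˣ) a : Eˣ) : E) := hγ1
  generalize hγ : ((β / α : (ZMod N)ˣ →* Eˣ) ^ s) = γ at hγm hγcg
  generalize hα : (α ^ s : (ZMod N)ˣ →* Eˣ) = α' at hαm hα1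
  clear hγ1 hsm hγ hα
  have hmodd : Odd m := Nat.not_even_iff_odd.1 fun h => hm (even_iff_two_dvd.1 h)
  obtain ⟨χ, hχ⟩ := red_c π γ
  have mem_chi : ∀ {M : ℕ} [NeZero M] (δ : (ZMod M)ˣ →* Eˣ) (a : (ZMod M)ˣ),
      ((δ a : Eˣ) : E) ∈ FRD.OE E := fun δ a => (norm_chi δ a).le
  have chi_one : ∀ {M : ℕ} [NeZero M] {δ : (ZMod M)ˣ →* Eˣ} {η : (ZMod M)ˣ →* kˣ},
      RedOf π δ η → ∀ a, η a = 1 ↔ Equ ((δ a : Eˣ) : E) 1 := by
    intro M _ δ η h a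
    rw [← Units.val_inj, Units.val_one, h a (mem_chi δ a), ← map_one π, gfl_pi_eq hπ]
    rfl
  have hker : ∀ a, χ a = 1 → γ a = 1 := by
    intro a ha
    exact Units.ext (rt hm (hγm a) ((chi_one hχ a).1 ha))
  obtain ⟨f, _, hf, γ', χ', hγf, hχf, hprim⟩ := cond γ χ hker
  have hred' : RedOf π γ' χ' := by
    intro u h
    obtain ⟨a, rfl⟩ := ZMod.unitsMap_surjective hf u
    have h1 := hχ a (mem_chi γ a)
    rw [hχf] at h1
    refine h1.trans ?_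
    congr 1
    apply Subtype.ext
    rw [hγf]
    rfl
  have hχ1 : ∀ a, χ a = χ' (ZMod.unitsMap hf a) := fun a => by
    rw [hχf]
    rfl
  have hγ1 : ∀ a, γ a = γ' (ZMod.unitsMap hf a) := fun a => by
    rw [hγf]
    rfl
  have hγ'm : ∀ u, γ' u ^ m = 1 := by
    intro u
    obtain ⟨a, rfl⟩ := ZMod.unitsMap_surjective hf u
    rw [← hγ1]
    exact Units.ext (by rw [Units.val_pow_eq_pow_val, hγm, Units.val_one])
  have hfS : InS S f := fun l hl hlf => hNS l hl (hlf.trans hf)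
  -- the conductor is large
  have hfB : max B B' < f := by
    by_contra hle
    have h1 : f ∣ (max B B').factorial :=
      Nat.dvd_factorial (Nat.pos_of_ne_zero (NeZero.ne f)) (not_lt.1 hle)
    have h2 : ZMod.unitsMap hf r = 1 := by
      apply Units.ext
      rw [ZMod.unitsMap_val, Units.val_one, ZMod.cast_eq_val]
      have h1' := (ZMod.natCast_eq_natCast_iff _ _ _).2 (hr.of_dvd (Nat.dvd_gcd hf h1))
      rw [h1', Nat.cast_one]
    have h3 := hγcg r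
    rw [hγ1, h2, map_one, Units.val_one] at h3
    exact hcon ((gfl_equ_div α β r).1 h3.symm)
  have h2f : ¬ 2 ∣ f := fun h => h2N (h.trans hf)
  have hfodd : Odd f := Nat.not_even_iff_odd.1 fun h => h2f (even_iff_two_dvd.1 h)
  have heul := hB' f (lt_of_le_of_lt (le_max_right _ _) hfB) hfS k χ' hprim
  have hf1 : f ≠ 1 := by
    intro h2
    refine heul 2 Nat.prime_two (Or.inr rfl) 1 ?_ ?_
    · subst h2
      exact Subsingleton.elim _ _
    · rw [map_one, one_pow]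
  have hf3 : 2 < f := by
    obtain ⟨t, ht⟩ := hfodd
    omega
  have hχ'ne : ∃ u, χ' u ≠ 1 := by
    obtain ⟨l, hl, hlf⟩ := Nat.exists_prime_and_dvd hf1
    obtain ⟨u, _, hu⟩ := hprim l hl hlf
    exact ⟨u, hu⟩
  -- the sums
  have hprim' : Prim χ'⁻¹ := by
    intro l hl hlf
    obtain ⟨u, hu, hu1⟩ := hprim l hl hlf
    exact ⟨u, hu, fun h => hu1 (inv_eq_one.1 h)⟩
  have hD : DD χ' ≠ 0 := hB f (lt_of_le_of_lt (le_max_left _ _) hfB) hfS k χ' hprim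
  have hD' : DD χ'⁻¹ ≠ 0 := hB f (lt_of_le_of_lt (le_max_left _ _) hfB) hfS k χ'⁻¹ hprim'
  -- the field
  obtain ⟨K, _, _, θ, hθi, hθ, hKc⟩ := gaFld f γ' m hmodd hγ'm
  obtain ⟨ψ, hψ⟩ := gfl_red π θ
  have mem_th : ∀ σ, ((θ σ : Eˣ) : E) ∈ FRD.OE E := fun σ => (norm_chi θ σ).le
  obtain ⟨A, hAs, hAo, hA⟩ := gaCyc N
  obtain ⟨A', hAs', _, hA'⟩ := gaCyc f
  have hθm : ∀ σ, θ σ ^ m = 1 := by
    intro σ
    obtain ⟨g, hg⟩ := AlgEquiv.restrictNormalHom_surjective (F := ℚ) (K₁ := K) Qb σ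
    rw [← hg]
    have h1 := hθ g (A' g) ((hA' g _).2 rfl)
    change θ (Pool.Agent.Helper60.FM.res K g) ^ m = 1
    rw [h1, hγ'm]
  have hψone : ∀ σ, ψ σ = 1 ↔ Equ ((θ σ : Eˣ) : E) 1 := by
    intro σ
    rw [← Units.val_inj, Units.val_one, hψ σ (mem_th σ), ← map_one π, gfl_pi_eq hπ]
    rfl
  have hcut : Cut f χ' K ψ := by
    refine ⟨(injective_iff_map_eq_one ψ).2 fun σ hσ => ?_, fun g a hg => ?_⟩
    · have h1 : ((θ σ : Eˣ) : E) = 1 :=
        rt hm (by rw [← Units.val_pow_eq_pow_val, hθm, Units.val_one]) ((hψone σ).1 hσ)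
      exact (injective_iff_map_eq_one θ).1 hθi σ (Units.ext h1)
    · apply Units.ext
      rw [hψ _ (mem_th _), hred' a (mem_chi γ' a)]
      congr 1
      apply Subtype.ext
      change ((θ (Pool.Agent.Helper60.FM.res K g) : Eˣ) : E) = _
      rw [hθ g a hg]
  have h2u : ∀ u : (ZMod f)ˣ, (u : ZMod f) = 2 → χ' u ≠ 1 := by
    intro u hu h
    refine heul 2 Nat.prime_two (Or.inr rfl) u ?_ ?_
    · rw [hu, Nat.cast_ofNat]
    · rw [h, one_pow]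
  -- compatibility of the levels
  have hAA : ∀ g, ZMod.unitsMap hf (A g) = A' g := by
    intro g
    rw [← hA' g]
    intro ζ hζ
    have h1 := (hA g (A g)).2 rfl ζ (by
      obtain ⟨e, he⟩ := hf
      rw [he, pow_mul, hζ, one_pow])
    rw [h1, ZMod.unitsMap_val, ZMod.cast_eq_val, ZMod.val_natCast]
    conv_lhs => rw [← Nat.mod_add_div ((A g : ZMod N).val) f, pow_add, pow_mul, hζ, one_pow,
      mul_one]
  -- the twist
  have hV' : Continuous (old V) := hV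
  obtain ⟨W, hW, hWV⟩ := gaTw N (old V) hV' α'
  have hred : ∀ (g : GQ), ‖trace (old V g : Matrix (Fin 2) (Fin 2) E) -
      (((α (A g) : Eˣ) : E) + ((β (A g) : Eˣ) : E))‖ < 1 := by
    intro g
    have h1 := hsum g (A g) 1 ((hA g (A g)).2 rfl) (by
      intro ζ hζ
      have h2 : ζ = 1 ∨ ζ = -1 := mul_self_eq_one_iff.1 (by rw [← sq]; exact hζ)
      rcases h2 with h2 | h2
      · rw [h2]
        change (g : GQ) 1 = 1 ^ 1
        rw [map_one, one_pow]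
      · rw [h2]
        change (g : GQ) (-1) = (-1) ^ 1
        rw [map_neg, map_one, pow_one])
    rw [Nat.cast_one, one_pow, one_pow, one_mul, mul_one] at h1
    exact h1
  have htrW : ∀ g, ‖trace (W g : Matrix (Fin 2) (Fin 2) E) - 1 -
      ((θ (Pool.Agent.Helper60.FM.res K g) : Eˣ) : E)‖ < 1 := by
    intro g
    have h1 : trace (W g : Matrix (Fin 2) (Fin 2) E) =
        (((α' (A g))⁻¹ : Eˣ) : E) * trace (old V g : Matrix (Fin 2) (Fin 2) E) := by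
      rw [hWV g (A g) ((hA g _).2 rfl), trace_smul, smul_eq_mul]
    have h2 : ((θ (Pool.Agent.Helper60.FM.res K g) : Eˣ) : E) = ((γ (A g) : Eˣ) : E) := by
      rw [hθ g (A' g) ((hA' g _).2 rfl), hγ1, hAA]
    have hn : ‖(((α' (A g))⁻¹ : Eˣ) : E)‖ = 1 := by
      rw [← map_inv]
      exact norm_chi α' _
    have h3 : Cg (trace (W g : Matrix (Fin 2) (Fin 2) E))
        ((((α' (A g))⁻¹ : Eˣ) : E) * (((α (A g) : Eˣ) : E) + ((β (A g) : Eˣ) : E))) := by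
      rw [h1]
      refine Cg.mul Cg.rfl (hred g) hn.le ?_
      exact norm_add_le_one E (norm_chi α _).le (norm_chi β _).le
    have h4 : Cg ((((α' (A g))⁻¹ : Eˣ) : E) * (((α (A g) : Eˣ) : E) + ((β (A g) : Eˣ) : E)))
        (1 + ((γ (A g) : Eˣ) : E)) := by
      have h5 : (((α (A g) : Eˣ) : E) + ((β (A g) : Eˣ) : E)) =
          ((α (A g) : Eˣ) : E) * (1 + (((β / α : (ZMod N)ˣ →* Eˣ) (A g) : Eˣ) : E)) := by
        have h6 : (((β / α : (ZMod N)ˣ →* Eˣ) (A g) : Eˣ) : E) * (α (A g) : Eˣ) =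
            (β (A g) : Eˣ) := by
          change ((β (A g) / α (A g) : Eˣ) : E) * α (A g) = β (A g)
          rw [← Units.val_mul, div_mul_cancel]
        rw [← h6]
        ring
      have h7 : Cg (((α (A g) : Eˣ) : E) * (1 + (((β / α : (ZMod N)ˣ →* Eˣ) (A g) : Eˣ) : E)))
          (((α' (A g) : Eˣ) : E) * (1 + ((γ (A g) : Eˣ) : E))) := by
        refine Cg.mul (hα1 _).symm (Cg.add Cg.rfl (hγcg _).symm) (norm_chi α' _).le ?_
        exact norm_add_le_one E norm_one.le (norm_chi γ _).le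
      rw [h5]
      have h8 : (1 + ((γ (A g) : Eˣ) : E)) = (((α' (A g))⁻¹ : Eˣ) : E) *
          (((α' (A g) : Eˣ) : E) * (1 + ((γ (A g) : Eˣ) : E))) := by
        rw [← mul_assoc, ← Units.val_mul, inv_mul_cancel, Units.val_one, one_mul]
      rw [h8]
      refine Cg.mul Cg.rfl h7 hn.le ?_
      rw [norm_mul, norm_chi, one_mul]
      exact norm_add_le_one E norm_one.le (norm_chi γ _).le
    have h9 := h3.trans h4
    rw [sub_sub, h2]
    exact h9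
  have hθne : ∃ σ, 1 ≤ ‖((1 : E)) - ((θ σ : Eˣ) : E)‖ := by
    obtain ⟨u, hu⟩ := hχ'ne
    obtain ⟨g, hg⟩ := hAs' u
    refine ⟨Pool.Agent.Helper60.FM.res K g, not_lt.1 fun h => hu ?_⟩
    rw [← hcut.2 g u ((hA' g u).2 hg.symm), hψone]
    unfold Equ
    rw [norm_sub_rev]
    exact h
  have h2E : ‖(2 : E)‖ < 1 := by
    have h1 := (norm_natCast_lt_one_iff (p := 2) (E := E) 2).2 dvd_rfl
    rwa [Nat.cast_ofNat] at h1
  -- the determinant
  have hdetW : ∀ g, ‖det (W g : Matrix (Fin 2) (Fin 2) E) -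
      ((θ (Pool.Agent.Helper60.FM.res K g) : Eˣ) : E)‖ < 1 := by
    intro g
    obtain ⟨σ, hσ⟩ := hθne
    obtain ⟨g₀, hg₀⟩ := AlgEquiv.restrictNormalHom_surjective (F := ℚ) (K₁ := K) Qb σ
    have h1 := gaDet h2E W (1 : GQ →* Eˣ) (θ.comp (Pool.Agent.Helper60.FM.res K))
      (fun _ => by rw [MonoidHom.one_apply, Units.val_one, norm_one])
      (fun _ => norm_chi θ _)
      (fun g => by
        rw [MonoidHom.one_apply, Units.val_one]
        exact htrW g) g₀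
      (by
        rw [MonoidHom.one_apply, Units.val_one]
        change 1 ≤ ‖(1 : E) - ((θ (AlgEquiv.restrictNormalHom K g₀) : Eˣ) : E)‖
        rw [hg₀]
        exact hσ) g
    rw [MonoidHom.one_apply, Units.val_one, one_mul] at h1
    exact h1
  -- the set of ramified primes
  let T : Set ℕ := {ℓ | ℓ.Prime ∧ (ℓ ∣ f ∨ ∃ u : (ZMod f)ˣ, (u : ZMod f) = ℓ ∧ χ' u ≠ 1)}
  have hdecT : ∀ P : Ideal (𝓞 K), P.IsPrime → P ≠ ⊥ → (∃ ℓ ∈ T, (ℓ : 𝓞 K) ∈ P) →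
      ∃ σ : Gal(K/ℚ), σ • P = P ∧ 1 ≤ ‖((θ σ : Eˣ) : E) - 1‖ := by
    rintro P hP hP0 ⟨ℓ, ⟨hℓ, hℓT⟩, hℓP⟩
    obtain ⟨h1, h2⟩ := locK2 f hfodd χ' hprim K ψ hcut P hP ℓ hℓ hℓP
    have h3 : ∃ σ : Gal(K/ℚ), σ • P = P ∧ ψ σ ≠ 1 := by
      rcases hℓT with h | ⟨u, hu, hu1⟩
      · exact h2 h
      · obtain ⟨σ, hσ, hσ1⟩ := h1 u hu
        exact ⟨σ, hσ, by rw [hσ1]; exact hu1⟩
    obtain ⟨σ, hσ, hσ1⟩ := h3
    exact ⟨σ, hσ, not_lt.1 fun h => hσ1 ((hψone σ).2 h)⟩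
  have hunrW : ∀ ℓ : ℕ, ℓ.Prime → ℓ ∉ T → UnramAt W ℓ := by
    intro ℓ hℓ hℓT
    have h1 : ¬ ℓ ∣ f := fun h => hℓT ⟨hℓ, Or.inl h⟩
    have h2 : ∀ u : (ZMod f)ˣ, (u : ZMod f) = ℓ → χ' u = 1 := by
      intro u hu
      by_contra h
      exact hℓT ⟨hℓ, Or.inr ⟨u, hu, h⟩⟩
    have hcop : ℓ.Coprime f := (Nat.Prime.coprime_iff_not_dvd hℓ).2 h1
    obtain ⟨u, hu⟩ : ∃ u : (ZMod f)ˣ, (u : ZMod f) = ℓ :=
      ⟨ZMod.unitOfCoprime ℓ hcop, ZMod.coe_unitOfCoprime ℓ hcop⟩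
    have hℓS : ℓ ∉ S := by
      intro h
      refine heul ℓ hℓ (Or.inl h) u hu ?_
      rw [h2 u hu, one_pow]
    have hℓ2 : ℓ ≠ 2 := by
      rintro rfl
      refine heul 2 hℓ (Or.inr rfl) u hu ?_
      rw [h2 u hu, one_pow]
    have hℓN : ¬ ℓ ∣ N := fun h => hℓS (hNS ℓ hℓ h)
    have hcopN : ℓ.Coprime N := (Nat.Prime.coprime_iff_not_dvd hℓ).2 hℓN
    obtain ⟨a, ha⟩ : ∃ a : (ZMod N)ˣ, (a : ZMod N) = ℓ :=
      ⟨ZMod.unitOfCoprime ℓ hcopN, ZMod.coe_unitOfCoprime ℓ hcopN⟩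
    have hau : ((ZMod.unitsMap hf a : (ZMod f)ˣ) : ZMod f) = ℓ := by
      rw [ZMod.unitsMap_val, ha, ZMod.cast_natCast hf]
    have h3 : Equ ((γ' (ZMod.unitsMap hf a) : Eˣ) : E) 1 :=
      (chi_one hred' _).1 (h2 _ hau)
    have h4 : Equ (((β / α : (ZMod N)ˣ →* Eˣ) a : Eˣ) : E) 1 := by
      have h5 := (hγcg a).symm
      rw [hγ1] at h5
      exact h5.trans h3
    have h5 : Equ ((β a : Eˣ) : E) ((α a : Eˣ) : E) := (gfl_equ_div α β a).1 h4
    have h6 := htame ℓ a hℓ hℓ2 hℓS ha (by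
      rw [Nat.sub_self, pow_zero, mul_one]
      exact h5)
    refine unramAt_of_pt W ℓ fun 𝔓 hP hℓP g hg => ?_
    obtain ⟨e, he, heV⟩ := h6 𝔓 hP hℓP (g : Gam) ((iner_iff 𝔓 (g : Gam)).2 hg)
    have hN𝔓 : (N : ZQ) ∉ 𝔓 := by
      intro h
      apply hP.ne_top
      rw [Ideal.eq_top_iff_one]
      have h7 := Nat.isCoprime_iff_coprime.2 hcopN
      obtain ⟨x, y, hxy⟩ := h7
      have h8 := congrArg (fun z : ℤ => (z : ZQ)) hxy
      push_cast at h8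
      rw [← h8]
      exact 𝔓.add_mem (𝔓.mul_mem_left _ hℓP) (𝔓.mul_mem_left _ h)
    have hAg : A g = 1 := by
      symm
      rw [← hA g]
      intro ζ hζ
      rw [fix_root hP hN𝔓 hg ζ hζ, Units.val_one]
      rcases Nat.lt_or_ge 1 N with h | h
      · have : Fact (1 < N) := ⟨h⟩
        rw [ZMod.val_one, pow_one]
      · have h7 : N = 1 := le_antisymm h (Nat.pos_of_ne_zero (NeZero.ne N))
        subst h7
        rw [pow_one] at hζ
        rw [hζ, one_pow]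
    have hA'g : A' g = 1 := by rw [← hAA, hAg, map_one]
    have hθg : θ (Pool.Agent.Helper60.FM.res K g) = 1 := by
      rw [hθ g (A' g) ((hA' g _).2 rfl), hA'g, map_one]
    have hWg : W g = old V g := by
      apply Units.ext
      have h7 := hWV g (A g) ((hA g _).2 rfl)
      rw [hAg, map_one, inv_one, Units.val_one, one_smul] at h7
      exact h7
    refine gaTame (W g) ?_ ?_ e (norm_natCast_eq_one (p := 2) he) ?_
    · have h7 := htrW g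
      rw [hθg, Units.val_one, sub_sub, one_add_one_eq_two] at h7
      exact h7
    · have h7 := hdetW g
      rwa [hθg, Units.val_one] at h7
    · rw [hWg]
      exact heV
  have hfix1 : ∀ {M : ℕ} [NeZero M] {𝔓 : Ideal ZQ}, 𝔓.IsPrime → (M : ZQ) ∉ 𝔓 → ∀ g ∈ In 𝔓,
      ActsAs M g ((1 : (ZMod M)ˣ) : ZMod M).val := by
    intro M _ 𝔓 hP hM g hg ζ hζ
    rw [fix_root hP hM hg ζ hζ, Units.val_one]
    rcases Nat.lt_or_ge 1 M with h | h
    · have : Fact (1 < M) := ⟨h⟩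
      rw [ZMod.val_one, pow_one]
    · have h7 : M = 1 := le_antisymm h (Nat.pos_of_ne_zero (NeZero.ne M))
      subst h7
      rw [pow_one] at hζ
      rw [hζ, one_pow]
  have hf𝔓 : ∀ 𝔓 : Ideal ZQ, 𝔓.IsPrime → (2 : ZQ) ∈ 𝔓 → (f : ZQ) ∉ 𝔓 := by
    intro 𝔓 hP h2P h
    apply hP.ne_top
    rw [Ideal.eq_top_iff_one]
    obtain ⟨t, ht⟩ := hfodd
    have h1 : (1 : ZQ) = (f : ZQ) - 2 * (t : ZQ) := by
      rw [ht]
      push_cast
      ring
    rw [h1]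
    exact 𝔓.sub_mem h (𝔓.mul_mem_right _ h2P)
  have hKI : ∀ 𝔓 : Ideal ZQ, 𝔓.IsPrime → (2 : ZQ) ∈ 𝔓 → ∀ g ∈ In 𝔓, g ∈ K.fixingSubgroup := by
    intro 𝔓 hP h2P g hg
    rw [mem_fix_iff_res]
    apply hθi
    rw [hθ g 1 (hfix1 hP (hf𝔓 𝔓 hP h2P) g hg), map_one, map_one]
  have hone : ∀ σ, ((((1 : Gal(K/ℚ) →* Eˣ) σ : Eˣ) : E)) = 1 := by
    intro σ
    rw [MonoidHom.one_apply, Units.val_one]
  have hsum1 : ∀ n : Gal(K/ℚ) → ℕ, es ψ n = 0 →
      ‖∑ σ, (n σ : E) * ((θ σ * (((1 : Gal(K/ℚ) →* Eˣ) σ))⁻¹ : Eˣ) : E)‖ < 1 := by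
    intro n hn
    have h1 : ∀ σ, (n σ : E) * ((θ σ * (((1 : Gal(K/ℚ) →* Eˣ) σ))⁻¹ : Eˣ) : E) =
        (n σ : E) * ((θ σ : Eˣ) : E) := by
      intro σ
      rw [MonoidHom.one_apply, inv_one, mul_one]
    rw [Finset.sum_congr rfl fun σ _ => h1 σ]
    exact gfl_sum hπ θ ψ hψ n hn
  -- the inverse characters
  have hcut' : Cut f χ'⁻¹ K ψ⁻¹ := by
    refine ⟨fun a b hab => hcut.1 ?_, fun g a hg => ?_⟩
    · have h1 : (ψ a)⁻¹ = (ψ b)⁻¹ := hab
      exact inv_injective h1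
    · have h1 := hcut.2 g a hg
      change (ψ (Pool.Agent.Helper60.FM.res K g))⁻¹ = (χ' a)⁻¹
      rw [h1]
  have h2u' : ∀ u : (ZMod f)ˣ, (u : ZMod f) = 2 → χ'⁻¹ u ≠ 1 := by
    intro u hu h
    exact h2u u hu (inv_eq_one.1 h)
  have hinv2 : χ'⁻¹⁻¹ = χ' := by
    ext u
    change (((((χ' u)⁻¹ : kˣ)⁻¹ : kˣ) : k)) = _
    rw [inv_inv]
  have hD'' : DD χ'⁻¹⁻¹ ≠ 0 := by rw [hinv2]; exact hD
  have hψ' : ∀ (σ : Gal(K/ℚ)) (h : (((θ⁻¹ : Gal(K/ℚ) →* Eˣ) σ : Eˣ) : E) ∈ FRD.OE E),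
      (((ψ⁻¹ : Gal(K/ℚ) →* kˣ) σ : kˣ) : k) = π ⟨(θ⁻¹ : Gal(K/ℚ) →* Eˣ) σ, h⟩ := by
    intro σ h
    have h1 : π ⟨(θ⁻¹ : Gal(K/ℚ) →* Eˣ) σ, h⟩ * ((ψ σ : kˣ) : k) = 1 := by
      rw [hψ σ (mem_th σ), ← map_mul, ← map_one π]
      congr 1
      apply Subtype.ext
      change (((θ σ)⁻¹ : Eˣ) : E) * ((θ σ : Eˣ) : E) = 1
      rw [← Units.val_mul, inv_mul_cancel, Units.val_one]
    have h2 : (((ψ σ)⁻¹ : kˣ) : k) * ((ψ σ : kˣ) : k) = 1 := by
      rw [← Units.val_mul, inv_mul_cancel, Units.val_one]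
    change (((ψ σ)⁻¹ : kˣ) : k) = _
    exact mul_right_cancel₀ (Units.ne_zero (ψ σ)) (h2.trans h1.symm)
  have hsum2 : ∀ n : Gal(K/ℚ) → ℕ, es ψ⁻¹ n = 0 →
      ‖∑ σ, (n σ : E) * ((((1 : Gal(K/ℚ) →* Eˣ) σ) * (θ σ)⁻¹ : Eˣ) : E)‖ < 1 := by
    intro n hn
    have h1 : ∀ σ, (n σ : E) * ((((1 : Gal(K/ℚ) →* Eˣ) σ) * (θ σ)⁻¹ : Eˣ) : E) =
        (n σ : E) * (((θ⁻¹ : Gal(K/ℚ) →* Eˣ) σ : Eˣ) : E) := by
      intro σ
      rw [MonoidHom.one_apply, one_mul]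
      rfl
    rw [Finset.sum_congr rfl fun σ _ => h1 σ]
    exact gfl_sum hπ θ⁻¹ ψ⁻¹ hψ' n hn
  have hline' : HasLine W := by
    rcases heven with heven | hred
    · refine gaDis K hKc (1 : Gal(K/ℚ) →* Eˣ) θ T ?_ ?_ ?_ ?_ W hW ?_ hunrW ?_
      · -- decomposition groups
        intro P hP hP0 h
        simp only [hone]
        exact hdecT P hP hP0 h
      · -- the class group
        intro 𝔞 h𝔞 h
        exact class2 f hfodd hf3 χ' hprim h2u hD hD' K ψ hcut 𝔞 h𝔞 fun n hn => h n (hsum1 n hn)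
      · -- the units
        intro u hpos h
        exact units2 f hfodd hf3 χ' hprim h2u hD hD' K ψ hcut u hpos fun n hn => h n (hsum1 n hn)
      · obtain ⟨σ, hσ⟩ := hθne
        exact ⟨σ, by rw [hone]; exact hσ⟩
      · intro g
        rw [hone]
        exact htrW g
      · -- even
        intro c hc
        have h1 : det (old V c : Matrix (Fin 2) (Fin 2) E) = 1 := heven c hc
        have h2 : c ^ 2 = 1 := by rw [sq]; exact isCC_mul_self hc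
        have h3 : (α' (A c))⁻¹ ^ 2 = 1 := by
          rw [inv_pow, ← map_pow, ← map_pow, h2, map_one, map_one, inv_one]
        rw [hWV c (A c) ((hA c _).2 rfl), det_smul, h1, mul_one, Fintype.card_fin,
          ← Units.val_pow_eq_pow_val, h3, Units.val_one]
    · -- reducible at 2
      obtain ⟨𝔓₀, h𝔓₀, h2𝔓₀, v, hv, hvD⟩ := gfl_redAt V hred
      obtain ⟨g₀, hg₀⟩ := exists_frob 2 Nat.prime_two 𝔓₀ h𝔓₀
        (by rw [Nat.cast_ofNat]; exact h2𝔓₀)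
      have hact : ActsAs f g₀ 2 :=
        gfl_frob h𝔓₀ (Nat.pos_of_ne_zero (NeZero.ne f)) (hf𝔓 _ h𝔓₀ h2𝔓₀) hg₀
      have hu2 : ((A' g₀ : (ZMod f)ˣ) : ZMod f) = 2 := by
        have hcop : Nat.Coprime 2 f := Nat.coprime_two_left.2 hfodd
        have h1 : ZMod.unitOfCoprime 2 hcop = A' g₀ := by
          rw [← hA' g₀, ZMod.coe_unitOfCoprime, ZMod.val_natCast, Nat.mod_eq_of_lt hf3]
          exact hact
        rw [← h1, ZMod.coe_unitOfCoprime, Nat.cast_ofNat]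
      have hψg₀ : ψ (Pool.Agent.Helper60.FM.res K g₀) ≠ 1 := by
        rw [hcut.2 g₀ (A' g₀) ((hA' g₀ _).2 rfl)]
        exact h2u _ hu2
      have hθg₀ : 1 ≤ ‖((θ (Pool.Agent.Helper60.FM.res K g₀) : Eˣ) : E) - 1‖ :=
        not_lt.1 fun h => hψg₀ ((hψone _).2 h)
      have hstab : ∀ g : GQ, g • 𝔓₀ = 𝔓₀ →
          ∃ c : E, (W g : Matrix (Fin 2) (Fin 2) E) *ᵥ v = c • v := by
        intro g hg
        obtain ⟨c, hc⟩ := hvD g hg
        refine ⟨(((α' (A g))⁻¹ : Eˣ) : E) * c, ?_⟩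
        rw [hWV g (A g) ((hA g _).2 rfl), smul_mulVec, hc, ← smul_smul]
      obtain ⟨c₀, hc₀⟩ := hstab g₀ hg₀.1
      have huniq : ∀ c : E, (W g₀ : Matrix (Fin 2) (Fin 2) E) *ᵥ v = c • v → c = c₀ := by
        intro c hc
        rw [hc₀] at hc
        by_contra hne
        apply hv
        have h1 : (c₀ - c) • v = 0 := by rw [sub_smul, hc, sub_self]
        exact (smul_eq_zero.1 h1).resolve_left (sub_ne_zero.2 (Ne.symm hne))
      -- the eigenvalue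
      have hchar : c₀ * c₀ - trace (W g₀ : Matrix (Fin 2) (Fin 2) E) * c₀ +
          det (W g₀ : Matrix (Fin 2) (Fin 2) E) = 0 :=
        gfl_char _ v hv c₀ hc₀
      set θ₀ : E := ((θ (Pool.Agent.Helper60.FM.res K g₀) : Eˣ) : E) with hθ₀
      have hθ₀n : ‖θ₀‖ = 1 := norm_chi θ _
      have htr0 : ‖trace (W g₀ : Matrix (Fin 2) (Fin 2) E) - 1 - θ₀‖ < 1 := htrW g₀
      have hdet0 : ‖det (W g₀ : Matrix (Fin 2) (Fin 2) E) - θ₀‖ < 1 := hdetW g₀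
      rcases gfl_root2 c₀ θ₀ _ _ hθ₀n htr0 hdet0 hchar with hcase | hcase
      · -- eigenvalue near `θ`
        refine gaDisL K hKI (1 : Gal(K/ℚ) →* Eˣ) θ T ?_ ?_ ?_ W hW ?_ hunrW 𝔓₀ h𝔓₀ h2𝔓₀ g₀
          hg₀.1 ?_ v hv hstab ?_
        · intro P hP hP0 h
          simp only [hone]
          exact hdecT P hP hP0 h
        · intro 𝔞 h𝔞 h
          exact class2 f hfodd hf3 χ' hprim h2u hD hD' K ψ hcut 𝔞 h𝔞
            fun n hn => h n (hsum1 n hn)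
        · intro u hloc h
          exact units3G f hfodd hf3 χ' hprim h2u hD hD' K ψ hcut u hloc
            fun n hn => h n (hsum1 n hn)
        · intro g
          rw [hone]
          exact htrW g
        · rw [hone, norm_sub_rev]
          exact hθg₀
        · intro c hc
          rw [huniq c hc]
          exact hcase
      · -- eigenvalue near `1`
        refine gaDisL K hKI θ (1 : Gal(K/ℚ) →* Eˣ) T ?_ ?_ ?_ W hW ?_ hunrW 𝔓₀ h𝔓₀ h2𝔓₀ g₀
          hg₀.1 ?_ v hv hstab ?_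
        · intro P hP hP0 h
          obtain ⟨σ, hσ, hσ1⟩ := hdecT P hP hP0 h
          exact ⟨σ, hσ, by rw [hone, norm_sub_rev]; exact hσ1⟩
        · intro 𝔞 h𝔞 h
          exact class2 f hfodd hf3 χ'⁻¹ hprim' h2u' hD' hD'' K ψ⁻¹ hcut' 𝔞 h𝔞
            fun n hn => h n (hsum2 n hn)
        · intro u hloc h
          exact units3G f hfodd hf3 χ'⁻¹ hprim' h2u' hD' hD'' K ψ⁻¹ hcut' u hloc
            fun n hn => h n (hsum2 n hn)
        · intro g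
          rw [hone, sub_right_comm]
          exact htrW g
        · rw [hone]
          exact hθg₀
        · intro c hc
          rw [huniq c hc, hone]
          exact hcase
  -- back to V
  obtain ⟨v, hv, hvW⟩ := hline'
  apply hline
  refine ⟨v, hv, fun g => ?_⟩
  obtain ⟨c, hc⟩ := hvW g
  refine ⟨((α' (A g) : Eˣ) : E) * c, ?_⟩
  have h1 : (old V g : Matrix (Fin 2) (Fin 2) E) =
      ((α' (A g) : Eˣ) : E) • (W g : Matrix (Fin 2) (Fin 2) E) := by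
    rw [hWV g (A g) ((hA g _).2 rfl), smul_smul, ← Units.val_mul, mul_inv_cancel, Units.val_one,
      one_smul]
  change (old V g : Matrix (Fin 2) (Fin 2) E) *ᵥ v = _
  rw [h1, smul_mulVec, hc, smul_smul]

end Pool.Agent.FR2
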