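import Pool.Agent.FRD.Fin
import Pool.Agent.FR2.GaFinL

/-!
# All primes together
-/

namespace Pool.Agent.FR2

open Pool.Agent.AAP

theorem fin_all (p : ℕ) [hp : Fact p.Prime] (S : Finset ℕ) (hS : ∀ l ∈ S, l.Prime)
    (hpS : p ∉ S) : ∃ N₀ : ℕ, 0 < N₀ ∧ ∀ (N n : ℕ) [NeZero N],
      (∀ l : ℕ, l.Prime → l ∣ N → l ∈ S) → 1 ≤ n → n < p →
      ∀ {E : Type} [NormedField E] [IsUltrametricDist E] [CompleteSpace E] [NormedAlgebra ℚ_[p] E]
        (V : Gam →* GL2 E) (α β : (ZMod N)ˣ →* Eˣ) (j : ℕ), Continuous V →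
        (Even2 V ∨ p = 2 ∧ RedAt p V) → SumType p n N α β j V →
        (∀ (ℓ : ℕ) (a : (ZMod N)ˣ), ℓ.Prime → ℓ ≠ p → ℓ ∉ S → (a : ZMod N) = ℓ →
          Equ (β a * (ℓ : E) ^ (n - 1)) (α a : E) → TameAt p ℓ V) →
        ¬ Line V → ∀ r : (ZMod N)ˣ, (r : ZMod N).val ≡ 1 [MOD N.gcd N₀] →
          Equ (β r : E) (α r) := by
  by_cases hp2 : p = 2
  · subst hp2
    obtain ⟨N₀, hN₀, h⟩ := fin_main2L S hS hpS
    refine ⟨N₀, hN₀, ?_⟩
    intro N n _ hNS hn1 hn2 E _ _ _ _ V α β j hV heven hsum htame hline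
    have hn : n = 1 := by omega
    subst hn
    exact h N hNS V α β j hV (heven.imp_right And.right) hsum htame hline
  · obtain ⟨N₀, hN₀, h⟩ := Pool.Agent.FRD.fin_main p hp2 S hS hpS
    refine ⟨N₀, hN₀, ?_⟩
    intro N n _ hNS hn1 hn2 E _ _ _ _ V α β j hV heven hsum htame hline
    exact h N n hNS hn1 hn2 V α β j hV (heven.resolve_right fun h => hp2 h.1) hsum htame hline

end Pool.Agent.FR2
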