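import Pool.Agent.FR2.GaNum
import Pool.Agent.FR2.GaDis
import Pool.Agent.FR2.GaFld
import Pool.Agent.FR2.Core
import Pool.Agent.FRD.Fin

/-!
# Assembly of FiniteReductions for `p = 2`
-/

open NumberField Pointwise Matrix

namespace Pool.Agent.FR2

open Pool.Agent.AAP Pool.Agent.Helper60.FM Pool.Agent.FRD

section

variable {E k : Type} [NormedField E] [IsUltrametricDist E] [Field k]

private theorem gf_pi_eq {π : FRD.OE E →+* k} (hπ : Red π) {x y : FRD.OE E} :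
    π x = π y ↔ ‖(x : E) - y‖ < 1 := by
  rw [← sub_eq_zero, ← map_sub, hπ]
  rfl

private theorem gf_equ_div {N : ℕ} [NeZero N] (α β : (ZMod N)ˣ →* Eˣ) (r : (ZMod N)ˣ) :
    Equ (((β / α : (ZMod N)ˣ →* Eˣ) r : Eˣ) : E) 1 ↔
      Equ (((β r : Eˣ) : E)) (((α r : Eˣ) : E)) := by
  have h1 : (((β / α : (ZMod N)ˣ →* Eˣ) r : Eˣ) : E) * (α r : Eˣ) = (β r : Eˣ) := by
    change ((β r / α r : Eˣ) : E) * α r = β r
    rw [← Units.val_mul, div_mul_cancel]
  have h2 : ((β r : Eˣ) : E) - ((α r : Eˣ) : E) =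
      ((α r : Eˣ) : E) * ((((β / α : (ZMod N)ˣ →* Eˣ) r : Eˣ) : E) - 1) := by
    rw [← h1]
    ring
  unfold Equ
  rw [h2, norm_mul, norm_chi, one_mul]

/-- the reduction of a character of a finite group -/
private theorem gf_red (π : FRD.OE E →+* k) {G : Type} [Group G] [Finite G] (γ : G →* Eˣ) :
    ∃ χ : G →* kˣ, ∀ (r : G) (h : ((γ r : Eˣ) : E) ∈ FRD.OE E),
      ((χ r : kˣ) : k) = π ⟨γ r, h⟩ := by
  have hm : ∀ r : G, ((γ r : Eˣ) : E) ∈ FRD.OE E := fun r => (norm_chi γ r).le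
  let f : G →* k :=
    { toFun := fun r => π ⟨((γ r : Eˣ) : E), hm r⟩
      map_one' := by
        have h1 : (⟨((γ 1 : Eˣ) : E), hm 1⟩ : FRD.OE E) = 1 := by
          refine Subtype.ext ?_
          show ((γ 1 : Eˣ) : E) = 1
          rw [map_one, Units.val_one]
        rw [h1, map_one]
      map_mul' := fun r s => by
        have h1 : (⟨((γ (r * s) : Eˣ) : E), hm (r * s)⟩ : FRD.OE E) =
            ⟨((γ r : Eˣ) : E), hm r⟩ * ⟨((γ s : Eˣ) : E), hm s⟩ := by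
          refine Subtype.ext ?_
          show ((γ (r * s) : Eˣ) : E) = ((γ r : Eˣ) : E) * ((γ s : Eˣ) : E)
          rw [map_mul, Units.val_mul]
        rw [h1, map_mul] }
  refine ⟨f.toHomUnits, ?_⟩
  intro r h
  rw [MonoidHom.coe_toHomUnits]
  rfl

end

theorem fin_main2 (S : Finset ℕ) (hS : ∀ l ∈ S, l.Prime) (h2S : 2 ∉ S) :
    ∃ N₀ : ℕ, 0 < N₀ ∧ ∀ (N : ℕ) [NeZero N],
      (∀ l : ℕ, l.Prime → l ∣ N → l ∈ S) →
      ∀ {E : Type} [NormedField E] [IsUltrametricDist E] [CompleteSpace E] [NormedAlgebra ℚ_[2] E]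
        (V : Gam →* GL2 E) (α β : (ZMod N)ˣ →* Eˣ) (j : ℕ), Continuous V → Even2 V →
        SumType 2 1 N α β j V →
        (∀ (ℓ : ℕ) (a : (ZMod N)ˣ), ℓ.Prime → ℓ ≠ 2 → ℓ ∉ S → (a : ZMod N) = ℓ →
          Equ (β a * (ℓ : E) ^ (1 - 1)) (α a : E) → TameAt 2 ℓ V) →
        ¬ Line V → ∀ r : (ZMod N)ˣ, (r : ZMod N).val ≡ 1 [MOD N.gcd N₀] →
          Equ (β r : E) (α r) := by
  classical
  obtain ⟨B, hB⟩ := core2 S hS h2S
  obtain ⟨B', hB'⟩ := eul Nat.prime_two hS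
  refine ⟨(max B B').factorial, Nat.factorial_pos _, ?_⟩
  intro N _ hNS E _ _ _ _ V α β j hV heven hsum htame hline r hr
  by_contra hcon
  have h2N : ¬ 2 ∣ N := fun h => h2S (hNS 2 Nat.prime_two h)
  obtain ⟨s, m, hm, hsm⟩ := teiPow N 2 E
  obtain ⟨hγ1, hγm⟩ := hsm (β / α)
  obtain ⟨hα1, hαm⟩ := hsm α
  obtain ⟨k, _, _, _, π, hπ⟩ := res 2 E
  have hγcg : ∀ a, Cg ((((β / α : (ZMod N)ˣ →* Eˣ) ^ s) a : Eˣ) : E)
      (((β / α : (ZMod N)ˣ →* Eˣ) a : Eˣ) : E) := hγ1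
  generalize hγ : ((β / α : (ZMod N)ˣ →* Eˣ) ^ s) = γ at hγm hγcg
  generalize hα : (α ^ s : (ZMod N)ˣ →* Eˣ) = α' at hαm hα1
  clear hγ1 hsm hγ hα
  have hmodd : Odd m := Nat.not_even_iff_odd.1 fun h => hm (even_iff_two_dvd.1 h)
  obtain ⟨χ, hχ⟩ := red_c π γ
  have mem_chi : ∀ {M : ℕ} [NeZero M] (δ : (ZMod M)ˣ →* Eˣ) (a : (ZMod M)ˣ),
      ((δ a : Eˣ) : E) ∈ FRD.OE E := fun δ a => (norm_chi δ a).le
  have chi_one : ∀ {M : ℕ} [NeZero M] {δ : (ZMod M)ˣ →* Eˣ} {η : (ZMod M)ˣ →* kˣ},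
      RedOf π δ η → ∀ a, η a = 1 ↔ Equ ((δ a : Eˣ) : E) 1 := by
    intro M _ δ η h a
    rw [← Units.val_inj, Units.val_one, h a (mem_chi δ a), ← map_one π, gf_pi_eq hπ]
    rfl
  have hker : ∀ a, χ a = 1 → γ a = 1 := by
    intro a ha
    exact Units.ext (rt hm (hγm a) ((chi_one hχ a).1 ha))
  obtain ⟨f, _, hf, γ', χ', hγf, hχf, hprim⟩ := cond γ χ hker
  have hred' : RedOf π γ' χ' := by
    intro u h
    obtain ⟨a, rfl⟩ := ZMod.unitsMap_surjective hf u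
    have h1 := hχ a (mem_chi γ a)
    rw [hχf] at h1
    refine h1.trans ?_
    congr 1
    apply Subtype.ext
    rw [hγf]
    rfl
  have hχ1 : ∀ a, χ a = χ' (ZMod.unitsMap hf a) := fun a => by
    rw [hχf]
    rfl
  have hγ1 : ∀ a, γ a = γ' (ZMod.unitsMap hf a) := fun a => by
    rw [hγf]
    rfl
  have hγ'm : ∀ u, γ' u ^ m = 1 := by
    intro u
    obtain ⟨a, rfl⟩ := ZMod.unitsMap_surjective hf u
    rw [← hγ1]
    exact Units.ext (by rw [Units.val_pow_eq_pow_val, hγm, Units.val_one])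
  have hfS : InS S f := fun l hl hlf => hNS l hl (hlf.trans hf)
  -- the conductor is large
  have hfB : max B B' < f := by
    by_contra hle
    have h1 : f ∣ (max B B').factorial :=
      Nat.dvd_factorial (Nat.pos_of_ne_zero (NeZero.ne f)) (not_lt.1 hle)
    have h2 : ZMod.unitsMap hf r = 1 := by
      apply Units.ext
      rw [ZMod.unitsMap_val, Units.val_one, ZMod.cast_eq_val]
      have h1' := (ZMod.natCast_eq_natCast_iff _ _ _).2 (hr.of_dvd (Nat.dvd_gcd hf h1))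
      rw [h1', Nat.cast_one]
    have h3 := hγcg r
    rw [hγ1, h2, map_one, Units.val_one] at h3
    exact hcon ((gf_equ_div α β r).1 h3.symm)
  have h2f : ¬ 2 ∣ f := fun h => h2N (h.trans hf)
  have hfodd : Odd f := Nat.not_even_iff_odd.1 fun h => h2f (even_iff_two_dvd.1 h)
  have heul := hB' f (lt_of_le_of_lt (le_max_right _ _) hfB) hfS k χ' hprim
  have hf1 : f ≠ 1 := by
    intro h2
    refine heul 2 Nat.prime_two (Or.inr rfl) 1 ?_ ?_
    · subst h2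
      exact Subsingleton.elim _ _
    · rw [map_one, one_pow]
  have hf3 : 2 < f := by
    obtain ⟨t, ht⟩ := hfodd
    omega
  have hχ'ne : ∃ u, χ' u ≠ 1 := by
    obtain ⟨l, hl, hlf⟩ := Nat.exists_prime_and_dvd hf1
    obtain ⟨u, _, hu⟩ := hprim l hl hlf
    exact ⟨u, hu⟩
  -- the sums
  have hprim' : Prim χ'⁻¹ := by
    intro l hl hlf
    obtain ⟨u, hu, hu1⟩ := hprim l hl hlf
    exact ⟨u, hu, fun h => hu1 (inv_eq_one.1 h)⟩
  have hD : DD χ' ≠ 0 := hB f (lt_of_le_of_lt (le_max_left _ _) hfB) hfS k χ' hprim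
  have hD' : DD χ'⁻¹ ≠ 0 := hB f (lt_of_le_of_lt (le_max_left _ _) hfB) hfS k χ'⁻¹ hprim'
  -- the field
  obtain ⟨K, _, _, θ, hθi, hθ, hKc⟩ := gaFld f γ' m hmodd hγ'm
  obtain ⟨ψ, hψ⟩ := gf_red π θ
  have mem_th : ∀ σ, ((θ σ : Eˣ) : E) ∈ FRD.OE E := fun σ => (norm_chi θ σ).le
  obtain ⟨A, hAs, hAo, hA⟩ := gaCyc N
  obtain ⟨A', hAs', _, hA'⟩ := gaCyc f
  have hθm : ∀ σ, θ σ ^ m = 1 := by
    intro σ
    obtain ⟨g, hg⟩ := AlgEquiv.restrictNormalHom_surjective (F := ℚ) (K₁ := K) Qb σ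
    rw [← hg]
    have h1 := hθ g (A' g) ((hA' g _).2 rfl)
    change θ (Pool.Agent.Helper60.FM.res K g) ^ m = 1
    rw [h1, hγ'm]
  have hψone : ∀ σ, ψ σ = 1 ↔ Equ ((θ σ : Eˣ) : E) 1 := by
    intro σ
    rw [← Units.val_inj, Units.val_one, hψ σ (mem_th σ), ← map_one π, gf_pi_eq hπ]
    rfl
  have hcut : Cut f χ' K ψ := by
    refine ⟨(injective_iff_map_eq_one ψ).2 fun σ hσ => ?_, fun g a hg => ?_⟩
    · have h1 : ((θ σ : Eˣ) : E) = 1 :=
        rt hm (by rw [← Units.val_pow_eq_pow_val, hθm, Units.val_one]) ((hψone σ).1 hσ)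
      exact (injective_iff_map_eq_one θ).1 hθi σ (Units.ext h1)
    · apply Units.ext
      rw [hψ _ (mem_th _), hred' a (mem_chi γ' a)]
      congr 1
      apply Subtype.ext
      change ((θ (Pool.Agent.Helper60.FM.res K g) : Eˣ) : E) = _
      rw [hθ g a hg]
  have h2u : ∀ u : (ZMod f)ˣ, (u : ZMod f) = 2 → χ' u ≠ 1 := by
    intro u hu h
    refine heul 2 Nat.prime_two (Or.inr rfl) u ?_ ?_
    · rw [hu, Nat.cast_ofNat]
    · rw [h, one_pow]
  -- compatibility of the levels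
  have hAA : ∀ g, ZMod.unitsMap hf (A g) = A' g := by
    intro g
    rw [← hA' g]
    intro ζ hζ
    have h1 := (hA g (A g)).2 rfl ζ (by
      obtain ⟨e, he⟩ := hf
      rw [he, pow_mul, hζ, one_pow])
    rw [h1, ZMod.unitsMap_val, ZMod.cast_eq_val, ZMod.val_natCast]
    conv_lhs => rw [← Nat.mod_add_div ((A g : ZMod N).val) f, pow_add, pow_mul, hζ, one_pow,
      mul_one]
  -- the twist
  have hV' : Continuous (old V) := hV
  obtain ⟨W, hW, hWV⟩ := gaTw N (old V) hV' α'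
  have hred : ∀ (g : GQ), ‖trace (old V g : Matrix (Fin 2) (Fin 2) E) -
      (((α (A g) : Eˣ) : E) + ((β (A g) : Eˣ) : E))‖ < 1 := by
    intro g
    have h1 := hsum g (A g) 1 ((hA g (A g)).2 rfl) (by
      intro ζ hζ
      have h2 : ζ = 1 ∨ ζ = -1 := mul_self_eq_one_iff.1 (by rw [← sq]; exact hζ)
      rcases h2 with h2 | h2
      · rw [h2]
        change (g : GQ) 1 = 1 ^ 1
        rw [map_one, one_pow]
      · rw [h2]
        change (g : GQ) (-1) = (-1) ^ 1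
        rw [map_neg, map_one, pow_one])
    rw [Nat.cast_one, one_pow, one_pow, one_mul, mul_one] at h1
    exact h1
  have htrW : ∀ g, ‖trace (W g : Matrix (Fin 2) (Fin 2) E) - 1 -
      ((θ (Pool.Agent.Helper60.FM.res K g) : Eˣ) : E)‖ < 1 := by
    intro g
    have h1 : trace (W g : Matrix (Fin 2) (Fin 2) E) =
        (((α' (A g))⁻¹ : Eˣ) : E) * trace (old V g : Matrix (Fin 2) (Fin 2) E) := by
      rw [hWV g (A g) ((hA g _).2 rfl), trace_smul, smul_eq_mul]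
    have h2 : ((θ (Pool.Agent.Helper60.FM.res K g) : Eˣ) : E) = ((γ (A g) : Eˣ) : E) := by
      rw [hθ g (A' g) ((hA' g _).2 rfl), hγ1, hAA]
    have hn : ‖(((α' (A g))⁻¹ : Eˣ) : E)‖ = 1 := by
      rw [← map_inv]
      exact norm_chi α' _
    have h3 : Cg (trace (W g : Matrix (Fin 2) (Fin 2) E))
        ((((α' (A g))⁻¹ : Eˣ) : E) * (((α (A g) : Eˣ) : E) + ((β (A g) : Eˣ) : E))) := by
      rw [h1]
      refine Cg.mul Cg.rfl (hred g) hn.le ?_
      exact norm_add_le_one E (norm_chi α _).le (norm_chi β _).le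
    have h4 : Cg ((((α' (A g))⁻¹ : Eˣ) : E) * (((α (A g) : Eˣ) : E) + ((β (A g) : Eˣ) : E)))
        (1 + ((γ (A g) : Eˣ) : E)) := by
      have h5 : (((α (A g) : Eˣ) : E) + ((β (A g) : Eˣ) : E)) =
          ((α (A g) : Eˣ) : E) * (1 + (((β / α : (ZMod N)ˣ →* Eˣ) (A g) : Eˣ) : E)) := by
        have h6 : (((β / α : (ZMod N)ˣ →* Eˣ) (A g) : Eˣ) : E) * (α (A g) : Eˣ) =
            (β (A g) : Eˣ) := by
          change ((β (A g) / α (A g) : Eˣ) : E) * α (A g) = β (A g)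
          rw [← Units.val_mul, div_mul_cancel]
        rw [← h6]
        ring
      have h7 : Cg (((α (A g) : Eˣ) : E) * (1 + (((β / α : (ZMod N)ˣ →* Eˣ) (A g) : Eˣ) : E)))
          (((α' (A g) : Eˣ) : E) * (1 + ((γ (A g) : Eˣ) : E))) := by
        refine Cg.mul (hα1 _).symm (Cg.add Cg.rfl (hγcg _).symm) (norm_chi α' _).le ?_
        exact norm_add_le_one E norm_one.le (norm_chi γ _).le
      rw [h5]
      have h8 : (1 + ((γ (A g) : Eˣ) : E)) = (((α' (A g))⁻¹ : Eˣ) : E) *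
          (((α' (A g) : Eˣ) : E) * (1 + ((γ (A g) : Eˣ) : E))) := by
        rw [← mul_assoc, ← Units.val_mul, inv_mul_cancel, Units.val_one, one_mul]
      rw [h8]
      refine Cg.mul Cg.rfl h7 hn.le ?_
      rw [norm_mul, norm_chi, one_mul]
      exact norm_add_le_one E norm_one.le (norm_chi γ _).le
    have h9 := h3.trans h4
    rw [sub_sub, h2]
    exact h9
  have hθne : ∃ σ, 1 ≤ ‖((1 : E)) - ((θ σ : Eˣ) : E)‖ := by
    obtain ⟨u, hu⟩ := hχ'ne
    obtain ⟨g, hg⟩ := hAs' u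
    refine ⟨Pool.Agent.Helper60.FM.res K g, not_lt.1 fun h => hu ?_⟩
    rw [← hcut.2 g u ((hA' g u).2 hg.symm), hψone]
    unfold Equ
    rw [norm_sub_rev]
    exact h
  have h2E : ‖(2 : E)‖ < 1 := by
    have h1 := (norm_natCast_lt_one_iff (p := 2) (E := E) 2).2 dvd_rfl
    rwa [Nat.cast_ofNat] at h1
  -- the determinant
  have hdetW : ∀ g, ‖det (W g : Matrix (Fin 2) (Fin 2) E) -
      ((θ (Pool.Agent.Helper60.FM.res K g) : Eˣ) : E)‖ < 1 := by
    intro g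
    obtain ⟨σ, hσ⟩ := hθne
    obtain ⟨g₀, hg₀⟩ := AlgEquiv.restrictNormalHom_surjective (F := ℚ) (K₁ := K) Qb σ
    have h1 := gaDet h2E W (1 : GQ →* Eˣ) (θ.comp (Pool.Agent.Helper60.FM.res K))
      (fun _ => by rw [MonoidHom.one_apply, Units.val_one, norm_one])
      (fun _ => norm_chi θ _)
      (fun g => by
        rw [MonoidHom.one_apply, Units.val_one]
        exact htrW g) g₀
      (by
        rw [MonoidHom.one_apply, Units.val_one]
        change 1 ≤ ‖(1 : E) - ((θ (AlgEquiv.restrictNormalHom K g₀) : Eˣ) : E)‖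
        rw [hg₀]
        exact hσ) g
    rw [MonoidHom.one_apply, Units.val_one, one_mul] at h1
    exact h1
  -- the set of ramified primes
  let T : Set ℕ := {ℓ | ℓ.Prime ∧ (ℓ ∣ f ∨ ∃ u : (ZMod f)ˣ, (u : ZMod f) = ℓ ∧ χ' u ≠ 1)}
  have hline' : HasLine W := by
    refine gaDis K hKc (1 : Gal(K/ℚ) →* Eˣ) θ T ?_ ?_ ?_ ?_ W hW ?_ ?_ ?_
    · -- decomposition groups
      rintro P hP hP0 ⟨ℓ, ⟨hℓ, hℓT⟩, hℓP⟩
      obtain ⟨h1, h2⟩ := locK2 f hfodd χ' hprim K ψ hcut P hP ℓ hℓ hℓP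
      have h3 : ∃ σ : Gal(K/ℚ), σ • P = P ∧ ψ σ ≠ 1 := by
        rcases hℓT with h | ⟨u, hu, hu1⟩
        · exact h2 h
        · obtain ⟨σ, hσ, hσ1⟩ := h1 u hu
          exact ⟨σ, hσ, by rw [hσ1]; exact hu1⟩
      obtain ⟨σ, hσ, hσ1⟩ := h3
      refine ⟨σ, hσ, not_lt.1 fun h => hσ1 ((hψone σ).2 ?_)⟩
      rw [MonoidHom.one_apply, Units.val_one] at h
      exact h
    · -- the class group
      intro 𝔞 h𝔞 h
      refine class2 f hfodd hf3 χ' hprim h2u hD hD' K ψ hcut 𝔞 h𝔞 fun n hn => h n ?_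
      have h1 : ∀ σ, (n σ : E) * ((θ σ * (((1 : Gal(K/ℚ) →* Eˣ) σ))⁻¹ : Eˣ) : E) =
          (n σ : E) * ((θ σ : Eˣ) : E) := by
        intro σ
        rw [MonoidHom.one_apply, inv_one, mul_one]
      rw [Finset.sum_congr rfl fun σ _ => h1 σ]
      have h2 : ((∑ σ, ((n σ : ℕ) : FRD.OE E) * ⟨((θ σ : Eˣ) : E), mem_th σ⟩ : FRD.OE E) : E) =
          ∑ σ, (n σ : E) * ((θ σ : Eˣ) : E) := by
        rw [AddSubmonoidClass.coe_finsetSum]
        exact Finset.sum_congr rfl fun σ _ => rfl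
      rw [← h2, ← hπ, map_sum, ← hn]
      refine Finset.sum_congr rfl fun σ _ => ?_
      rw [map_mul, map_natCast, hψ σ (mem_th σ)]
    · -- the units
      intro u hpos h
      refine units2 f hfodd hf3 χ' hprim h2u hD hD' K ψ hcut u hpos fun n hn => h n ?_
      have h1 : ∀ σ, (n σ : E) * ((θ σ * (((1 : Gal(K/ℚ) →* Eˣ) σ))⁻¹ : Eˣ) : E) =
          (n σ : E) * ((θ σ : Eˣ) : E) := by
        intro σ
        rw [MonoidHom.one_apply, inv_one, mul_one]
      rw [Finset.sum_congr rfl fun σ _ => h1 σ]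
      have h2 : ((∑ σ, ((n σ : ℕ) : FRD.OE E) * ⟨((θ σ : Eˣ) : E), mem_th σ⟩ : FRD.OE E) : E) =
          ∑ σ, (n σ : E) * ((θ σ : Eˣ) : E) := by
        rw [AddSubmonoidClass.coe_finsetSum]
        exact Finset.sum_congr rfl fun σ _ => rfl
      rw [← h2, ← hπ, map_sum, ← hn]
      refine Finset.sum_congr rfl fun σ _ => ?_
      rw [map_mul, map_natCast, hψ σ (mem_th σ)]
    · obtain ⟨σ, hσ⟩ := hθne
      exact ⟨σ, by rw [MonoidHom.one_apply, Units.val_one]; exact hσ⟩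
    · intro g
      rw [MonoidHom.one_apply, Units.val_one]
      exact htrW g
    · -- unramified
      intro ℓ hℓ hℓT
      have h1 : ¬ ℓ ∣ f := fun h => hℓT ⟨hℓ, Or.inl h⟩
      have h2 : ∀ u : (ZMod f)ˣ, (u : ZMod f) = ℓ → χ' u = 1 := by
        intro u hu
        by_contra h
        exact hℓT ⟨hℓ, Or.inr ⟨u, hu, h⟩⟩
      have hcop : ℓ.Coprime f := (Nat.Prime.coprime_iff_not_dvd hℓ).2 h1
      obtain ⟨u, hu⟩ : ∃ u : (ZMod f)ˣ, (u : ZMod f) = ℓ :=
        ⟨ZMod.unitOfCoprime ℓ hcop, ZMod.coe_unitOfCoprime ℓ hcop⟩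
      have hℓS : ℓ ∉ S := by
        intro h
        refine heul ℓ hℓ (Or.inl h) u hu ?_
        rw [h2 u hu, one_pow]
      have hℓ2 : ℓ ≠ 2 := by
        rintro rfl
        refine heul 2 hℓ (Or.inr rfl) u hu ?_
        rw [h2 u hu, one_pow]
      have hℓN : ¬ ℓ ∣ N := fun h => hℓS (hNS ℓ hℓ h)
      have hcopN : ℓ.Coprime N := (Nat.Prime.coprime_iff_not_dvd hℓ).2 hℓN
      obtain ⟨a, ha⟩ : ∃ a : (ZMod N)ˣ, (a : ZMod N) = ℓ :=
        ⟨ZMod.unitOfCoprime ℓ hcopN, ZMod.coe_unitOfCoprime ℓ hcopN⟩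
      have hau : ((ZMod.unitsMap hf a : (ZMod f)ˣ) : ZMod f) = ℓ := by
        rw [ZMod.unitsMap_val, ha, ZMod.cast_natCast hf]
      have h3 : Equ ((γ' (ZMod.unitsMap hf a) : Eˣ) : E) 1 :=
        (chi_one hred' _).1 (h2 _ hau)
      have h4 : Equ (((β / α : (ZMod N)ˣ →* Eˣ) a : Eˣ) : E) 1 := by
        have h5 := (hγcg a).symm
        rw [hγ1] at h5
        exact h5.trans h3
      have h5 : Equ ((β a : Eˣ) : E) ((α a : Eˣ) : E) := (gf_equ_div α β a).1 h4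
      have h6 := htame ℓ a hℓ hℓ2 hℓS ha (by
        rw [Nat.sub_self, pow_zero, mul_one]
        exact h5)
      refine unramAt_of_pt W ℓ fun 𝔓 hP hℓP g hg => ?_
      obtain ⟨e, he, heV⟩ := h6 𝔓 hP hℓP (g : Gam) ((iner_iff 𝔓 (g : Gam)).2 hg)
      have hN𝔓 : (N : ZQ) ∉ 𝔓 := by
        intro h
        apply hP.ne_top
        rw [Ideal.eq_top_iff_one]
        have h7 := Nat.isCoprime_iff_coprime.2 hcopN
        obtain ⟨x, y, hxy⟩ := h7
        have h8 := congrArg (fun z : ℤ => (z : ZQ)) hxy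
        push_cast at h8
        rw [← h8]
        exact 𝔓.add_mem (𝔓.mul_mem_left _ hℓP) (𝔓.mul_mem_left _ h)
      have hAg : A g = 1 := by
        symm
        rw [← hA g]
        intro ζ hζ
        rw [fix_root hP hN𝔓 hg ζ hζ, Units.val_one]
        rcases Nat.lt_or_ge 1 N with h | h
        · have : Fact (1 < N) := ⟨h⟩
          rw [ZMod.val_one, pow_one]
        · have h7 : N = 1 := le_antisymm h (Nat.pos_of_ne_zero (NeZero.ne N))
          subst h7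
          rw [pow_one] at hζ
          rw [hζ, one_pow]
      have hA'g : A' g = 1 := by rw [← hAA, hAg, map_one]
      have hθg : θ (Pool.Agent.Helper60.FM.res K g) = 1 := by
        rw [hθ g (A' g) ((hA' g _).2 rfl), hA'g, map_one]
      have hWg : W g = old V g := by
        apply Units.ext
        have h7 := hWV g (A g) ((hA g _).2 rfl)
        rw [hAg, map_one, inv_one, Units.val_one, one_smul] at h7
        exact h7
      refine gaTame (W g) ?_ ?_ e (norm_natCast_eq_one (p := 2) he) ?_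
      · have h7 := htrW g
        rw [hθg, Units.val_one, sub_sub, one_add_one_eq_two] at h7
        exact h7
      · have h7 := hdetW g
        rwa [hθg, Units.val_one] at h7
      · rw [hWg]
        exact heV
    · -- even
      intro c hc
      have h1 : det (old V c : Matrix (Fin 2) (Fin 2) E) = 1 := heven c hc
      have h2 : c ^ 2 = 1 := by rw [sq]; exact isCC_mul_self hc
      have h3 : (α' (A c))⁻¹ ^ 2 = 1 := by
        rw [inv_pow, ← map_pow, ← map_pow, h2, map_one, map_one, inv_one]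
      rw [hWV c (A c) ((hA c _).2 rfl), det_smul, h1, mul_one, Fintype.card_fin,
        ← Units.val_pow_eq_pow_val, h3, Units.val_one]
  -- back to V
  obtain ⟨v, hv, hvW⟩ := hline'
  apply hline
  refine ⟨v, hv, fun g => ?_⟩
  obtain ⟨c, hc⟩ := hvW g
  refine ⟨((α' (A g) : Eˣ) : E) * c, ?_⟩
  have h1 : (old V g : Matrix (Fin 2) (Fin 2) E) =
      ((α' (A g) : Eˣ) : E) • (W g : Matrix (Fin 2) (Fin 2) E) := by
    rw [hWV g (A g) ((hA g _).2 rfl), smul_smul, ← Units.val_mul, mul_inv_cancel, Units.val_one,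
      one_smul]
  change (old V g : Matrix (Fin 2) (Fin 2) E) *ᵥ v = _
  rw [h1, smul_mulVec, hc, smul_smul]

end Pool.Agent.FR2
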