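import Pool.Agent.Helper60.FM.Main

/-!
# FR2-GaKum: no Kummer data for `p = 2` over a real field
-/

open NumberField Pointwise IsDedekindDomain

namespace Pool.Agent.FR2

open Pool.Agent.Helper60.FM

/-- products of conjugates of the generator -/
private theorem gaKum_prod {p : ℕ} [Fact p.Prime] {K : IntermediateField ℚ Qb}
    [FiniteDimensional ℚ K] [IsGalois ℚ K] {ω : Gal(K/ℚ) → ℕ} {R : Type*} [CommRing R] [IsDomain R]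
    (D : KData p K ω R) (ζ : K)
    (hζ : IsPrimitiveRoot ζ p) (hω : ∀ σ : Gal(K/ℚ), σ ζ = ζ ^ ω σ)
    (β : Qb) (hβ : D.Ty ζ β 1) (α : 𝓞 K) (hα : ((α : K) : Qb) = β ^ p)
    (n : Gal(K/ℚ) → ℕ) (hn : ∑ σ, (n σ : R) * D.ψ σ = 0) :
    ∃ γ' : 𝓞 K, γ' ^ p = ∏ σ : Gal(K/ℚ), (σ • α) ^ n σ := by
  classical
  have hppos : 0 < p := (Fact.out : p.Prime).pos
  choose g hg using fun σ : Gal(K/ℚ) =>
    AlgEquiv.restrictNormalHom_surjective (F := ℚ) (K₁ := K) Qb σ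
  have hprod : ∀ T : Finset Gal(K/ℚ),
      D.Ty ζ (∏ σ ∈ T, (g σ β) ^ n σ) (∑ σ ∈ T, (n σ : R) * D.ψ σ) := by
    intro T
    induction T using Finset.induction_on with
    | empty => simpa using D.ty_of_mem ζ hζ K.one_mem
    | insert σ T hσ ih =>
      rw [Finset.prod_insert hσ, Finset.sum_insert hσ]
      refine D.ty_mul ζ hζ (D.ty_pow ζ hζ ?_ (n σ)) ih
      have h1 := D.ty_smul ζ hζ hω hβ (g σ)
      rw [mul_one] at h1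
      have h2 : res K (g σ) = σ := hg σ
      rwa [h2] at h1
  have hγ : ∏ σ, (g σ β) ^ n σ ∈ K := by
    apply D.mem_of_ty ζ hζ
    rw [← hn]
    exact hprod Finset.univ
  let γ : K := ⟨_, hγ⟩
  have hγp : γ ^ p = ((∏ σ : Gal(K/ℚ), (σ • α) ^ n σ : 𝓞 K) : K) := by
    apply Subtype.ext
    push_cast
    change (∏ σ, (g σ β) ^ n σ) ^ p = _
    rw [← Finset.prod_pow]
    refine Finset.prod_congr rfl fun σ _ => ?_
    have h1 : ((σ • (α : K) : K) : Qb) = g σ ((α : K) : Qb) := by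
      have h2 : (σ • (α : K) : K) = σ (α : K) := rfl
      rw [h2, ← coe_res]
      have h3 : res K (g σ) = σ := hg σ
      rw [h3]
    rw [h1, hα, map_pow, ← pow_mul, ← pow_mul, mul_comm (n σ)]
  have hγint : IsIntegral ℤ γ := by
    apply IsIntegral.of_pow hppos
    rw [hγp]
    exact RingOfIntegers.isIntegral_coe _
  refine ⟨⟨γ, hγint⟩, ?_⟩
  apply RingOfIntegers.ext
  rw [← hγp]
  push_cast
  rfl

/-- the Kummer generator can be chosen to be a root of a unit -/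
private theorem gaKum_unit {p : ℕ} [hp : Fact p.Prime] {K : IntermediateField ℚ Qb}
    [FiniteDimensional ℚ K] [IsGalois ℚ K] {ω : Gal(K/ℚ) → ℕ} {R : Type*} [CommRing R] [IsDomain R]
    (D : KData p K ω R) (ζ : K)
    (hζ : IsPrimitiveRoot ζ p) (hω : ∀ σ : Gal(K/ℚ), σ ζ = ζ ^ ω σ)
    (M : IntermediateField ℚ Qb) [FiniteDimensional ℚ M] [IsGalois ℚ M]
    (hM : ∀ k ∈ K.fixingSubgroup ⊓ M.fixingSubgroup, ∀ y, D.F k y = 0)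
    (S : Set ℕ) (hS : ∀ ℓ : ℕ, ℓ.Prime → ℓ ∉ S → Unr M ℓ)
    (hdec : ∀ P : Ideal (𝓞 K), P.IsPrime → P ≠ ⊥ → (∃ ℓ ∈ S, (ℓ : 𝓞 K) ∈ P) →
      ∃ σ : Gal(K/ℚ), σ • P = P ∧ D.ψ σ ≠ 1)
    (hcl : ∀ 𝔞 : Ideal (𝓞 K), 𝔞 ≠ ⊥ →
      (∀ n : Gal(K/ℚ) → ℕ, ∑ σ, (n σ : R) * D.ψ σ = 0 → (∏ σ, (σ • 𝔞) ^ n σ).IsPrincipal) →
      𝔞.IsPrincipal) :
    ∃ (β₁ : Qb) (u : (𝓞 K)ˣ), β₁ ≠ 0 ∧ D.Ty ζ β₁ 1 ∧ β₁ ^ p = (((u : 𝓞 K) : K) : Qb) := by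
  classical
  have hppos : 0 < p := hp.out.pos
  obtain ⟨β₀, hβ₀0, hβ₀⟩ := D.exists_beta ζ hζ M hM
  -- scaling to an integral generator
  obtain ⟨β, α, hβ0, hβ, hα⟩ : ∃ (β : Qb) (α : 𝓞 K), β ≠ 0 ∧ D.Ty ζ β 1 ∧
      ((α : K) : Qb) = β ^ p := by
    obtain ⟨a, b, hb, hab⟩ := IsFractionRing.div_surjective (A := 𝓞 K)
      (⟨β₀ ^ p, D.pow_mem_of_ty ζ hζ hβ₀⟩ : K)
    have hb0 : b ≠ 0 := nonZeroDivisors.ne_zero hb
    have hbK : (b : K) ≠ 0 := by simpa using hb0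
    have hbQ : ((b : K) : Qb) ≠ 0 := by simpa using hbK
    have hab' : β₀ ^ p = ((a : K) : Qb) / ((b : K) : Qb) := by
      have := congrArg (Subtype.val) hab
      exact this.symm
    refine ⟨((b : K) : Qb) * β₀, a * b ^ (p - 1), mul_ne_zero hbQ hβ₀0, ?_, ?_⟩
    · have h1 := D.ty_mul ζ hζ (D.ty_of_mem ζ hζ (x := ((b : K) : Qb)) (b : K).2) hβ₀
      rwa [zero_add] at h1
    · rw [mul_pow, hab']
      push_cast
      have h2 : ((b : K) : Qb) ^ p = ((b : K) : Qb) ^ (p - 1) * ((b : K) : Qb) := by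
        rw [← pow_succ, Nat.sub_add_cancel hppos]
      rw [h2]
      field_simp
  have hα0 : α ≠ 0 := by
    rintro rfl
    have : β ^ p = 0 := by rw [← hα]; simp
    exact pow_ne_zero _ hβ0 this
  have hαK0 : (α : K) ≠ 0 := by simpa using hα0
  -- valuations
  have hval : ∀ v : HeightOneSpectrum (𝓞 K), ∃ m : ℤ,
      v.valuation K (α : K) = WithZero.exp ((p : ℤ) * m) := by
    intro v
    haveI := v.isPrime
    obtain ⟨ℓ, hℓ, hℓv⟩ := exists_prime_mem v.asIdeal v.ne_bot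
    by_cases hℓS : ℓ ∈ S
    · obtain ⟨σ, hσ, hψ⟩ := hdec v.asIdeal v.isPrime v.ne_bot ⟨ℓ, hℓS, hℓv⟩
      exact D.val_dec ζ hζ hω v σ hσ hψ β hβ0 hβ α hα
    · refine val_of_unr K M ℓ (hS ℓ hℓ hℓS) (α : K) hαK0 β hα.symm ?_ v hℓv
      intro g hg
      have h1 := hβ g hg.1
      rw [hM g hg, ZMod.val_zero, pow_zero, one_mul] at h1
      exact h1
  obtain ⟨𝔞, h𝔞⟩ := exists_ideal_pow α hα0 hval
  have h𝔞0 : 𝔞 ≠ ⊥ := by
    rintro rfl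
    rw [← Ideal.zero_eq_bot, zero_pow hppos.ne'] at h𝔞
    exact hα0 (Ideal.span_singleton_eq_bot.1 (by rw [← h𝔞]; rfl))
  have h𝔞p : 𝔞.IsPrincipal := by
    apply hcl 𝔞 h𝔞0
    intro n hn
    obtain ⟨γ', hγ'p⟩ := gaKum_prod D ζ hζ hω β hβ α hα n hn
    refine ⟨⟨γ', ?_⟩⟩
    apply ideal_pow_inj hppos.ne'
    rw [← Finset.prod_pow]
    change _ = (Ideal.span {γ'}) ^ p
    rw [Ideal.span_singleton_pow, hγ'p, ← Ideal.prod_span_singleton]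
    refine Finset.prod_congr rfl fun σ _ => ?_
    rw [← Ideal.span_singleton_pow, ← smul_ideal_span, ← h𝔞, smul_ideal_pow, ← pow_mul, ← pow_mul,
      mul_comm p]
  -- a unit generator
  obtain ⟨⟨δ, hδ⟩⟩ := h𝔞p
  have hδ' : 𝔞 = Ideal.span {δ} := hδ
  have hassoc : Associated (δ ^ p) α := by
    rw [← Ideal.span_singleton_eq_span_singleton, ← Ideal.span_singleton_pow, ← hδ', h𝔞]
  obtain ⟨u, hu⟩ := hassoc
  have hδ0 : δ ≠ 0 := by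
    rintro rfl
    apply h𝔞0
    rw [hδ']
    simp
  have hδK0 : ((δ : K) : Qb) ≠ 0 := by
    have : (δ : K) ≠ 0 := by simpa using hδ0
    simpa using this
  let β₁ : Qb := β * ((δ : K) : Qb)⁻¹
  have hβ₁0 : β₁ ≠ 0 := mul_ne_zero hβ0 (inv_ne_zero hδK0)
  have hβ₁ : D.Ty ζ β₁ 1 := by
    have h1 := D.ty_mul ζ hζ hβ (D.ty_inv ζ hζ (D.ty_of_mem ζ hζ (x := ((δ : K) : Qb)) (δ : K).2))
    rwa [neg_zero, add_zero] at h1
  have hβ₁p : β₁ ^ p = (((u : 𝓞 K) : K) : Qb) := by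
    have h1 : ((α : K) : Qb) = ((δ : K) : Qb) ^ p * (((u : 𝓞 K) : K) : Qb) := by
      rw [← hu]
      push_cast
      rfl
    change (β * ((δ : K) : Qb)⁻¹) ^ p = _
    rw [mul_pow, ← hα, h1, inv_pow]
    field_simp
  exact ⟨β₁, u, hβ₁0, hβ₁, hβ₁p⟩

/-- the unit is positive at all real places -/
private theorem gaKum_pos {K : IntermediateField ℚ Qb} [FiniteDimensional ℚ K] (β₁ : Qb)
    (hβ₁0 : β₁ ≠ 0) (hc : ∀ c : GQ, IsCC c → c β₁ = β₁) (u : K) (hu : β₁ ^ 2 = (u : Qb))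
    (ι : K →+* ℝ) : 0 < ι u := by
  letI : Algebra K ℂ := (Complex.ofRealHom.comp ι).toAlgebra
  haveI : Algebra.IsAlgebraic K Qb := Algebra.IsAlgebraic.tower_top (K := ℚ) K
  let L : Qb →ₐ[K] ℂ := IsAlgClosed.lift
  let ι' : Qb →+* ℂ := L.toRingHom
  have hι' : ∀ x : K, ι' (x : Qb) = ((ι x : ℝ) : ℂ) := fun x => L.commutes x
  obtain ⟨σ, hσ⟩ := ComplexEmbedding.exists_comp_symm_eq_of_comp_eq (k := ℚ) ι'
    ((starRingEnd ℂ).comp ι') (Subsingleton.elim _ _)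
  have h1 : ∀ x, ι' (σ.symm x) = starRingEnd ℂ (ι' x) := fun x => RingHom.congr_fun hσ x
  have h2 : σ.symm β₁ = β₁ := hc σ.symm ⟨ι', h1⟩
  have h3 : starRingEnd ℂ (ι' β₁) = ι' β₁ := by rw [← h1, h2]
  obtain ⟨r, hr⟩ := Complex.conj_eq_iff_real.1 h3
  have hr0 : r ≠ 0 := by
    rintro rfl
    apply hβ₁0
    apply ι'.injective
    rw [hr, map_zero, Complex.ofReal_zero]
  have h4 : ((ι u : ℝ) : ℂ) = ((r ^ 2 : ℝ) : ℂ) := by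
    rw [← hι', ← hu, map_pow, hr]
    push_cast
    rfl
  have h5 : ι u = r ^ 2 := Complex.ofReal_injective h4
  rw [h5]
  positivity

theorem gaKum {K : IntermediateField ℚ Qb} [FiniteDimensional ℚ K] [IsGalois ℚ K]
    {R : Type*} [CommRing R] [IsDomain R] (D : KData 2 K (fun _ => 1) R)
    (M : IntermediateField ℚ Qb) [FiniteDimensional ℚ M] [IsGalois ℚ M]
    (hM : ∀ k ∈ K.fixingSubgroup ⊓ M.fixingSubgroup, ∀ y, D.F k y = 0)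
    (hMc : ∀ c : GQ, IsCC c → c ∈ K.fixingSubgroup ⊓ M.fixingSubgroup)
    (S : Set ℕ) (hS : ∀ ℓ : ℕ, ℓ.Prime → ℓ ∉ S → Unr M ℓ)
    (hdec : ∀ P : Ideal (𝓞 K), P.IsPrime → P ≠ ⊥ → (∃ ℓ ∈ S, (ℓ : 𝓞 K) ∈ P) →
      ∃ σ : Gal(K/ℚ), σ • P = P ∧ D.ψ σ ≠ 1)
    (hcl : ∀ 𝔞 : Ideal (𝓞 K), 𝔞 ≠ ⊥ →
      (∀ n : Gal(K/ℚ) → ℕ, ∑ σ, (n σ : R) * D.ψ σ = 0 → (∏ σ, (σ • 𝔞) ^ n σ).IsPrincipal) →
      𝔞.IsPrincipal)
    (hun : ∀ u : (𝓞 K)ˣ, (∀ ι : K →+* ℝ, 0 < ι ((u : 𝓞 K) : K)) →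
      (∀ n : Gal(K/ℚ) → ℕ, ∑ σ, (n σ : R) * D.ψ σ = 0 →
        ∃ w : (𝓞 K)ˣ, ∏ σ, (σ • (u : 𝓞 K)) ^ n σ = (w : 𝓞 K) ^ 2) →
      ∃ w : (𝓞 K)ˣ, (u : 𝓞 K) = (w : 𝓞 K) ^ 2) : False := by
  classical
  haveI : Fact (Nat.Prime 2) := ⟨Nat.prime_two⟩
  have hζ : IsPrimitiveRoot (-1 : K) 2 := by
    refine IsPrimitiveRoot.neg_one 0 ?_
    norm_num
  have hω : ∀ σ : Gal(K/ℚ), σ (-1 : K) = (-1 : K) ^ (fun _ : Gal(K/ℚ) => 1) σ := by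
    intro σ
    rw [map_neg, map_one, pow_one]
  obtain ⟨β₁, u, hβ₁0, hβ₁, hβ₁p⟩ := gaKum_unit D (-1) hζ hω M hM S hS hdec hcl
  have hpos : ∀ ι : K →+* ℝ, 0 < ι ((u : 𝓞 K) : K) := by
    intro ι
    refine gaKum_pos β₁ hβ₁0 ?_ _ hβ₁p ι
    intro c hc
    have h1 := hMc c hc
    have h2 := hβ₁ c h1.1
    rw [hM c h1, ZMod.val_zero, pow_zero, one_mul] at h2
    exact h2
  obtain ⟨w, hw⟩ := hun u hpos (fun n hn => by
    obtain ⟨γ', hγ'⟩ := gaKum_prod D (-1) hζ hω β₁ hβ₁ (u : 𝓞 K) hβ₁p.symm n hn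
    have hunit : IsUnit (γ' ^ 2) := by
      rw [hγ']
      refine (Finset.prod_induction _ IsUnit (fun a b ha hb => ha.mul hb) isUnit_one ?_)
      intro σ _
      refine IsUnit.pow _ ?_
      exact (u.isUnit).map (MulSemiringAction.toRingHom Gal(K/ℚ) (𝓞 K) σ)
    have hunit' : IsUnit γ' := (isUnit_pow_iff two_ne_zero).1 hunit
    exact ⟨hunit'.unit, by rw [IsUnit.unit_spec, hγ']⟩)
  have h1 : β₁ ^ 2 = ((((w : 𝓞 K) : K)) : Qb) ^ 2 := by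
    rw [hβ₁p, hw]
    push_cast
    rfl
  have hmem : β₁ ∈ K := by
    rcases sq_eq_sq_iff_eq_or_eq_neg.1 h1 with h2 | h2
    · rw [h2]; exact ((w : 𝓞 K) : K).2
    · rw [h2]; exact K.neg_mem ((w : 𝓞 K) : K).2
  obtain ⟨k, hk, hk1⟩ := D.ne
  apply hk1
  rw [D.ty_unique (-1) hζ hβ₁0 hβ₁ (D.ty_of_mem (-1) hζ hmem) k hk, map_zero]

end Pool.Agent.FR2
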