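import Pool.Agent.FR2.GaUnr
import Pool.Agent.AAP.Lift
import Pool.Agent.Helper60.FM.Main
import Pool.Agent.Helper60.FM.ModC1

/-!
# FR2-GaLoc: a unit whose square root is fixed by the decomposition groups at `2`

`N = 2 ^ n - 1` with `n = Module.finrank ℚ K`. Let `𝔓` be a prime ideal of `ZQ` containing `2`, `g` with
`IsFrob 2 𝔓 g`; then `g ^ n` stabilizes `𝔓`, is trivial on `K` and acts on `ZQ / 𝔓` as raising to the `2 ^ n`-th power,
so `β - β ^ (2 ^ n) ∈ 𝔓` and `β ^ N - 1 ∈ 𝔓`. By `gaUnr` for `L = K ⊔ M`, `2 ∣ β ^ N - 1` in `𝓞 L`, so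
`4 ∣ β ^ (2 N) - 1 = u ^ N - 1` in `𝓞 L`; the quotient is in `K` and integral.
-/

open NumberField Pointwise

namespace Pool.Agent.FR2

open Pool.Agent.Helper60.FM Pool.Agent.AAP

private theorem GaLoc_frobPow {p : ℕ} {𝔓 : Ideal ZQ} {g : GQ} (hg : IsFrob p 𝔓 g) (m : ℕ) :
    (g ^ m) • 𝔓 = 𝔓 ∧ ∀ x : ZQ, (g ^ m) • x - x ^ (p ^ m) ∈ 𝔓 := by
  induction m with
  | zero => exact ⟨by rw [pow_zero, one_smul], fun x => by simp⟩
  | succ m ih =>
    obtain ⟨h1, h2⟩ := ih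
    refine ⟨by rw [pow_succ, mul_smul, hg.1, h1], fun x => ?_⟩
    have h3 : (g ^ m) • (g • x) - (g • x) ^ (p ^ m) ∈ 𝔓 := h2 (g • x)
    have h4 : (g • x) ^ (p ^ m) - (x ^ p) ^ (p ^ m) ∈ 𝔓 := by
      have h5 : g • x - x ^ p ∣ (g • x) ^ (p ^ m) - (x ^ p) ^ (p ^ m) := sub_dvd_pow_sub_pow _ _ _
      exact 𝔓.mem_of_dvd h5 (hg.2 x)
    have h6 := 𝔓.add_mem h3 h4
    rw [pow_succ, mul_smul]
    have h7 : (g ^ m) • (g • x) - x ^ (p ^ (m + 1)) =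
        ((g ^ m) • (g • x) - (g • x) ^ (p ^ m)) + ((g • x) ^ (p ^ m) - (x ^ p) ^ (p ^ m)) := by
      rw [← pow_mul, ← pow_succ' p m]
      ring
    rw [h7]
    exact h6

private theorem GaLoc_powMem (K : IntermediateField ℚ Qb) [FiniteDimensional ℚ K] [IsGalois ℚ K]
    (g : GQ) : g ^ Module.finrank ℚ K ∈ K.fixingSubgroup := by
  have h0 : Normal ℚ K := IsGalois.to_normal
  have h1 : (res K g) ^ Module.finrank ℚ K = 1 := by
    rw [← IsGalois.card_aut_eq_finrank]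
    exact pow_card_eq_one'
  have h2 : res K (g ^ Module.finrank ℚ K) = 1 := by rw [map_pow, h1]
  have hcomm : ∀ (g : GQ) (x : K), ((res K g x : K) : Qb) = g (x : Qb) := fun g x =>
    AlgEquiv.restrictNormal_commutes g K x
  rw [IntermediateField.mem_fixingSubgroup_iff]
  intro x hx
  have h3 := hcomm (g ^ Module.finrank ℚ K) ⟨x, hx⟩
  rw [h2] at h3
  exact h3.symm

theorem gaLoc (K M : IntermediateField ℚ Qb) [FiniteDimensional ℚ K] [IsGalois ℚ K]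
    [FiniteDimensional ℚ M] [IsGalois ℚ M]
    (hI : ∀ 𝔓 : Ideal ZQ, 𝔓.IsPrime → (2 : ZQ) ∈ 𝔓 → ∀ g ∈ In 𝔓,
      g ∈ K.fixingSubgroup ⊓ M.fixingSubgroup)
    (β : Qb) (hβ : ∀ g ∈ K.fixingSubgroup ⊓ M.fixingSubgroup, g β = β)
    (u : (𝓞 K)ˣ) (hu : β ^ 2 = (((u : 𝓞 K) : K) : Qb))
    (hdec : ∀ 𝔓 : Ideal ZQ, 𝔓.IsPrime → (2 : ZQ) ∈ 𝔓 → ∀ g : GQ, g • 𝔓 = 𝔓 →
      g ∈ K.fixingSubgroup → g β = β) :
    ∃ N : ℕ, Odd N ∧ (4 : 𝓞 K) ∣ (u : 𝓞 K) ^ N - 1 := by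
  set n : ℕ := Module.finrank ℚ K with hn
  have hn0 : n ≠ 0 := (Module.finrank_pos (R := ℚ) (M := K)).ne'
  obtain ⟨N, hN⟩ : ∃ N : ℕ, 2 ^ n = N + 1 :=
    ⟨2 ^ n - 1, (Nat.sub_add_cancel Nat.one_le_two_pow).symm⟩
  have hNodd : Odd N := by
    have h1 : Even (N + 1) := by
      rw [← hN]
      exact (Nat.even_pow.mpr ⟨even_two, hn0⟩)
    rw [← Nat.not_even_iff_odd]
    intro h2
    exact (Nat.even_add_one.mp h1) h2
  refine ⟨N, hNodd, ?_⟩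
  -- `β` as an algebraic integer
  have hβi : IsIntegral ℤ β := by
    refine IsIntegral.of_pow two_pos ?_
    rw [hu]
    exact (toZ K (u : 𝓞 K)).2
  let b : ZQ := ⟨β, hβi⟩
  have hb2 : b ^ 2 = toZ K (u : 𝓞 K) := Subtype.ext hu
  have hbu : ∀ 𝔓 : Ideal ZQ, 𝔓.IsPrime → b ∉ 𝔓 := by
    intro 𝔓 hP hb
    apply hP.ne_top
    rw [Ideal.eq_top_iff_one]
    have h1 : (1 : ZQ) = toZ K ((u⁻¹ : (𝓞 K)ˣ) : 𝓞 K) * b * b := by
      rw [mul_assoc, ← sq, hb2, ← map_mul, Units.inv_mul, map_one]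
    rw [h1]
    exact 𝔓.mul_mem_left _ hb
  have hfrob : ∀ 𝔓 : Ideal ZQ, 𝔓.IsPrime → (2 : ZQ) ∈ 𝔓 → b ^ N - 1 ∈ 𝔓 := by
    intro 𝔓 hP h2
    obtain ⟨g, hg⟩ := exists_frob 2 Nat.prime_two 𝔓 hP (by exact_mod_cast h2)
    obtain ⟨h3, h4⟩ := GaLoc_frobPow hg n
    have h5 : (g ^ n) β = β := hdec 𝔓 hP h2 (g ^ n) h3 (GaLoc_powMem K g)
    have h6 : (g ^ n) • b = b := Subtype.ext h5
    have h7 := h4 b
    rw [h6, hN] at h7
    have h8 : b * (b ^ N - 1) ∈ 𝔓 := by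
      have h9 : b * (b ^ N - 1) = - (b - b ^ (N + 1)) := by ring
      rw [h9]
      exact 𝔓.neg_mem h7
    exact (hP.mem_or_mem h8).resolve_left (hbu 𝔓 hP)
  -- the field `L`
  set L : IntermediateField ℚ Qb := K ⊔ M with hL
  have : Normal ℚ Qb := C1b_normal
  have : IsGalois ℚ Qb := C1b_isGalois
  have : Normal ℚ L := C1b_normal_sup K M
  have : IsGalois ℚ L := {}
  have : FiniteDimensional ℚ L := IntermediateField.finiteDimensional_sup K M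
  have hKL : K ≤ L := le_sup_left
  have hfix : L.fixingSubgroup = K.fixingSubgroup ⊓ M.fixingSubgroup := by
    rw [hL, IntermediateField.fixingSubgroup_sup]
  have hβL : β ∈ L := by
    have h1 : IntermediateField.fixedField L.fixingSubgroup = L :=
      InfiniteGalois.fixedField_fixingSubgroup L
    rw [← h1, IntermediateField.mem_fixedField_iff]
    intro g hg
    exact hβ g (by rwa [hfix] at hg)
  have hβLi : IsIntegral ℤ (⟨β, hβL⟩ : L) := by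
    have h1 : IsIntegral ℤ (algebraMap L Qb ⟨β, hβL⟩) := hβi
    exact (isIntegral_algebraMap_iff (algebraMap L Qb).injective).1 h1
  let b' : 𝓞 L := ⟨⟨β, hβL⟩, hβLi⟩
  have hb' : toZ L b' = b := Subtype.ext (coe_toZ L b')
  have hdvd : ((2 : ℕ) : 𝓞 L) ∣ b' ^ N - 1 := by
    refine gaUnr L 2 Nat.prime_two ?_ _ ?_
    · intro 𝔓 hP h2 g hg
      rw [hfix]
      exact hI 𝔓 hP (by exact_mod_cast h2) g hg
    · intro 𝔓 hP h2
      rw [map_sub, map_pow, map_one, hb']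
      exact hfrob 𝔓 hP (by exact_mod_cast h2)
  obtain ⟨c, hc⟩ := hdvd
  have hd : b' ^ (2 * N) - 1 = 4 * (c + c ^ 2) := by
    have h1 : b' ^ N = 1 + 2 * c := by
      push_cast at hc
      linear_combination hc
    rw [mul_comm, pow_mul, h1]
    ring
  have hdQ : ((((u : 𝓞 K) : K) : Qb)) ^ N - 1 = 4 * (((toZ L (c + c ^ 2) : ZQ)) : Qb) := by
    have h1 := congrArg (algebraMap ZQ Qb) (congrArg (toZ L) hd)
    rw [map_sub, map_pow, map_one, hb', map_mul, map_ofNat, map_sub, map_pow, map_one, map_mul,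
      map_ofNat] at h1
    have h2 : β ^ (2 * N) - 1 = 4 * (((toZ L (c + c ^ 2) : ZQ)) : Qb) := h1
    rw [← hu, ← pow_mul]
    exact h2
  -- the quotient is in `K`
  let e : K := (((u : 𝓞 K) : K) ^ N - 1) / 4
  have heQ : ((e : K) : Qb) = (((toZ L (c + c ^ 2) : ZQ)) : Qb) := by
    have h1 : ((e : K) : Qb) = (((((u : 𝓞 K) : K) : Qb)) ^ N - 1) / 4 := by
      simp only [e]
      push_cast
      rfl
    rw [h1, hdQ]
    field_simp
  have hei : IsIntegral ℤ e := by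
    have h1 : IsIntegral ℤ (algebraMap K Qb e) := by
      have h2 : algebraMap K Qb e = (((toZ L (c + c ^ 2) : ZQ)) : Qb) := heQ
      rw [h2]
      exact (toZ L (c + c ^ 2)).2
    exact (isIntegral_algebraMap_iff (algebraMap K Qb).injective).1 h1
  obtain ⟨e', he'⟩ : ∃ e' : 𝓞 K, algebraMap (𝓞 K) K e' = e := ⟨⟨e, hei⟩, rfl⟩
  refine ⟨e', FaithfulSMul.algebraMap_injective (𝓞 K) K ?_⟩
  have h4 : ((u : 𝓞 K) : K) ^ N - 1 = 4 * e := by
    simp only [e]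
    field_simp
  rw [map_sub, map_pow, map_one, map_mul, map_ofNat, he']
  exact h4

end Pool.Agent.FR2
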