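import Pool.Agent.FR2.DefsK
import Pool.Agent.AAP.Loc

/-!
# FR2-LocK: decomposition groups in a subfield of a cyclotomic field

`F = ℚ(ζ_m)`, `m = ℓ^j m'`, `ℓ` prime to `m'`, `K ⊆ F`, `𝔭` a prime ideal of `𝓞 K` containing the prime number
`ℓ`. Take a prime ideal `P` of `𝓞 F` over `𝔭`; then `ℓ ∈ P`, and `σ P = P` for all `σ` with
`gq σ ≡ ℓ^i` modulo `m'` (`stabP`, `Pool/Agent/AAP/Loc.lean`); so `rs σ • 𝔭 = 𝔭`
(`rs σ • (P ∩ 𝓞 K) = (σ P) ∩ 𝓞 K`).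
-/

open NumberField Pointwise Finset

namespace Pool.Agent.FR2

theorem locK (m ℓ j m' i : ℕ) [NeZero m] (hℓ : ℓ.Prime) (hm : m = ℓ ^ j * m')
    (hcop : ℓ.Coprime m') (F K : Type) [Field F] [NumberField F] [IsCyclotomicExtension {m} ℚ F]
    [Field K] [NumberField K] [IsGalois ℚ K] [Algebra K F]
    (σ : Gal(F/ℚ)) (h : (((AAP.gq m F σ : (ZMod m)ˣ) : ZMod m).val : ZMod m') = (ℓ : ZMod m') ^ i)
    (𝔭 : Ideal (𝓞 K)) (hP : 𝔭.IsPrime) (hℓP : (ℓ : 𝓞 K) ∈ 𝔭) : rs (K := K) σ • 𝔭 = 𝔭 := by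
  have key : ∀ (τ : Gal(F/ℚ)) (x : 𝓞 K),
      algebraMap (𝓞 K) (𝓞 F) (rs (K := K) τ • x) = τ • algebraMap (𝓞 K) (𝓞 F) x := by
    intro τ x
    apply RingOfIntegers.ext
    exact AlgEquiv.restrictNormal_commutes τ K (x : K)
  obtain ⟨P, hPp, hPl⟩ := Ideal.exists_ideal_over_prime_of_isIntegral_of_isDomain (S := 𝓞 F) 𝔭
    (by
      rw [(RingHom.injective_iff_ker_eq_bot _).1 (FaithfulSMul.algebraMap_injective (𝓞 K) (𝓞 F))]
      exact bot_le)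
  have hℓ' : (ℓ : 𝓞 F) ∈ P := by
    rw [← hPl, Ideal.mem_comap, map_natCast] at hℓP
    exact hℓP
  have hs := AAP.stabP m ℓ j m' i hℓ hm hcop F σ h P hPp hℓ'
  ext x
  rw [Ideal.mem_pointwise_smul_iff_inv_smul_mem, ← map_inv, ← hPl, Ideal.mem_comap,
    Ideal.mem_comap, key]
  constructor
  · intro hx
    have h1 := Ideal.smul_mem_pointwise_smul σ _ P hx
    rwa [smul_inv_smul, hs] at h1
  · intro hx
    rw [← hs] at hx
    exact Ideal.mem_pointwise_smul_iff_inv_smul_mem.1 hx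

end Pool.Agent.FR2
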