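import Pool.Agent.FR2.CycQ
import Pool.Agent.FR2.LocK

/-!
# FR2-LocQ: decomposition groups for a subfield of `Qb` cut out by a character

`F` is the field of the `f`-th roots of unity (`cycQ`), `K ≤ F` (`cycQ_le`), and `ψ (rs σ) = χ (gq f F σ)` for
`σ ∈ Gal(F/ℚ)`. The decomposition groups in `K` of the prime ideals over `ℓ` come from `locK`: if `ℓ` is prime
to `f` for the Frobenius, and if `ℓ ∣ f` for an element of inertia on which the primitive character `χ` is not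
trivial.
-/

open NumberField Pointwise Finset

namespace Pool.Agent.FR2

open Pool.Agent.Helper60.FM in
private theorem locq_char {k : Type} [Field k] {f : ℕ} [NeZero f] (K F : IntermediateField ℚ Qb)
    [FiniteDimensional ℚ K] [IsGalois ℚ K] [FiniteDimensional ℚ F] [IsGalois ℚ F]
    [IsCyclotomicExtension {f} ℚ F]
    (hF : ∀ g : GQ, AAP.ActsAs f g ((AAP.gq f F (res F g) : (ZMod f)ˣ) : ZMod f).val)
    (χ : (ZMod f)ˣ →* kˣ) (ψ : Gal(K/ℚ) →* kˣ)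
    (hcut : ∀ (g : GQ) (a : (ZMod f)ˣ), AAP.ActsAs f g (a : ZMod f).val → ψ (res K g) = χ a)
    [Algebra K F] (halg : ∀ x : K, ((algebraMap K F x : F) : Qb) = (x : Qb)) (σ : Gal(F/ℚ)) :
    ψ (rs (K := K) σ) = χ (AAP.gq f F σ) := by
  obtain ⟨g, hg⟩ := AlgEquiv.restrictNormalHom_surjective (F := ℚ) (K₁ := F) Qb σ
  have h1 : rs (K := K) σ = res K g := by
    ext x
    have e1 : algebraMap K F (rs (K := K) σ x) = σ (algebraMap K F x) :=
      AlgEquiv.restrictNormal_commutes σ K x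
    have e2 : ∀ y : F, ((σ y : F) : Qb) = g (y : Qb) := by
      intro y
      rw [← hg]
      exact AlgEquiv.restrictNormal_commutes g F y
    have e3 : ((res K g x : K) : Qb) = g (x : Qb) := AlgEquiv.restrictNormal_commutes g K x
    have e4 : ((rs (K := K) σ x : K) : Qb) = g (x : Qb) := by
      rw [← halg, e1, e2, halg]
    exact e4.trans e3.symm
  rw [h1]
  have h2 := hcut g (AAP.gq f F (res F g)) (hF g)
  have h3 : res F g = σ := hg
  rw [h3] at h2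
  exact h2

open Pool.Agent.Helper60.FM in
theorem locQ {k : Type} [Field k] {f : ℕ} [NeZero f] (K : IntermediateField ℚ Qb)
    [FiniteDimensional ℚ K] [IsGalois ℚ K] (χ : (ZMod f)ˣ →* kˣ) (ψ : Gal(K/ℚ) →* kˣ)
    (hψ : Function.Injective ψ)
    (hcut : ∀ (g : GQ) (a : (ZMod f)ˣ), AAP.ActsAs f g (a : ZMod f).val → ψ (res K g) = χ a)
    (𝔭 : Ideal (𝓞 K)) (hP : 𝔭.IsPrime) (ℓ : ℕ) (hℓ : ℓ.Prime) (hℓP : (ℓ : 𝓞 K) ∈ 𝔭) :
    (∀ u : (ZMod f)ˣ, (u : ZMod f) = ℓ → ∃ σ : Gal(K/ℚ), σ • 𝔭 = 𝔭 ∧ ψ σ = χ u) ∧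
      (ℓ ∣ f → FRD.Prim χ → ∃ σ : Gal(K/ℚ), σ • 𝔭 = 𝔭 ∧ ψ σ ≠ 1) := by
  obtain ⟨F, hFd, hFg, hFc, hF⟩ := cycQ f
  have hle : K ≤ F := cycQ_le f K F hF χ ψ hψ hcut
  letI : Algebra K F := (IntermediateField.inclusion hle).toRingHom.toAlgebra
  have halg : ∀ x : K, ((algebraMap K F x : F) : Qb) = (x : Qb) := fun x => rfl
  have hchar := locq_char K F hF χ ψ hcut halg
  have hgu : ∀ u : (ZMod f)ˣ, AAP.gq f F ((AAP.gq f F).symm u) = u := fun u =>
    (AAP.gq f F).apply_symm_apply u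
  constructor
  · intro u hu
    have hcop : ℓ.Coprime f := by
      rw [← ZMod.isUnit_iff_coprime, ← hu]
      exact u.isUnit
    refine ⟨rs (K := K) ((AAP.gq f F).symm u), ?_, ?_⟩
    · refine locK f ℓ 0 f 1 hℓ (by rw [pow_zero, one_mul]) hcop F K _ ?_ 𝔭 hP hℓP
      rw [hgu, ZMod.natCast_zmod_val, pow_one, hu]
    · rw [hchar, hgu]
  · intro hℓf hprim
    obtain ⟨u, hu, hχ⟩ := hprim ℓ hℓ hℓf
    obtain ⟨j, m', hm', hfm⟩ := Nat.exists_eq_pow_mul_and_not_dvd (NeZero.ne f) ℓ hℓ.ne_one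
    have hcop : ℓ.Coprime m' := (Nat.Prime.coprime_iff_not_dvd hℓ).2 hm'
    have hj : j ≠ 0 := by
      rintro rfl
      rw [pow_zero, one_mul] at hfm
      exact hm' (hfm ▸ hℓf)
    obtain ⟨i, rfl⟩ := Nat.exists_eq_succ_of_ne_zero hj
    have hdiv : m' ∣ f / ℓ := by
      refine ⟨ℓ ^ i, ?_⟩
      apply Nat.div_eq_of_eq_mul_left hℓ.pos
      rw [hfm, pow_succ]
      ring
    have hd : (m' : ℤ) ∣ ((u : ZMod f).val : ℤ) - 1 :=
      (Int.natCast_dvd_natCast.2 hdiv).trans hu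
    refine ⟨rs (K := K) ((AAP.gq f F).symm u), ?_, ?_⟩
    · refine locK f ℓ (i + 1) m' 0 hℓ hfm hcop F K _ ?_ 𝔭 hP hℓP
      rw [hgu, pow_zero]
      have h1 := (ZMod.intCast_zmod_eq_zero_iff_dvd (((u : ZMod f).val : ℤ) - 1) m').2 hd
      push_cast at h1
      exact sub_eq_zero.1 h1
    · rw [hchar, hgu]
      exact hχ

end Pool.Agent.FR2
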