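import Mathlib

/-!
# FR2-MulA: multiplicity one (linear algebra)

`A` free of rank `d - 1`, `g` an endomorphism with `1 + g + ... + g^(d-1) = 0`, `a ∈ A` such that
`∑_{i<d} t_i g^i a = 0` only if all `t_i` are equal. Over `ℚ` the minimal polynomial of `g` has degree at
least `d - 1` (a polynomial of smaller degree killing `g` kills `a`), so it is the characteristic
polynomial, which therefore divides `X ^ d - 1`, first over `ℚ` and then over `ℤ`. Over `k`
(characteristic two, `d` odd) the polynomial `X ^ d - 1` is separable, so the eigenspaces of the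
transpose of `g` acting on `Hom(A, k)` have dimension at most `1`.
-/

open NumberField Pointwise Finset

namespace Pool.Agent.FR2

open Polynomial in
private theorem mulA_deg {A : Type} [AddCommGroup A] (g : A →ₗ[ℤ] A)
    (d : ℕ) (a : A)
    (ha : ∀ t : ℕ → ℤ, ∑ i ∈ range d, t i • (g ^ i) a = 0 → ∀ i < d, ∀ j < d, t i = t j)
    (P : ℤ[X]) (hP : aeval g P = 0) (hdeg : P.natDegree + 1 < d) : P = 0 := by
  have h1 : ∑ i ∈ range d, P.coeff i • (g ^ i) a = 0 := by
    have h2 : (aeval g P) a = 0 := by rw [hP]; rfl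
    rw [aeval_eq_sum_range' (n := d) (by omega)] at h2
    rw [LinearMap.sum_apply] at h2
    exact h2
  have h3 := ha (fun i => P.coeff i) h1
  ext i
  rw [coeff_zero]
  by_cases hi : i < d
  · have h4 : P.coeff i = P.coeff (d - 1) := h3 i hi (d - 1) (by omega)
    rw [h4]
    exact coeff_eq_zero_of_natDegree_lt (by omega)
  · exact coeff_eq_zero_of_natDegree_lt (by omega)

open Polynomial in
private theorem mulA_cp {A : Type} [AddCommGroup A] [Module.Free ℤ A] [Module.Finite ℤ A]
    (g : A →ₗ[ℤ] A) (d : ℕ) (hd1 : 1 < d) (hrk : Module.finrank ℤ A = d - 1)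
    (hg : ∑ i ∈ range d, g ^ i = 0) (a : A)
    (ha : ∀ t : ℕ → ℤ, ∑ i ∈ range d, t i • (g ^ i) a = 0 → ∀ i < d, ∀ j < d, t i = t j)
    {ι : Type} [Fintype ι] [DecidableEq ι] (b : Module.Basis ι ℤ A) :
    (LinearMap.toMatrix b b g).charpoly ∣ X ^ d - 1 := by
  have hcard : Fintype.card ι = d - 1 := by rw [← Module.finrank_eq_card_basis b, hrk]
  have hgd : g ^ d = 1 := by
    have h1 := geom_sum_mul g d
    rw [hg, zero_mul] at h1
    exact (sub_eq_zero.1 h1.symm)
  set G : Matrix ι ι ℤ := LinearMap.toMatrix b b g with hG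
  have hGa : ∀ P : ℤ[X], aeval G P = LinearMap.toMatrix b b (aeval g P) := by
    intro P
    have h1 := Polynomial.aeval_algHom_apply (LinearMap.toMatrixAlgEquiv b).toAlgHom g P
    exact h1
  have hGd : G ^ d = 1 := by
    have h1 := hGa (X ^ d)
    rw [map_pow, aeval_X, map_pow, aeval_X, hgd, LinearMap.toMatrix_one] at h1
    exact h1
  let ψ : Matrix ι ι ℤ →ₐ[ℤ] Matrix ι ι ℚ := ((Int.castRingHom ℚ).mapMatrix).toIntAlgHom
  have hψ : Function.Injective ψ := by
    intro x y hxy
    ext i j
    have h1 := congrFun (congrFun hxy i) j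
    exact Int.cast_injective (α := ℚ) h1
  have hQa : ∀ P : ℤ[X], aeval (ψ G) (P.map (algebraMap ℤ ℚ)) = ψ (aeval G P) := by
    intro P
    rw [aeval_map_algebraMap]
    exact Polynomial.aeval_algHom_apply ψ G P
  have hint : IsIntegral ℚ (ψ G) := Algebra.IsIntegral.isIntegral _
  have hne : minpoly ℚ (ψ G) ≠ 0 := minpoly.ne_zero hint
  have hdeg : d - 1 ≤ (minpoly ℚ (ψ G)).natDegree := by
    by_contra hlt
    obtain ⟨c, hc, hP⟩ := IsLocalization.integerNormalization_spec (nonZeroDivisors ℤ)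
      (minpoly ℚ (ψ G))
    set P := IsLocalization.integerNormalization (nonZeroDivisors ℤ) (minpoly ℚ (ψ G)) with hPd
    have hP0 : P ≠ 0 := by
      intro h
      rw [hPd, IsLocalization.integerNormalization_eq_zero_iff le_rfl] at h
      exact hne h
    apply hP0
    apply mulA_deg g d a ha P
    · have h1 : ψ (aeval G P) = 0 := by
        rw [← hQa, hP]
        have h2 : c • minpoly ℚ (ψ G) = (algebraMap ℤ ℚ c) • minpoly ℚ (ψ G) := by
          rw [algebraMap_smul]
        rw [h2, map_smul, minpoly.aeval, smul_zero]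
      have h3 : aeval G P = 0 := hψ (by rw [h1, map_zero])
      rw [hGa] at h3
      exact (LinearEquiv.map_eq_zero_iff _).1 h3
    · have h1 : P.natDegree ≤ (minpoly ℚ (ψ G)).natDegree := by
        have h4 := IsLocalization.integerNormalization_support (nonZeroDivisors ℤ)
          (minpoly ℚ (ψ G))
        exact natDegree_le_natDegree (Finset.sup_mono h4)
      omega
  have hdv1 : minpoly ℚ (ψ G) ∣ (ψ G).charpoly := Matrix.minpoly_dvd_charpoly _
  have heq : (ψ G).charpoly = minpoly ℚ (ψ G) := by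
    apply Polynomial.eq_of_monic_of_dvd_of_natDegree_le (minpoly.monic hint)
      (Matrix.charpoly_monic _) hdv1
    rw [Matrix.charpoly_natDegree_eq_dim, hcard]
    exact hdeg
  have hdv2 : minpoly ℚ (ψ G) ∣ X ^ d - 1 := by
    apply minpoly.dvd
    rw [map_sub, map_pow, aeval_X, map_one, ← map_pow, hGd, map_one, sub_self]
  have hmap : (ψ G).charpoly = G.charpoly.map (algebraMap ℤ ℚ) := by
    have h1 := Matrix.charpoly_map G (algebraMap ℤ ℚ)
    rw [← h1]
    rfl
  rw [← heq, hmap] at hdv2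
  have h5 : (X ^ d - 1 : ℚ[X]) = (X ^ d - 1 : ℤ[X]).map (algebraMap ℤ ℚ) := by
    rw [Polynomial.map_sub, Polynomial.map_pow, map_X, Polynomial.map_one]
  rw [h5] at hdv2
  exact (Polynomial.map_dvd_map (algebraMap ℤ ℚ) (Int.cast_injective (α := ℚ))
    (Matrix.charpoly_monic G)).1 hdv2

theorem mulA {A : Type} [AddCommGroup A] [Module.Free ℤ A] [Module.Finite ℤ A] (g : A →ₗ[ℤ] A)
    (d : ℕ) (hd : Odd d) (hrk : Module.finrank ℤ A = d - 1) (hg : ∑ i ∈ range d, g ^ i = 0)
    (a : A) (ha : ∀ t : ℕ → ℤ, ∑ i ∈ range d, t i • (g ^ i) a = 0 → ∀ i < d, ∀ j < d, t i = t j)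
    {k : Type} [Field k] [CharP k 2] (z : k) (hz : z ^ d = 1) (hz1 : z ≠ 1) (lam μ : A →+ k)
    (hl : ∀ x, lam (g x) = z * lam x) (hμ : ∀ x, μ (g x) = z * μ x) (hμ0 : μ ≠ 0) :
    ∃ c : k, ∀ x, lam x = c * μ x := by
  classical
  have hd1 : 1 < d := by
    rcases hd with ⟨m, rfl⟩
    rcases Nat.eq_zero_or_pos m with h | h
    · subst h
      simp at hz
      exact absurd hz hz1
    · omega
  have hdk : (d : k) ≠ 0 := by
    intro h
    rw [CharP.cast_eq_zero_iff k 2 d] at h
    rcases hd with ⟨m, rfl⟩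
    omega
  let b := Module.Free.chooseBasis ℤ A
  let G := LinearMap.toMatrix b b g
  have hdv : G.charpoly ∣ Polynomial.X ^ d - 1 := mulA_cp g d hd1 hrk hg a ha b
  let Gk : Matrix _ _ k := G.map (Int.castRingHom k)
  have hmap : Gk.charpoly = G.charpoly.map (Int.castRingHom k) := Matrix.charpoly_map G _
  have hdvk : Gk.charpoly ∣ Polynomial.X ^ d - 1 := by
    rw [hmap]
    have h1 := Polynomial.map_dvd (Int.castRingHom k) hdv
    rwa [Polynomial.map_sub, Polynomial.map_pow, Polynomial.map_X, Polynomial.map_one] at h1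
  have hsep : Gk.charpoly.Separable :=
    (Polynomial.X_pow_sub_one_separable_iff.2 hdk).of_dvd hdvk
  have hfin : Module.finrank k (Module.End.eigenspace (Matrix.toLin' Gk.transpose) z) ≤ 1 := by
    refine (LinearMap.finrank_eigenspace_le _ _).trans ?_
    rw [Matrix.charpoly_toLin', Matrix.charpoly_transpose]
    exact Polynomial.rootMultiplicity_le_one_of_separable hsep z
  have hvec : ∀ ν : A →+ k, (∀ x, ν (g x) = z * ν x) →
      (fun i => ν (b i)) ∈ Module.End.eigenspace (Matrix.toLin' Gk.transpose) z := by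
    intro ν hν
    rw [Module.End.mem_eigenspace_iff]
    funext j
    have h1 : g (b j) = ∑ i, G i j • b i := by
      have h2 := b.sum_repr (g (b j))
      rw [← h2]
      refine Finset.sum_congr rfl fun i _ => ?_
      rw [show G i j = b.repr (g (b j)) i from LinearMap.toMatrix_apply b b g i j]
    have h3 := hν (b j)
    rw [h1, map_sum] at h3
    rw [Pi.smul_apply, smul_eq_mul, ← h3, Matrix.toLin'_apply, Matrix.mulVec, dotProduct]
    refine Finset.sum_congr rfl fun i _ => ?_
    rw [map_zsmul, zsmul_eq_mul]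
    rfl
  obtain ⟨v, hv⟩ := finrank_le_one_iff.1 hfin
  obtain ⟨c1, hc1⟩ := hv ⟨_, hvec lam hl⟩
  obtain ⟨c2, hc2⟩ := hv ⟨_, hvec μ hμ⟩
  have h1 : ∀ i, lam (b i) = c1 * v.1 i := by
    intro i
    have h2 := congrFun (congrArg Subtype.val hc1) i
    exact h2.symm
  have h2 : ∀ i, μ (b i) = c2 * v.1 i := by
    intro i
    have h3 := congrFun (congrArg Subtype.val hc2) i
    exact h3.symm
  have hc20 : c2 ≠ 0 := by
    intro h
    apply hμ0
    have h3 : μ.toIntLinearMap = 0 := by
      apply b.ext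
      intro i
      have h4 := h2 i
      rw [h, zero_mul] at h4
      exact h4
    ext x
    exact LinearMap.congr_fun h3 x
  refine ⟨c1 / c2, fun x => ?_⟩
  have h3 : lam.toIntLinearMap = ((AddMonoidHom.mulLeft (c1 / c2)).comp μ).toIntLinearMap := by
    apply b.ext
    intro i
    change lam (b i) = (c1 / c2) * μ (b i)
    rw [h1, h2]
    field_simp
  exact LinearMap.congr_fun h3 x

end Pool.Agent.FR2
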