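import Pool.Agent.FR2.Mnk
import Pool.Agent.FR2.MulA

/-!
# Equivariant homomorphisms on the units are proportional

`Gal(K/ℚ)` is cyclic of odd order `d` since it embeds in the units of a field of characteristic two.
A generator acts on the units modulo torsion, a free group of rank `d - 1`; the sum of its powers
is zero since norms of units are `1` or `-1`. The two homomorphisms vanish on the torsion, and
`mulA` applies, with the class of the unit of `mnk`.
-/

open NumberField Pointwise Finset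

set_option maxSynthPendingDepth 3

namespace Pool.Agent.FR2

private theorem mulB_coe {K : Type} [Field K] [NumberField K] (σ : Gal(K/ℚ)) (x : 𝓞 K) :
    ((σ • x : 𝓞 K) : K) = σ (x : K) := rfl

private theorem mulB_prod {K : Type} [Field K] [NumberField K] [IsGalois ℚ K] (u : (𝓞 K)ˣ) :
    (∏ σ : Gal(K/ℚ), σ • u) ∈ Units.torsion K := by
  have h1 : (((∏ σ : Gal(K/ℚ), σ • u : (𝓞 K)ˣ) : 𝓞 K) : K) =
      algebraMap ℚ K (Algebra.norm ℚ ((u : 𝓞 K) : K)) := by
    rw [Algebra.norm_eq_prod_automorphisms, Units.coe_prod]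
    change algebraMap (𝓞 K) K _ = _
    rw [map_prod]
    exact Finset.prod_congr rfl fun σ _ => mulB_coe σ _
  have h2 : |Algebra.norm ℚ ((u : 𝓞 K) : K)| = 1 := by
    have := NumberField.isUnit_iff_norm.1 u.isUnit
    rwa [RingOfIntegers.coe_norm] at this
  have h3 : (∏ σ : Gal(K/ℚ), σ • u) ^ 2 = 1 := by
    apply Units.ext
    apply RingOfIntegers.ext
    rw [Units.val_pow_eq_pow_val]
    change algebraMap (𝓞 K) K _ = algebraMap (𝓞 K) K 1
    rw [map_pow]
    change (((∏ σ : Gal(K/ℚ), σ • u : (𝓞 K)ˣ) : 𝓞 K) : K) ^ 2 = _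
    rw [h1, ← map_pow, ← sq_abs, h2]
    simp
  change _ ∈ CommGroup.torsion _
  rw [CommGroup.mem_torsion]
  exact isOfFinOrder_iff_pow_eq_one.2 ⟨2, by norm_num, h3⟩

private theorem mulB_tor {K : Type} [Field K] [NumberField K] (σ : Gal(K/ℚ)) (u : (𝓞 K)ˣ)
    (hu : u ∈ Units.torsion K) : σ • u ∈ Units.torsion K := by
  change _ ∈ CommGroup.torsion _ at hu
  change _ ∈ CommGroup.torsion _
  rw [CommGroup.mem_torsion] at hu ⊢
  exact (MulDistribMulAction.toMonoidHom (𝓞 K)ˣ σ).isOfFinOrder hu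

private noncomputable def mulB_q (K : Type) [Field K] [NumberField K] (σ : Gal(K/ℚ)) :
    ((𝓞 K)ˣ ⧸ Units.torsion K) →* ((𝓞 K)ˣ ⧸ Units.torsion K) :=
  QuotientGroup.map _ _ (MulDistribMulAction.toMonoidHom (𝓞 K)ˣ σ) (fun u hu => mulB_tor σ u hu)

private noncomputable def mulB_g (K : Type) [Field K] [NumberField K] (σ : Gal(K/ℚ)) :
    Additive ((𝓞 K)ˣ ⧸ Units.torsion K) →ₗ[ℤ] Additive ((𝓞 K)ˣ ⧸ Units.torsion K) :=
  (MonoidHom.toAdditive (mulB_q K σ)).toIntLinearMap

private noncomputable def mulB_c {K : Type} [Field K] [NumberField K] (u : (𝓞 K)ˣ) :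
    Additive ((𝓞 K)ˣ ⧸ Units.torsion K) :=
  Additive.ofMul (QuotientGroup.mk u)

private theorem mulB_c_surj {K : Type} [Field K] [NumberField K]
    (x : Additive ((𝓞 K)ˣ ⧸ Units.torsion K)) : ∃ u, x = mulB_c u := by
  obtain ⟨u, hu⟩ := QuotientGroup.mk_surjective (Additive.toMul x)
  exact ⟨u, by rw [mulB_c, hu]; rfl⟩

private theorem mulB_gc {K : Type} [Field K] [NumberField K] (σ : Gal(K/ℚ)) (u : (𝓞 K)ˣ) :
    mulB_g K σ (mulB_c u) = mulB_c (σ • u) := rfl

private theorem mulB_gpow {K : Type} [Field K] [NumberField K] (σ : Gal(K/ℚ)) (n : ℕ)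
    (u : (𝓞 K)ˣ) : (mulB_g K σ ^ n) (mulB_c u) = mulB_c (σ ^ n • u) := by
  induction n with
  | zero => simp
  | succ n ih =>
    rw [pow_succ', Module.End.mul_apply, ih, mulB_gc, pow_succ', mul_smul]

private theorem mulB_c_mul {K : Type} [Field K] [NumberField K] (u v : (𝓞 K)ˣ) :
    mulB_c (u * v) = mulB_c u + mulB_c v := rfl

private theorem mulB_c_zpow {K : Type} [Field K] [NumberField K] (u : (𝓞 K)ˣ) (n : ℤ) :
    mulB_c (u ^ n) = n • mulB_c u := rfl

private theorem mulB_c_prod {K ι : Type} [Field K] [NumberField K] (s : Finset ι)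
    (u : ι → (𝓞 K)ˣ) : mulB_c (∏ i ∈ s, u i) = ∑ i ∈ s, mulB_c (u i) := by
  classical
  induction s using Finset.induction_on with
  | empty => rfl
  | insert a s ha ih => rw [prod_insert ha, sum_insert ha, mulB_c_mul, ih]

private theorem mulB_c_zero {K : Type} [Field K] [NumberField K] (u : (𝓞 K)ˣ) :
    mulB_c u = 0 ↔ u ∈ Units.torsion K := by
  rw [← QuotientGroup.eq_one_iff]
  exact Iff.rfl

/-- an equivariant homomorphism factors through the units modulo torsion -/
private theorem mulB_lift {k : Type} [Field k] [CharP k 2] (K : Type) [Field K] [NumberField K]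
    [IsGalois ℚ K] (hodd : Odd (Module.finrank ℚ K)) (ψ : Gal(K/ℚ) →* kˣ) (hne : ψ ≠ 1)
    (lam : (𝓞 K)ˣ → k) (hl : ∀ u v, lam (u * v) = lam u + lam v)
    (hl' : ∀ (σ : Gal(K/ℚ)) u, lam (σ • u) = ψ σ * lam u) :
    ∃ L : Additive ((𝓞 K)ˣ ⧸ Units.torsion K) →+ k, ∀ u, L (mulB_c u) = lam u := by
  have h1 : lam 1 = 0 := by
    have := hl 1 1
    rw [mul_one] at this
    exact left_eq_add.1 this
  have hm1 : lam (-1) = 0 := by
    obtain ⟨σ, hσ⟩ : ∃ σ, ψ σ ≠ 1 := by
      by_contra hcon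
      push Not at hcon
      exact hne (MonoidHom.ext hcon)
    have h2 : σ • (-1 : (𝓞 K)ˣ) = -1 := by
      apply Units.ext
      rw [val_smul]
      simp
    have h3 := hl' σ (-1)
    rw [h2] at h3
    have h4 : ((ψ σ : k) - 1) * lam (-1) = 0 := by linear_combination -h3
    rcases mul_eq_zero.1 h4 with h5 | h5
    · exact absurd (Units.ext (sub_eq_zero.1 h5)) hσ
    · exact h5
  have htor : ∀ u ∈ Units.torsion K, lam u = 0 := by
    intro u hu
    rcases Units.torsion_eq_one_or_neg_one_of_odd_finrank hodd ⟨u, hu⟩ with h | h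
    · have : u = 1 := h
      rw [this, h1]
    · have : u = -1 := h
      rw [this, hm1]
  let f : (𝓞 K)ˣ →* Multiplicative k :=
    { toFun := fun u => Multiplicative.ofAdd (lam u)
      map_one' := by rw [h1]; rfl
      map_mul' := fun u v => by rw [hl]; rfl }
  have hf : Units.torsion K ≤ f.ker := by
    intro u hu
    rw [MonoidHom.mem_ker]
    change Multiplicative.ofAdd (lam u) = 1
    rw [htor u hu]
    rfl
  refine ⟨MonoidHom.toAdditiveLeft (QuotientGroup.lift (Units.torsion K) f hf), fun u => rfl⟩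

theorem mulB {k : Type} [Field k] [CharP k 2] (K : Type) [Field K] [NumberField K]
    [IsGalois ℚ K] [IsTotallyReal K] (ψ : Gal(K/ℚ) →* kˣ) (hψ : Function.Injective ψ)
    (hne : ψ ≠ 1) (lam μ : (𝓞 K)ˣ → k) (hl : ∀ u v, lam (u * v) = lam u + lam v)
    (hl' : ∀ (σ : Gal(K/ℚ)) u, lam (σ • u) = ψ σ * lam u)
    (hμ : ∀ u v, μ (u * v) = μ u + μ v) (hμ' : ∀ (σ : Gal(K/ℚ)) u, μ (σ • u) = ψ σ * μ u)
    (hμ0 : ∃ u, μ u ≠ 0) : ∃ c : k, ∀ u, lam u = c * μ u := by
  classical
  have hcyc : IsCyclic Gal(K/ℚ) :=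
    isCyclic_of_injective_ringHom ((Units.coeHom k).comp ψ)
      (fun a b h => hψ (Units.ext h))
  obtain ⟨σ₀, hσ₀⟩ := hcyc.exists_generator
  set d := Fintype.card Gal(K/ℚ) with hd
  have hcard : Module.finrank ℚ K = d := by
    rw [← IsGalois.card_aut_eq_finrank, Nat.card_eq_fintype_card]
  have hodd : Odd d := by
    by_contra hev
    rw [Nat.not_odd_iff_even] at hev
    obtain ⟨τ, hτ⟩ := exists_prime_orderOf_dvd_card 2 hev.two_dvd
    have h1 : (ψ τ : k) ^ 2 = 1 := by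
      have : ψ τ ^ 2 = 1 := by
        rw [← map_pow, ← hτ, pow_orderOf_eq_one, map_one]
      have h2 := congrArg Units.val this
      simpa using h2
    have h2 : ((ψ τ : k) - 1) ^ 2 = 0 := by
      have h3 : (2 : k) = 0 := CharTwo.two_eq_zero
      linear_combination h1 + (1 - (ψ τ : k)) * h3
    have h3 : (ψ τ : k) = 1 := sub_eq_zero.1 (pow_eq_zero_iff (by norm_num) |>.1 h2)
    have h4 : τ = 1 := hψ (by rw [map_one]; exact Units.ext h3)
    rw [h4, orderOf_one] at hτ
    norm_num at hτ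
  have hord : orderOf σ₀ = d := by
    rw [orderOf_eq_card_of_forall_mem_zpowers hσ₀, Nat.card_eq_fintype_card]
  have hdpos : 0 < d := Fintype.card_pos
  -- every automorphism is a power of the generator with exponent below `d`
  have hbij : ∀ {M : Type} [CommMonoid M] (F : Gal(K/ℚ) → M),
      ∏ i ∈ range d, F (σ₀ ^ i) = ∏ σ, F σ := by
    intro M _ F
    refine Finset.prod_bij (fun i _ => σ₀ ^ i) (fun _ _ => mem_univ _) ?_ ?_ (fun _ _ => rfl)
    · intro i hi j hj hij
      rw [mem_range, ← hord] at hi hj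
      exact pow_injOn_Iio_orderOf hi hj hij
    · intro σ _
      have h1 : σ ∈ Subgroup.zpowers σ₀ := hσ₀ σ
      rw [← mem_powers_iff_mem_zpowers, mem_powers_iff_mem_range_orderOf, hord] at h1
      obtain ⟨i, hi, hi'⟩ := Finset.mem_image.1 h1
      exact ⟨i, hi, hi'⟩
  have hodd' : Odd (Module.finrank ℚ K) := by rw [hcard]; exact hodd
  obtain ⟨L, hL⟩ := mulB_lift K hodd' ψ hne lam hl hl'
  obtain ⟨M, hM⟩ := mulB_lift K hodd' ψ hne μ hμ hμ'
  obtain ⟨ε, hε⟩ := mnk K
  have hrk : Module.finrank ℤ (Additive ((𝓞 K)ˣ ⧸ Units.torsion K)) = d - 1 := by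
    rw [Units.finrank_modTorsion]
    change Fintype.card (InfinitePlace K) - 1 = d - 1
    have h1 := InfinitePlace.card_eq_nrRealPlaces_add_nrComplexPlaces (K := K)
    have h2 := IsTotallyReal.finrank (K := K)
    have h3 := IsTotallyReal.nrComplexPlaces_eq_zero (K := K)
    omega
  have hg : ∑ i ∈ range d, mulB_g K σ₀ ^ i = 0 := by
    apply LinearMap.ext
    intro x
    obtain ⟨u, rfl⟩ := mulB_c_surj x
    rw [LinearMap.sum_apply, LinearMap.zero_apply]
    simp only [mulB_gpow]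
    rw [← mulB_c_prod, mulB_c_zero, hbij (fun σ => σ • u)]
    exact mulB_prod u
  have ha : ∀ t : ℕ → ℤ, ∑ i ∈ range d, t i • (mulB_g K σ₀ ^ i) (mulB_c ε) = 0 →
      ∀ i < d, ∀ j < d, t i = t j := by
    intro t ht
    -- the exponent of an automorphism
    have hex : ∀ σ : Gal(K/ℚ), ∃ i, i < d ∧ σ₀ ^ i = σ := by
      intro σ
      have h1 : σ ∈ Subgroup.zpowers σ₀ := hσ₀ σ
      rw [← mem_powers_iff_mem_zpowers, mem_powers_iff_mem_range_orderOf, hord] at h1
      obtain ⟨i, hi, hi'⟩ := Finset.mem_image.1 h1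
      exact ⟨i, mem_range.1 hi, hi'⟩
    choose e he1 he2 using hex
    have he : ∀ i < d, e (σ₀ ^ i) = i := by
      intro i hi
      have h1 := he1 (σ₀ ^ i)
      have h2 := he2 (σ₀ ^ i)
      rw [← hord] at h1 hi
      exact pow_injOn_Iio_orderOf h1 hi h2
    have h1 : (∏ σ : Gal(K/ℚ), (σ • ε) ^ t (e σ)) ∈ Units.torsion K := by
      rw [← hbij (fun σ => (σ • ε) ^ t (e σ)), ← mulB_c_zero, mulB_c_prod]
      rw [← ht]
      refine Finset.sum_congr rfl fun i hi => ?_
      rw [he i (mem_range.1 hi), mulB_c_zpow, mulB_gpow]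
    have h2 := hε (fun σ => t (e σ)) h1
    intro i hi j hj
    have h3 := h2 (σ₀ ^ i) (σ₀ ^ j)
    simp only [he i hi, he j hj] at h3
    exact h3
  have hz : ((ψ σ₀ : kˣ) : k) ^ d = 1 := by
    have : ψ σ₀ ^ d = 1 := by
      rw [← map_pow, ← hord, pow_orderOf_eq_one, map_one]
    have h2 := congrArg Units.val this
    simpa using h2
  have hz1 : ((ψ σ₀ : kˣ) : k) ≠ 1 := by
    intro h
    apply hne
    have h1 : ψ σ₀ = 1 := Units.ext h
    ext σ
    obtain ⟨n, hn⟩ := Subgroup.mem_zpowers_iff.1 (hσ₀ σ)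
    rw [← hn, map_zpow, h1, one_zpow]
    rfl
  have hM0 : M ≠ 0 := by
    rintro rfl
    obtain ⟨u, hu⟩ := hμ0
    exact hu (hM u).symm
  obtain ⟨c, hc⟩ := mulA (mulB_g K σ₀) d hodd hrk hg (mulB_c ε) ha ((ψ σ₀ : kˣ) : k) hz hz1 L M
    (by
      intro x
      obtain ⟨u, rfl⟩ := mulB_c_surj x
      rw [mulB_gc, hL, hL, hl'])
    (by
      intro x
      obtain ⟨u, rfl⟩ := mulB_c_surj x
      rw [mulB_gc, hM, hM, hμ']) hM0
  exact ⟨c, fun u => by rw [← hL, ← hM, hc]⟩

end Pool.Agent.FR2
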