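import Pool.Agent.FR2.CycQ
import Pool.Agent.FR2.MulB
import Pool.Agent.FR2.Dual
import Pool.Agent.FR2.Eta
import Pool.Agent.FR2.EtaS

/-!
# The units

`F` is the cyclotomic field of `cycQ`, `K ≤ F`. The field `K` is totally real since it is Galois with a
real embedding (`eta`). If `u` is not a square then `dual` gives an equivariant `λ` with `λ u = 1`; by `mulB`
it is a multiple of the signature `sgs φ ψ`, which vanishes at the totally positive unit `u`.
-/

open NumberField Pointwise Finset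

namespace Pool.Agent.FR2

private theorem unmChar {k : Type} [Field k] [CharP k 2] (x : kˣ) (h : x * x = 1) : x = 1 := by
  apply Units.ext
  have h2 : (x : k) * (x : k) = 1 := by rw [← Units.val_mul, h, Units.val_one]
  have h3 : ((x : k) - 1) * ((x : k) - 1) = 0 := by
    have h4 : ((2 : ℕ) : k) = 0 := CharP.cast_eq_zero k 2
    push_cast at h4
    linear_combination h2 - h4 * (x : k) + h4
  rw [Units.val_one]
  exact sub_eq_zero.1 (mul_self_eq_zero.1 h3)

private theorem unmOdd {k : Type} [Field k] [CharP k 2] {G : Type} [Group G] [Fintype G]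
    (ψ : G →* kˣ) (hψ : Function.Injective ψ) : Odd (Fintype.card G) := by
  rw [← Nat.not_even_iff_odd]
  intro h
  haveI : Fact (Nat.Prime 2) := ⟨Nat.prime_two⟩
  obtain ⟨x, hx⟩ := exists_prime_orderOf_dvd_card 2 (even_iff_two_dvd.1 h)
  have h1 : x ^ 2 = 1 := by
    rw [← hx]
    exact pow_orderOf_eq_one x
  have h2 : ψ x = 1 := by
    apply unmChar
    rw [← map_mul, ← pow_two, h1, map_one]
  have h3 : x = 1 := hψ (by rw [h2, map_one])
  rw [h3, orderOf_one] at hx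
  exact absurd hx (by norm_num)

private theorem unmReal (K : Type) [Field K] [NumberField K] [IsGalois ℚ K] (φ : K →+* ℝ) :
    IsTotallyReal K := by
  constructor
  intro v
  obtain ⟨σ, hσ⟩ := NumberField.ComplexEmbedding.exists_comp_symm_eq_of_comp_eq (k := ℚ)
    (Complex.ofRealHom.comp φ) v.embedding (RingHom.ext fun q => by simp)
  rw [← InfinitePlace.mk_embedding v, ← hσ]
  refine ⟨_, ?_, rfl⟩
  rw [ComplexEmbedding.isReal_iff]
  ext x
  simp [ComplexEmbedding.conjugate]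

open Pool.Agent.Helper60.FM in
theorem units2A {k : Type} [Field k] [CharP k 2] {f : ℕ} [NeZero f] (hf : 2 < f) (hodd : Odd f)
    (χ : (ZMod f)ˣ →* kˣ) (hχ : χ ≠ 1) (hD : DD χ⁻¹ ≠ 0) (K : IntermediateField ℚ Qb)
    [FiniteDimensional ℚ K] [IsGalois ℚ K] (ψ : Gal(K/ℚ) →* kˣ) (hψ : Function.Injective ψ)
    (hcut : ∀ (g : GQ) (a : (ZMod f)ˣ), AAP.ActsAs f g (a : ZMod f).val → ψ (res K g) = χ a)
    (u : (𝓞 K)ˣ) (hpos : ∀ φ : K →+* ℝ, 0 < φ ((u : 𝓞 K) : K))
    (hrel : ∀ n : Gal(K/ℚ) → ℕ, es ψ n = 0 → ∃ w : (𝓞 K)ˣ, ∏ σ, (σ • u) ^ n σ = w ^ 2) :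
    ∃ w : (𝓞 K)ˣ, u = w ^ 2 := by
  obtain ⟨F, hF1, hF2, hF3, hF⟩ := cycQ f
  have hKF : K ≤ F := cycQ_le f K F hF χ ψ hψ hcut
  letI : Algebra K F := (IntermediateField.inclusion hKF).toRingHom.toAlgebra
  haveI : IsScalarTower K F Qb := IsScalarTower.of_algebraMap_eq fun x => rfl
  have hcomp : ∀ σ : Gal(F/ℚ), ψ (rs (K := K) σ) = χ (AAP.gq f F σ) := by
    intro σ
    obtain ⟨g, hg⟩ := AlgEquiv.restrictNormalHom_surjective (F := ℚ) (K₁ := F) Qb σ
    have h1 := hcut g (AAP.gq f F (res F g)) (hF g)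
    have h2 : res K g = rs (K := K) (res F g) :=
      IsScalarTower.AlgEquiv.restrictNormalHom_comp_apply K F g
    rw [h2] at h1
    have h3 : res F g = σ := hg
    rw [h3] at h1
    exact h1
  obtain ⟨η, φ, hη⟩ := eta (F := F) hf hodd χ ψ hψ hcomp
  haveI : IsTotallyReal K := unmReal K φ
  have hs : sgs φ ψ η = DD χ⁻¹ := etaS hf hodd χ hχ ψ hψ hcomp η φ hη
  have hne : ψ ≠ 1 := by
    intro h
    apply hχ
    ext a
    have h1 := hcomp ((AAP.gq f F).symm a)
    rw [MulEquiv.apply_symm_apply] at h1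
    rw [← h1, h]
    simp
  by_contra hx
  obtain ⟨lam, h1, h2, h3⟩ := dual ψ (unmOdd ψ hψ) u hx hrel
  obtain ⟨c, hc⟩ := mulB K ψ hψ hne lam (sgs φ ψ) h1 h2 (sgs_mul φ ψ) (sgs_smul φ ψ)
    ⟨η, by rw [hs]; exact hD⟩
  have h4 := hc u
  rw [h3, sgs_pos φ ψ u hpos, mul_zero] at h4
  exact one_ne_zero h4

end Pool.Agent.FR2
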