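import Pool.Agent.FR2.Pr

/-!
# A sum over a half system in characteristic two

`R(w) = w / (1 + w)^2`, `z` a primitive `f`-th root of unity in `k`: for a primitive character `χ`
`∑_{2 y < f} χ(y)⁻¹ R(z^y) = χ(4) G D(χ)` with the Gauss sum `G ≠ 0`. The sum is written with
`P(w) = ∑_{4 j < f} w^(4 j)`, for which `P(w) + P(w⁻¹) = 1 + R(w)`.
-/

open NumberField Pointwise Finset

namespace Pool.Agent.FR2

private theorem gasTwo (k : Type) [Field k] [CharP k 2] : (2 : k) = 0 := by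
  have h4 : ((2 : ℕ) : k) = 0 := CharP.cast_eq_zero k 2
  exact_mod_cast h4

private theorem gasNeg {k : Type} [Field k] [CharP k 2] {m : ℕ} (φ : (ZMod m)ˣ →* kˣ)
    (a : (ZMod m)ˣ) : φ (-a) = φ a := by
  have h1 : φ (-1) * φ (-1) = 1 := by rw [← map_mul, neg_one_mul, neg_neg, map_one]
  have h0 : φ (-1) = 1 := by
    apply Units.ext
    have h2 : ((φ (-1) : kˣ) : k) * ((φ (-1) : kˣ) : k) = 1 := by
      rw [← Units.val_mul, h1, Units.val_one]
    have h3 : (((φ (-1) : kˣ) : k) - 1) * (((φ (-1) : kˣ) : k) - 1) = 0 := by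
      linear_combination h2 - gasTwo k * ((φ (-1) : kˣ) : k) + gasTwo k
    rw [Units.val_one]
    exact sub_eq_zero.1 (mul_self_eq_zero.1 h3)
  rw [← neg_one_mul a, map_mul, h0, one_mul]

private theorem gasAdd {k : Type} [Field k] {f : ℕ} [NeZero f] {z : k} (hz : z ^ f = 1)
    (a b : ZMod f) : z ^ (a + b).val = z ^ a.val * z ^ b.val := by
  rw [ZMod.val_add, ← pow_add, ← pow_eq_pow_mod _ hz]

private theorem gasMul {k : Type} [Field k] {f : ℕ} [NeZero f] {z : k} (hz : z ^ f = 1)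
    (a b : ZMod f) : z ^ (a * b).val = z ^ (a.val * b.val) := by
  rw [ZMod.val_mul, ← pow_eq_pow_mod _ hz]

private theorem gasNat {k : Type} [Field k] {f : ℕ} [NeZero f] {z : k} (hz : z ^ f = 1)
    (n : ℕ) (a : ZMod f) : z ^ ((n : ZMod f) * a).val = (z ^ a.val) ^ n := by
  rw [gasMul hz, ZMod.val_natCast, mul_comm, pow_mul]
  have h1 : (z ^ a.val) ^ f = 1 := by rw [← pow_mul, mul_comm, pow_mul, hz, one_pow]
  rw [← pow_eq_pow_mod _ h1]

private theorem gasInv {k : Type} [Field k] {f : ℕ} [NeZero f] {z : k} (hz : z ^ f = 1)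
    (a : ZMod f) : z ^ (-a).val * z ^ a.val = 1 := by
  rw [← gasAdd hz, neg_add_cancel, ZMod.val_zero, pow_zero]

/-- `(1 + w)^3 P(w)` -/
private theorem gasP1 {k : Type} [Field k] [CharP k 2] {f : ℕ} (w : k)
    (hw : w ^ f = 1) (hw1 : w ≠ 1) :
    (f % 4 = 3 → (∑ j ∈ range ((f + 3) / 4), w ^ (4 * j)) * (1 + w) ^ 3 = 1) ∧
    (f % 4 = 1 → (∑ j ∈ range ((f + 3) / 4), w ^ (4 * j)) * (1 + w) ^ 3 = 1 + w + w ^ 2) := by
  have h2 := gasTwo k
  have h0 : (1 : k) + w ≠ 0 := by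
    intro h
    apply hw1
    linear_combination h - h2
  have h1 : (∑ j ∈ range ((f + 3) / 4), w ^ (4 * j)) * (w ^ 4 - 1) =
      w ^ (4 * ((f + 3) / 4)) - 1 := by
    have h3 := geom_sum_mul (w ^ 4) ((f + 3) / 4)
    rw [← pow_mul] at h3
    rw [← h3]
    congr 1
    refine Finset.sum_congr rfl fun j _ => ?_
    rw [pow_mul]
  refine ⟨fun h => ?_, fun h => ?_⟩
  · have h4 : 4 * ((f + 3) / 4) = f + 1 := by omega
    rw [h4, pow_add w f 1, hw, one_mul, pow_one] at h1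
    apply mul_right_cancel₀ h0
    linear_combination h1 + ((∑ j ∈ range ((f + 3) / 4), w ^ (4 * j)) *
      (2 * w + 3 * w ^ 2 + 2 * w ^ 3 + 1) - 1) * h2
  · have h4 : 4 * ((f + 3) / 4) = f + 3 := by omega
    rw [h4, pow_add w f 3, hw, one_mul] at h1
    apply mul_right_cancel₀ h0
    linear_combination h1 + ((∑ j ∈ range ((f + 3) / 4), w ^ (4 * j)) *
      (2 * w + 3 * w ^ 2 + 2 * w ^ 3 + 1) - 1 - w - w ^ 2) * h2

private theorem gasP {k : Type} [Field k] [CharP k 2] {f : ℕ} (hodd : Odd f) (w v : k)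
    (hw : w ^ f = 1) (hw1 : w ≠ 1) (hv : v * w = 1) :
    w / (1 + w) ^ 2 = 1 + ((∑ j ∈ range ((f + 3) / 4), w ^ (4 * j)) +
      ∑ j ∈ range ((f + 3) / 4), v ^ (4 * j)) := by
  have h2 := gasTwo k
  have h0 : (1 : k) + w ≠ 0 := by
    intro h
    apply hw1
    linear_combination h - h2
  have hv1 : v ≠ 1 := by
    intro h
    rw [h, one_mul] at hv
    exact hw1 hv
  have hvf : v ^ f = 1 := by
    have h3 : (v * w) ^ f = 1 := by rw [hv, one_pow]
    rwa [mul_pow, hw, mul_one] at h3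
  obtain ⟨ha, hb⟩ := gasP1 w hw hw1
  obtain ⟨hc, hd⟩ := gasP1 v hvf hv1
  obtain ⟨A, hA⟩ : ∃ A, A = ∑ j ∈ range ((f + 3) / 4), w ^ (4 * j) := ⟨_, rfl⟩
  obtain ⟨B, hB⟩ : ∃ B, B = ∑ j ∈ range ((f + 3) / 4), v ^ (4 * j) := ⟨_, rfl⟩
  rw [← hA] at ha hb ⊢
  rw [← hB] at hc hd ⊢
  have h5 : (1 + v) * w = 1 + w := by linear_combination hv
  have h6 : ((1 + v) * w) ^ 3 = (1 + w) ^ 3 := by rw [h5]
  have key : (A + B) * (1 + w) ^ 2 = 1 + w + w ^ 2 := by
    apply mul_right_cancel₀ h0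
    obtain ⟨r, hr⟩ := hodd
    rcases (show f % 4 = 3 ∨ f % 4 = 1 by omega) with h | h
    · have e1 := ha h
      have e2 := hc h
      have e3 : B * (1 + w) ^ 3 = w ^ 3 := by
        rw [← h6, mul_pow, ← mul_assoc, e2, one_mul]
      linear_combination e1 + e3 - (w + w ^ 2) * h2
    · have e1 := hb h
      have e2 := hd h
      have e3 : B * (1 + w) ^ 3 = w + w ^ 2 + w ^ 3 := by
        rw [← h6, mul_pow, ← mul_assoc, e2]
        linear_combination (w ^ 2 + (v * w + 1) * w) * hv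
      linear_combination e1 + e3
  rw [div_eq_iff (pow_ne_zero 2 h0)]
  linear_combination -key - (1 + w + w ^ 2) * h2

/-- the sum `∑ χ(y)⁻¹ z^(n y)` -/
private noncomputable def gasT {k : Type} [Field k] {f : ℕ} [NeZero f] (χ : (ZMod f)ˣ →* kˣ)
    (z : k) (n : ZMod f) : k :=
  ∑ y : (ZMod f)ˣ, (((χ y)⁻¹ : kˣ) : k) * z ^ (n * (y : ZMod f)).val

private theorem gasT_mul {k : Type} [Field k] {f : ℕ} [NeZero f] (χ : (ZMod f)ˣ →* kˣ)
    (z : k) (n : ZMod f) (u : (ZMod f)ˣ) :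
    gasT χ z (n * u) = (χ u : k) * gasT χ z n := by
  unfold gasT
  rw [Finset.mul_sum, ← Equiv.sum_comp (Equiv.mulLeft u) (fun y : (ZMod f)ˣ =>
    ((χ u : kˣ) : k) * ((((χ y)⁻¹ : kˣ) : k) * z ^ (n * (y : ZMod f)).val))]
  refine Finset.sum_congr rfl fun y _ => ?_
  rw [Equiv.coe_mulLeft, map_mul, mul_inv, Units.val_mul, Units.val_mul, ← mul_assoc n,
    ← mul_assoc, ← mul_assoc, Units.mul_inv, one_mul]

private theorem gasFix {f l : ℕ} [NeZero f] (hlf : l ∣ f) {y : ZMod f} (hy : l ∣ y.val)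
    {u : (ZMod f)ˣ} (hu : FRD.OneMod (f / l) u) : y * (u : ZMod f) = y := by
  obtain ⟨a, ha⟩ := hu
  obtain ⟨b, hb⟩ := hy
  have h1 : (f : ℤ) ∣ (((u : ZMod f).val : ℤ) - 1) * (y.val : ℤ) := by
    refine ⟨a * b, ?_⟩
    have h2 : ((f / l : ℕ) : ℤ) * (l : ℤ) = (f : ℤ) := by
      exact_mod_cast Nat.div_mul_cancel hlf
    rw [ha, hb, ← h2]
    push_cast
    ring
  have h2 := (ZMod.intCast_zmod_eq_zero_iff_dvd _ f).2 h1
  push_cast at h2
  rw [ZMod.natCast_zmod_val, ZMod.natCast_zmod_val, sub_mul, one_mul, sub_eq_zero] at h2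
  rw [mul_comm]
  exact h2

private theorem gasT_non {k : Type} [Field k] {f : ℕ} [NeZero f] (χ : (ZMod f)ˣ →* kˣ)
    (hprim : FRD.Prim χ) (z : k) (n : ZMod f) (hn : ¬ IsUnit n) : gasT χ z n = 0 := by
  have h1 : ¬ Nat.Coprime n.val f := by
    intro h2
    apply hn
    have h3 := (ZMod.isUnit_iff_coprime n.val f).2 h2
    rwa [ZMod.natCast_zmod_val] at h3
  obtain ⟨l, hl, hly, hlf⟩ := Nat.Prime.not_coprime_iff_dvd.1 h1
  obtain ⟨u, hu, hu1⟩ := hprim l hl hlf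
  have h2 := gasT_mul χ z n u
  rw [gasFix hlf hly hu] at h2
  have h4 : ((χ u : k) - 1) * gasT χ z n = 0 := by rw [sub_mul, one_mul, ← h2, sub_self]
  rcases mul_eq_zero.1 h4 with h5 | h5
  · exact absurd (Units.ext (sub_eq_zero.1 h5)) hu1
  · exact h5

private theorem gasSum {k : Type} [Field k] {f : ℕ} [NeZero f] {z : k} (hz : IsPrimitiveRoot z f)
    (a : ZMod f) (ha : a ≠ 0) : ∑ n : ZMod f, z ^ (n * a).val = 0 := by
  have hz1 := hz.pow_eq_one
  have h1 : ∑ n : ZMod f, z ^ (n * a).val = (∑ n : ZMod f, z ^ (n * a).val) * z ^ a.val := by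
    rw [Finset.sum_mul]
    conv_lhs => rw [← Equiv.sum_comp (Equiv.addRight (1 : ZMod f))]
    refine Finset.sum_congr rfl fun n _ => ?_
    rw [Equiv.coe_addRight, add_mul, one_mul, gasAdd hz1]
  have h2 : z ^ a.val ≠ 1 := by
    intro h
    have h3 := hz.dvd_of_pow_eq_one _ h
    have h4 : a.val ≠ 0 := (ZMod.val_ne_zero a).2 ha
    have h5 := Nat.le_of_dvd (Nat.pos_of_ne_zero h4) h3
    have h6 := ZMod.val_lt a
    omega
  have h3 : (∑ n : ZMod f, z ^ (n * a).val) * (1 - z ^ a.val) = 0 := by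
    rw [mul_sub, mul_one, ← h1, sub_self]
  rcases mul_eq_zero.1 h3 with h4 | h4
  · exact h4
  · exact absurd (sub_eq_zero.1 h4).symm h2

private theorem gasG {k : Type} [Field k] [CharP k 2] {f : ℕ} [NeZero f] (hodd : Odd f)
    (χ : (ZMod f)ˣ →* kˣ) (hprim : FRD.Prim χ) (z : k) (hz : IsPrimitiveRoot z f) :
    gasT χ z 1 ≠ 0 := by
  classical
  intro h
  have hz1 := hz.pow_eq_one
  have hall : ∀ n : ZMod f, gasT χ z n = 0 := by
    intro n
    by_cases hn : IsUnit n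
    · obtain ⟨u, rfl⟩ := hn
      have h1 := gasT_mul χ z 1 u
      rw [one_mul, h, mul_zero] at h1
      exact h1
    · exact gasT_non χ hprim z n hn
  have h2 : ∑ n : ZMod f, gasT χ z n * z ^ (n * (-1 : ZMod f)).val = 0 :=
    Finset.sum_eq_zero fun n _ => by rw [hall, zero_mul]
  have h3 : ∑ n : ZMod f, gasT χ z n * z ^ (n * (-1 : ZMod f)).val =
      ∑ y : (ZMod f)ˣ, (((χ y)⁻¹ : kˣ) : k) *
        ∑ n : ZMod f, z ^ (n * ((y : ZMod f) + (-1))).val := by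
    unfold gasT
    simp_rw [Finset.sum_mul, Finset.mul_sum]
    rw [Finset.sum_comm]
    refine Finset.sum_congr rfl fun y _ => Finset.sum_congr rfl fun n _ => ?_
    rw [mul_add, gasAdd hz1, mul_assoc]
  rw [h3, Finset.sum_eq_single (1 : (ZMod f)ˣ)] at h2
  · rw [map_one, inv_one, Units.val_one, one_mul, Units.val_one, add_neg_cancel] at h2
    simp only [mul_zero, ZMod.val_zero, pow_zero, Finset.sum_const, Finset.card_univ,
      ZMod.card, nsmul_eq_mul, mul_one] at h2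
    obtain ⟨r, hr⟩ := hodd
    rw [hr] at h2
    push_cast at h2
    rw [gasTwo k, zero_mul, zero_add] at h2
    exact one_ne_zero h2
  · intro y _ hy
    rw [gasSum hz, mul_zero]
    intro h4
    apply hy
    apply Units.ext
    rw [Units.val_one]
    linear_combination h4
  · intro h4
    exact absurd (Finset.mem_univ _) h4

/-- the sum over the multiples of four -/
private theorem gasD {k : Type} [Field k] {f : ℕ} [NeZero f] (hodd : Odd f)
    (χ : (ZMod f)ˣ →* kˣ) (hprim : FRD.Prim χ) (z : k) :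
    ∃ c : kˣ, ∑ j ∈ range ((f + 3) / 4), gasT χ z ((4 * j : ℕ) : ZMod f) =
      (c : k) * (gasT χ z 1 * DD χ) := by
  have hu : IsUnit ((4 : ℕ) : ZMod f) := by
    rw [ZMod.isUnit_iff_coprime]
    obtain ⟨r, hr⟩ := hodd
    have h1 : Nat.Coprime 2 f := by
      rw [Nat.coprime_two_left]
      exact ⟨r, hr⟩
    exact Nat.Coprime.mul_left h1 h1
  obtain ⟨u, hu⟩ := hu
  refine ⟨χ u, ?_⟩
  have h1 : ∑ j ∈ range ((f + 3) / 4), gasT χ z ((4 * j : ℕ) : ZMod f) =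
      ∑ r : ZMod f, gasT χ z (r * u) * (if 4 * r.val < f then 1 else 0) := by
    simp_rw [mul_ite, mul_one, mul_zero]
    rw [← Finset.sum_filter]
    refine Finset.sum_nbij' (fun j => (j : ZMod f)) (fun r => r.val) ?_ ?_ ?_ ?_ ?_
    · intro j hj
      rw [Finset.mem_range] at hj
      rw [Finset.mem_filter]
      refine ⟨Finset.mem_univ _, ?_⟩
      rw [ZMod.val_natCast, Nat.mod_eq_of_lt (by omega)]
      omega
    · intro r hr
      rw [Finset.mem_filter] at hr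
      rw [Finset.mem_range]
      have := hr.2
      omega
    · intro j hj
      rw [Finset.mem_range] at hj
      show ((j : ZMod f)).val = j
      rw [ZMod.val_natCast, Nat.mod_eq_of_lt (by omega)]
    · intro r _
      exact ZMod.natCast_zmod_val r
    · intro j _
      rw [hu, ← Nat.cast_mul, mul_comm 4 j]
  rw [h1]
  have h2 : ∑ r : (ZMod f)ˣ, gasT χ z ((r : ZMod f) * u) *
      (if 4 * (r : ZMod f).val < f then 1 else 0) =
      ∑ r : ZMod f, gasT χ z (r * u) * (if 4 * r.val < f then 1 else 0) := by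
    refine Fintype.sum_of_injective (fun r : (ZMod f)ˣ => (r : ZMod f)) Units.val_injective _ _
      (fun r hr => ?_) (fun r => rfl)
    rw [gasT_mul, gasT_non χ hprim z r, mul_zero, zero_mul]
    rintro ⟨v, hv⟩
    exact hr ⟨v, hv⟩
  rw [← h2]
  unfold DD
  rw [Finset.mul_sum, Finset.mul_sum]
  refine Finset.sum_congr rfl fun r _ => ?_
  have h3 := gasT_mul χ z 1 r
  rw [one_mul] at h3
  rw [gasT_mul, h3]
  ring

theorem gauS {k : Type} [Field k] [CharP k 2] {f : ℕ} [NeZero f] (hf : 2 < f) (hodd : Odd f)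
    (χ : (ZMod f)ˣ →* kˣ) (hχ : χ ≠ 1) (hprim : FRD.Prim χ) (z : k) (hz : IsPrimitiveRoot z f)
    (hD : DD χ ≠ 0) :
    ∑ y : (ZMod f)ˣ, (((χ y)⁻¹ : kˣ) : k) *
      ((1 + ep y) * (z ^ (y : ZMod f).val / (1 + z ^ (y : ZMod f).val) ^ 2)) ≠ 0 := by
  have hz1 := hz.pow_eq_one
  have h2 := gasTwo k
  have hχ' : χ⁻¹ ≠ 1 := fun h => hχ (MonoidHom.ext fun a => by
    have h5 := DFunLike.congr_fun h a
    rw [MonoidHom.inv_apply, MonoidHom.one_apply] at h5
    rw [MonoidHom.one_apply]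
    exact inv_eq_one.1 h5)
  have hfact : Fact (1 < f) := ⟨by omega⟩
  obtain ⟨P, hP⟩ : ∃ P : (ZMod f)ˣ → k, ∀ y, P y =
      ∑ j ∈ range ((f + 3) / 4), (z ^ (y : ZMod f).val) ^ (4 * j) := ⟨_, fun _ => rfl⟩
  have hR : ∀ y : (ZMod f)ˣ, z ^ (y : ZMod f).val / (1 + z ^ (y : ZMod f).val) ^ 2 =
      1 + (P y + P (-y)) := by
    intro y
    rw [hP, hP]
    refine gasP hodd _ _ ?_ ?_ ?_
    · rw [← pow_mul, mul_comm, pow_mul, hz1, one_pow]
    · intro h
      have h3 := hz.dvd_of_pow_eq_one _ h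
      have h4 : (y : ZMod f).val ≠ 0 := (ZMod.val_ne_zero _).2 y.ne_zero
      have h5 := Nat.le_of_dvd (Nat.pos_of_ne_zero h4) h3
      have h6 := ZMod.val_lt (y : ZMod f)
      omega
    · rw [Units.val_neg]
      exact gasInv hz1 _
  have e1 : ∑ y : (ZMod f)ˣ, (((χ y)⁻¹ : kˣ) : k) * (1 + ep y) = 0 := by
    have h3 := sum_odd hf χ⁻¹ hχ' (fun y => 1 + ep y) (fun a => by
      rw [ep_neg hf hodd])
    exact h3
  have e2 : ∑ y : (ZMod f)ˣ, (((χ y)⁻¹ : kˣ) : k) * ((1 + ep y) * P (-y)) =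
      ∑ y : (ZMod f)ˣ, (((χ y)⁻¹ : kˣ) : k) * (ep y * P y) := by
    rw [← Equiv.sum_comp (Equiv.neg (ZMod f)ˣ)]
    refine Finset.sum_congr rfl fun y _ => ?_
    rw [Equiv.neg_apply, gasNeg, neg_neg, ep_neg hf hodd]
    linear_combination (((χ y)⁻¹ : kˣ) : k) * P y * h2
  have e3 : ∑ y : (ZMod f)ˣ, (((χ y)⁻¹ : kˣ) : k) *
      ((1 + ep y) * (z ^ (y : ZMod f).val / (1 + z ^ (y : ZMod f).val) ^ 2)) =
      ∑ y : (ZMod f)ˣ, (((χ y)⁻¹ : kˣ) : k) * P y := by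
    have e4 : ∑ y : (ZMod f)ˣ, (((χ y)⁻¹ : kˣ) : k) *
        ((1 + ep y) * (z ^ (y : ZMod f).val / (1 + z ^ (y : ZMod f).val) ^ 2)) =
        ∑ y : (ZMod f)ˣ, (((χ y)⁻¹ : kˣ) : k) * (1 + ep y) +
        ∑ y : (ZMod f)ˣ, (((χ y)⁻¹ : kˣ) : k) * ((1 + ep y) * P y) +
        ∑ y : (ZMod f)ˣ, (((χ y)⁻¹ : kˣ) : k) * ((1 + ep y) * P (-y)) := by
      rw [← Finset.sum_add_distrib, ← Finset.sum_add_distrib]
      refine Finset.sum_congr rfl fun y _ => ?_
      rw [hR]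
      ring
    rw [e4, e1, e2, zero_add, ← Finset.sum_add_distrib]
    refine Finset.sum_congr rfl fun y _ => ?_
    linear_combination (((χ y)⁻¹ : kˣ) : k) * ep y * P y * h2
  have e5 : ∑ y : (ZMod f)ˣ, (((χ y)⁻¹ : kˣ) : k) * P y =
      ∑ j ∈ range ((f + 3) / 4), gasT χ z ((4 * j : ℕ) : ZMod f) := by
    unfold gasT
    simp_rw [hP, Finset.mul_sum]
    rw [Finset.sum_comm]
    refine Finset.sum_congr rfl fun j _ => Finset.sum_congr rfl fun y _ => ?_
    rw [gasNat hz1]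
  obtain ⟨c, hc⟩ := gasD hodd χ hprim z
  rw [e3, e5, hc]
  exact mul_ne_zero c.ne_zero (mul_ne_zero (gasG hodd χ hprim z hz) hD)

end Pool.Agent.FR2
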