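import Pool.Agent.FR2.Pr

/-!
# Two systems of representatives modulo `±1`

`g` even on `(Z/f)^*`, `f` odd, in characteristic two. Every `y` is `a * b ρ` for exactly one `ρ`
and one `a` with `χ a = 1`. The sum of `g (a * b ρ)` over the `ρ` and the `a` in `hset χ` is the
sum of `g` over the half system `2 y < f`, since the two half systems differ by an even function
and even functions have sum zero.
-/

open NumberField Pointwise Finset

namespace Pool.Agent.FR2

private theorem hsTwo (k : Type) [Field k] [CharP k 2] : (2 : k) = 0 := by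
  have h4 : ((2 : ℕ) : k) = 0 := CharP.cast_eq_zero k 2
  exact_mod_cast h4

private theorem hsNeg {k : Type} [Field k] [CharP k 2] {m : ℕ} (φ : (ZMod m)ˣ →* kˣ)
    (a : (ZMod m)ˣ) : φ (-a) = φ a := by
  have h1 : φ (-1) * φ (-1) = 1 := by rw [← map_mul, neg_one_mul, neg_neg, map_one]
  have h0 : φ (-1) = 1 := by
    apply Units.ext
    have h2 : ((φ (-1) : kˣ) : k) * ((φ (-1) : kˣ) : k) = 1 := by
      rw [← Units.val_mul, h1, Units.val_one]
    have h3 : (((φ (-1) : kˣ) : k) - 1) * (((φ (-1) : kˣ) : k) - 1) = 0 := by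
      linear_combination h2 - hsTwo k * ((φ (-1) : kˣ) : k) + hsTwo k
    rw [Units.val_one]
    exact sub_eq_zero.1 (mul_self_eq_zero.1 h3)
  rw [← neg_one_mul a, map_mul, h0, one_mul]

private theorem hsInner {k : Type} [Field k] [CharP k 2] {f : ℕ} [NeZero f]
    (hodd : Odd f) (χ : (ZMod f)ˣ →* kˣ) {G : Type} [Group G] [DecidableEq G] (ψ : G →* kˣ)
    (b : G → (ZMod f)ˣ) (hb : ∀ ρ, χ (b ρ) = ψ ρ) (r : (ZMod f)ˣ → G)
    (hr : ∀ y, χ y = ψ (r y)) (hrb : ∀ ρ a, χ a = 1 → r (a * b ρ) = ρ)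
    (g : (ZMod f)ˣ → k) (ρ : G) :
    ∑ a ∈ hset χ, g (a * b ρ) =
      ∑ y with r y = ρ, (1 + ep (y * (b (r y))⁻¹)) * g y := by
  have h1 : ∀ y ∈ Finset.univ.filter (fun y => r y = ρ),
      (1 + ep (y * (b (r y))⁻¹)) * g y =
        if 2 * ((y * (b ρ)⁻¹ : (ZMod f)ˣ) : ZMod f).val < f then g y else 0 := by
    intro y hy
    rw [(Finset.mem_filter.1 hy).2]
    obtain ⟨s, hs⟩ := hodd
    unfold ep
    by_cases h : 2 * ((y * (b ρ)⁻¹ : (ZMod f)ˣ) : ZMod f).val < f
    · rw [if_pos h, if_neg (by omega), add_zero, one_mul]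
    · rw [if_neg h, if_pos (by omega)]
      linear_combination g y * hsTwo k
  rw [Finset.sum_congr rfl h1, ← Finset.sum_filter]
  refine Finset.sum_nbij' (fun a => a * b ρ) (fun y => y * (b ρ)⁻¹) ?_ ?_ ?_ ?_ ?_
  · intro a ha
    rw [mem_hset] at ha
    simp only [Finset.mem_filter, Finset.mem_univ, true_and]
    refine ⟨hrb ρ a ha.1, ?_⟩
    rw [mul_inv_cancel_right]
    exact ha.2
  · intro y hy
    simp only [Finset.mem_filter, Finset.mem_univ, true_and] at hy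
    rw [mem_hset]
    refine ⟨?_, hy.2⟩
    rw [map_mul, map_inv, hb, hr, hy.1, mul_inv_cancel]
  · intro a _
    exact mul_inv_cancel_right a (b ρ)
  · intro y _
    exact inv_mul_cancel_right y (b ρ)
  · intro a _
    rfl

theorem hsum {k : Type} [Field k] [CharP k 2] {f : ℕ} [NeZero f] (hf : 2 < f) (hodd : Odd f)
    (χ : (ZMod f)ˣ →* kˣ) {G : Type} [Group G] [Fintype G] (ψ : G →* kˣ)
    (hψ : Function.Injective ψ) (b : G → (ZMod f)ˣ) (hb : ∀ ρ, χ (b ρ) = ψ ρ)
    (hsurj : ∀ y, ∃ ρ, χ y = ψ ρ) (g : (ZMod f)ˣ → k) (hg : ∀ y, g (-y) = g y) :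
    ∑ ρ, ∑ a ∈ hset χ, g (a * b ρ) = ∑ y, (1 + ep y) * g y := by
  classical
  choose r hr using hsurj
  have hrb : ∀ ρ a, χ a = 1 → r (a * b ρ) = ρ := fun ρ a ha => hψ (by
    rw [← hr, map_mul, ha, one_mul, hb])
  have hrneg : ∀ y, r (-y) = r y := fun y => hψ (by rw [← hr, ← hr, hsNeg])
  have hL : ∑ ρ, ∑ a ∈ hset χ, g (a * b ρ) = ∑ y, (1 + ep (y * (b (r y))⁻¹)) * g y := by
    rw [← Finset.sum_fiberwise (s := Finset.univ) r
      (fun y => (1 + ep (y * (b (r y))⁻¹)) * g y)]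
    exact Finset.sum_congr rfl fun ρ _ => hsInner hodd χ ψ b hb r hr hrb g ρ
  rw [hL]
  have h0 := sum_even hf (1 : (ZMod f)ˣ →* kˣ)
    (fun y => (ep (y * (b (r y))⁻¹) + ep y) * g y) (fun y => by
      rw [hrneg, hg, neg_mul, ep_neg hf hodd, ep_neg hf hodd]
      linear_combination g y * hsTwo k)
  simp only [MonoidHom.one_apply, Units.val_one, one_mul] at h0
  have h2 : ∑ y, (1 + ep (y * (b (r y))⁻¹)) * g y =
      ∑ y, (ep (y * (b (r y))⁻¹) + ep y) * g y + ∑ y, (1 + ep y) * g y := by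
    rw [← Finset.sum_add_distrib]
    refine Finset.sum_congr rfl fun y _ => ?_
    linear_combination (-(ep y * g y)) * hsTwo k
  rw [h2, h0, zero_add]

end Pool.Agent.FR2
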