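import Pool.Agent.FR2.LocF
import Pool.Agent.FR2.HSum

/-!
# FR2-LocL: the local functional at two on the units of `K`
-/

open NumberField Pointwise Finset

namespace Pool.Agent.FR2

private theorem locL_R {k : Type} [Field k] (w : k) :
    w⁻¹ / (1 + w⁻¹) ^ 2 = w / (1 + w) ^ 2 := by
  by_cases hw : w = 0
  · simp [hw]
  by_cases h1 : 1 + w = 0
  · have h2 : 1 + w⁻¹ = 0 := by
      have : 1 + w⁻¹ = (1 + w) * w⁻¹ := by field_simp; ring
      rw [this, h1, zero_mul]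
    rw [h1, h2]
    simp
  · have h2 : 1 + w⁻¹ = (1 + w) * w⁻¹ := by field_simp; ring
    rw [h2]
    field_simp

private theorem locL_neg {k : Type} [Field k] {f : ℕ} [NeZero f] (hf : 2 < f) (z : k)
    (hz : z ^ f = 1) (y : (ZMod f)ˣ) :
    z ^ ((-y : (ZMod f)ˣ) : ZMod f).val = (z ^ (y : ZMod f).val)⁻¹ := by
  have : Fact (1 < f) := ⟨by omega⟩
  have h0 : (y : ZMod f) ≠ 0 := y.ne_zero
  have h1 : ((-y : (ZMod f)ˣ) : ZMod f).val = f - (y : ZMod f).val := by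
    rw [Units.val_neg, ZMod.neg_val, if_neg h0]
  have h2 : (y : ZMod f).val < f := ZMod.val_lt _
  rw [h1]
  apply eq_inv_of_mul_eq_one_left
  rw [← pow_add, Nat.sub_add_cancel h2.le, hz]

private theorem locL_chi {k : Type} [Field k] [CharP k 2] {f : ℕ} (χ : (ZMod f)ˣ →* kˣ) :
    χ (-1) = 1 := by
  have h1 : (χ (-1)) ^ 2 = 1 := by rw [← map_pow, neg_one_sq, map_one]
  have h2 : ((χ (-1) : kˣ) : k) ^ 2 = 1 := by
    have := congrArg (fun t : kˣ => (t : k)) h1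
    simpa using this
  have h3 : (((χ (-1) : kˣ) : k) + 1) ^ 2 = 0 := by
    rw [CharTwo.add_sq, h2, one_pow, CharTwo.add_self_eq_zero]
  have h4 : ((χ (-1) : kˣ) : k) + 1 = 0 := by
    exact pow_eq_zero_iff two_ne_zero |>.1 h3
  apply Units.ext
  rw [Units.val_one]
  exact CharTwo.add_eq_zero.1 h4

theorem locL {k : Type} [Field k] [CharP k 2] {f : ℕ} [NeZero f] (hf : 2 < f) (hodd : Odd f)
    (χ : (ZMod f)ˣ →* kˣ) {K F : Type} [Field K] [NumberField K] [IsGalois ℚ K] [Field F]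
    [NumberField F] [IsCyclotomicExtension {f} ℚ F] [Algebra K F] (ψ : Gal(K/ℚ) →* kˣ)
    (hψ : Function.Injective ψ)
    (hcomp : ∀ σ : Gal(F/ℚ), ψ (rs (K := K) σ) = χ (AAP.gq f F σ)) (θ : 𝓞 F →+* k)
    (η : (𝓞 K)ˣ)
    (hη : ∀ b : (ZMod f)ˣ, algebraMap K F
        (((rs (K := K) ((AAP.gq f F).symm b) • η : (𝓞 K)ˣ) : 𝓞 K) : K) =
        ∏ a ∈ hset χ, (AAP.zt f F ^ ((a * b : (ZMod f)ˣ) : ZMod f).val +
          (AAP.zt f F ^ ((a * b : (ZMod f)ˣ) : ZMod f).val)⁻¹)) :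
    ∃ lam : (𝓞 K)ˣ → k, (∀ u v, lam (u * v) = lam u + lam v) ∧
      (∀ (σ : Gal(K/ℚ)) (u : (𝓞 K)ˣ), lam (σ • u) = ψ σ * lam u) ∧
      (∀ u : (𝓞 K)ˣ, (∃ N : ℕ, Odd N ∧ (4 : 𝓞 K) ∣ (u : 𝓞 K) ^ N - 1) → lam u = 0) ∧
      IsPrimitiveRoot (θ (AAP.zt_spec f F).toInteger) f ∧
      lam η = ∑ y : (ZMod f)ˣ, (((χ y)⁻¹ : kˣ) : k) * ((1 + ep y) *
        (θ (AAP.zt_spec f F).toInteger ^ (y : ZMod f).val /
          (1 + θ (AAP.zt_spec f F).toInteger ^ (y : ZMod f).val) ^ 2)) := by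
  classical
  have : IsGalois ℚ F := IsCyclotomicExtension.isGalois {f} ℚ F
  obtain ⟨dF, hadd, h4, hprim, hval⟩ := locF (k := k) f hf hodd F θ
  refine ⟨fun u => ∑ ρ : Gal(K/ℚ), (((ψ ρ)⁻¹ : kˣ) : k) *
    dF (Units.map (algebraMap (𝓞 K) (𝓞 F) : 𝓞 K →* 𝓞 F) (ρ • u)), ?_, ?_, ?_, hprim, ?_⟩
  · intro u v
    rw [← Finset.sum_add_distrib]
    refine Finset.sum_congr rfl fun ρ _ => ?_
    rw [smul_mul', map_mul, hadd, mul_add]
  · intro σ u
    rw [Finset.mul_sum]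
    refine Fintype.sum_equiv (Equiv.mulRight σ) _ _ fun ρ => ?_
    rw [Equiv.coe_mulRight, smul_smul, map_mul, mul_inv, Units.val_mul, ← mul_assoc]
    congr 1
    rw [mul_comm (((ψ ρ)⁻¹ : kˣ) : k), ← mul_assoc, Units.mul_inv, one_mul]
  · rintro u ⟨N, hN, c, hc⟩
    refine Finset.sum_eq_zero fun ρ _ => ?_
    rw [h4 _ ⟨N, hN, algebraMap (𝓞 K) (𝓞 F) (ρ • c), ?_⟩, mul_zero]
    have h1 : ρ • ((u : 𝓞 K) ^ N - 1) = 4 * (ρ • c) := by
      rw [hc, smul_mul']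
      congr 1
      exact map_ofNat (MulSemiringAction.toRingHom Gal(K/ℚ) (𝓞 K) ρ) 4
    have h2 : ρ • ((u : 𝓞 K) ^ N - 1) = (ρ • (u : 𝓞 K)) ^ N - 1 := by
      rw [smul_sub, smul_pow', smul_one]
    have h3 := congrArg (algebraMap (𝓞 K) (𝓞 F)) (h2.symm.trans h1)
    rw [map_sub, map_one, map_pow, map_mul, map_ofNat] at h3
    exact h3
  · have hone : dF 1 = 0 := by
      have h := hadd 1 1
      rw [mul_one] at h
      simpa using h
    have hprod : ∀ (s : Finset (ZMod f)ˣ) (x : (ZMod f)ˣ → (𝓞 F)ˣ),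
        dF (∏ a ∈ s, x a) = ∑ a ∈ s, dF (x a) := by
      intro s x
      induction s using Finset.induction_on with
      | empty => simpa using hone
      | insert a s ha ih => rw [Finset.prod_insert ha, Finset.sum_insert ha, hadd, ih]
    choose s hs using fun ρ : Gal(K/ℚ) =>
      AlgEquiv.restrictNormalHom_surjective (F := ℚ) (K₁ := K) F ρ
    have hs' : ∀ ρ, rs (K := K) (s ρ) = ρ := hs
    let b : Gal(K/ℚ) → (ZMod f)ˣ := fun ρ => AAP.gq f F (s ρ)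
    have hb : ∀ ρ, χ (b ρ) = ψ ρ := fun ρ => by
      change χ (AAP.gq f F (s ρ)) = ψ ρ
      rw [← hcomp, hs']
    have hsurj : ∀ y, ∃ ρ, χ y = ψ ρ := fun y =>
      ⟨rs (K := K) ((AAP.gq f F).symm y), by rw [hcomp, MulEquiv.apply_symm_apply]⟩
    have hzt : AAP.zt f F ^ f = 1 := (AAP.zt_spec f F).pow_eq_one
    let X : (ZMod f)ˣ → 𝓞 F := fun c => (AAP.zt_spec f F).toInteger ^ (c : ZMod f).val +
      (AAP.zt_spec f F).toInteger ^ (f - (c : ZMod f).val)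
    have hX : ∀ c, ((X c : 𝓞 F) : F) = AAP.zt f F ^ (c : ZMod f).val +
        (AAP.zt f F ^ (c : ZMod f).val)⁻¹ := by
      intro c
      change algebraMap (𝓞 F) F (_ + _) = _
      rw [map_add, map_pow, map_pow]
      have h1 : algebraMap (𝓞 F) F (AAP.zt_spec f F).toInteger = AAP.zt f F := rfl
      rw [h1]
      congr 1
      apply eq_inv_of_mul_eq_one_left
      rw [← pow_add, Nat.sub_add_cancel (ZMod.val_lt _).le, hzt]
    let U : (ZMod f)ˣ → (𝓞 F)ˣ := fun c => if h : IsUnit (X c) then h.unit else 1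
    have himg : ∀ ρ : Gal(K/ℚ), algebraMap (𝓞 K) (𝓞 F) (((ρ • η : (𝓞 K)ˣ)) : 𝓞 K) =
        ∏ a ∈ hset χ, X (a * b ρ) := by
      intro ρ
      apply RingOfIntegers.ext
      have h1 := hη (b ρ)
      have h2 : (AAP.gq f F).symm (b ρ) = s ρ := MulEquiv.symm_apply_apply _ _
      rw [h2, hs'] at h1
      change algebraMap K F _ = algebraMap (𝓞 F) F _
      rw [h1, map_prod]
      refine Finset.prod_congr rfl fun a _ => ?_
      exact (hX (a * b ρ)).symm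
    have hunit : ∀ ρ : Gal(K/ℚ), ∀ a ∈ hset χ, IsUnit (X (a * b ρ)) := by
      intro ρ a ha
      have h1 : IsUnit (∏ a ∈ hset χ, X (a * b ρ)) := by
        rw [← himg]
        exact (ρ • η).isUnit.map (algebraMap (𝓞 K) (𝓞 F))
      exact isUnit_of_dvd_unit (Finset.dvd_prod_of_mem (fun a => X (a * b ρ)) ha) h1
    have hU : ∀ ρ : Gal(K/ℚ), ∀ a ∈ hset χ, ((U (a * b ρ) : (𝓞 F)ˣ) : 𝓞 F) = X (a * b ρ) := by
      intro ρ a ha
      have h1 : U (a * b ρ) = (hunit ρ a ha).unit := dif_pos (hunit ρ a ha)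
      rw [h1, IsUnit.unit_spec]
    have hmap : ∀ ρ : Gal(K/ℚ),
        Units.map (algebraMap (𝓞 K) (𝓞 F) : 𝓞 K →* 𝓞 F) (ρ • η) =
        ∏ a ∈ hset χ, U (a * b ρ) := by
      intro ρ
      apply Units.ext
      rw [Units.coe_prod]
      change algebraMap (𝓞 K) (𝓞 F) (((ρ • η : (𝓞 K)ˣ)) : 𝓞 K) = _
      rw [himg]
      exact Finset.prod_congr rfl fun a ha => (hU ρ a ha).symm
    obtain ⟨z, hz⟩ : ∃ z : k, z = θ (AAP.zt_spec f F).toInteger := ⟨_, rfl⟩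
    have hz1 : z ^ f = 1 := by rw [hz]; exact hprim.pow_eq_one
    have hdU : ∀ ρ : Gal(K/ℚ), ∀ a ∈ hset χ, dF (U (a * b ρ)) =
        z ^ ((a * b ρ : (ZMod f)ˣ) : ZMod f).val /
          (1 + z ^ ((a * b ρ : (ZMod f)ˣ) : ZMod f).val) ^ 2 := by
      intro ρ a ha
      rw [hz]
      apply hval
      rw [hU ρ a ha, hX]
    have hmain := hsum hf hodd χ ψ hψ b hb hsurj
      (fun y => (((χ y)⁻¹ : kˣ) : k) * (z ^ (y : ZMod f).val / (1 + z ^ (y : ZMod f).val) ^ 2))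
      (fun y => by
        have h1 : χ (-y) = χ y := by
          rw [← neg_one_mul, map_mul, locL_chi, one_mul]
        rw [h1, locL_neg hf z hz1, locL_R])
    rw [← hz]
    have hfin : ∀ ρ : Gal(K/ℚ), (((ψ ρ)⁻¹ : kˣ) : k) *
        dF (Units.map (algebraMap (𝓞 K) (𝓞 F) : 𝓞 K →* 𝓞 F) (ρ • η)) =
        ∑ a ∈ hset χ, (((χ (a * b ρ))⁻¹ : kˣ) : k) *
          (z ^ ((a * b ρ : (ZMod f)ˣ) : ZMod f).val /
          (1 + z ^ ((a * b ρ : (ZMod f)ˣ) : ZMod f).val) ^ 2) := by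
      intro ρ
      rw [hmap, hprod, Finset.mul_sum]
      refine Finset.sum_congr rfl fun a ha => ?_
      rw [hdU ρ a ha, map_mul, (mem_hset.1 ha).1, one_mul, hb]
    change ∑ ρ : Gal(K/ℚ), (((ψ ρ)⁻¹ : kˣ) : k) *
        dF (Units.map (algebraMap (𝓞 K) (𝓞 F) : 𝓞 K →* 𝓞 F) (ρ • η)) = _
    rw [Finset.sum_congr rfl fun ρ _ => hfin ρ]
    rw [hmain]
    refine Finset.sum_congr rfl fun y _ => ?_
    ring

end Pool.Agent.FR2
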