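import Pool.Agent.FR2.CycQ
import Pool.Agent.FR2.MulB
import Pool.Agent.FR2.Dual
import Pool.Agent.FR2.EtaF
import Pool.Agent.FR2.LocL
import Pool.Agent.FR2.GauS

/-!
# The units, local condition at two

`F` is the cyclotomic field of `cycQ`, `K ≤ F`, and `𝓞 F` has a homomorphism to the algebraically closed field `k` of
characteristic two (the residue field of a prime over `2` is finite). `etaF`, `locL` and `gauS` give an equivariant
homomorphism `μ` from the units to `k` which is not zero and vanishes at `u`. If `u` is not a square then `dual` gives an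
equivariant `λ` with `λ u = 1`, and by `mulB` it is a multiple of `μ`.
-/

open NumberField Pointwise Finset

namespace Pool.Agent.FR2

private theorem unoChar {k : Type} [Field k] [CharP k 2] (x : kˣ) (h : x * x = 1) : x = 1 := by
  apply Units.ext
  have h2 : (x : k) * (x : k) = 1 := by rw [← Units.val_mul, h, Units.val_one]
  have h3 : ((x : k) - 1) * ((x : k) - 1) = 0 := by
    have h4 : ((2 : ℕ) : k) = 0 := CharP.cast_eq_zero k 2
    push_cast at h4
    linear_combination h2 - h4 * (x : k) + h4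
  rw [Units.val_one]
  exact sub_eq_zero.1 (mul_self_eq_zero.1 h3)

private theorem unoOdd {k : Type} [Field k] [CharP k 2] {G : Type} [Group G] [Fintype G]
    (ψ : G →* kˣ) (hψ : Function.Injective ψ) : Odd (Fintype.card G) := by
  rw [← Nat.not_even_iff_odd]
  intro h
  have : Fact (Nat.Prime 2) := ⟨Nat.prime_two⟩
  obtain ⟨x, hx⟩ := exists_prime_orderOf_dvd_card 2 (even_iff_two_dvd.1 h)
  have h1 : x ^ 2 = 1 := by
    rw [← hx]
    exact pow_orderOf_eq_one x
  have h2 : ψ x = 1 := by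
    apply unoChar
    rw [← map_mul, ← pow_two, h1, map_one]
  have h3 : x = 1 := hψ (by rw [h2, map_one])
  rw [h3, orderOf_one] at hx
  exact absurd hx (by norm_num)

private theorem unoReal (K : Type) [Field K] [NumberField K] [IsGalois ℚ K]
    (h : Odd (Module.finrank ℚ K)) : IsTotallyReal K := by
  classical
  have h0 := InfinitePlace.nrRealPlaces_pos_of_odd_finrank h
  obtain ⟨w⟩ : Nonempty {w : InfinitePlace K // w.IsReal} := Fintype.card_pos_iff.1 h0
  have hφ : ComplexEmbedding.IsReal w.1.embedding := InfinitePlace.isReal_iff.1 w.2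
  constructor
  intro v
  obtain ⟨σ, hσ⟩ := NumberField.ComplexEmbedding.exists_comp_symm_eq_of_comp_eq (k := ℚ)
    w.1.embedding v.embedding (RingHom.ext fun q => by simp)
  rw [← InfinitePlace.mk_embedding v, ← hσ]
  refine ⟨_, ?_, rfl⟩
  rw [ComplexEmbedding.isReal_iff] at hφ ⊢
  ext x
  exact RingHom.congr_fun hφ (σ.symm x)

/-- the ring of integers has a homomorphism to an algebraically closed field of characteristic two -/
private theorem unoTheta {k : Type} [Field k] [IsAlgClosed k] [CharP k 2] (F : Type) [Field F]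
    [NumberField F] : Nonempty (𝓞 F →+* k) := by
  have h2 : ¬ IsUnit (2 : 𝓞 F) := by
    intro h
    have h1 := NumberField.isUnit_iff_norm.1 h
    rw [RingOfIntegers.coe_norm] at h1
    have h3 : Algebra.norm ℚ (((2 : 𝓞 F)) : F) = 2 ^ Module.finrank ℚ F := by
      have h4 : ((2 : 𝓞 F) : F) = algebraMap ℚ F 2 := by
        rw [map_ofNat]
        exact map_ofNat (algebraMap (𝓞 F) F) 2
      rw [h4, Algebra.norm_algebraMap]
    rw [h3, abs_of_pos (by positivity)] at h1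
    have h5 : 0 < Module.finrank ℚ F := Module.finrank_pos
    have h6 : (1 : ℚ) < 2 ^ Module.finrank ℚ F := one_lt_pow₀ (by norm_num) h5.ne'
    exact absurd h1 h6.ne'
  obtain ⟨Q, hQ, hQ2⟩ := Ideal.exists_le_maximal (Ideal.span {(2 : 𝓞 F)})
    (fun h => h2 (Ideal.span_singleton_eq_top.1 h))
  have h2Q : (2 : 𝓞 F) ∈ Q := hQ2 (Ideal.mem_span_singleton_self _)
  let _ : Field (𝓞 F ⧸ Q) := Ideal.Quotient.field Q
  have hfin : Finite (𝓞 F ⧸ Q) := Q.finiteQuotientOfFreeOfNeBot (by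
    rintro rfl
    exact two_ne_zero ((Ideal.mem_bot).1 h2Q))
  have hz : ((2 : ℕ) : 𝓞 F ⧸ Q) = 0 := by
    have h3 := Ideal.Quotient.eq_zero_iff_mem.2 h2Q
    rw [map_ofNat] at h3
    exact_mod_cast h3
  have hchar : CharP (𝓞 F ⧸ Q) 2 := by
    obtain ⟨c, hc⟩ := CharP.exists (𝓞 F ⧸ Q)
    have h3 : c ∣ 2 := (CharP.cast_eq_zero_iff (𝓞 F ⧸ Q) c 2).1 hz
    rcases (Nat.dvd_prime Nat.prime_two).1 h3 with h4 | h4
    · subst h4
      exact absurd rfl (CharP.char_ne_one (𝓞 F ⧸ Q) 1)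
    · rw [← h4]
      exact hc
  let _ : Algebra (ZMod 2) (𝓞 F ⧸ Q) := ZMod.algebra _ 2
  let _ : Algebra (ZMod 2) k := ZMod.algebra k 2
  have halg : Algebra.IsAlgebraic (ZMod 2) (𝓞 F ⧸ Q) := Algebra.IsAlgebraic.of_finite _ _
  have e : (𝓞 F ⧸ Q) →ₐ[ZMod 2] k := IsAlgClosed.lift
  exact ⟨(e : (𝓞 F ⧸ Q) →+* k).comp (Ideal.Quotient.mk Q)⟩

open Pool.Agent.Helper60.FM in
theorem units3 {k : Type} [Field k] [IsAlgClosed k] [CharP k 2] {f : ℕ} [NeZero f] (hf : 2 < f)
    (hodd : Odd f) (χ : (ZMod f)ˣ →* kˣ) (hχ : χ ≠ 1) (hprim : FRD.Prim χ) (hD : DD χ ≠ 0)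
    (K : IntermediateField ℚ Qb) [FiniteDimensional ℚ K] [IsGalois ℚ K] (ψ : Gal(K/ℚ) →* kˣ)
    (hψ : Function.Injective ψ)
    (hcut : ∀ (g : GQ) (a : (ZMod f)ˣ), AAP.ActsAs f g (a : ZMod f).val → ψ (res K g) = χ a)
    (u : (𝓞 K)ˣ) (hloc : ∃ N : ℕ, Odd N ∧ (4 : 𝓞 K) ∣ (u : 𝓞 K) ^ N - 1)
    (hrel : ∀ n : Gal(K/ℚ) → ℕ, es ψ n = 0 → ∃ w : (𝓞 K)ˣ, ∏ σ, (σ • u) ^ n σ = w ^ 2) :
    ∃ w : (𝓞 K)ˣ, u = w ^ 2 := by
  obtain ⟨F, hF1, hF2, hF3, hF⟩ := cycQ f
  have hKF : K ≤ F := cycQ_le f K F hF χ ψ hψ hcut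
  let _ : Algebra K F := (IntermediateField.inclusion hKF).toRingHom.toAlgebra
  have : IsScalarTower K F Qb := IsScalarTower.of_algebraMap_eq fun x => rfl
  have hcomp : ∀ σ : Gal(F/ℚ), ψ (rs (K := K) σ) = χ (AAP.gq f F σ) := by
    intro σ
    obtain ⟨g, hg⟩ := AlgEquiv.restrictNormalHom_surjective (F := ℚ) (K₁ := F) Qb σ
    have h1 := hcut g (AAP.gq f F (res F g)) (hF g)
    have h2 : res K g = rs (K := K) (res F g) :=
      IsScalarTower.AlgEquiv.restrictNormalHom_comp_apply K F g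
    rw [h2] at h1
    have h3 : res F g = σ := hg
    rw [h3] at h1
    exact h1
  obtain ⟨θ⟩ := unoTheta (k := k) F
  obtain ⟨η, hη⟩ := etaF (F := F) hf hodd χ ψ hψ hcomp
  obtain ⟨μ, hm1, hm2, hm3, hz, hval⟩ := locL (F := F) hf hodd χ ψ hψ hcomp θ η hη
  have hoddG := unoOdd ψ hψ
  have : IsTotallyReal K := by
    refine unoReal K ?_
    rw [← IsGalois.card_aut_eq_finrank, Nat.card_eq_fintype_card]
    exact hoddG
  have hne : ψ ≠ 1 := by
    intro h
    apply hχ
    ext a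
    have h1 := hcomp ((AAP.gq f F).symm a)
    rw [MulEquiv.apply_symm_apply] at h1
    rw [← h1, h]
    simp
  by_contra hx
  obtain ⟨lam, h1, h2, h3⟩ := dual ψ hoddG u hx hrel
  obtain ⟨c, hc⟩ := mulB K ψ hψ hne lam μ h1 h2 hm1 hm2
    ⟨η, by rw [hval]; exact gauS hf hodd χ hχ hprim _ hz hD⟩
  have h4 := hc u
  rw [h3, hm3 u hloc, mul_zero] at h4
  exact one_ne_zero h4

end Pool.Agent.FR2
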