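import Pool.Agent.FR2.HfD
import Pool.Agent.FR2.UnM
import Pool.Agent.FR2.UnO
import Pool.Agent.FR2.LocQ
import Pool.Agent.AAP.Defs

/-!
# FR2-GaNum: the number field side, interface (class group, units, decomposition groups)

`χ` a primitive character of `(ZMod f)ˣ` in characteristic two, `K` the field in `Qb` cut out by `χ`, `ψ` the
injective character of its Galois group given by `χ`.
-/

open NumberField Pointwise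

namespace Pool.Agent.FR2

open Pool.Agent.Helper60.FM Pool.Agent.AAP Pool.Agent.FRD

/-- the field in `Qb` cut out by `χ`, with the character `ψ` of its Galois group -/
def Cut (f : ℕ) {k : Type} [Field k] (χ : (ZMod f)ˣ →* kˣ) (K : IntermediateField ℚ Qb)
    [IsGalois ℚ K] (ψ : Gal(K/ℚ) →* kˣ) : Prop :=
  Function.Injective ψ ∧
    ∀ (g : GQ) (a : (ZMod f)ˣ), ActsAs f g (a : ZMod f).val → ψ (res K g) = χ a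

private theorem gn_two {f : ℕ} (hf : Odd f) : ∃ u : (ZMod f)ˣ, (u : ZMod f) = 2 := by
  have h : Nat.Coprime 2 f := (Nat.coprime_two_left).2 hf
  refine ⟨ZMod.unitOfCoprime 2 h, ?_⟩
  rw [ZMod.coe_unitOfCoprime]
  push_cast
  rfl

private theorem gn_ne {f : ℕ} (hf : Odd f) {k : Type} [Field k] (χ : (ZMod f)ˣ →* kˣ)
    (h2 : ∀ u : (ZMod f)ˣ, (u : ZMod f) = 2 → χ u ≠ 1) : χ ≠ 1 := by
  rintro rfl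
  obtain ⟨u, hu⟩ := gn_two hf
  exact h2 u hu rfl

private theorem gn_prod {K : Type} [Field K] [NumberField K] (u w : (𝓞 K)ˣ)
    (n : Gal(K/ℚ) → ℕ) (h : ∏ σ, (σ • (u : 𝓞 K)) ^ n σ = (w : 𝓞 K) ^ 2) :
    ∏ σ, (σ • u) ^ n σ = w ^ 2 := by
  apply Units.ext
  rw [Units.val_pow_eq_pow_val, ← h, Units.coe_prod]
  refine Finset.prod_congr rfl fun σ _ => ?_
  rw [Units.val_pow_eq_pow_val, val_smul]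

theorem class2 (f : ℕ) [NeZero f] (hf : Odd f) (h2f : 2 < f) {k : Type} [Field k] [CharP k 2]
    (χ : (ZMod f)ˣ →* kˣ) (hprim : Prim χ) (h2 : ∀ u : (ZMod f)ˣ, (u : ZMod f) = 2 → χ u ≠ 1)
    (_hD : DD χ ≠ 0) (hD' : DD χ⁻¹ ≠ 0) (K : IntermediateField ℚ Qb) [FiniteDimensional ℚ K]
    [IsGalois ℚ K] (ψ : Gal(K/ℚ) →* kˣ) (hK : Cut f χ K ψ) (𝔞 : Ideal (𝓞 K)) (h𝔞 : 𝔞 ≠ ⊥)
    (h : ∀ n : Gal(K/ℚ) → ℕ, es ψ n = 0 → (∏ σ, (σ • 𝔞) ^ n σ).IsPrincipal) :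
    𝔞.IsPrincipal := by
  obtain ⟨u, hu⟩ := gn_two hf
  exact class2A h2f hf χ hprim u hu (h2 u hu) hD' K ψ hK.1 hK.2 𝔞 h𝔞 h

theorem units2 (f : ℕ) [NeZero f] (hf : Odd f) (h2f : 2 < f) {k : Type} [Field k] [CharP k 2]
    (χ : (ZMod f)ˣ →* kˣ) (_hprim : Prim χ) (h2 : ∀ u : (ZMod f)ˣ, (u : ZMod f) = 2 → χ u ≠ 1)
    (_hD : DD χ ≠ 0) (hD' : DD χ⁻¹ ≠ 0) (K : IntermediateField ℚ Qb) [FiniteDimensional ℚ K]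
    [IsGalois ℚ K] (ψ : Gal(K/ℚ) →* kˣ) (hK : Cut f χ K ψ) (u : (𝓞 K)ˣ)
    (hpos : ∀ ι : K →+* ℝ, 0 < ι ((u : 𝓞 K) : K))
    (h : ∀ n : Gal(K/ℚ) → ℕ, es ψ n = 0 →
      ∃ w : (𝓞 K)ˣ, ∏ σ, (σ • (u : 𝓞 K)) ^ n σ = (w : 𝓞 K) ^ 2) :
    ∃ w : (𝓞 K)ˣ, (u : 𝓞 K) = (w : 𝓞 K) ^ 2 := by
  obtain ⟨w, hw⟩ := units2A h2f hf χ (gn_ne hf χ h2) hD' K ψ hK.1 hK.2 u hpos
    (fun n hn => by
      obtain ⟨w, hw⟩ := h n hn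
      exact ⟨w, gn_prod u w n hw⟩)
  exact ⟨w, by rw [hw, Units.val_pow_eq_pow_val]⟩

theorem units3G (f : ℕ) [NeZero f] (hf : Odd f) (h2f : 2 < f) {k : Type} [Field k]
    [IsAlgClosed k] [CharP k 2] (χ : (ZMod f)ˣ →* kˣ) (hprim : Prim χ)
    (h2 : ∀ u : (ZMod f)ˣ, (u : ZMod f) = 2 → χ u ≠ 1)
    (hD : DD χ ≠ 0) (_hD' : DD χ⁻¹ ≠ 0) (K : IntermediateField ℚ Qb) [FiniteDimensional ℚ K]
    [IsGalois ℚ K] (ψ : Gal(K/ℚ) →* kˣ) (hK : Cut f χ K ψ) (u : (𝓞 K)ˣ)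
    (hloc : ∃ N : ℕ, Odd N ∧ (4 : 𝓞 K) ∣ (u : 𝓞 K) ^ N - 1)
    (h : ∀ n : Gal(K/ℚ) → ℕ, es ψ n = 0 →
      ∃ w : (𝓞 K)ˣ, ∏ σ, (σ • (u : 𝓞 K)) ^ n σ = (w : 𝓞 K) ^ 2) :
    ∃ w : (𝓞 K)ˣ, (u : 𝓞 K) = (w : 𝓞 K) ^ 2 := by
  obtain ⟨w, hw⟩ := units3 h2f hf χ (gn_ne hf χ h2) hprim hD K ψ hK.1 hK.2 u hloc
    (fun n hn => by
      obtain ⟨w, hw⟩ := h n hn
      exact ⟨w, gn_prod u w n hw⟩)
  exact ⟨w, by rw [hw, Units.val_pow_eq_pow_val]⟩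

theorem locK2 (f : ℕ) [NeZero f] (_hf : Odd f) {k : Type} [Field k]
    (χ : (ZMod f)ˣ →* kˣ) (hprim : Prim χ) (K : IntermediateField ℚ Qb) [FiniteDimensional ℚ K]
    [IsGalois ℚ K] (ψ : Gal(K/ℚ) →* kˣ) (hK : Cut f χ K ψ) (P : Ideal (𝓞 K)) (hP : P.IsPrime)
    (ℓ : ℕ) (hℓ : ℓ.Prime) (hℓP : (ℓ : 𝓞 K) ∈ P) :
    (∀ u : (ZMod f)ˣ, (u : ZMod f) = ℓ → ∃ σ : Gal(K/ℚ), σ • P = P ∧ ψ σ = χ u) ∧
      (ℓ ∣ f → ∃ σ : Gal(K/ℚ), σ • P = P ∧ ψ σ ≠ 1) := by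
  obtain ⟨h1, h2⟩ := locQ K χ ψ hK.1 hK.2 P hP ℓ hℓ hℓP
  exact ⟨h1, fun h => h2 h hprim⟩

end Pool.Agent.FR2
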