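import Pool.Agent.AAP.DefsE
import Pool.Agent.AAP.UnrB

/-!
# FR2-GaUnr: integers in all primes over an unramified prime number

`ZQ` is the ring of all algebraic integers, `In 𝔓` the inertia group in `GQ`, `toZ M : 𝓞 M →+* ZQ` the inclusion. The
prime number `ℓ` is unramified in `M`, so `(ℓ)` is the product of the prime ideals of `𝓞 M` which contain it.
-/

open NumberField Pointwise

namespace Pool.Agent.FR2

open Pool.Agent.Helper60.FM Pool.Agent.AAP

private theorem gaUnr_ker (M : IntermediateField ℚ Qb) [Normal ℚ M] :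
    (res M).ker = M.fixingSubgroup := by
  have hcomm : ∀ (g : GQ) (x : M), ((res M g x : M) : Qb) = g (x : Qb) := fun g x =>
    AlgEquiv.restrictNormal_commutes g M x
  ext g
  rw [MonoidHom.mem_ker, IntermediateField.mem_fixingSubgroup_iff]
  constructor
  · intro hg x hx
    have h1 := hcomm g ⟨x, hx⟩
    rw [hg] at h1
    exact h1.symm
  · intro hg
    apply AlgEquiv.ext
    intro x
    apply Subtype.ext
    rw [hcomm]
    exact hg (x : Qb) x.2

private theorem gaUnr_injective (F : IntermediateField ℚ Qb) : Function.Injective (toZ F) := by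
  intro x y h
  have h1 : ((x : F) : Qb) = ((y : F) : Qb) := by
    rw [← coe_toZ, ← coe_toZ, h]
  exact RingOfIntegers.ext (Subtype.ext h1)

private theorem gaUnr_integral (F : IntermediateField ℚ Qb) : (toZ F).IsIntegral := by
  intro z
  have h1 : IsIntegral ℤ z := integralClosure.isIntegral z
  obtain ⟨p, hp, hz⟩ := h1
  refine ⟨p.map (algebraMap ℤ (𝓞 F)), hp.map _, ?_⟩
  rw [Polynomial.eval₂_map, RingHom.ext_int ((toZ F).comp (algebraMap ℤ (𝓞 F))) (algebraMap ℤ ZQ)]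
  exact hz

private theorem gaUnr_over (F : IntermediateField ℚ Qb) (P : Ideal (𝓞 F)) (hP : P.IsPrime) :
    ∃ 𝔓 : Ideal ZQ, 𝔓.IsPrime ∧ Over F 𝔓 P := by
  let _ : Algebra (𝓞 F) ZQ := (toZ F).toAlgebra
  have _ : Algebra.IsIntegral (𝓞 F) ZQ := ⟨fun z => gaUnr_integral F z⟩
  have hker : RingHom.ker (algebraMap (𝓞 F) ZQ) ≤ P := by
    have h1 : RingHom.ker (algebraMap (𝓞 F) ZQ) = ⊥ :=
      (RingHom.injective_iff_ker_eq_bot _).mp (gaUnr_injective F)
    rw [h1]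
    exact bot_le
  obtain ⟨Q, hQ, hQ2⟩ := Ideal.exists_ideal_over_prime_of_isIntegral_of_isDomain P hker
  refine ⟨Q, hQ, fun x => ?_⟩
  rw [← hQ2]
  rfl

theorem gaUnr (M : IntermediateField ℚ Qb) [FiniteDimensional ℚ M] [IsGalois ℚ M] (ℓ : ℕ)
    (hℓ : ℓ.Prime)
    (hI : ∀ 𝔓 : Ideal ZQ, 𝔓.IsPrime → (ℓ : ZQ) ∈ 𝔓 → ∀ g ∈ In 𝔓, g ∈ M.fixingSubgroup)
    (x : 𝓞 M) (hx : ∀ 𝔓 : Ideal ZQ, 𝔓.IsPrime → (ℓ : ZQ) ∈ 𝔓 → toZ M x ∈ 𝔓) :
    (ℓ : 𝓞 M) ∣ x := by
  classical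
  have hnorm : Normal ℚ M := IsGalois.to_normal
  have hNF : NumberField M := { to_charZero := inferInstance, to_finiteDimensional := inferInstance }
  have hU : Unr M ℓ := unramAt_of_pt (res M) ℓ (fun 𝔓 h1 h2 g hg => by
    have h3 := hI 𝔓 h1 h2 g hg
    rw [← gaUnr_ker M] at h3
    exact MonoidHom.mem_ker.mp h3) M inferInstance inferInstance (gaUnr_ker M).le
  have hℓ0 : (ℓ : ℤ) ≠ 0 := by exact_mod_cast hℓ.ne_zero
  have hpr : Prime (ℓ : ℤ) := Nat.prime_iff_prime_int.mp hℓ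
  set p : Ideal ℤ := Ideal.span {(ℓ : ℤ)} with hp
  have hpp : p.IsPrime := (Ideal.span_singleton_prime hℓ0).mpr hpr
  have hp0 : p ≠ ⊥ := by
    rw [hp, Ne, Ideal.span_singleton_eq_bot]
    exact hℓ0
  have hpm : p.IsMaximal := Ideal.IsPrime.isMaximal hpp hp0
  have hfin : Finite (ℤ ⧸ p) := Ring.HasFiniteQuotients.finiteQuotient hp0
  have hmem : ∀ P : Ideal (𝓞 M), P ∈ p.primesOver (𝓞 M) → (ℓ : 𝓞 M) ∈ P := by
    intro P hP
    have h1 := hP.2.over
    have h2 : (ℓ : ℤ) ∈ P.under ℤ := by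
      rw [← h1]
      exact Ideal.mem_span_singleton_self _
    have h3 : algebraMap ℤ (𝓞 M) (ℓ : ℤ) ∈ P := h2
    rwa [map_natCast] at h3
  have hmap : p.map (algebraMap ℤ (𝓞 M)) = Ideal.span {(ℓ : 𝓞 M)} := by
    rw [hp, Ideal.map_span, Set.image_singleton, map_natCast]
  have hone : ∀ P ∈ p.primesOver (𝓞 M), P.ramificationIdx ℤ = 1 := by
    intro P hP
    have h1 := hP.1
    have h2 := hP.2
    have hin : Ideal.inertia Gal(M/ℚ) P = ⊥ := by
      rw [eq_bot_iff]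
      intro σ hσ
      rw [Subgroup.mem_bot]
      exact hU P h1 (hmem P hP) σ hσ
    rw [← Ideal.ramificationIdxIn_eq_ramificationIdx p P Gal(M/ℚ),
      ← Ideal.card_inertia_eq_ramificationIdxIn (G := Gal(M/ℚ)) p P, hin]
    simp
  have hprod : Ideal.span {(ℓ : 𝓞 M)} = ∏ P ∈ (p.primesOver (𝓞 M)).toFinset, P := by
    rw [← hmap, Ideal.map_algebraMap_eq_finsetProd_pow hp0]
    refine Finset.prod_congr rfl fun P hP => ?_
    rw [hone P (Set.mem_toFinset.mp hP), pow_one]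
  have hdvd : ∏ P ∈ (p.primesOver (𝓞 M)).toFinset, P ∣ Ideal.span {x} := by
    refine Finset.prod_primes_dvd _ (fun P hP => ?_) fun P hP => ?_
    · rw [Set.mem_toFinset] at hP
      have := hP.1
      have := hP.2
      exact Ideal.prime_of_isPrime (Ideal.ne_bot_of_liesOver_of_ne_bot hp0 P) hP.1
    · rw [Set.mem_toFinset] at hP
      rw [Ideal.dvd_span_singleton]
      obtain ⟨𝔓, h1, h2⟩ := gaUnr_over M P hP.1
      refine (h2 x).mp (hx 𝔓 h1 ?_)
      have h3 : toZ M (ℓ : 𝓞 M) = (ℓ : ZQ) := map_natCast _ _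
      rw [← h3]
      exact (h2 _).mpr (hmem P hP)
  rw [← hprod, Ideal.dvd_span_singleton, Ideal.mem_span_singleton] at hdvd
  exact hdvd

end Pool.Agent.FR2
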