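import Pool.Agent.FR2.DefsK

/-!
# FR2-Hc: the argument with Hilbert's theorem 90, in ideals

With `y = s(g) x` there is `w ≠ 0` with `w (c x) = (c w) y` (`w = x + y`, or `w = δ x` if `y = -x`). With
`N = ∏ (s(ρ) Q)^A`, `M = ∏ (s(ρ) Q)^(θ' ρ)` and `M' = ∏ (s(ρ) Q)^(θ'(g⁻¹ρ))` one has `(x) M = N (c M)` and
`(y) M' = N (c M')`, so `J = (w) (c N) M M'` is fixed by `c`, and `J ^ 2 = J (c J)` is the claim.
-/

open NumberField Pointwise Finset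

namespace Pool.Agent.FR2

private theorem hc_span {L : Type} [Field L] [NumberField L] (σ : Gal(L/ℚ)) (x : 𝓞 L) :
    σ • Ideal.span {x} = Ideal.span {σ • x} := by
  rw [Ideal.pointwise_smul_def, Ideal.map_span, Set.image_singleton]
  rfl

private theorem hc_w {L : Type} [Field L] [NumberField L] (c : Gal(L/ℚ)) (x y : 𝓞 L) (n : ℕ)
    (hn : 0 < n) (hxc : x * (c • x) = (n : 𝓞 L)) (hyc : y * (c • y) = (n : 𝓞 L))
    (δ : 𝓞 L) (hδ0 : δ ≠ 0) (hδ : c • δ = -δ) :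
    ∃ w : 𝓞 L, w ≠ 0 ∧ w * (c • x) = (c • w) * y := by
  by_cases h : x + y = 0
  · have hx0 : x ≠ 0 := by
      rintro rfl
      rw [zero_mul] at hxc
      have : (n : 𝓞 L) ≠ 0 := by exact_mod_cast hn.ne'
      exact this hxc.symm
    refine ⟨δ * x, mul_ne_zero hδ0 hx0, ?_⟩
    have hy : y = -x := by
      rw [add_comm] at h
      exact eq_neg_of_add_eq_zero_left h
    rw [smul_mul', hδ, hy]
    ring
  · refine ⟨x + y, h, ?_⟩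
    rw [smul_add, add_mul, add_mul, hxc, mul_comm (c • y) y, hyc]
    ring

private theorem hc_prod {L : Type} [Field L] [NumberField L] {G : Type} [Fintype G]
    (P P' : G → Ideal (𝓞 L)) (A : ℕ) (θ θ' : G → ℕ) (hA : ∀ ρ, θ ρ + θ' ρ = A)
    (X : Ideal (𝓞 L)) (hX : X = (∏ ρ, P ρ ^ θ ρ) * ∏ ρ, P' ρ ^ θ' ρ) :
    X * ∏ ρ, P ρ ^ θ' ρ = (∏ ρ, P ρ ^ A) * ∏ ρ, P' ρ ^ θ' ρ := by
  have h1 : (∏ ρ, P ρ ^ θ ρ) * ∏ ρ, P ρ ^ θ' ρ = ∏ ρ, P ρ ^ A := by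
    rw [← Finset.prod_mul_distrib]
    refine Finset.prod_congr rfl fun ρ _ => ?_
    rw [← pow_add, hA ρ]
  rw [hX, ← h1]
  ring

theorem hc {L : Type} [Field L] [NumberField L] {G : Type} [CommGroup G] [Fintype G]
    (s : G →* Gal(L/ℚ)) (c : Gal(L/ℚ)) (hc : c * c = 1) (hcomm : ∀ ρ, c * s ρ = s ρ * c)
    (Q : Ideal (𝓞 L)) (h0 : Q ≠ ⊥) (x : 𝓞 L) (n : ℕ) (hn : 0 < n) (A : ℕ) (θ θ' : G → ℕ)
    (hA : ∀ ρ, θ ρ + θ' ρ = A)
    (hx : Ideal.span {x} = (∏ ρ, (s ρ • Q) ^ θ ρ) * ∏ ρ, ((c * s ρ) • Q) ^ θ' ρ)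
    (hxc : x * (c • x) = (n : 𝓞 L)) (δ : 𝓞 L) (hδ0 : δ ≠ 0) (hδ : c • δ = -δ) (g : G) :
    ∃ (w : 𝓞 L) (J : Ideal (𝓞 L)), w ≠ 0 ∧ J ≠ ⊥ ∧
      Ideal.span {w * (c • w)} * ∏ ρ, (s ρ • (Q * (c • Q))) ^ (A + θ' ρ + θ' (g⁻¹ * ρ)) =
        J ^ 2 := by
  obtain ⟨P, hP⟩ : ∃ P : G → Ideal (𝓞 L), P = fun ρ => s ρ • Q := ⟨_, rfl⟩
  have hPe : ∀ ρ, P ρ = s ρ • Q := fun ρ => by rw [hP]
  have hcc : ∀ I : Ideal (𝓞 L), c • (c • I) = I := fun I => by rw [smul_smul, hc, one_smul]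
  have hcP : ∀ ρ, (c * s ρ) • Q = c • P ρ := fun ρ => by rw [mul_smul, hPe]
  have hPc : ∀ ρ, s ρ • (c • Q) = c • P ρ := fun ρ => by
    rw [smul_smul, ← hcomm ρ, hcP]
  have hsP : ∀ ρ, s g • P ρ = P (g * ρ) := fun ρ => by
    rw [hPe, hPe, map_mul, mul_smul]
  have hscP : ∀ ρ, s g • (c • P ρ) = c • P (g * ρ) := fun ρ => by
    rw [← hsP, smul_smul, smul_smul, hcomm g]
  have hP0 : ∀ ρ, P ρ ≠ ⊥ := by
    intro ρ h
    apply h0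
    rw [hPe] at h
    have h2 : (s ρ)⁻¹ • (s ρ • Q) = (s ρ)⁻¹ • (⊥ : Ideal (𝓞 L)) := by rw [h]
    rwa [inv_smul_smul, Ideal.smul_bot] at h2
  have hx1 : Ideal.span {x} = (∏ ρ, P ρ ^ θ ρ) * ∏ ρ, (c • P ρ) ^ θ' ρ := by
    rw [hx]
    simp only [hcP, hPe]
  obtain ⟨y, hy⟩ : ∃ y : 𝓞 L, y = s g • x := ⟨_, rfl⟩
  have hy1 : Ideal.span {y} =
      (∏ ρ, P ρ ^ θ (g⁻¹ * ρ)) * ∏ ρ, (c • P ρ) ^ θ' (g⁻¹ * ρ) := by
    rw [hy, ← hc_span, hx1, smul_mul', Finset.smul_prod', Finset.smul_prod']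
    simp only [smul_pow', hsP, hscP]
    congr 1
    · rw [← Equiv.prod_comp (Equiv.mulLeft g) (fun ρ => P ρ ^ θ (g⁻¹ * ρ))]
      refine Finset.prod_congr rfl fun ρ _ => ?_
      simp only [Equiv.coe_mulLeft, inv_mul_cancel_left]
    · rw [← Equiv.prod_comp (Equiv.mulLeft g) (fun ρ => (c • P ρ) ^ θ' (g⁻¹ * ρ))]
      refine Finset.prod_congr rfl fun ρ _ => ?_
      simp only [Equiv.coe_mulLeft, inv_mul_cancel_left]
  have hyc : y * (c • y) = (n : 𝓞 L) := by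
    have h1 : c • (s g • x) = s g • (c • x) := by rw [smul_smul, smul_smul, hcomm g]
    rw [hy, h1, ← smul_mul', hxc]
    exact map_natCast (MulSemiringAction.toRingHom Gal(L/ℚ) (𝓞 L) (s g)) n
  obtain ⟨w, hw0, hw⟩ := hc_w c x y n hn hxc hyc δ hδ0 hδ
  obtain ⟨N, hN⟩ : ∃ N : Ideal (𝓞 L), N = ∏ ρ, P ρ ^ A := ⟨_, rfl⟩
  obtain ⟨M, hM⟩ : ∃ M : Ideal (𝓞 L), M = ∏ ρ, P ρ ^ θ' ρ := ⟨_, rfl⟩
  obtain ⟨M', hM'⟩ : ∃ M' : Ideal (𝓞 L), M' = ∏ ρ, P ρ ^ θ' (g⁻¹ * ρ) := ⟨_, rfl⟩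
  have hcN : c • N = ∏ ρ, (c • P ρ) ^ A := by
    rw [hN, Finset.smul_prod']
    simp only [smul_pow']
  have hcM : c • M = ∏ ρ, (c • P ρ) ^ θ' ρ := by
    rw [hM, Finset.smul_prod']
    simp only [smul_pow']
  have hcM' : c • M' = ∏ ρ, (c • P ρ) ^ θ' (g⁻¹ * ρ) := by
    rw [hM', Finset.smul_prod']
    simp only [smul_pow']
  have e1 : Ideal.span {x} * M = N * (c • M) := by
    rw [hcM, hN, hM]
    exact hc_prod P (fun ρ => c • P ρ) A θ θ' hA _ hx1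
  have e2 : Ideal.span {y} * M' = N * (c • M') := by
    rw [hcM', hN, hM']
    exact hc_prod P (fun ρ => c • P ρ) A (fun ρ => θ (g⁻¹ * ρ)) (fun ρ => θ' (g⁻¹ * ρ))
      (fun ρ => hA _) _ hy1
  have e3 : Ideal.span {c • x} * (c • M) = (c • N) * M := by
    rw [← hc_span, ← smul_mul', e1, smul_mul', hcc]
  have e4 : Ideal.span {w} * Ideal.span {c • x} = Ideal.span {c • w} * Ideal.span {y} := by
    rw [Ideal.span_singleton_mul_span_singleton, Ideal.span_singleton_mul_span_singleton, hw]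
  obtain ⟨J, hJ⟩ : ∃ J : Ideal (𝓞 L), J = Ideal.span {w} * (c • N) * M * M' := ⟨_, rfl⟩
  have hcJ : c • J = Ideal.span {c • w} * N * (c • M) * (c • M') := by
    rw [hJ, smul_mul', smul_mul', smul_mul', hc_span, hcc]
  have hJJ : J = c • J := by
    rw [hcJ, hJ]
    calc Ideal.span {w} * (c • N) * M * M' = Ideal.span {w} * ((c • N) * M) * M' := by ring
      _ = Ideal.span {w} * (Ideal.span {c • x} * (c • M)) * M' := by rw [e3]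
      _ = (Ideal.span {w} * Ideal.span {c • x}) * (c • M) * M' := by ring
      _ = (Ideal.span {c • w} * Ideal.span {y}) * (c • M) * M' := by rw [e4]
      _ = Ideal.span {c • w} * (Ideal.span {y} * M') * (c • M) := by ring
      _ = Ideal.span {c • w} * (N * (c • M')) * (c • M) := by rw [e2]
      _ = Ideal.span {c • w} * N * (c • M) * (c • M') := by ring
  have hprod0 : ∀ f : G → ℕ, (∏ ρ, P ρ ^ f ρ) ≠ 0 := fun f =>
    Finset.prod_ne_zero_iff.2 fun ρ _ => pow_ne_zero _ (hP0 ρ)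
  have hcP0 : ∀ ρ, c • P ρ ≠ ⊥ := by
    intro ρ h
    apply hP0 ρ
    rw [← hcc (P ρ), h, Ideal.smul_bot]
  have hJ0 : J ≠ ⊥ := by
    rw [hJ, hcN, hM, hM']
    refine mul_ne_zero (mul_ne_zero (mul_ne_zero ?_ ?_) (hprod0 _)) (hprod0 _)
    · intro h
      exact hw0 (Ideal.span_singleton_eq_bot.1 h)
    · exact Finset.prod_ne_zero_iff.2 fun ρ _ => pow_ne_zero _ (hcP0 ρ)
  refine ⟨w, J, hw0, hJ0, ?_⟩
  have hR : ∏ ρ, (s ρ • (Q * (c • Q))) ^ (A + θ' ρ + θ' (g⁻¹ * ρ)) =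
      (N * M * M') * ((c • N) * (c • M) * (c • M')) := by
    rw [hcN, hcM, hcM', hN, hM, hM', ← Finset.prod_mul_distrib, ← Finset.prod_mul_distrib,
      ← Finset.prod_mul_distrib, ← Finset.prod_mul_distrib, ← Finset.prod_mul_distrib]
    refine Finset.prod_congr rfl fun ρ _ => ?_
    rw [smul_mul', hPc ρ, ← hPe ρ, mul_pow, pow_add, pow_add, pow_add, pow_add]
  rw [hR, pow_two]
  nth_rewrite 2 [hJJ]
  rw [hcJ, hJ, ← Ideal.span_singleton_mul_span_singleton]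
  ring

end Pool.Agent.FR2
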