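import Pool.Agent.FR2.DefsK

/-!
# FR2-HfA: the property Half

`half_stab`: `t = δ_σ + δ_1`. `half_mul`: convolution of `t₁` and `t₂`. `half_all`: induction on the
prime factorization.
-/

open NumberField Pointwise Finset

namespace Pool.Agent.FR2

private theorem HfA_es_mul {G k : Type} [Group G] [Fintype G] [Field k] (ψ : G →* kˣ)
    (s t : G → ℕ) : es ψ (fun ρ => ∑ τ, s τ * t (τ⁻¹ * ρ)) = es ψ s * es ψ t := by
  unfold es
  have h1 : ∀ ρ, ((∑ τ, s τ * t (τ⁻¹ * ρ) : ℕ) : k) * (ψ ρ : k) =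
      ∑ τ, (s τ : k) * (t (τ⁻¹ * ρ) : k) * (ψ ρ : k) := by
    intro ρ
    push_cast
    rw [Finset.sum_mul]
  simp_rw [h1]
  rw [Finset.sum_comm, Finset.sum_mul_sum]
  apply Finset.sum_congr rfl
  intro τ _
  rw [← (Group.mulLeft_bijective τ).sum_comp]
  apply Finset.sum_congr rfl
  intro σ _
  rw [inv_mul_cancel_left, map_mul, Units.val_mul]
  ring

section

variable {M G : Type} [CommMonoid M] [Group G] [Fintype G] [MulDistribMulAction G M]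

private theorem HfA_mul (t : G → ℕ) (a b : M) :
    ∏ σ : G, (σ • (a * b)) ^ t σ = (∏ σ : G, (σ • a) ^ t σ) * ∏ σ : G, (σ • b) ^ t σ := by
  rw [← Finset.prod_mul_distrib]
  refine Finset.prod_congr rfl fun i _ => ?_
  rw [smul_mul', mul_pow]

private theorem HfA_sq (t : G → ℕ) (a : M) :
    ∏ σ : G, (σ • (a ^ 2)) ^ t σ = (∏ σ : G, (σ • a) ^ t σ) ^ 2 := by
  rw [pow_two, HfA_mul, pow_two]

private theorem HfA_conv (s t : G → ℕ) (a : M) :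
    ∏ ρ : G, (ρ • a) ^ (∑ τ, s τ * t (τ⁻¹ * ρ)) =
      ∏ τ : G, (τ • ∏ σ : G, (σ • a) ^ t σ) ^ s τ := by
  simp_rw [← Finset.prod_pow_eq_pow_sum]
  rw [Finset.prod_comm]
  apply Finset.prod_congr rfl
  intro τ _
  rw [← (Group.mulLeft_bijective τ).prod_comp, Finset.smul_prod', ← Finset.prod_pow]
  apply Finset.prod_congr rfl
  intro σ _
  rw [inv_mul_cancel_left, smul_pow', smul_smul, ← pow_mul, mul_comm]

private theorem HfA_comm (hG : ∀ σ τ : G, σ * τ = τ * σ) (s t : G → ℕ) (a : M) :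
    ∏ τ : G, (τ • ∏ σ : G, (σ • a) ^ t σ) ^ s τ = ∏ τ : G, (τ • ∏ σ : G, (σ • a) ^ s σ) ^ t τ := by
  have h : ∀ s t : G → ℕ, ∏ τ : G, (τ • ∏ σ : G, (σ • a) ^ t σ) ^ s τ =
      ∏ τ : G, ∏ σ : G, ((τ * σ) • a) ^ (s τ * t σ) := by
    intro s t
    apply Finset.prod_congr rfl
    intro τ _
    rw [Finset.smul_prod', ← Finset.prod_pow]
    apply Finset.prod_congr rfl
    intro σ _
    rw [smul_pow', smul_smul, ← pow_mul, mul_comm (t σ)]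
  rw [h, h, Finset.prod_comm]
  apply Finset.prod_congr rfl
  intro τ _
  apply Finset.prod_congr rfl
  intro σ _
  rw [hG, mul_comm (s σ)]

end

private theorem HfA_princ {K : Type} [Field K] [NumberField K] (t : Gal(K/ℚ) → ℕ) {x : 𝓞 K}
    (hx : x ≠ 0) : ∃ y : 𝓞 K, y ≠ 0 ∧
      ∏ σ : Gal(K/ℚ), (σ • (Ideal.span {x} : Ideal (𝓞 K))) ^ t σ = Ideal.span {y} := by
  have h1 : ∀ σ : Gal(K/ℚ), (σ • (Ideal.span {x} : Ideal (𝓞 K))) = Ideal.span {σ • x} := by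
    intro σ
    rw [Ideal.pointwise_smul_def, Ideal.map_span, Set.image_singleton]
    rfl
  refine ⟨∏ σ : Gal(K/ℚ), (σ • x) ^ t σ, ?_, ?_⟩
  · rw [Finset.prod_ne_zero_iff]
    intro σ _
    apply pow_ne_zero
    intro h
    apply hx
    have h2 : σ⁻¹ • (σ • x) = x := inv_smul_smul σ x
    rw [← h2, h, smul_zero]
  · simp_rw [h1, Ideal.span_singleton_pow]
    rw [Ideal.prod_span_singleton]

theorem half_stab {k : Type} [Field k] [CharP k 2] {K : Type} [Field K] [NumberField K]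
    (ψ : Gal(K/ℚ) →* kˣ) (𝔞 : Ideal (𝓞 K)) (σ : Gal(K/ℚ)) (h : σ • 𝔞 = 𝔞)
    (hψ : ψ σ ≠ 1) : Half ψ 𝔞 := by
  classical
  refine ⟨fun ρ => (if ρ = σ then 1 else 0) + (if ρ = 1 then 1 else 0), 1, 1, 𝔞, ?_, one_ne_zero,
    one_ne_zero, ?_⟩
  · unfold es
    push_cast
    simp only [add_mul, Finset.sum_add_distrib, ite_mul, one_mul, zero_mul, Finset.sum_ite_eq',
      Finset.mem_univ, if_true, map_one, Units.val_one]
    intro h1
    apply hψ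
    apply Units.ext
    rw [Units.val_one]
    exact (CharTwo.add_eq_zero.1 h1)
  · congr 1
    simp only [pow_add, pow_ite, pow_one, pow_zero, Finset.prod_mul_distrib, Finset.prod_ite_eq',
      Finset.mem_univ, if_true, one_smul, h]
    rw [pow_two]

theorem half_mul {k : Type} [Field k] {K : Type} [Field K] [NumberField K]
    (ψ : Gal(K/ℚ) →* kˣ) (hψ : Function.Injective ψ) {𝔞 𝔟 : Ideal (𝓞 K)} (ha : Half ψ 𝔞)
    (hb : Half ψ 𝔟) : Half ψ (𝔞 * 𝔟) := by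
  obtain ⟨t₁, x₁, y₁, 𝔠, ht₁, hx₁, hy₁, h₁⟩ := ha
  obtain ⟨t₂, x₂, y₂, 𝔡, ht₂, hx₂, hy₂, h₂⟩ := hb
  have hG : ∀ σ τ : Gal(K/ℚ), σ * τ = τ * σ := by
    intro σ τ
    apply hψ
    rw [map_mul, map_mul, mul_comm]
  obtain ⟨x₁', hx₁', hx₁e⟩ := HfA_princ t₂ hx₁
  obtain ⟨y₁', hy₁', hy₁e⟩ := HfA_princ t₂ hy₁
  obtain ⟨x₂', hx₂', hx₂e⟩ := HfA_princ t₁ hx₂
  obtain ⟨y₂', hy₂', hy₂e⟩ := HfA_princ t₁ hy₂
  have e₁ := congrArg (fun I : Ideal (𝓞 K) => ∏ σ : Gal(K/ℚ), (σ • I) ^ t₂ σ) h₁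
  have e₂ := congrArg (fun I : Ideal (𝓞 K) => ∏ σ : Gal(K/ℚ), (σ • I) ^ t₁ σ) h₂
  simp only [HfA_mul, HfA_sq] at e₁ e₂
  rw [hx₁e, hy₁e] at e₁
  rw [hx₂e, hy₂e] at e₂
  refine ⟨fun ρ => ∑ τ, t₁ τ * t₂ (τ⁻¹ * ρ), x₁' * x₂', y₁' * y₂',
    (∏ σ : Gal(K/ℚ), (σ • 𝔠) ^ t₂ σ) * ∏ σ : Gal(K/ℚ), (σ • 𝔡) ^ t₁ σ, ?_,
    mul_ne_zero hx₁' hx₂', mul_ne_zero hy₁' hy₂', ?_⟩
  · rw [HfA_es_mul]
    exact mul_ne_zero ht₁ ht₂
  · rw [HfA_mul, HfA_conv, HfA_conv, HfA_comm hG t₁ t₂ 𝔞, mul_pow,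
      ← Ideal.span_singleton_mul_span_singleton, ← Ideal.span_singleton_mul_span_singleton,
      mul_mul_mul_comm, e₁, e₂, mul_mul_mul_comm]

theorem half_all {k : Type} [Field k] {K : Type} [Field K] [NumberField K]
    (ψ : Gal(K/ℚ) →* kˣ) (hψ : Function.Injective ψ)
    (h : ∀ 𝔭 : Ideal (𝓞 K), 𝔭.IsPrime → 𝔭 ≠ ⊥ → Half ψ 𝔭) (𝔞 : Ideal (𝓞 K)) (h0 : 𝔞 ≠ ⊥) :
    Half ψ 𝔞 := by
  classical
  revert h0
  refine UniqueFactorizationMonoid.induction_on_prime 𝔞 ?_ ?_ ?_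
  · intro h
    exact absurd rfl h
  · intro I hI _
    have h1 : I = 1 := by
      rw [Ideal.one_eq_top]
      exact Ideal.isUnit_iff.1 hI
    refine ⟨fun ρ => if ρ = 1 then 1 else 0, 1, 1, 1, ?_, one_ne_zero, one_ne_zero, ?_⟩
    · unfold es
      push_cast
      simp only [ite_mul, one_mul, zero_mul, Finset.sum_ite_eq', Finset.mem_univ, if_true, map_one,
        Units.val_one]
      exact one_ne_zero
    · congr 1
      rw [h1, one_pow]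
      refine Finset.prod_eq_one fun σ _ => ?_
      rw [smul_one, one_pow]
  · intro I P hI0 hP ih h1
    exact half_mul ψ hψ (h P (Ideal.isPrime_of_prime hP) hP.ne_zero) (ih hI0)

end Pool.Agent.FR2
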