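import Pool.Agent.FR2.DefsK

/-!
# FR2-HfB: from Half to principal ideals

If for every nonzero ideal some element `t` of the group ring with `ψ(t) ≠ 0` carries the class of the ideal to
a square, then, iterating and multiplying by the odd part of the class number, for every nonzero ideal there is
`ν₀` with `ψ(ν₀) ≠ 0` which kills its class. The values of `es ψ` are a finite set closed under products, so
`es ψ ν₀` has an inverse of this form; with the relations of `ψ` the ideal itself is principal.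
-/

open NumberField Pointwise Finset

namespace Pool.Agent.FR2

private theorem hfb_es_conv {G k : Type} [Group G] [Fintype G] [Field k] (ψ : G →* kˣ)
    (ν ν' : G → ℕ) :
    es ψ (fun ρ => ∑ τ, ν τ * ν' (τ⁻¹ * ρ)) = es ψ ν * es ψ ν' := by
  unfold es
  have h1 : ∀ ρ, ((∑ τ, ν τ * ν' (τ⁻¹ * ρ) : ℕ) : k) * (ψ ρ : k) =
      ∑ τ, (ν τ : k) * (ν' (τ⁻¹ * ρ) : k) * (ψ ρ : k) := by
    intro ρ
    push_cast
    rw [Finset.sum_mul]
  simp_rw [h1]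
  rw [Finset.sum_comm, Finset.sum_mul_sum]
  apply Finset.sum_congr rfl
  intro τ _
  rw [← (Group.mulLeft_bijective τ).sum_comp]
  apply Finset.sum_congr rfl
  intro σ _
  rw [inv_mul_cancel_left, map_mul, Units.val_mul]
  ring

private theorem hfb_es_delta {G k : Type} [Group G] [Fintype G] [DecidableEq G] [Field k]
    (ψ : G →* kˣ) : es ψ (fun σ => if σ = 1 then 1 else 0) = 1 := by
  unfold es
  rw [Finset.sum_eq_single (1 : G)]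
  · simp
  · intro b _ hb
    simp [hb]
  · intro h
    exact absurd (Finset.mem_univ _) h

private theorem hfb_es_add {G k : Type} [Group G] [Fintype G] [Field k] (ψ : G →* kˣ)
    (ν ν' : G → ℕ) : es ψ (fun σ => ν σ + ν' σ) = es ψ ν + es ψ ν' := by
  unfold es
  rw [← Finset.sum_add_distrib]
  apply Finset.sum_congr rfl
  intro σ _
  push_cast
  ring

private theorem hfb_es_smul {G k : Type} [Group G] [Fintype G] [Field k] (ψ : G →* kˣ)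
    (ν : G → ℕ) (m : ℕ) : es ψ (fun σ => ν σ * m) = (m : k) * es ψ ν := by
  unfold es
  rw [Finset.mul_sum]
  apply Finset.sum_congr rfl
  intro σ _
  push_cast
  ring

private theorem hfb_es_mod {G k : Type} [Group G] [Fintype G] [Field k] [CharP k 2] (ψ : G →* kˣ)
    (ν : G → ℕ) : es ψ ν = es ψ (fun σ => ν σ % 2) := by
  unfold es
  apply Finset.sum_congr rfl
  intro σ _
  congr 1
  have h2 : (ν σ : k) = ((2 * (ν σ / 2) + ν σ % 2 : ℕ) : k) := by rw [Nat.div_add_mod]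
  have h3 : (2 : k) = 0 := by
    have := CharP.cast_eq_zero k 2
    exact_mod_cast this
  rw [h2]
  push_cast
  rw [h3]
  ring

private theorem hfb_inv {G k : Type} [Group G] [Fintype G] [Field k] [CharP k 2] (ψ : G →* kˣ)
    (ν₀ : G → ℕ) (hu : es ψ ν₀ ≠ 0) : ∃ ν : G → ℕ, es ψ ν * es ψ ν₀ = 1 := by
  classical
  have hpow : ∀ n : ℕ, ∃ ν : G → ℕ, es ψ ν = es ψ ν₀ ^ n := by
    intro n
    induction n with
    | zero => exact ⟨_, by rw [hfb_es_delta, pow_zero]⟩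
    | succ n ih =>
      obtain ⟨ν, hν⟩ := ih
      exact ⟨_, by rw [hfb_es_conv ψ ν ν₀, hν, pow_succ]⟩
  choose ν hν using hpow
  let F : ℕ → (G → Fin 2) := fun n σ => ⟨ν n σ % 2, Nat.mod_lt _ two_pos⟩
  obtain ⟨a, b, hab, hF⟩ := Finite.exists_ne_map_eq_of_infinite F
  have hval : ∀ n, es ψ ν₀ ^ n = es ψ (fun σ => (F n σ : ℕ)) := by
    intro n
    rw [← hν n, hfb_es_mod]
  have key : ∀ a b : ℕ, a < b → F a = F b → ∃ ν : G → ℕ, es ψ ν * es ψ ν₀ = 1 := by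
    intro a b hlt hF
    obtain ⟨c, rfl⟩ : ∃ c, b = a + c + 1 := ⟨b - a - 1, by omega⟩
    refine ⟨ν c, ?_⟩
    rw [hν c, ← pow_succ]
    have h1 : es ψ ν₀ ^ a = es ψ ν₀ ^ (a + c + 1) := by rw [hval, hval, hF]
    have h2 : es ψ ν₀ ^ a * es ψ ν₀ ^ (c + 1) = es ψ ν₀ ^ a * 1 := by
      rw [← pow_add, mul_one, ← add_assoc, ← h1]
    exact mul_left_cancel₀ (pow_ne_zero _ hu) h2
  rcases lt_or_gt_of_ne hab with h | h
  · exact key a b h hF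
  · exact key b a h hF.symm

private theorem hfb_prod {M : Type*} [CommMonoid M] {G : Type*} [Group G] [Fintype G]
    [MulDistribMulAction G M] (ν ν' : G → ℕ) (a : M) :
    ∏ ρ : G, (ρ • a) ^ (∑ τ, ν τ * ν' (τ⁻¹ * ρ)) =
      ∏ τ : G, (τ • ∏ σ : G, (σ • a) ^ ν' σ) ^ ν τ := by
  simp_rw [← Finset.prod_pow_eq_pow_sum]
  rw [Finset.prod_comm]
  apply Finset.prod_congr rfl
  intro τ _
  rw [← (Group.mulLeft_bijective τ).prod_comp, Finset.smul_prod', ← Finset.prod_pow]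
  apply Finset.prod_congr rfl
  intro σ _
  rw [inv_mul_cancel_left, smul_pow', smul_smul, ← pow_mul, mul_comm]

private theorem hfb_cancel {R : Type*} [CommRing R] [IsDedekindDomain R] {I J : Ideal R}
    (hI : I.IsPrincipal) (h0 : I ≠ ⊥) (hIJ : (I * J).IsPrincipal) : J.IsPrincipal := by
  obtain ⟨a, ha⟩ := hI
  obtain ⟨b, hb⟩ := hIJ
  rw [Ideal.submodule_span_eq] at ha hb
  have h1 : b ∈ Ideal.span {a} := by
    rw [← ha]
    apply (Ideal.mul_le_left : I * J ≤ I)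
    rw [hb]
    exact Ideal.mem_span_singleton_self b
  obtain ⟨c, rfl⟩ := Ideal.mem_span_singleton.1 h1
  refine ⟨c, ?_⟩
  rw [Ideal.submodule_span_eq]
  have h2 : I * J = I * Ideal.span {c} := by
    rw [hb, ha, Ideal.span_singleton_mul_span_singleton]
  exact mul_left_cancel₀ h0 h2

section

variable {K : Type} [Field K] [NumberField K]

private theorem hfb_smul_span (τ : Gal(K/ℚ)) (a : 𝓞 K) :
    τ • Ideal.span {a} = Ideal.span {τ • a} := by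
  rw [Ideal.smul_closure, Set.smul_set_singleton]

private theorem hfb_smul_ne {𝔞 : Ideal (𝓞 K)} (h0 : 𝔞 ≠ ⊥) (σ : Gal(K/ℚ)) : σ • 𝔞 ≠ ⊥ := by
  intro h
  apply h0
  have h6 : σ⁻¹ • (σ • 𝔞) = 𝔞 := inv_smul_smul σ 𝔞
  rw [← h6, h, Ideal.smul_bot]

private theorem hfb_prod_ne {𝔞 : Ideal (𝓞 K)} (h0 : 𝔞 ≠ ⊥) (n : Gal(K/ℚ) → ℕ) :
    ∏ σ, (σ • 𝔞) ^ n σ ≠ (0 : Ideal (𝓞 K)) := by
  rw [Finset.prod_ne_zero_iff]
  intro σ _
  exact pow_ne_zero _ (hfb_smul_ne h0 σ)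

private theorem hfb_elt_ne {a : 𝓞 K} (h0 : a ≠ 0) (n : Gal(K/ℚ) → ℕ) :
    ∏ σ : Gal(K/ℚ), (σ • a) ^ n σ ≠ 0 := by
  rw [Finset.prod_ne_zero_iff]
  intro σ _
  refine pow_ne_zero _ fun h => h0 ?_
  rwa [smul_eq_zero_iff_eq] at h

private theorem hfb_span_prod (a : 𝓞 K) (n : Gal(K/ℚ) → ℕ) :
    ∏ σ : Gal(K/ℚ), (σ • Ideal.span {a}) ^ n σ =
      Ideal.span {∏ σ : Gal(K/ℚ), (σ • a) ^ n σ} := by
  rw [← Ideal.prod_span_singleton]
  apply Finset.prod_congr rfl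
  intro σ _
  rw [hfb_smul_span, Ideal.span_singleton_pow]

private theorem hfb_iter {k : Type} [Field k] (ψ : Gal(K/ℚ) →* kˣ)
    (h : ∀ 𝔞 : Ideal (𝓞 K), 𝔞 ≠ ⊥ → Half ψ 𝔞) (v : ℕ) :
    ∀ 𝔞 : Ideal (𝓞 K), 𝔞 ≠ ⊥ → ∃ (ν : Gal(K/ℚ) → ℕ) (x y : 𝓞 K) (𝔟 : Ideal (𝓞 K)),
      es ψ ν ≠ 0 ∧ x ≠ 0 ∧ y ≠ 0 ∧ 𝔟 ≠ ⊥ ∧
        Ideal.span {x} * ∏ σ, (σ • 𝔞) ^ ν σ = Ideal.span {y} * 𝔟 ^ 2 ^ v := by
  classical
  induction v with
  | zero =>
    intro 𝔞 h0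
    refine ⟨fun σ => if σ = 1 then 1 else 0, 1, 1, 𝔞, ?_, one_ne_zero, one_ne_zero, h0, ?_⟩
    · rw [hfb_es_delta]
      exact one_ne_zero
    · rw [pow_zero, pow_one]
      congr 1
      rw [Finset.prod_eq_single (1 : Gal(K/ℚ))]
      · simp
      · intro b _ hb
        simp [hb]
      · intro h
        exact absurd (Finset.mem_univ _) h
  | succ v ih =>
    intro 𝔞 h0
    obtain ⟨t, x, y, 𝔟, ht, hx, hy, hxy⟩ := h 𝔞 h0
    have hb : 𝔟 ≠ ⊥ := by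
      rintro rfl
      have h1 : Ideal.span {x} * ∏ σ, (σ • 𝔞) ^ t σ ≠ (0 : Ideal (𝓞 K)) :=
        mul_ne_zero (by simpa [Ideal.span_singleton_eq_bot] using hx) (hfb_prod_ne h0 t)
      apply h1
      rw [hxy]
      simp
    obtain ⟨ν, x', y', 𝔠, hν, hx', hy', hc, hxy'⟩ := ih 𝔟 hb
    refine ⟨fun ρ => ∑ τ, ν τ * t (τ⁻¹ * ρ), x' ^ 2 * ∏ τ : Gal(K/ℚ), (τ • x) ^ ν τ,
      (∏ τ : Gal(K/ℚ), (τ • y) ^ ν τ) * y' ^ 2, 𝔠, ?_, ?_, ?_, hc, ?_⟩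
    · rw [hfb_es_conv]
      exact mul_ne_zero hν ht
    · exact mul_ne_zero (pow_ne_zero _ hx') (hfb_elt_ne hx ν)
    · exact mul_ne_zero (hfb_elt_ne hy ν) (pow_ne_zero _ hy')
    · rw [hfb_prod]
      have h2 : ∏ τ : Gal(K/ℚ), (τ • (Ideal.span {x} * ∏ σ, (σ • 𝔞) ^ t σ)) ^ ν τ =
          ∏ τ : Gal(K/ℚ), (τ • (Ideal.span {y} * 𝔟 ^ 2)) ^ ν τ := by rw [hxy]
      have h3 : ∀ I J : Ideal (𝓞 K), ∏ τ : Gal(K/ℚ), (τ • (I * J)) ^ ν τ =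
          (∏ τ : Gal(K/ℚ), (τ • I) ^ ν τ) * ∏ τ : Gal(K/ℚ), (τ • J) ^ ν τ := by
        intro I J
        rw [← Finset.prod_mul_distrib]
        apply Finset.prod_congr rfl
        intro τ _
        rw [smul_mul', mul_pow]
      have h4 : ∏ τ : Gal(K/ℚ), (τ • (𝔟 ^ 2)) ^ ν τ = (∏ τ : Gal(K/ℚ), (τ • 𝔟) ^ ν τ) ^ 2 := by
        rw [← Finset.prod_pow]
        apply Finset.prod_congr rfl
        intro τ _
        rw [smul_pow', ← pow_mul, ← pow_mul, mul_comm]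
      rw [h3, h3, h4, hfb_span_prod, hfb_span_prod] at h2
      rw [← Ideal.span_singleton_mul_span_singleton, ← Ideal.span_singleton_mul_span_singleton,
        ← Ideal.span_singleton_pow, ← Ideal.span_singleton_pow, mul_assoc, h2]
      have h5 : (Ideal.span {x'} * ∏ τ : Gal(K/ℚ), (τ • 𝔟) ^ ν τ) ^ 2 =
          (Ideal.span {y'} * 𝔠 ^ 2 ^ v) ^ 2 := by rw [hxy']
      rw [mul_pow, mul_pow, ← pow_mul, ← pow_succ] at h5
      rw [mul_left_comm, h5, mul_assoc]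

private theorem hfb_kill {k : Type} [Field k] [CharP k 2] (ψ : Gal(K/ℚ) →* kˣ)
    (h : ∀ 𝔞 : Ideal (𝓞 K), 𝔞 ≠ ⊥ → Half ψ 𝔞) (𝔞 : Ideal (𝓞 K)) (h0 : 𝔞 ≠ ⊥) :
    ∃ ν : Gal(K/ℚ) → ℕ, es ψ ν ≠ 0 ∧ (∏ σ, (σ • 𝔞) ^ ν σ).IsPrincipal := by
  classical
  obtain ⟨v, m, hm, hcard⟩ := Nat.exists_eq_two_pow_mul_odd
    (n := Fintype.card (ClassGroup (𝓞 K))) Fintype.card_ne_zero
  obtain ⟨ν, x, y, 𝔟, hν, hx, -, hb, hxy⟩ := hfb_iter ψ h v 𝔞 h0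
  refine ⟨fun σ => ν σ * m, ?_, ?_⟩
  · rw [hfb_es_smul]
    refine mul_ne_zero ?_ hν
    obtain ⟨j, rfl⟩ := hm
    have h3 : (2 : k) = 0 := by
      have := CharP.cast_eq_zero k 2
      exact_mod_cast this
    push_cast
    rw [h3, zero_mul, zero_add]
    exact one_ne_zero
  · have h1 : ∏ σ, (σ • 𝔞) ^ (ν σ * m) = (∏ σ, (σ • 𝔞) ^ ν σ) ^ m := by
      rw [← Finset.prod_pow]
      apply Finset.prod_congr rfl
      intro σ _
      rw [pow_mul]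
    rw [h1]
    have h2 : Ideal.span {x ^ m} * (∏ σ, (σ • 𝔞) ^ ν σ) ^ m =
        Ideal.span {y ^ m} * 𝔟 ^ Fintype.card (ClassGroup (𝓞 K)) := by
      rw [← Ideal.span_singleton_pow, ← mul_pow, hxy, mul_pow, Ideal.span_singleton_pow, ← pow_mul,
        hcard]
    have h3 : (𝔟 ^ Fintype.card (ClassGroup (𝓞 K))).IsPrincipal := by
      have hb' : 𝔟 ∈ nonZeroDivisors (Ideal (𝓞 K)) := mem_nonZeroDivisors_of_ne_zero hb
      rw [← ClassGroup.mk0_eq_one_iff (pow_mem hb' _)]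
      have h4 : (⟨𝔟 ^ Fintype.card (ClassGroup (𝓞 K)), pow_mem hb' _⟩ :
          nonZeroDivisors (Ideal (𝓞 K))) = ⟨𝔟, hb'⟩ ^ Fintype.card (ClassGroup (𝓞 K)) := rfl
      rw [h4, map_pow, pow_card_eq_one]
    refine hfb_cancel (I := Ideal.span {x ^ m}) ⟨x ^ m, rfl⟩ ?_ ?_
    · rw [Ne, Ideal.span_singleton_eq_bot]
      exact pow_ne_zero _ hx
    · rw [h2]
      obtain ⟨b, hb2⟩ := h3
      rw [Ideal.submodule_span_eq] at hb2
      rw [hb2, Ideal.span_singleton_mul_span_singleton]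
      exact ⟨_, rfl⟩

end

theorem half_cl {k : Type} [Field k] [CharP k 2] {K : Type} [Field K] [NumberField K]
    (ψ : Gal(K/ℚ) →* kˣ) (hψ : Function.Injective ψ)
    (h : ∀ 𝔞 : Ideal (𝓞 K), 𝔞 ≠ ⊥ → Half ψ 𝔞) (𝔞 : Ideal (𝓞 K)) (h0 : 𝔞 ≠ ⊥)
    (hrel : ∀ n : Gal(K/ℚ) → ℕ, es ψ n = 0 → (∏ σ, (σ • 𝔞) ^ n σ).IsPrincipal) :
    𝔞.IsPrincipal := by
  classical
  obtain ⟨ν₀, hν₀, hpr⟩ := hfb_kill ψ h 𝔞 h0
  obtain ⟨ν', hν'⟩ := hfb_inv ψ ν₀ hν₀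
  have h2 : es ψ (fun σ => (∑ τ, ν' τ * ν₀ (τ⁻¹ * σ)) + (if σ = 1 then 1 else 0)) = 0 := by
    rw [hfb_es_add ψ (fun σ => ∑ τ, ν' τ * ν₀ (τ⁻¹ * σ)) (fun σ => if σ = 1 then 1 else 0),
      hfb_es_conv, hν', hfb_es_delta]
    exact CharTwo.add_self_eq_zero 1
  have h3 := hrel _ h2
  have h4 : ∏ σ : Gal(K/ℚ), (σ • 𝔞) ^ ((∑ τ, ν' τ * ν₀ (τ⁻¹ * σ)) + (if σ = 1 then 1 else 0)) =
      (∏ σ : Gal(K/ℚ), (σ • 𝔞) ^ (∑ τ, ν' τ * ν₀ (τ⁻¹ * σ))) * 𝔞 := by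
    simp_rw [pow_add]
    rw [Finset.prod_mul_distrib]
    congr 1
    rw [Finset.prod_eq_single (1 : Gal(K/ℚ))]
    · rw [if_pos rfl, one_smul, pow_one]
    · intro b _ hb
      rw [if_neg hb, pow_zero]
    · intro h
      exact absurd (Finset.mem_univ _) h
  rw [h4] at h3
  have h5 : (∏ σ : Gal(K/ℚ), (σ • 𝔞) ^ (∑ τ, ν' τ * ν₀ (τ⁻¹ * σ))).IsPrincipal := by
    rw [hfb_prod]
    obtain ⟨a, ha⟩ := hpr
    rw [Ideal.submodule_span_eq] at ha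
    rw [ha, hfb_span_prod]
    exact ⟨_, rfl⟩
  exact hfb_cancel h5 (hfb_prod_ne h0 _) h3

end Pool.Agent.FR2
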