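import Pool.Agent.FR2.DefsK

/-!
# FR2-RamA: prime ideals in a quadratic extension

`L/K` quadratic, `c ∈ Gal(L/ℚ)` trivial on `K`.
(1) `ramA`: if `𝔓` is a prime ideal of `𝓞 L` and `𝔓 ^ 2` divides the extension of `𝔭 = 𝔓 ∩ 𝓞 K` then
the absolute norms (`N (𝔭 𝓞 L) = N(𝔭) ^ 2`) give `N 𝔓 = N 𝔭` and `𝔭 𝓞 L = 𝔓 ^ 2`, so `c 𝔓 = 𝔓` and
`𝓞 K / 𝔭 → 𝓞 L / 𝔓` is surjective, so `ε ≡ d` modulo `𝔓` with `d ∈ 𝓞 K`, and
`c ε ≡ c d = d`, so `ε - c ε ∈ 𝔓`, `r = -(ε - c ε)^2 ∈ 𝔓`.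
(2) `splA`: if `c 𝔔 ≠ 𝔔` for a prime ideal `𝔔 ≠ 0` then `(𝔔 ∩ 𝓞 K) 𝓞 L = 𝔔 (c 𝔔)`: both are different primes over
`𝔭`, so their product divides `𝔭 𝓞 L`, and the norms show that the cofactor is `1`.
-/

open NumberField Pointwise Finset

namespace Pool.Agent.FR2

private theorem ramA_fix {K L : Type} [Field K] [NumberField K] [IsGalois ℚ K] [Field L]
    [NumberField L] [IsGalois ℚ L] [Algebra K L] (c : Gal(L/ℚ)) (hcK : rs (K := K) c = 1)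
    (d : 𝓞 K) : c • (algebraMap (𝓞 K) (𝓞 L) d) = algebraMap (𝓞 K) (𝓞 L) d := by
  apply RingOfIntegers.ext
  have h1 : (((c • algebraMap (𝓞 K) (𝓞 L) d : 𝓞 L)) : L) = c (algebraMap K L (d : K)) := rfl
  have h2 := AlgEquiv.restrictNormal_commutes c K (d : K)
  have h3 : c.restrictNormal K = 1 := hcK
  rw [h3] at h2
  rw [h1, ← h2]
  rfl

private theorem ramA_norm {K L : Type} [Field K] [NumberField K] [Field L]
    [NumberField L] [Algebra K L] (h2 : Module.finrank K L = 2)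
    (𝔭 : Ideal (𝓞 K)) :
    Ideal.absNorm (𝔭.map (algebraMap (𝓞 K) (𝓞 L))) = Ideal.absNorm 𝔭 ^ 2 := by
  rw [Ideal.absNorm_algebraMap, ← IsFractionRing.finrank_eq (𝓞 K) K (𝓞 L) L, h2]

private theorem ramA_bot {K L : Type} [Field K] [NumberField K] [Field L]
    [NumberField L] [Algebra K L] (𝔓 : Ideal (𝓞 L)) (h0 : 𝔓 ≠ ⊥) :
    𝔓.comap (algebraMap (𝓞 K) (𝓞 L)) ≠ ⊥ := by
  obtain ⟨x, hx, hx0⟩ := Submodule.exists_mem_ne_zero_of_ne_bot h0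
  exact Ideal.comap_ne_bot_of_integral_mem hx0 hx (Algebra.IsIntegral.isIntegral x)

private theorem ramA_inj {K L : Type} [Field K] [NumberField K] [Field L]
    [NumberField L] [Algebra K L] (𝔓 : Ideal (𝓞 L)) :
    Function.Injective (Ideal.quotientMap 𝔓 (algebraMap (𝓞 K) (𝓞 L))
      (le_refl (𝔓.comap (algebraMap (𝓞 K) (𝓞 L))))) :=
  Ideal.quotientMap_injective

private theorem ramA_le {K L : Type} [Field K] [NumberField K] [Field L]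
    [NumberField L] [Algebra K L] (𝔓 : Ideal (𝓞 L)) (h0 : 𝔓 ≠ ⊥) :
    Ideal.absNorm (𝔓.comap (algebraMap (𝓞 K) (𝓞 L))) ≤ Ideal.absNorm 𝔓 := by
  rw [Ideal.absNorm_apply, Ideal.absNorm_apply, Submodule.cardQuot_apply, Submodule.cardQuot_apply]
  haveI : Finite (𝓞 L ⧸ 𝔓) := Ideal.finiteQuotientOfFreeOfNeBot 𝔓 h0
  exact Nat.card_le_card_of_injective _ (ramA_inj (K := K) 𝔓)

private theorem ramA_sub {K L : Type} [Field K] [NumberField K] [IsGalois ℚ K] [Field L]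
    [NumberField L] [IsGalois ℚ L] [Algebra K L] (c : Gal(L/ℚ)) (hcK : rs (K := K) c = 1)
    (𝔓 : Ideal (𝓞 L)) :
    (𝔓.comap (algebraMap (𝓞 K) (𝓞 L))).map (algebraMap (𝓞 K) (𝓞 L)) ≤ c • 𝔓 := by
  rw [Ideal.map_le_iff_le_comap]
  intro d hd
  rw [Ideal.mem_comap] at hd ⊢
  rw [← ramA_fix c hcK d]
  exact Ideal.smul_mem_pointwise_smul _ _ _ hd

theorem ramA {K L : Type} [Field K] [NumberField K] [IsGalois ℚ K] [Field L] [NumberField L]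
    [IsGalois ℚ L] [Algebra K L] (h2 : Module.finrank K L = 2) (c : Gal(L/ℚ)) (hc1 : c ≠ 1)
    (hcK : rs (K := K) c = 1) (ε : 𝓞 L) (r : ℕ) (hε : (ε - c • ε) ^ 2 = -(r : 𝓞 L))
    (𝔓 : Ideal (𝓞 L)) (hP : 𝔓.IsPrime) (h0 : 𝔓 ≠ ⊥)
    (h : 𝔓 ^ 2 ∣ (𝔓.comap (algebraMap (𝓞 K) (𝓞 L))).map (algebraMap (𝓞 K) (𝓞 L))) :
    (r : 𝓞 L) ∈ 𝔓 := by
  have hq0 : Ideal.absNorm (𝔓.comap (algebraMap (𝓞 K) (𝓞 L))) ≠ 0 := by
    rw [Ne, Ideal.absNorm_eq_zero_iff]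
    exact ramA_bot 𝔓 h0
  have hle := ramA_le (K := K) 𝔓 h0
  have hn := ramA_norm h2 (𝔓.comap (algebraMap (𝓞 K) (𝓞 L)))
  obtain ⟨J, hJ⟩ := h
  have hn2 : Ideal.absNorm 𝔓 ^ 2 * Ideal.absNorm J =
      Ideal.absNorm (𝔓.comap (algebraMap (𝓞 K) (𝓞 L))) ^ 2 := by
    rw [← hn, hJ, map_mul, map_pow]
  have hdv : Ideal.absNorm 𝔓 ∣ Ideal.absNorm (𝔓.comap (algebraMap (𝓞 K) (𝓞 L))) := by
    rw [← Nat.pow_dvd_pow_iff (n := 2) (by norm_num)]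
    exact ⟨_, hn2.symm⟩
  have heq : Ideal.absNorm 𝔓 = Ideal.absNorm (𝔓.comap (algebraMap (𝓞 K) (𝓞 L))) :=
    le_antisymm (Nat.le_of_dvd (Nat.pos_of_ne_zero hq0) hdv) hle
  have hJ1 : Ideal.absNorm J = 1 := by
    rw [heq] at hn2
    have : 0 < Ideal.absNorm (𝔓.comap (algebraMap (𝓞 K) (𝓞 L))) ^ 2 :=
      pow_pos (Nat.pos_of_ne_zero hq0) 2
    exact Nat.eq_of_mul_eq_mul_left this (by rw [hn2, mul_one])
  rw [Ideal.absNorm_eq_one_iff] at hJ1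
  rw [hJ1, Ideal.mul_top] at hJ
  have hcP : 𝔓 ≤ c • 𝔓 := by
    have h1 := ramA_sub c hcK 𝔓
    rw [hJ] at h1
    haveI : (c • 𝔓).IsPrime := inferInstance
    exact (Ideal.IsPrime.pow_le_iff (by norm_num)).1 h1
  haveI hM : 𝔓.IsMaximal := hP.isMaximal h0
  have hcP2 : c • 𝔓 = 𝔓 := by
    haveI : (c • 𝔓).IsPrime := inferInstance
    exact (hM.eq_of_le this.ne_top hcP).symm
  haveI : Finite (𝓞 L ⧸ 𝔓) := Ideal.finiteQuotientOfFreeOfNeBot 𝔓 h0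
  have hsur : Function.Surjective (Ideal.quotientMap 𝔓 (algebraMap (𝓞 K) (𝓞 L))
      (le_refl (𝔓.comap (algebraMap (𝓞 K) (𝓞 L))))) := by
    have hb := (ramA_inj (K := K) 𝔓).bijective_of_nat_card_le (by
      rw [Ideal.absNorm_apply, Ideal.absNorm_apply, Submodule.cardQuot_apply,
        Submodule.cardQuot_apply] at heq
      exact heq.le)
    exact hb.2
  obtain ⟨y, hy⟩ := hsur (Ideal.Quotient.mk 𝔓 ε)
  obtain ⟨d, rfl⟩ := Ideal.Quotient.mk_surjective y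
  rw [Ideal.quotientMap_mk, Ideal.Quotient.eq] at hy
  have hy2 : algebraMap (𝓞 K) (𝓞 L) d - c • ε ∈ 𝔓 := by
    have h1 := Ideal.smul_mem_pointwise_smul c _ _ hy
    rw [hcP2, smul_sub, ramA_fix c hcK d] at h1
    exact h1
  have h3 : ε - c • ε ∈ 𝔓 := by
    have h4 := Ideal.sub_mem _ hy2 hy
    have h5 : algebraMap (𝓞 K) (𝓞 L) d - c • ε - (algebraMap (𝓞 K) (𝓞 L) d - ε) = ε - c • ε := by
      ring
    rwa [h5] at h4
  have h6 : (ε - c • ε) ^ 2 ∈ 𝔓 := Ideal.pow_mem_of_mem _ h3 2 (by norm_num)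
  rw [hε] at h6
  exact (Ideal.neg_mem_iff _).1 h6

theorem splA {K L : Type} [Field K] [NumberField K] [IsGalois ℚ K] [Field L] [NumberField L]
    [IsGalois ℚ L] [Algebra K L] (h2 : Module.finrank K L = 2) (c : Gal(L/ℚ))
    (hcK : rs (K := K) c = 1) (𝔔 : Ideal (𝓞 L)) (hQ : 𝔔.IsPrime) (h0 : 𝔔 ≠ ⊥)
    (hc : c • 𝔔 ≠ 𝔔) :
    (𝔔.comap (algebraMap (𝓞 K) (𝓞 L))).map (algebraMap (𝓞 K) (𝓞 L)) = 𝔔 * (c • 𝔔) := by
  haveI hM : 𝔔.IsMaximal := hQ.isMaximal h0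
  haveI hQ2 : (c • 𝔔).IsPrime := inferInstance
  have h02 : c • 𝔔 ≠ ⊥ := by
    intro h
    obtain ⟨x, hx, hx0⟩ := Submodule.exists_mem_ne_zero_of_ne_bot h0
    have h1 := Ideal.smul_mem_pointwise_smul c _ _ hx
    rw [h, Ideal.mem_bot] at h1
    exact hx0 ((smul_eq_zero_iff_eq c).1 h1)
  haveI hM2 : (c • 𝔔).IsMaximal := hQ2.isMaximal h02
  have hcom : (c • 𝔔).comap (algebraMap (𝓞 K) (𝓞 L)) = 𝔔.comap (algebraMap (𝓞 K) (𝓞 L)) := by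
    ext d
    rw [Ideal.mem_comap, Ideal.mem_comap]
    have h1 := ramA_fix c hcK d
    constructor
    · intro h
      rw [← h1, Ideal.smul_mem_pointwise_smul_iff] at h
      exact h
    · intro h
      rw [← h1, Ideal.smul_mem_pointwise_smul_iff]
      exact h
  have hq0 : Ideal.absNorm (𝔔.comap (algebraMap (𝓞 K) (𝓞 L))) ≠ 0 := by
    rw [Ne, Ideal.absNorm_eq_zero_iff]
    exact ramA_bot 𝔔 h0
  have hle := ramA_le (K := K) 𝔔 h0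
  have hle2 := ramA_le (K := K) (c • 𝔔) h02
  rw [hcom] at hle2
  have hn := ramA_norm h2 (𝔔.comap (algebraMap (𝓞 K) (𝓞 L)))
  have hd1 : (𝔔.comap (algebraMap (𝓞 K) (𝓞 L))).map (algebraMap (𝓞 K) (𝓞 L)) ≤ 𝔔 :=
    Ideal.map_comap_le
  have hd2 := ramA_sub c hcK 𝔔
  have hcop : IsCoprime 𝔔 (c • 𝔔) := by
    rw [Ideal.isCoprime_iff_sup_eq]
    exact hM.coprime_of_ne hM2 (Ne.symm hc)
  have hdv : 𝔔 * (c • 𝔔) ∣ (𝔔.comap (algebraMap (𝓞 K) (𝓞 L))).map (algebraMap (𝓞 K) (𝓞 L)) :=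
    hcop.mul_dvd (Ideal.dvd_iff_le.2 hd1) (Ideal.dvd_iff_le.2 hd2)
  obtain ⟨J, hJ⟩ := hdv
  have hn2 : Ideal.absNorm 𝔔 * Ideal.absNorm (c • 𝔔) * Ideal.absNorm J =
      Ideal.absNorm (𝔔.comap (algebraMap (𝓞 K) (𝓞 L))) ^ 2 := by
    rw [← hn, hJ, map_mul, map_mul]
  have hqp : 0 < Ideal.absNorm (𝔔.comap (algebraMap (𝓞 K) (𝓞 L))) := Nat.pos_of_ne_zero hq0
  have hJ1 : Ideal.absNorm J = 1 := by
    have h5 : Ideal.absNorm (𝔔.comap (algebraMap (𝓞 K) (𝓞 L))) ^ 2 ≤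
        Ideal.absNorm 𝔔 * Ideal.absNorm (c • 𝔔) := by
      rw [pow_two]
      exact Nat.mul_le_mul hle hle2
    have h6 : 0 < Ideal.absNorm J := by
      rcases Nat.eq_zero_or_pos (Ideal.absNorm J) with h7 | h7
      · rw [h7, mul_zero] at hn2
        exact absurd hn2.symm (pow_pos hqp 2).ne'
      · exact h7
    by_contra hne
    have h8 : 2 ≤ Ideal.absNorm J := by omega
    have h9 : Ideal.absNorm 𝔔 * Ideal.absNorm (c • 𝔔) * 2 ≤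
        Ideal.absNorm 𝔔 * Ideal.absNorm (c • 𝔔) * Ideal.absNorm J := Nat.mul_le_mul_left _ h8
    have h10 : 0 < Ideal.absNorm (𝔔.comap (algebraMap (𝓞 K) (𝓞 L))) ^ 2 := pow_pos hqp 2
    omega
  rw [Ideal.absNorm_eq_one_iff] at hJ1
  rw [hJ1, Ideal.mul_top] at hJ
  exact hJ

end Pool.Agent.FR2
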