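import Pool.Agent.FR2.DefsK

/-!
# FR2-RamB: ideals whose extension is a square

If `𝔫 𝓞 L = J ^ 2`, the multiplicity in `𝔫` of a prime ideal which does not contain `r` is even. So all
multiplicities in `𝔫 (σ 𝔫)` are even, and `𝔫 (σ 𝔫)` is a square.
-/

open NumberField Pointwise Finset

namespace Pool.Agent.FR2

private theorem ramB_sq {A : Type} [CommRing A] [IsDedekindDomain A] (I : Ideal A) (h0 : I ≠ ⊥)
    (h : ∀ p ∈ UniqueFactorizationMonoid.normalizedFactors I,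
      Even ((UniqueFactorizationMonoid.normalizedFactors I).count p)) : ∃ b : Ideal A, I = b ^ 2 := by
  classical
  refine ⟨∏ p ∈ (UniqueFactorizationMonoid.normalizedFactors I).toFinset,
    p ^ ((UniqueFactorizationMonoid.normalizedFactors I).count p / 2), ?_⟩
  rw [← Finset.prod_pow]
  conv_lhs => rw [← Ideal.prod_normalizedFactors_eq_self h0, Finset.prod_multiset_count]
  refine Finset.prod_congr rfl fun p hp => ?_
  rw [← pow_mul, Nat.div_mul_cancel (h p (Multiset.mem_toFinset.1 hp)).two_dvd]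

private theorem ramB_count {A : Type} [CommRing A] [IsDedekindDomain A] {p : Ideal A} (hp : p.IsPrime)
    (hp0 : p ≠ ⊥) {m : Ideal A} (hm : m ≠ ⊥) {n : ℕ} (hn : ¬ p ∣ m) :
    (UniqueFactorizationMonoid.normalizedFactors (p ^ n * m)).count p = n := by
  classical
  have hpp : Prime p := Ideal.prime_of_isPrime hp0 hp
  refine UniqueFactorizationMonoid.count_normalizedFactors_eq hpp.irreducible (normalize_eq p)
    (dvd_mul_right _ _) ?_
  rw [pow_succ]
  intro h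
  exact hn ((mul_dvd_mul_iff_left (pow_ne_zero n hpp.ne_zero)).1 h)

private theorem ramB_even {K L : Type} [Field K] [NumberField K] [Field L] [NumberField L]
    [Algebra K L] (r : ℕ)
    (hun : ∀ 𝔓 : Ideal (𝓞 L), 𝔓.IsPrime → 𝔓 ≠ ⊥ →
      𝔓 ^ 2 ∣ (𝔓.comap (algebraMap (𝓞 K) (𝓞 L))).map (algebraMap (𝓞 K) (𝓞 L)) → (r : 𝓞 L) ∈ 𝔓)
    (𝔫 : Ideal (𝓞 K)) (h0 : 𝔫 ≠ ⊥) (J : Ideal (𝓞 L))
    (hJ : 𝔫.map (algebraMap (𝓞 K) (𝓞 L)) = J ^ 2) {p : Ideal (𝓞 K)} (hp : p.IsPrime) (hp0 : p ≠ ⊥)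
    (hr : (r : 𝓞 K) ∉ p) : Even ((UniqueFactorizationMonoid.normalizedFactors 𝔫).count p) := by
  classical
  have hinj : Function.Injective (algebraMap (𝓞 K) (𝓞 L)) := FaithfulSMul.algebraMap_injective _ _
  have hmap0 : ∀ I : Ideal (𝓞 K), I ≠ ⊥ → I.map (algebraMap (𝓞 K) (𝓞 L)) ≠ ⊥ := by
    intro I hI h
    exact hI ((Ideal.map_eq_bot_iff_of_injective hinj).1 h)
  have hpp : Prime p := Ideal.prime_of_isPrime hp0 hp
  obtain ⟨n, m, hm, rfl⟩ := WfDvdMonoid.max_power_factor h0 hpp.irreducible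
  have hm0 : m ≠ ⊥ := by
    rintro rfl
    exact hm (dvd_zero _)
  rw [ramB_count hp hp0 hm0 hm]
  obtain ⟨P, hP, hPc⟩ : ∃ P : Ideal (𝓞 L), P.IsPrime ∧ P.comap (algebraMap (𝓞 K) (𝓞 L)) = p := by
    obtain ⟨P, -, h1, h2⟩ := Ideal.exists_ideal_over_prime_of_isIntegral p (⊥ : Ideal (𝓞 L)) (by
      rw [← RingHom.ker_eq_comap_bot, (RingHom.injective_iff_ker_eq_bot _).1 hinj]
      exact bot_le)
    exact ⟨P, h1, h2⟩
  have hP0 : P ≠ ⊥ := by
    rintro rfl
    rw [← RingHom.ker_eq_comap_bot, (RingHom.injective_iff_ker_eq_bot _).1 hinj] at hPc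
    exact hp0 hPc.symm
  have hPP : Prime P := Ideal.prime_of_isPrime hP0 hP
  have h1 : ¬ P ^ 2 ∣ p.map (algebraMap (𝓞 K) (𝓞 L)) := by
    intro h
    rw [← hPc] at h
    have h2 := hun P hP hP0 h
    apply hr
    rw [← hPc, Ideal.mem_comap, map_natCast]
    exact h2
  have h2 : P ∣ p.map (algebraMap (𝓞 K) (𝓞 L)) := by
    rw [Ideal.dvd_iff_le, Ideal.map_le_iff_le_comap, hPc]
  have h3 : (UniqueFactorizationMonoid.normalizedFactors (p.map (algebraMap (𝓞 K) (𝓞 L)))).count P = 1 :=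
    UniqueFactorizationMonoid.count_normalizedFactors_eq hPP.irreducible (normalize_eq P)
      (by rwa [pow_one]) (by exact h1)
  have h4 : (UniqueFactorizationMonoid.normalizedFactors (m.map (algebraMap (𝓞 K) (𝓞 L)))).count P = 0 := by
    refine UniqueFactorizationMonoid.count_normalizedFactors_eq hPP.irreducible (normalize_eq P)
      (by rw [pow_zero]; exact one_dvd _) ?_
    rw [zero_add, pow_one, Ideal.dvd_iff_le, Ideal.map_le_iff_le_comap, hPc, ← Ideal.dvd_iff_le]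
    exact hm
  have hJ0 : J ≠ ⊥ := by
    rintro rfl
    refine hmap0 _ h0 ?_
    rw [hJ]
    exact zero_pow two_ne_zero
  have h5 := congrArg (fun I => (UniqueFactorizationMonoid.normalizedFactors I).count P) hJ
  simp only [Ideal.map_mul, Ideal.map_pow] at h5
  rw [UniqueFactorizationMonoid.normalizedFactors_mul (pow_ne_zero _ (hmap0 p hp0)) (hmap0 m hm0),
    UniqueFactorizationMonoid.normalizedFactors_pow, UniqueFactorizationMonoid.normalizedFactors_pow,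
    Multiset.count_add, Multiset.count_nsmul, Multiset.count_nsmul, h3, h4, mul_one, add_zero] at h5
  rw [h5]
  exact even_two_mul _

private theorem ramB_smul {K : Type} [Field K] [NumberField K] (σ : Gal(K/ℚ)) (𝔫 : Ideal (𝓞 K))
    (h0 : 𝔫 ≠ ⊥) {p : Ideal (𝓞 K)} (hp : p.IsPrime) (hp0 : p ≠ ⊥) :
    (UniqueFactorizationMonoid.normalizedFactors (σ • 𝔫)).count p =
      (UniqueFactorizationMonoid.normalizedFactors 𝔫).count (σ⁻¹ • p) := by
  classical
  have hq : (σ⁻¹ • p).IsPrime := hp.smul σ⁻¹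
  have hq0 : σ⁻¹ • p ≠ ⊥ := by
    intro h
    apply hp0
    have h1 := congrArg (fun I => σ • I) h
    simp only [smul_inv_smul] at h1
    rw [h1]
    exact smul_zero σ
  have hqq : Prime (σ⁻¹ • p) := Ideal.prime_of_isPrime hq0 hq
  have hpp : Prime p := Ideal.prime_of_isPrime hp0 hp
  obtain ⟨n, m, hm, rfl⟩ := WfDvdMonoid.max_power_factor h0 hqq.irreducible
  have hm0 : m ≠ ⊥ := by
    rintro rfl
    exact hm (dvd_zero _)
  have h1 : σ • ((σ⁻¹ • p) ^ n * m) = p ^ n * (σ • m) := by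
    rw [smul_mul', smul_pow', smul_inv_smul]
  rw [ramB_count hq hq0 hm0 hm, h1]
  refine ramB_count hp hp0 ?_ ?_
  · intro h
    apply hm0
    have h2 := congrArg (fun I => σ⁻¹ • I) h
    simp only [inv_smul_smul] at h2
    rw [h2]
    exact smul_zero σ⁻¹
  · intro h
    apply hm
    rw [Ideal.dvd_iff_le] at h ⊢
    have h2 := (Ideal.pointwise_smul_le_pointwise_smul_iff (a := σ⁻¹)).2 h
    rwa [inv_smul_smul] at h2

theorem ramB {K L : Type} [Field K] [NumberField K] [Field L] [NumberField L]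
    [Algebra K L] (r : ℕ)
    (hun : ∀ 𝔓 : Ideal (𝓞 L), 𝔓.IsPrime → 𝔓 ≠ ⊥ →
      𝔓 ^ 2 ∣ (𝔓.comap (algebraMap (𝓞 K) (𝓞 L))).map (algebraMap (𝓞 K) (𝓞 L)) → (r : 𝓞 L) ∈ 𝔓)
    (𝔫 : Ideal (𝓞 K)) (h0 : 𝔫 ≠ ⊥) (J : Ideal (𝓞 L))
    (hJ : 𝔫.map (algebraMap (𝓞 K) (𝓞 L)) = J ^ 2) (σ : Gal(K/ℚ))
    (hσ : ∀ 𝔭 : Ideal (𝓞 K), 𝔭.IsPrime → (r : 𝓞 K) ∈ 𝔭 → σ • 𝔭 = 𝔭) :
    ∃ 𝔟 : Ideal (𝓞 K), 𝔫 * (σ • 𝔫) = 𝔟 ^ 2 := by
  classical
  have hs0 : σ • 𝔫 ≠ ⊥ := by
    intro h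
    apply h0
    have h2 := congrArg (fun I => σ⁻¹ • I) h
    simp only [inv_smul_smul] at h2
    rw [h2]
    exact smul_zero σ⁻¹
  refine ramB_sq _ (mul_ne_zero h0 hs0) fun p hp => ?_
  have hpp : Prime p := UniqueFactorizationMonoid.prime_of_normalized_factor p hp
  have hp0 : p ≠ ⊥ := hpp.ne_zero
  have hpi : p.IsPrime := Ideal.isPrime_of_prime hpp
  rw [UniqueFactorizationMonoid.normalizedFactors_mul h0 hs0, Multiset.count_add,
    ramB_smul σ 𝔫 h0 hpi hp0]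
  by_cases hr : (r : 𝓞 K) ∈ p
  · have h1 : σ⁻¹ • p = p := by
      rw [inv_smul_eq_iff]
      exact (hσ p hpi hr).symm
    rw [h1]
    exact ⟨_, rfl⟩
  · refine (ramB_even r hun 𝔫 h0 J hJ hpi hp0 hr).add
      (ramB_even r hun 𝔫 h0 J hJ (hpi.smul σ⁻¹) ?_ ?_)
    · intro h
      apply hp0
      have h1 := congrArg (fun I => σ • I) h
      simp only [smul_inv_smul] at h1
      rw [h1]
      exact smul_zero σ
    · intro h
      apply hr
      have h1 := Ideal.smul_mem_pointwise_smul σ _ _ h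
      rw [smul_inv_smul] at h1
      have h2 : σ • (r : 𝓞 K) = r := by
        exact map_natCast (MulSemiringAction.toRingHom Gal(K/ℚ) (𝓞 K) σ) r
      rwa [h2] at h1

end Pool.Agent.FR2
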