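import Pool.Agent.FR2.DefsK

/-!
# FR2: a section of the restriction map of Galois groups for a quadratic extension

The automorphisms of `L` which fix `δ` are in bijection with the automorphisms of `K`; the kernel
of the restriction map is `{1, c}`, so `L` has degree two over `K`.
-/

open NumberField Pointwise Finset

namespace Pool.Agent.FR2

private theorem sec_ne_neg {L : Type} [Field L] [NumberField L] {δ : 𝓞 L} (hδ0 : δ ≠ 0) :
    δ ≠ -δ := by
  intro h
  have h2 : (2 : 𝓞 L) * δ = 0 := by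
    have : δ + δ = 0 := by
      nth_rewrite 1 [h]
      exact neg_add_cancel δ
    rw [two_mul]; exact this
  rcases mul_eq_zero.1 h2 with h | h
  · exact two_ne_zero h
  · exact hδ0 h

private theorem sec_card {G H : Type} [Group G] [Group H] [Finite G] (R : G →* H)
    (hR : Function.Surjective R) (c : G) (hc1 : c ≠ 1) (hcc : c * c = 1) (hcR : R c = 1)
    (hk : ∀ σ, R σ = 1 → σ = 1 ∨ σ = c) : Nat.card G = Nat.card H * 2 := by
  have hker : R.ker = Subgroup.zpowers c := by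
    ext σ
    rw [MonoidHom.mem_ker, Subgroup.mem_zpowers_iff]
    constructor
    · intro h
      rcases hk σ h with rfl | rfl
      · exact ⟨0, zpow_zero c⟩
      · exact ⟨1, zpow_one σ⟩
    · rintro ⟨k, rfl⟩
      rw [map_zpow, hcR, one_zpow]
  have ho : orderOf c = 2 := by
    rw [orderOf_eq_prime_iff]
    exact ⟨by rw [pow_two, hcc], hc1⟩
  have h1 := Subgroup.card_eq_card_quotient_mul_card_subgroup R.ker
  rw [h1, Nat.card_congr (QuotientGroup.quotientKerEquivOfSurjective R hR).toEquiv, hker,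
    Nat.card_zpowers, ho]

theorem sec {K L : Type} [Field K] [NumberField K] [IsGalois ℚ K] [Field L] [NumberField L]
    [IsGalois ℚ L] [Algebra K L] (δ : 𝓞 L) (hδ0 : δ ≠ 0) (c : Gal(L/ℚ))
    (hcK : rs (K := K) c = 1) (hc : c • δ = -δ)
    (hsig : ∀ σ : Gal(L/ℚ), σ • δ = δ ∨ σ • δ = -δ)
    (hker : ∀ σ : Gal(L/ℚ), rs (K := K) σ = 1 → σ • δ = δ → σ = 1) :
    c * c = 1 ∧ c ≠ 1 ∧ Module.finrank K L = 2 ∧
    ∃ s : Gal(K/ℚ) →* Gal(L/ℚ), (∀ ρ, rs (K := K) (s ρ) = ρ ∧ s ρ • δ = δ) ∧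
      ∀ σ : Gal(L/ℚ), (σ • δ = δ → σ = s (rs (K := K) σ)) ∧
        (σ • δ = -δ → σ = c * s (rs (K := K) σ)) := by
  have hne : δ ≠ -δ := sec_ne_neg hδ0
  have hR : Function.Surjective (rs (K := K) (F := L)) :=
    AlgEquiv.restrictNormalHom_surjective L
  have hcc : c * c = 1 := by
    refine hker _ ?_ ?_
    · rw [map_mul, hcK, one_mul]
    · rw [mul_smul, hc, smul_neg, hc, neg_neg]
  have hc1 : c ≠ 1 := by
    rintro rfl
    rw [one_smul] at hc
    exact hne hc
  have huniq : ∀ σ τ : Gal(L/ℚ), rs (K := K) σ = rs (K := K) τ → σ • δ = δ → τ • δ = δ →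
      σ = τ := by
    intro σ τ h h1 h2
    have h3 : τ⁻¹ * σ = 1 := by
      refine hker _ ?_ ?_
      · rw [map_mul, map_inv, h, inv_mul_cancel]
      · rw [mul_smul, h1, inv_smul_eq_iff, h2]
    exact (inv_mul_eq_one.1 h3).symm
  have hex : ∀ ρ : Gal(K/ℚ), ∃ σ : Gal(L/ℚ), rs (K := K) σ = ρ ∧ σ • δ = δ := by
    intro ρ
    obtain ⟨σ, hσ⟩ := hR ρ
    rcases hsig σ with h | h
    · exact ⟨σ, hσ, h⟩
    · refine ⟨c * σ, ?_, ?_⟩
      · rw [map_mul, hcK, one_mul, hσ]
      · rw [mul_smul, h, smul_neg, hc, neg_neg]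
  choose s hs1 hs2 using hex
  have hone : s 1 = 1 := huniq _ _ (by rw [hs1, map_one]) (hs2 1) (one_smul _ δ)
  have hmul : ∀ ρ ρ' : Gal(K/ℚ), s (ρ * ρ') = s ρ * s ρ' := by
    intro ρ ρ'
    refine huniq _ _ ?_ (hs2 _) ?_
    · rw [map_mul, hs1, hs1, hs1]
    · rw [mul_smul, hs2, hs2]
  refine ⟨hcc, hc1, ?_, ⟨⟨s, hone⟩, hmul⟩, fun ρ => ⟨hs1 ρ, hs2 ρ⟩, fun σ => ⟨fun h => ?_,
    fun h => ?_⟩⟩
  · have h1 := sec_card (rs (K := K) (F := L)) hR c hc1 hcc hcK (by
      intro σ hσ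
      rcases hsig σ with h | h
      · exact Or.inl (hker σ hσ h)
      · right
        have h3 : c * σ = 1 := by
          refine hker _ ?_ ?_
          · rw [map_mul, hcK, one_mul, hσ]
          · rw [mul_smul, h, smul_neg, hc, neg_neg]
        calc σ = c * c * σ := by rw [hcc, one_mul]
          _ = c := by rw [mul_assoc, h3, mul_one])
    rw [IsGalois.card_aut_eq_finrank, IsGalois.card_aut_eq_finrank,
      ← Module.finrank_mul_finrank ℚ K L] at h1
    exact Nat.eq_of_mul_eq_mul_left Module.finrank_pos h1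
  · exact huniq _ _ (hs1 _).symm h (hs2 _)
  · have h2 : c * σ = s (rs (K := K) σ) := by
      refine huniq _ _ ?_ ?_ (hs2 _)
      · rw [map_mul, hcK, one_mul, hs1]
      · rw [mul_smul, h, smul_neg, hc, neg_neg]
    calc σ = c * c * σ := by rw [hcc, one_mul]
      _ = c * s (rs (K := K) σ) := by rw [mul_assoc, h2]

end Pool.Agent.FR2
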