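import Pool.Agent.FR2.StkP

/-!
# FR2-StkL (helper91): Stickelberger's theorem with an explicit generator, for a Galois subfield

`L ⊆ M = ℚ(ζ_m)`, `Q` a prime of `L`. The generator is the product of `h γ_P` over the primes `h P` of `M`
over `Q`, `h ∈ Gal(M/L)`.
-/

open NumberField Pointwise

namespace Pool.Agent.FR2

open Pool.Agent.AAP

section

variable {L M : Type} [Field L] [NumberField L] [Field M] [NumberField M] [Algebra L M]

private theorem sl_map [Normal ℚ L] (σ : Gal(M/ℚ)) (𝔟 : Ideal (𝓞 L)) :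
    (AlgEquiv.restrictNormalHom L σ • 𝔟).map (algebraMap (𝓞 L) (𝓞 M)) =
      σ • 𝔟.map (algebraMap (𝓞 L) (𝓞 M)) := by
  rw [Ideal.pointwise_smul_def, Ideal.pointwise_smul_def, Ideal.map_map, Ideal.map_map]
  congr 1
  ext x
  exact AlgEquiv.restrictNormal_commutes σ L (x : L)

private theorem sl_elt [Normal ℚ L] (σ : Gal(M/ℚ)) (x : 𝓞 L) :
    algebraMap (𝓞 L) (𝓞 M) (AlgEquiv.restrictNormalHom L σ • x) =
      σ • algebraMap (𝓞 L) (𝓞 M) x := by
  apply RingOfIntegers.ext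
  exact AlgEquiv.restrictNormal_commutes σ L (x : L)

private theorem sl_fix [IsGalois L M] (y : 𝓞 M) (hy : ∀ g : Gal(M/L), g • y = y) :
    ∃ x : 𝓞 L, algebraMap (𝓞 L) (𝓞 M) x = y := by
  obtain ⟨x, hx⟩ := (IsGalois.mem_range_algebraMap_iff_fixed (F := L) (E := M) (y : M)).2 (fun g => by
    have h1 := congrArg (fun z : 𝓞 M => (z : M)) (hy g)
    exact h1)
  have h1 : IsIntegral ℤ x := by
    have h2 : IsIntegral ℤ (algebraMap L M x) := by
      rw [hx]
      exact RingOfIntegers.isIntegral_coe y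
    exact (isIntegral_algebraMap_iff (algebraMap L M).injective).1 h2
  refine ⟨⟨x, h1⟩, ?_⟩
  apply RingOfIntegers.ext
  exact hx

/-- primes not containing `m` are unramified -/
private theorem sl_unr (m : ℕ) [NeZero m] [IsCyclotomicExtension {m} ℚ M] (Q : Ideal (𝓞 L))
    [Q.IsMaximal] (h0 : Q ≠ ⊥) (hmQ : (m : 𝓞 L) ∉ Q) :
    Q.map (algebraMap (𝓞 L) (𝓞 M)) = ∏ P ∈ Q.primesOver (𝓞 M), P := by
  rw [Ideal.map_algebraMap_eq_finsetProd_pow h0]
  refine Finset.prod_congr rfl fun P hP => ?_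
  rw [Set.mem_toFinset] at hP
  have h1 := hP.1
  have h2 := hP.2
  suffices h : P.ramificationIdx (𝓞 L) = 1 by rw [h, pow_one]
  have hP0 : P ≠ ⊥ := by
    rintro rfl
    apply h0
    rw [h2.over]
    exact Ideal.comap_bot_of_injective _ (FaithfulSMul.algebraMap_injective (𝓞 L) (𝓞 M))
  have hmP : (m : 𝓞 M) ∉ P := by
    intro h
    apply hmQ
    rw [h2.over, Ideal.mem_comap, map_natCast]
    exact h
  have hu0 : P.under ℤ ≠ ⊥ := Ideal.IsIntegral.comap_ne_bot ℤ hP0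
  have hup : (P.under ℤ).IsPrime := inferInstance
  obtain ⟨p, hp, hpu⟩ : ∃ p : ℕ, p.Prime ∧ P.under ℤ = Ideal.span {(p : ℤ)} := by
    obtain ⟨n, hn⟩ := (IsPrincipalIdealRing.principal (P.under ℤ)).principal
    have hn' : P.under ℤ = Ideal.span {n} := hn
    have hn0 : n ≠ 0 := by
      rintro rfl
      apply hu0
      rw [hn', Ideal.span_singleton_eq_bot]
    have hpr : Prime n := (Ideal.span_singleton_prime hn0).1 (hn' ▸ hup)
    refine ⟨n.natAbs, Int.prime_iff_natAbs_prime.1 hpr, ?_⟩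
    rw [hn', Int.span_natAbs]
  have : Fact p.Prime := ⟨hp⟩
  have hlies : P.LiesOver (Ideal.span {(p : ℤ)}) := ⟨hpu.symm⟩
  have hpm : ¬ p ∣ m := by
    rintro ⟨d, hd⟩
    apply hmP
    have h3 : (p : 𝓞 M) ∈ P := by
      have h4 : (p : ℤ) ∈ P.under ℤ := by rw [hpu]; exact Ideal.mem_span_singleton_self _
      rw [Ideal.mem_comap, map_natCast] at h4
      exact h4
    rw [hd]
    push_cast
    exact P.mul_mem_right _ h3
  have h3 := IsCyclotomicExtension.Rat.ramificationIdx_eq_of_not_dvd (m := m) p M P hpm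
  have h4 : P.ramificationIdx (𝓞 L) ∣ P.ramificationIdx ℤ :=
    Ideal.ramificationIdx_above_dvd (R := ℤ) Q P
  rw [h3] at h4
  exact Nat.dvd_one.1 h4

end

theorem stickL (m c : ℕ) [NeZero m] (hm : 2 < m) (hc : 1 < c) (hcm : c < m) (hcop : c.Coprime m)
    (M : Type) [Field M] [NumberField M] [IsCyclotomicExtension {m} ℚ M]
    (L : Type) [Field L] [NumberField L] [IsGalois ℚ L] [Algebra L M] (Q : Ideal (𝓞 L))
    (hQ : Q.IsPrime) (h0 : Q ≠ ⊥) (hmQ : (m : 𝓞 L) ∉ Q) :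
    ∃ (γ : 𝓞 L) (x : ℕ), ∏ a : (ZMod m)ˣ,
        (AlgEquiv.restrictNormalHom L ((gq m M).symm a⁻¹) • Q) ^ fl c m a = Ideal.span {γ} ∧
      γ * (AlgEquiv.restrictNormalHom L ((gq m M).symm (-1)) • γ) = (x : 𝓞 L) ^ (c - 1) := by
  classical
  have hgM : IsGalois ℚ M := IsCyclotomicExtension.isGalois {m} ℚ M
  have hgLM : IsGalois L M := IsGalois.tower_top_of_isGalois ℚ L M
  have hQm : Q.IsMaximal := hQ.isMaximal h0
  obtain ⟨⟨P, hP, hPQ⟩⟩ := Q.nonempty_primesOver (S := 𝓞 M)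
  have hinj := FaithfulSMul.algebraMap_injective (𝓞 L) (𝓞 M)
  have hP0 : P ≠ ⊥ := by
    rintro rfl
    apply h0
    rw [hPQ.over]
    exact Ideal.comap_bot_of_injective _ hinj
  have hmP : (m : 𝓞 M) ∉ P := by
    intro h
    apply hmQ
    rw [hPQ.over, Ideal.mem_comap, map_natCast]
    exact h
  obtain ⟨γ, x, h1, h2, h3⟩ := stickP2 m c hm hc hcm hcop M P hP hP0 hmP
  have hcomm : ∀ σ τ : Gal(M/ℚ), σ * τ = τ * σ := by
    intro σ τ
    apply (gq m M).injective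
    rw [map_mul, map_mul, mul_comm]
  let ρ : Gal(M/L) → Gal(M/ℚ) := fun h => h.restrictScalars ℚ
  have hρI : ∀ (h : Gal(M/L)) (I : Ideal (𝓞 M)), h • I = ρ h • I := fun _ _ => rfl
  have hρx : ∀ (h : Gal(M/L)) (y : 𝓞 M), h • y = ρ h • y := fun _ _ => rfl
  have hρm : ∀ h k : Gal(M/L), ρ (h * k) = ρ h * ρ k := fun _ _ => rfl
  -- the stabiliser of `P` fixes `γ`
  have hst : ∀ g k : Gal(M/L), g • P = k • P → g • γ = k • γ := by
    intro g k hgk
    have h4 : (k⁻¹ * g) • P = P := by rw [mul_smul, hgk, inv_smul_smul]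
    have h5 : (k⁻¹ * g) • γ = γ := by
      rw [hρx]
      apply h3
      rw [← hρI]
      exact h4
    calc g • γ = k • ((k⁻¹ * g) • γ) := by rw [smul_smul, mul_inv_cancel_left]
      _ = k • γ := by rw [h5]
  have hex : ∀ P' : Ideal (𝓞 M), ∃ h : Gal(M/L), P' ∈ Q.primesOver (𝓞 M) → h • P = P' := by
    intro P'
    by_cases hP' : P' ∈ Q.primesOver (𝓞 M)
    · have h4 := hP'.1
      have h5 := hP'.2
      obtain ⟨g, hg⟩ := Ideal.exists_smul_eq_of_isGaloisGroup Q P P' Gal(M/L)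
      exact ⟨g, fun _ => hg⟩
    · exact ⟨1, fun h => absurd h hP'⟩
  choose η hη using hex
  obtain ⟨S, hS⟩ : ∃ S, S = (Q.primesOver (𝓞 M)).toFinset := ⟨_, rfl⟩
  have hSm : ∀ P', P' ∈ S ↔ P' ∈ Q.primesOver (𝓞 M) := fun P' => by rw [hS, Set.mem_toFinset]
  have hSsmul : ∀ (g : Gal(M/L)) (P' : Ideal (𝓞 M)), P' ∈ S → g • P' ∈ S := by
    intro g P' hP'
    rw [hSm] at hP' ⊢
    have h4 := hP'.1
    have h5 := hP'.2
    exact ⟨inferInstance, inferInstance⟩
  obtain ⟨Γ, hΓ⟩ : ∃ Γ : 𝓞 M, Γ = ∏ P' ∈ S, η P' • γ := ⟨_, rfl⟩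
  have hfix : ∀ g : Gal(M/L), g • Γ = Γ := by
    intro g
    rw [hΓ, Finset.smul_prod']
    refine Finset.prod_bij (fun P' _ => g • P') (fun P' hP' => hSsmul g P' hP') ?_ ?_ ?_
    · intro P1 _ P2 _ h
      exact smul_left_cancel g h
    · intro P' hP'
      exact ⟨g⁻¹ • P', hSsmul g⁻¹ P' hP', smul_inv_smul g P'⟩
    · intro P' hP'
      rw [smul_smul]
      apply hst
      rw [mul_smul, hη P' ((hSm _).1 hP'), hη (g • P') ((hSm _).1 (hSsmul g P' hP'))]
  obtain ⟨δ, hδ⟩ := sl_fix Γ hfix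
  refine ⟨δ, x ^ S.card, ?_, ?_⟩
  · apply Ideal.map_injective_of_faithfullyFlat (A := 𝓞 L) (B := 𝓞 M)
    have h4 : Ideal.map (algebraMap (𝓞 L) (𝓞 M)) (∏ a : (ZMod m)ˣ,
        (AlgEquiv.restrictNormalHom L ((gq m M).symm a⁻¹) • Q) ^ fl c m a) =
        ∏ a : (ZMod m)ˣ, ((gq m M).symm a⁻¹ • Q.map (algebraMap (𝓞 L) (𝓞 M))) ^ fl c m a := by
      have h5 := map_prod (Ideal.mapHom (algebraMap (𝓞 L) (𝓞 M)))
        (fun a : (ZMod m)ˣ => (AlgEquiv.restrictNormalHom L ((gq m M).symm a⁻¹) • Q) ^ fl c m a)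
        Finset.univ
      refine h5.trans (Finset.prod_congr rfl fun a _ => ?_)
      refine (map_pow (Ideal.mapHom (algebraMap (𝓞 L) (𝓞 M))) _ _).trans ?_
      exact congrArg (· ^ fl c m a) (sl_map ((gq m M).symm a⁻¹) Q)
    rw [h4, Ideal.map_span, Set.image_singleton, hδ, hΓ, ← Ideal.prod_span_singleton]
    have h5 : ∀ P' ∈ S, Ideal.span {η P' • γ} =
        ∏ a : (ZMod m)ˣ, ((gq m M).symm a⁻¹ • P') ^ fl c m a := by
      intro P' hP'
      have h6 : Ideal.span {η P' • γ} = ρ (η P') • Ideal.span {γ} := by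
        rw [Ideal.smul_closure, Set.smul_set_singleton]
        rfl
      rw [h6, ← h1, Finset.smul_prod']
      refine Finset.prod_congr rfl fun a _ => ?_
      rw [smul_pow', smul_smul, hcomm, mul_smul, ← hρI, hη P' ((hSm _).1 hP')]
    rw [Finset.prod_congr rfl h5, Finset.prod_comm]
    refine Finset.prod_congr rfl fun a _ => ?_
    rw [sl_unr m Q h0 hmQ, Finset.smul_prod', Finset.prod_pow, hS]
  · apply hinj
    rw [map_mul, sl_elt, hδ, hΓ, Finset.smul_prod', ← Finset.prod_mul_distrib, map_pow,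
      map_natCast]
    have h4 : ∀ P' ∈ S, η P' • γ * (gq m M).symm (-1) • η P' • γ = (x : 𝓞 M) ^ (c - 1) := by
      intro P' _
      have h5 : (gq m M).symm (-1) • η P' • γ = η P' • (gq m M).symm (-1) • γ := by
        rw [hρx, hρx, smul_smul, smul_smul, hcomm]
      rw [h5, ← smul_mul', h2, hρx]
      have h6 : ρ (η P') • ((x : 𝓞 M) ^ (c - 1)) =
        MulSemiringAction.toRingHom Gal(M/ℚ) (𝓞 M) (ρ (η P')) ((x : 𝓞 M) ^ (c - 1)) := rfl
      rw [h6, map_pow, map_natCast]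
    rw [Finset.prod_congr rfl h4, Finset.prod_const]
    push_cast
    rw [← pow_mul, ← pow_mul, mul_comm]

end Pool.Agent.FR2
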