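import Pool.Agent.FR2.DefsK
import Pool.Agent.FR2.StkL

/-!
# FR2-StC: Stickelberger's theorem in a subfield, for a completely split prime

The case `c = 2` of `stickL` (`StkL.lean`, helper91).
-/

open NumberField Pointwise Finset

namespace Pool.Agent.FR2

theorem stC (m : ℕ) [NeZero m] (hm : 2 < m) (hodd : Odd m) (F L : Type) [Field F] [NumberField F]
    [IsCyclotomicExtension {m} ℚ F] [Field L] [NumberField L] [IsGalois ℚ L] [Algebra L F]
    (Q : Ideal (𝓞 L)) (hQ : Q.IsPrime) (h0 : Q ≠ ⊥) (hQm : (m : 𝓞 L) ∉ Q)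
    (_hdec : ∀ σ : Gal(L/ℚ), σ • Q = Q → σ = 1) :
    ∃ (x : 𝓞 L) (n : ℕ), 0 < n ∧
      Ideal.span {x} =
        ∏ a : (ZMod m)ˣ, (rs (K := L) ((AAP.gq m F).symm a⁻¹) • Q) ^ AAP.fl 2 m a ∧
      x * (rs (K := L) ((AAP.gq m F).symm (-1)) • x) = (n : 𝓞 L) := by
  obtain ⟨γ, n, h1, h2⟩ := stickL m 2 hm (by norm_num) hm
    ((Nat.coprime_two_left).2 hodd) F L Q hQ h0 hQm
  have h3 : Ideal.span {γ} ≠ ⊥ := by
    rw [← h1]
    refine Finset.prod_ne_zero_iff.2 fun a _ => pow_ne_zero _ fun h => h0 ?_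
    have h4 := congrArg (fun I => (AlgEquiv.restrictNormalHom L ((AAP.gq m F).symm a⁻¹))⁻¹ • I) h
    simpa [inv_smul_smul] using h4
  have h5 : γ ≠ 0 := fun h => h3 (by rw [h, Ideal.span_singleton_eq_bot])
  refine ⟨γ, n, ?_, h1.symm, ?_⟩
  · rcases Nat.eq_zero_or_pos n with h | h
    · exfalso
      rw [h] at h2
      have h6 : γ * (AlgEquiv.restrictNormalHom L ((AAP.gq m F).symm (-1)) • γ) = 0 := by
        rw [h2]; simp
      rcases mul_eq_zero.1 h6 with h7 | h7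
      · exact h5 h7
      · have h8 := congrArg (fun y => (AlgEquiv.restrictNormalHom L ((AAP.gq m F).symm (-1)))⁻¹ • y) h7
        exact h5 (by simpa using h8)
    · exact h
  · have h6 := h2
    rw [show 2 - 1 = 1 from rfl, pow_one] at h6
    exact h6

end Pool.Agent.FR2
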