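import Pool.Agent.FR2.HfE
import Pool.Agent.FR2.StC
import Pool.Agent.FR2.Hc
import Pool.Agent.FR2.RamA
import Pool.Agent.FR2.RamB
import Pool.Agent.FR2.LocK
import Pool.Agent.FR2.Sec

/-!
# FR2-HfC: Half for the completely split primes (assembly)

`K ⊆ L ⊆ F = ℚ(ζ_{fr})`, `δ^2 = -r`, `c` the restriction to `L` of the automorphism `-1` of `F`: `c δ = -δ`, and
`c` is trivial on `K`. A prime ideal `𝔔` of `𝓞 L` over `𝔮` has trivial decomposition group in `Gal(L/ℚ)`.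
`stC`, `hfE` and `hc` give `w`, `J` with `(w (c w)) ∏ s(ρ) (𝔔 (c 𝔔))^(t₁ ρ) = J ^ 2`; by `splA` this is the
extension of an ideal `𝔫` of `𝓞 K`, and by `ramA`, `ramB` the product of `𝔫` and `σᵣ 𝔫` is a square.
-/

open NumberField Pointwise Finset

namespace Pool.Agent.FR2

section

variable {K L : Type} [Field K] [NumberField K] [IsGalois ℚ K] [Field L] [NumberField L]
  [Algebra K L]

private theorem hfC_alg (σ : Gal(L/ℚ)) (x : 𝓞 K) :
    σ • algebraMap (𝓞 K) (𝓞 L) x = algebraMap (𝓞 K) (𝓞 L) (rs (K := K) σ • x) := by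
  apply RingOfIntegers.ext
  exact (AlgEquiv.restrictNormal_commutes σ K (x : K)).symm

private theorem hfC_map (σ : Gal(L/ℚ)) (I : Ideal (𝓞 K)) :
    σ • I.map (algebraMap (𝓞 K) (𝓞 L)) =
      (rs (K := K) σ • I).map (algebraMap (𝓞 K) (𝓞 L)) := by
  rw [Ideal.pointwise_smul_def, Ideal.pointwise_smul_def, Ideal.map_map, Ideal.map_map]
  congr 1
  exact RingHom.ext fun x => hfC_alg σ x

private theorem hfC_comap (P : Ideal (𝓞 L)) (σ : Gal(L/ℚ)) (h : σ • P = P) :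
    rs (K := K) σ • P.comap (algebraMap (𝓞 K) (𝓞 L)) =
      P.comap (algebraMap (𝓞 K) (𝓞 L)) := by
  ext x
  rw [Ideal.mem_pointwise_smul_iff_inv_smul_mem, ← map_inv, Ideal.mem_comap, Ideal.mem_comap,
    ← hfC_alg, ← Ideal.mem_pointwise_smul_iff_inv_smul_mem, h]

private theorem hfC_fix [IsGalois ℚ L] (z : 𝓞 L)
    (h : ∀ σ : Gal(L/ℚ), rs (K := K) σ = 1 → σ • z = z) :
    ∃ x : 𝓞 K, algebraMap (𝓞 K) (𝓞 L) x = z := by
  have hG : IsGalois K L := IsGalois.tower_top_of_isGalois ℚ K L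
  have h1 : (z : L) ∈ Set.range (algebraMap K L) := by
    rw [IsGalois.mem_range_algebraMap_iff_fixed]
    intro f
    have h2 := h (f.restrictScalars ℚ) (by
      apply AlgEquiv.ext
      intro y
      apply (algebraMap K L).injective
      refine (AlgEquiv.restrictNormal_commutes (f.restrictScalars ℚ) K y).trans ?_
      exact f.commutes y)
    exact congrArg (fun w : 𝓞 L => (w : L)) h2
  obtain ⟨y, hy⟩ := h1
  have h3 : IsIntegral ℤ y := by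
    rw [← isIntegral_algebraMap_iff (algebraMap K L).injective, hy]
    exact z.2
  exact ⟨⟨y, h3⟩, RingOfIntegers.ext hy⟩

end

private theorem hfC_rs {K L F : Type} [Field K] [NumberField K] [IsGalois ℚ K] [Field L]
    [NumberField L] [IsGalois ℚ L] [Field F] [NumberField F] [Algebra K L] [Algebra L F]
    [Algebra K F] [IsScalarTower K L F] (σ : Gal(F/ℚ)) :
    rs (K := K) (rs (K := L) σ) = rs (K := K) σ := by
  apply AlgEquiv.ext
  intro x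
  apply (algebraMap K F).injective
  have h1 : algebraMap K F (rs (K := K) σ x) = σ (algebraMap K F x) :=
    AlgEquiv.restrictNormal_commutes σ K x
  have h2 : algebraMap K L (rs (K := K) (rs (K := L) σ) x) = rs (K := L) σ (algebraMap K L x) :=
    AlgEquiv.restrictNormal_commutes (rs (K := L) σ) K x
  have h3 : algebraMap L F (rs (K := L) σ (algebraMap K L x)) =
      σ (algebraMap L F (algebraMap K L x)) :=
    AlgEquiv.restrictNormal_commutes σ L (algebraMap K L x)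
  rw [h1, IsScalarTower.algebraMap_apply K L F, h2, h3, ← IsScalarTower.algebraMap_apply K L F]

private theorem hfC_span {K : Type} [Field K] [NumberField K] (σ : Gal(K/ℚ)) (x : 𝓞 K) :
    σ • Ideal.span {x} = Ideal.span {σ • x} := by
  rw [Ideal.pointwise_smul_def, Ideal.map_span, Set.image_singleton]
  rfl

private theorem hfC_es_shift {G k : Type} [Group G] [Fintype G] [Field k] (ψ : G →* kˣ)
    (t : G → ℕ) (g : G) : es ψ (fun ρ => t (g⁻¹ * ρ)) = (ψ g : k) * es ψ t := by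
  unfold es
  rw [Finset.mul_sum, ← (Group.mulLeft_bijective g).sum_comp]
  apply Finset.sum_congr rfl
  intro σ _
  show ((t (g⁻¹ * (g * σ)) : ℕ) : k) * (ψ (g * σ) : k) = _
  rw [inv_mul_cancel_left, map_mul, Units.val_mul]
  ring

private theorem hfC_es_add {G k : Type} [Group G] [Fintype G] [Field k] (ψ : G →* kˣ)
    (t t' : G → ℕ) : es ψ (fun ρ => t ρ + t' ρ) = es ψ t + es ψ t' := by
  unfold es
  rw [← Finset.sum_add_distrib]
  apply Finset.sum_congr rfl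
  intro σ _
  push_cast
  ring

private theorem hfC_es_const {G k : Type} [Group G] [Fintype G] [Field k] (ψ : G →* kˣ)
    (A : ℕ) (g : G) (hg : ψ g ≠ 1) : es ψ (fun _ => A) = 0 := by
  have h := hfC_es_shift ψ (fun _ => A) g
  have h1 : ((ψ g : kˣ) : k) - 1 ≠ 0 := by
    rw [sub_ne_zero]
    intro h2
    exact hg (Units.ext h2)
  have h2 : (((ψ g : kˣ) : k) - 1) * es ψ (fun _ : G => A) = 0 := by
    rw [sub_mul, one_mul, ← h, sub_self]
  exact (mul_eq_zero.1 h2).resolve_left h1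

private theorem hfC_two {k : Type} [Field k] [CharP k 2] {u : kˣ} (hu : u ≠ 1) :
    (1 : k) + (u : k) ≠ 0 := by
  intro h
  exact hu (Units.ext (CharTwo.add_eq_zero.1 h).symm)

private theorem hfC_eps {L : Type} [Field L] [NumberField L] (r : ℕ) (hr4 : r % 4 = 3)
    (δ : 𝓞 L) (hδ2 : δ ^ 2 = -(r : 𝓞 L)) (c : Gal(L/ℚ)) (hc : c • δ = -δ) :
    ∃ ε : 𝓞 L, (ε - c • ε) ^ 2 = -(r : 𝓞 L) := by
  obtain ⟨q, hq⟩ : ∃ q : ℕ, r + 1 = 4 * q := ⟨(r + 1) / 4, by omega⟩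
  have h1 : ((δ : L)) ^ 2 = -(r : L) := by
    have := congrArg (fun w : 𝓞 L => (w : L)) hδ2
    simpa using this
  have hqL : (r : L) + 1 = 4 * (q : L) := by exact_mod_cast congrArg (Nat.cast : ℕ → L) hq
  have hint : IsIntegral ℤ ((1 + (δ : L)) / 2) := by
    refine ⟨Polynomial.X ^ 2 - Polynomial.X + Polynomial.C (q : ℤ), ?_, ?_⟩
    · have h2 : (Polynomial.X ^ 2 - Polynomial.X + Polynomial.C (q : ℤ) : Polynomial ℤ) =
          Polynomial.X ^ 2 + (-Polynomial.X + Polynomial.C (q : ℤ)) := by ring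
      rw [h2]
      apply Polynomial.monic_X_pow_add
      refine lt_of_le_of_lt (Polynomial.degree_add_le _ _) ?_
      rw [max_lt_iff, Polynomial.degree_neg, Polynomial.degree_X]
      refine ⟨by norm_num, lt_of_le_of_lt Polynomial.degree_C_le (by norm_num)⟩
    · rw [Polynomial.eval₂_add, Polynomial.eval₂_sub, Polynomial.eval₂_pow, Polynomial.eval₂_X,
        Polynomial.eval₂_C]
      simp only [eq_intCast, Int.cast_natCast]
      have h3 : (q : L) = ((r : L) + 1) / 4 := by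
        rw [hqL]
        ring
      rw [h3]
      have h4 : ((1 + (δ : L)) / 2) ^ 2 - (1 + (δ : L)) / 2 + ((r : L) + 1) / 4 =
          ((δ : L) ^ 2 + r) / 4 := by ring
      rw [h4, h1, neg_add_cancel, zero_div]
  refine ⟨⟨(1 + (δ : L)) / 2, hint⟩, ?_⟩
  obtain ⟨ε, hε⟩ : ∃ ε : 𝓞 L, ε = ⟨(1 + (δ : L)) / 2, hint⟩ := ⟨_, rfl⟩
  rw [← hε]
  have h2 : 2 * ε = 1 + δ := by
    apply RingOfIntegers.ext
    rw [hε]
    push_cast
    show (2 : L) * ((1 + (δ : L)) / 2) = 1 + (δ : L)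
    ring
  have h3 : 2 * (c • ε) = 1 - δ := by
    have h4 := congrArg (fun w => c • w) h2
    simp only [smul_add, smul_one, hc] at h4
    rw [two_mul, ← smul_add, ← two_mul, h2, smul_add, smul_one, hc]
    ring
  have h5 : ε - c • ε = δ := by
    have h6 : (2 : 𝓞 L) * (ε - c • ε) = 2 * δ := by
      rw [mul_sub, h2, h3]
      ring
    exact mul_left_cancel₀ two_ne_zero h6
  rw [h5, hδ2]

theorem half_split {k : Type} [Field k] [CharP k 2] {f r : ℕ} [NeZero f] [NeZero (f * r)]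
    (hf : 2 < f) (hodd : Odd f) [Fact r.Prime] (hr4 : r % 4 = 3) (hrf : r.Coprime f)
    (χ : (ZMod f)ˣ →* kˣ) (u₂ uᵣ : (ZMod f)ˣ) (h₂ : (u₂ : ZMod f) = 2) (hᵣ : (uᵣ : ZMod f) = r)
    (hχ₂ : χ u₂ ≠ 1) (hχᵣ : χ uᵣ ≠ 1) (hD : DD χ⁻¹ ≠ 0)
    {K L F : Type} [Field K] [NumberField K] [IsGalois ℚ K] [Field L] [NumberField L]
    [IsGalois ℚ L] [Field F] [NumberField F] [IsCyclotomicExtension {f * r} ℚ F] [Algebra K L]
    [Algebra L F] [Algebra K F] [IsScalarTower K L F] (ψ : Gal(K/ℚ) →* kˣ)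
    (hψ : Function.Injective ψ)
    (hcomp : ∀ σ : Gal(F/ℚ), ψ (rs (K := K) σ) =
      χ (ZMod.unitsMap (dvd_mul_right f r) (AAP.gq (f * r) F σ)))
    (δ : 𝓞 L) (hδ2 : δ ^ 2 = -(r : 𝓞 L))
    (hδσ : ∀ σ : Gal(F/ℚ), rs (K := L) σ • δ =
      ((legendreSym r (((AAP.gq (f * r) F σ : (ZMod (f * r))ˣ) : ZMod (f * r)).val : ℤ) : ℤ) :
        𝓞 L) * δ)
    (hker : ∀ σ : Gal(L/ℚ), rs (K := K) σ = 1 → σ • δ = δ → σ = 1)
    (𝔮 : Ideal (𝓞 K)) (hq : 𝔮.IsPrime) (h0 : 𝔮 ≠ ⊥) (h2q : (2 : 𝓞 K) ∉ 𝔮)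
    (hrq : ((r + 1 : ℕ) : 𝓞 K) ∈ 𝔮) (hmq : ((f * r : ℕ) : 𝓞 K) ∉ 𝔮)
    (hdec : ∀ σ : Gal(K/ℚ), σ • 𝔮 = 𝔮 → σ = 1) : Half ψ 𝔮 := by
  classical
  have hr : r.Prime := Fact.out
  have hr0 : r ≠ 0 := hr.ne_zero
  have hδ0 : δ ≠ 0 := by
    rintro rfl
    rw [zero_pow two_ne_zero, zero_eq_neg, Nat.cast_eq_zero] at hδ2
    exact hr0 hδ2
  have hfr : 2 < f * r := lt_of_lt_of_le hf (Nat.le_mul_of_pos_right f hr.pos)
  -- the automorphism `c`
  obtain ⟨c, hcdef⟩ : ∃ c : Gal(L/ℚ), c = rs (K := L) ((AAP.gq (f * r) F).symm (-1)) := ⟨_, rfl⟩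
  have hcδ : c • δ = -δ := by
    rw [hcdef, hδσ, MulEquiv.apply_symm_apply]
    have h1 : legendreSym r (((((-1 : (ZMod (f * r))ˣ) : ZMod (f * r))).val : ℤ)) = -1 := by
      have h2 : (((((-1 : (ZMod (f * r))ˣ) : ZMod (f * r))).val : ℤ) : ZMod r) = ((-1 : ℤ) : ZMod r) := by
        rw [Int.cast_natCast, ZMod.natCast_val, ← ZMod.castHom_apply (h := dvd_mul_left r f),
          Units.val_neg, Units.val_one, map_neg, map_one, Int.cast_neg, Int.cast_one]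
      have h3 : legendreSym r (((((-1 : (ZMod (f * r))ˣ) : ZMod (f * r))).val : ℤ)) =
          legendreSym r (-1) := by
        unfold legendreSym
        rw [h2]
      rw [h3, legendreSym.at_neg_one (by rintro rfl; omega), ZMod.χ₄_nat_three_mod_four hr4]
    rw [h1]
    push_cast
    ring
  have hcK : rs (K := K) c = 1 := by
    apply hψ
    rw [hcdef, hfC_rs, hcomp, MulEquiv.apply_symm_apply, map_one]
    have h1 : χ (ZMod.unitsMap (dvd_mul_right f r) (-1)) ^ 2 = 1 := by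
      rw [← map_pow, ← map_pow, neg_one_sq, map_one, map_one]
    by_contra hne
    have h2 := hfC_two (k := k) hne
    have h3 : ((1 : k) + ((χ (ZMod.unitsMap (dvd_mul_right f r) (-1)) : kˣ) : k)) ^ 2 = 0 := by
      have h4 : ((χ (ZMod.unitsMap (dvd_mul_right f r) (-1)) : kˣ) : k) ^ 2 = 1 := by
        rw [← Units.val_pow_eq_pow_val, h1, Units.val_one]
      rw [add_sq, h4, one_pow, CharTwo.two_eq_zero (R := k), zero_mul, zero_mul, add_zero]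
      exact CharTwo.add_self_eq_zero 1
    exact h2 (pow_eq_zero_iff two_ne_zero |>.1 h3)
  have hsig : ∀ σ : Gal(L/ℚ), σ • δ = δ ∨ σ • δ = -δ := by
    intro σ
    rw [← sq_eq_sq_iff_eq_or_eq_neg, ← smul_pow', hδ2, smul_neg]
    congr 1
    exact map_natCast (MulSemiringAction.toRingHom Gal(L/ℚ) (𝓞 L) σ) r
  obtain ⟨hcc, hc1, hfin, s, hs, hs'⟩ := sec δ hδ0 c hcK hcδ hsig hker
  -- the prime ideal `Q`
  have hinj : Function.Injective (algebraMap (𝓞 K) (𝓞 L)) := FaithfulSMul.algebraMap_injective _ _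
  obtain ⟨Q, hQp, hQc⟩ := Ideal.exists_ideal_over_prime_of_isIntegral_of_isDomain (S := 𝓞 L) 𝔮
    (by
      rw [(RingHom.injective_iff_ker_eq_bot _).1 hinj]
      exact bot_le)
  have hQ0 : Q ≠ ⊥ := by
    rintro rfl
    apply h0
    rw [← hQc, ← RingHom.ker_eq_comap_bot, (RingHom.injective_iff_ker_eq_bot _).1 hinj]
  have hQ2 : (2 : 𝓞 L) ∉ Q := by
    intro h
    apply h2q
    rw [← hQc, Ideal.mem_comap, map_ofNat]
    exact h
  have hQr : (r : 𝓞 L) + 1 ∈ Q := by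
    rw [← hQc, Ideal.mem_comap, map_natCast] at hrq
    push_cast at hrq
    exact hrq
  have hQm : ((f * r : ℕ) : 𝓞 L) ∉ Q := by
    intro h
    apply hmq
    rw [← hQc, Ideal.mem_comap, map_natCast]
    exact h
  have hcQ : c • Q ≠ Q := by
    intro h
    have h1 : (δ - 1) * (δ + 1) ∈ Q := by
      have h2 : (δ - 1) * (δ + 1) = -((r : 𝓞 L) + 1) := by
        have h3 : (δ - 1) * (δ + 1) = δ ^ 2 - 1 := by ring
        rw [h3, hδ2]
        ring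
      rw [h2]
      exact neg_mem hQr
    rcases hQp.mem_or_mem h1 with h2 | h2
    · have h3 := Ideal.smul_mem_pointwise_smul c _ _ h2
      rw [h, smul_sub, hcδ, smul_one] at h3
      apply hQ2
      have h4 := neg_mem (add_mem h2 h3)
      have h5 : -(δ - 1 + (-δ - 1)) = 2 := by ring
      rwa [h5] at h4
    · have h3 := Ideal.smul_mem_pointwise_smul c _ _ h2
      rw [h, smul_add, hcδ, smul_one] at h3
      apply hQ2
      have h4 := add_mem h2 h3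
      have h5 : δ + 1 + (-δ + 1) = 2 := by ring
      rwa [h5] at h4
  have hdecL : ∀ σ : Gal(L/ℚ), σ • Q = Q → σ = 1 := by
    intro σ hσ
    have h1 : rs (K := K) σ = 1 := by
      apply hdec
      rw [← hQc]
      exact hfC_comap Q σ hσ
    rcases hsig σ with h2 | h2
    · exact hker σ h1 h2
    · exfalso
      have h3 := (hs' σ).2 h2
      rw [h1, map_one, mul_one] at h3
      rw [h3] at hσ
      exact hcQ hσ
  -- Stickelberger
  have hodd2 : Odd (f * r) := hodd.mul (Nat.odd_iff.2 (by omega))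
  obtain ⟨x, n, hn, hx, hxc⟩ := stC (f * r) hfr hodd2 F L Q hQp hQ0 hQm hdecL
  obtain ⟨θ, θ', A, hA, hes, -, hprod⟩ := hfE hf hodd hr4 hrf χ u₂ uᵣ h₂ hᵣ hχ₂ hχᵣ hD ψ hψ hcomp
    δ hδ0 hδσ c hcδ s hs hs'
  rw [hprod Q] at hx
  rw [← hcdef] at hxc
  -- the element `g`
  have hsur := ZMod.unitsMap_surjective (dvd_mul_right f r)
  obtain ⟨a₂, ha₂⟩ := hsur u₂
  obtain ⟨aᵣ, haᵣ⟩ := hsur uᵣ
  obtain ⟨g, hg⟩ : ∃ g : Gal(K/ℚ), ψ g ≠ 1 := by
    refine ⟨rs (K := K) ((AAP.gq (f * r) F).symm a₂), ?_⟩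
    rw [hcomp, MulEquiv.apply_symm_apply, ha₂]
    exact hχ₂
  have hKcomm : ∀ σ τ : Gal(K/ℚ), σ * τ = τ * σ := by
    intro σ τ
    apply hψ
    rw [map_mul, map_mul, mul_comm]
  have hcomm : ∀ ρ, c * s ρ = s ρ * c := by
    intro ρ
    have h1 : (s ρ * c) • δ = -δ := by rw [mul_smul, hcδ, smul_neg, (hs ρ).2]
    have h2 := (hs' (s ρ * c)).2 h1
    rw [map_mul, hcK, mul_one, (hs ρ).1] at h2
    exact h2.symm
  obtain ⟨w, J, hw0, hJ0, hwJ⟩ : ∃ (w : 𝓞 L) (J : Ideal (𝓞 L)), w ≠ 0 ∧ J ≠ ⊥ ∧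
      Ideal.span {w * (c • w)} * ∏ ρ, (s ρ • (Q * (c • Q))) ^ (A + θ' ρ + θ' (g⁻¹ * ρ)) =
        J ^ 2 := by
    let _ : CommGroup Gal(K/ℚ) := { (inferInstance : Group Gal(K/ℚ)) with mul_comm := hKcomm }
    exact hc s c hcc hcomm Q hQ0 x n hn A θ θ' hA hx hxc δ hδ0 hcδ g
  -- descent to `K`
  have hQQ : Q * (c • Q) = 𝔮.map (algebraMap (𝓞 K) (𝓞 L)) := by
    have h1 := splA (K := K) hfin c hcK Q hQp hQ0 hcQ
    rw [hQc] at h1
    exact h1.symm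
  obtain ⟨y, hy⟩ : ∃ y : 𝓞 K, algebraMap (𝓞 K) (𝓞 L) y = w * (c • w) := by
    apply hfC_fix
    intro σ hσ
    have hcw : c • (c • w) = w := by rw [smul_smul, hcc, one_smul]
    rcases hsig σ with h1 | h1
    · rw [hker σ hσ h1, one_smul]
    · have h2 := (hs' σ).2 h1
      rw [hσ, map_one, mul_one] at h2
      rw [h2, smul_mul', hcw, mul_comm]
  have hy0 : y ≠ 0 := by
    rintro rfl
    rw [map_zero] at hy
    rcases mul_eq_zero.1 hy.symm with h1 | h1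
    · exact hw0 h1
    · exact hw0 ((smul_eq_zero_iff_eq c).1 h1)
  have hq0 : ∀ ρ : Gal(K/ℚ), ρ • 𝔮 ≠ ⊥ := by
    intro ρ h
    apply h0
    have h6 : ρ⁻¹ • (ρ • 𝔮) = 𝔮 := inv_smul_smul ρ 𝔮
    rw [← h6, h, Ideal.smul_bot]
  obtain ⟨t₁, ht₁⟩ : ∃ t₁ : Gal(K/ℚ) → ℕ, t₁ = fun ρ => A + θ' ρ + θ' (g⁻¹ * ρ) := ⟨_, rfl⟩
  obtain ⟨𝔫, h𝔫⟩ : ∃ 𝔫 : Ideal (𝓞 K), 𝔫 = Ideal.span {y} * ∏ ρ, (ρ • 𝔮) ^ t₁ ρ := ⟨_, rfl⟩
  have h𝔫0 : 𝔫 ≠ ⊥ := by
    rw [h𝔫]
    refine mul_ne_zero ?_ ?_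
    · rw [Ne, Ideal.zero_eq_bot, Ideal.span_singleton_eq_bot]
      exact hy0
    · rw [Finset.prod_ne_zero_iff]
      intro ρ _
      exact pow_ne_zero _ (hq0 ρ)
  have h𝔫J : 𝔫.map (algebraMap (𝓞 K) (𝓞 L)) = J ^ 2 := by
    rw [← hwJ, h𝔫, Ideal.map_mul, Ideal.map_span, Set.image_singleton, hy]
    congr 1
    refine (map_prod (Ideal.mapHom (algebraMap (𝓞 K) (𝓞 L))) _ _).trans ?_
    refine Finset.prod_congr rfl fun ρ _ => ?_
    rw [Ideal.mapHom_apply, Ideal.map_pow, hQQ, hfC_map, (hs ρ).1, ht₁]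
  -- the primes over `r`
  obtain ⟨ε, hε⟩ := hfC_eps r hr4 δ hδ2 c hcδ
  have hun := ramA (K := K) hfin c hc1 hcK ε r hε
  obtain ⟨τ, hτ⟩ : ∃ τ : Gal(K/ℚ), τ = rs (K := K) ((AAP.gq (f * r) F).symm aᵣ) := ⟨_, rfl⟩
  have hψτ : ψ τ ≠ 1 := by
    rw [hτ, hcomp, MulEquiv.apply_symm_apply, haᵣ]
    exact hχᵣ
  have hτr : ∀ 𝔭 : Ideal (𝓞 K), 𝔭.IsPrime → (r : 𝓞 K) ∈ 𝔭 → τ • 𝔭 = 𝔭 := by
    intro 𝔭 hp hrp
    rw [hτ]
    refine locK (f * r) r 1 f 1 hr (by rw [pow_one, mul_comm]) hrf F K _ ?_ 𝔭 hp hrp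
    rw [MulEquiv.apply_symm_apply, pow_one, ← hᵣ, ← haᵣ, ZMod.unitsMap_val, ZMod.natCast_val]
  obtain ⟨𝔟, h𝔟⟩ := ramB (K := K) (L := L) r hun 𝔫 h𝔫0 J h𝔫J τ hτr
  -- the end
  have hes1 : es ψ t₁ = (1 + (ψ g : k)) * es ψ θ' := by
    have h1 : es ψ t₁ = es ψ (fun ρ => A + θ' ρ) + es ψ (fun ρ => θ' (g⁻¹ * ρ)) := by
      rw [ht₁]
      exact hfC_es_add ψ _ _
    rw [h1, hfC_es_shift, hfC_es_add ψ (fun _ => A) θ', hfC_es_const ψ A g hg, zero_add]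
    ring
  refine ⟨fun ρ => t₁ ρ + t₁ (τ⁻¹ * ρ), y * (τ • y), 1, 𝔟, ?_, ?_, one_ne_zero, ?_⟩
  · rw [hfC_es_add ψ t₁ (fun ρ => t₁ (τ⁻¹ * ρ)), hfC_es_shift, hes1]
    have h1 : (1 + (ψ g : k)) * es ψ θ' + (ψ τ : k) * ((1 + (ψ g : k)) * es ψ θ') =
        (1 + (ψ τ : k)) * ((1 + (ψ g : k)) * es ψ θ') := by ring
    rw [h1]
    exact mul_ne_zero (hfC_two hψτ) (mul_ne_zero (hfC_two hg) hes)
  · refine mul_ne_zero hy0 fun h => hy0 ?_
    rwa [smul_eq_zero_iff_eq] at h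
  · rw [Ideal.span_singleton_one, ← Ideal.one_eq_top, one_mul, ← h𝔟, h𝔫, smul_mul', hfC_span,
      Finset.smul_prod', ← Ideal.span_singleton_mul_span_singleton]
    have h1 : ∏ ρ : Gal(K/ℚ), τ • (ρ • 𝔮) ^ t₁ ρ = ∏ ρ : Gal(K/ℚ), (ρ • 𝔮) ^ t₁ (τ⁻¹ * ρ) := by
      rw [← (Group.mulLeft_bijective τ).prod_comp (fun ρ => (ρ • 𝔮) ^ t₁ (τ⁻¹ * ρ))]
      refine Finset.prod_congr rfl fun ρ _ => ?_
      rw [smul_pow', smul_smul, inv_mul_cancel_left]
    rw [h1]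
    simp_rw [pow_add]
    rw [Finset.prod_mul_distrib]
    ring

end Pool.Agent.FR2
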