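import Pool.Agent.FR2.CycQ

/-!
# FR2-Tow: the tower `K ≤ L ≤ F` inside `Qb`

`r ≡ 3` modulo 4 is a prime number. `F` is the field of the `f r`-th roots of unity, `δ ∈ F` the Gauss sum of
the quadratic character modulo `r`, so `δ^2 = -r` and `g δ = (a/r) δ` if `g` acts on the roots of
unity as the power `a`; `L` is the compositum of `K` and `ℚ(δ)`.
-/

open NumberField Pointwise Finset

namespace Pool.Agent.FR2

open Pool.Agent.Helper60.FM in
private theorem tow_delta {f r : ℕ} [NeZero f] [NeZero (f * r)] [hr : Fact r.Prime]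
    (hr4 : r % 4 = 3) (F : IntermediateField ℚ Qb) [FiniteDimensional ℚ F]
    [IsCyclotomicExtension {f * r} ℚ F] :
    ∃ δ : Qb, δ ∈ F ∧ δ ^ 2 = -(r : Qb) ∧
      ∀ (g : GQ) (a : (ZMod (f * r))ˣ), AAP.ActsAs (f * r) g (a : ZMod (f * r)).val →
        g δ = ((legendreSym r ((a : ZMod (f * r)).val : ℤ) : ℤ) : Qb) * δ := by
  have hr2 : r ≠ 2 := by rintro rfl; omega
  have hZ0 : IsPrimitiveRoot (AAP.zt (f * r) F) (f * r) := AAP.zt_spec (f * r) F
  have hZ : IsPrimitiveRoot ((AAP.zt (f * r) F : F) : Qb) (f * r) :=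
    hZ0.map_of_injective (f := algebraMap F Qb) (FaithfulSMul.algebraMap_injective F Qb)
  have hζ : IsPrimitiveRoot (((AAP.zt (f * r) F : F) : Qb) ^ f) r :=
    hZ.pow (Nat.pos_of_ne_zero (NeZero.ne (f * r))) rfl
  have hζF : (((AAP.zt (f * r) F : F) : Qb) ^ f) ∈ F := pow_mem (AAP.zt (f * r) F).2 f
  generalize hζe : (((AAP.zt (f * r) F : F) : Qb) ^ f) = ζ at hζ hζF
  let χ₀ : MulChar (ZMod r) Qb := (quadraticChar (ZMod r)).ringHomComp (Int.castRingHom Qb)
  have hχv : ∀ x : ZMod r, χ₀ x = ((quadraticChar (ZMod r) x : ℤ) : Qb) := fun x => rfl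
  have hchar : ringChar (ZMod r) ≠ 2 := by rw [ZMod.ringChar_zmod_n]; exact hr2
  have hq : χ₀.IsQuadratic := (quadraticChar_isQuadratic (ZMod r)).comp _
  have hne : χ₀ ≠ 1 := by
    intro h
    apply quadraticChar_ne_one hchar
    ext a
    have h1 := DFunLike.congr_fun h (a : ZMod r)
    rw [hχv, MulChar.one_apply_coe] at h1
    rw [MulChar.one_apply_coe]
    exact_mod_cast h1
  let ψ : AddChar (ZMod r) Qb := AddChar.zmodChar r hζ.pow_eq_one
  have hψ : ψ.IsPrimitive := AddChar.zmodChar_primitive_of_primitive_root r hζ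
  have hψv : ∀ x : ZMod r, ψ x = ζ ^ x.val := fun x => AddChar.zmodChar_apply _ x
  refine ⟨gaussSum χ₀ ψ, ?_, ?_, ?_⟩
  · rw [gaussSum]
    refine sum_mem fun x _ => mul_mem ?_ ?_
    · rw [hχv]
      exact intCast_mem F _
    · rw [hψv]
      exact pow_mem hζF _
  · rw [gaussSum_sq hne hq hψ, hχv, quadraticChar_neg_one hchar, ZMod.card,
      ZMod.χ₄_nat_three_mod_four hr4]
    simp
  · intro g a ha
    have hg : g ζ = ζ ^ (a : ZMod (f * r)).val := by
      refine ha ζ ?_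
      rw [mul_comm f r, pow_mul, hζ.pow_eq_one, one_pow]
    have hcop : ((a : ZMod (f * r)).val).Coprime r :=
      Nat.Coprime.coprime_mul_left_right (ZMod.val_coe_unit_coprime a)
    obtain ⟨b, hb⟩ : ∃ b : (ZMod r)ˣ, (b : ZMod r) = (((a : ZMod (f * r)).val : ℕ) : ZMod r) :=
      ⟨ZMod.unitOfCoprime _ hcop, rfl⟩
    have hs : g (gaussSum χ₀ ψ) = gaussSum χ₀ (ψ.mulShift (b : ZMod r)) := by
      rw [gaussSum, gaussSum, map_sum]
      refine Finset.sum_congr rfl fun x _ => ?_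
      rw [map_mul, AddChar.mulShift_apply, hχv, map_intCast, hψv, map_pow, hg, ← pow_mul]
      congr 1
      rw [hψv, hb]
      have h1 : ∀ n : ℕ, ζ ^ ((n : ZMod r)).val = ζ ^ n := by
        intro n
        rw [ZMod.val_natCast]
        conv_rhs => rw [← Nat.mod_add_div n r, pow_add, pow_mul, hζ.pow_eq_one, one_pow, mul_one]
      rw [← h1 ((a : ZMod (f * r)).val * x.val), Nat.cast_mul, ZMod.natCast_zmod_val]
    rw [hs, gaussSum_mulShift_eq, hq.inv, hχv, hb]
    congr 2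
    rw [legendreSym]
    push_cast
    rfl

open Pool.Agent.Helper60.FM in
theorem tow {k : Type} [Field k] {f r : ℕ} [NeZero f] [NeZero (f * r)] [Fact r.Prime]
    (hr4 : r % 4 = 3) (hrf : r.Coprime f) (K : IntermediateField ℚ Qb) [FiniteDimensional ℚ K]
    [IsGalois ℚ K] (χ : (ZMod f)ˣ →* kˣ) (ψ : Gal(K/ℚ) →* kˣ) (hψ : Function.Injective ψ)
    (hcut : ∀ (g : GQ) (a : (ZMod f)ˣ), AAP.ActsAs f g (a : ZMod f).val → ψ (res K g) = χ a) :
    ∃ (L F : IntermediateField ℚ Qb) (_ : FiniteDimensional ℚ L) (_ : IsGalois ℚ L)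
      (_ : FiniteDimensional ℚ F) (_ : IsGalois ℚ F) (_ : IsCyclotomicExtension {f * r} ℚ F)
      (δ : Qb),
      K ≤ L ∧ L ≤ F ∧ δ ∈ L ∧ δ ^ 2 = -(r : Qb) ∧
      (∀ g : GQ, AAP.ActsAs (f * r) g
        ((AAP.gq (f * r) F (res F g) : (ZMod (f * r))ˣ) : ZMod (f * r)).val) ∧
      (∀ (g : GQ) (a : (ZMod (f * r))ˣ), AAP.ActsAs (f * r) g (a : ZMod (f * r)).val →
        g δ = ((legendreSym r ((a : ZMod (f * r)).val : ℤ) : ℤ) : Qb) * δ) ∧
      ∀ g : GQ, g ∈ K.fixingSubgroup → g δ = δ → g ∈ L.fixingSubgroup := by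
  obtain ⟨F, hF1, hF2, hF3, hF⟩ := cycQ (f * r)
  obtain ⟨δ, hδF, hδ2, hδ⟩ := tow_delta (f := f) (r := r) hr4 F
  -- `K` is contained in `F`
  have hKF : K ≤ F := by
    refine cycQ_le (f * r) K F hF (χ.comp (ZMod.unitsMap (dvd_mul_right f r))) ψ hψ ?_
    intro g a ha
    rw [MonoidHom.comp_apply]
    refine hcut g _ ?_
    intro ζ hζ
    have h1 : g ζ = ζ ^ (a : ZMod (f * r)).val := by
      refine ha ζ ?_
      rw [pow_mul, hζ, one_pow]
    have h2 : ((ZMod.unitsMap (dvd_mul_right f r) a : (ZMod f)ˣ) : ZMod f) =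
        (((a : ZMod (f * r)).val : ℕ) : ZMod f) := by
      rw [ZMod.unitsMap_val, ZMod.cast_eq_val]
    rw [h1, h2, ZMod.val_natCast]
    conv_lhs => rw [← Nat.mod_add_div (a : ZMod (f * r)).val f, pow_add, pow_mul, hζ, one_pow,
      mul_one]
  -- every `g` maps `δ` to `δ` or `- δ`
  have hpm : ∀ g : GQ, g δ = δ ∨ g δ = -δ := by
    intro g
    have h1 : (g δ) ^ 2 = δ ^ 2 := by
      rw [← map_pow, hδ2, map_neg, map_natCast]
    exact sq_eq_sq_iff_eq_or_eq_neg.1 h1
  have hint : IsIntegral ℚ δ := Algebra.IsIntegral.isIntegral δ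
  have hfin : FiniteDimensional ℚ (IntermediateField.adjoin ℚ {δ}) :=
    IntermediateField.adjoin.finiteDimensional hint
  have hnor : Normal ℚ (IntermediateField.adjoin ℚ {δ}) := by
    refine IntermediateField.normal_iff_forall_map_le'.2 fun σ => ?_
    rw [IntermediateField.adjoin_map, IntermediateField.adjoin_le_iff]
    rintro x ⟨y, hy, rfl⟩
    rw [Set.mem_singleton_iff] at hy
    rw [hy]
    have h3 : δ ∈ IntermediateField.adjoin ℚ {δ} := IntermediateField.mem_adjoin_simple_self ℚ δ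
    rcases hpm σ with h1 | h1
    · change σ δ ∈ IntermediateField.adjoin ℚ {δ}
      rw [h1]
      exact h3
    · change σ δ ∈ IntermediateField.adjoin ℚ {δ}
      rw [h1]
      exact neg_mem h3
  have hKn : Normal ℚ K := inferInstance
  have hfL : FiniteDimensional ℚ (K ⊔ IntermediateField.adjoin ℚ {δ} : IntermediateField ℚ Qb) :=
    inferInstance
  have hnL : Normal ℚ (K ⊔ IntermediateField.adjoin ℚ {δ} : IntermediateField ℚ Qb) := by
    refine @IntermediateField.normal_sup ℚ Qb _ _ _ K (IntermediateField.adjoin ℚ {δ}) ?_ ?_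
    · convert hKn
      exact Subsingleton.elim _ _
    · exact hnor
  have hgL : IsGalois ℚ (K ⊔ IntermediateField.adjoin ℚ {δ} : IntermediateField ℚ Qb) :=
    ⟨⟩
  have hδL : δ ∈ (K ⊔ IntermediateField.adjoin ℚ {δ} : IntermediateField ℚ Qb) :=
    (le_sup_right : IntermediateField.adjoin ℚ {δ} ≤ K ⊔ IntermediateField.adjoin ℚ {δ})
      (IntermediateField.mem_adjoin_simple_self ℚ δ)
  refine ⟨K ⊔ IntermediateField.adjoin ℚ {δ}, F, hfL, hgL, hF1, hF2, hF3, δ, le_sup_left,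
    sup_le hKF ?_, hδL, hδ2, hF, hδ, ?_⟩
  · rw [IntermediateField.adjoin_le_iff, Set.singleton_subset_iff]
    exact hδF
  · intro g hg hgδ
    rw [IntermediateField.fixingSubgroup_sup]
    refine ⟨hg, ?_⟩
    have h1 : Subgroup.zpowers g ≤ (IntermediateField.adjoin ℚ {δ}).fixingSubgroup := by
      rw [← IntermediateField.le_iff_le, IntermediateField.adjoin_le_iff,
        Set.singleton_subset_iff]
      rintro ⟨h, hh⟩
      have h2 : Subgroup.zpowers g ≤ MulAction.stabilizer GQ δ := by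
        rw [Subgroup.zpowers_le]
        exact hgδ
      exact h2 hh
    exact h1 (Subgroup.mem_zpowers g)

end Pool.Agent.FR2
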