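import Pool.Agent.FR2.HfA
import Pool.Agent.FR2.HfB
import Pool.Agent.FR2.HfC
import Pool.Agent.FR2.Tow
import Pool.Agent.FR2.LocQ
import Pool.Agent.FR2.Dir

/-!
# FR2-HfD: the class group (assembly)

By `half_cl` and `half_all` it is enough to prove `Half ψ 𝔭` for every prime ideal `𝔭 ≠ 0`. If some `σ` with
`σ 𝔭 = 𝔭` has `ψ σ ≠ 1` this is `half_stab`. Otherwise the decomposition group of `𝔭` is trivial, the prime
number `q` in `𝔭` is odd and prime to `f` (`locQ`), and `half_split` applies with the auxiliary prime `r` of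
`dir` and the fields of `tow`.
-/

open NumberField Pointwise Finset

namespace Pool.Agent.FR2

private theorem HfD_prime {K : Type} [Field K] [NumberField K] (P : Ideal (𝓞 K)) [P.IsPrime]
    (hP : P ≠ ⊥) : ∃ ℓ : ℕ, ℓ.Prime ∧ (ℓ : 𝓞 K) ∈ P := by
  have : NeZero P := ⟨hP⟩
  exact ⟨_, Nat.absNorm_under_prime P, Int.absNorm_under_mem P⟩

private theorem HfD_cop {K : Type} [Field K] [NumberField K] (P : Ideal (𝓞 K)) [hP : P.IsPrime]
    {a b : ℕ} (h : Nat.Coprime a b) (ha : (a : 𝓞 K) ∈ P) (hb : (b : 𝓞 K) ∈ P) : False := by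
  apply hP.ne_top
  rw [Ideal.eq_top_iff_one]
  obtain ⟨u, v, huv⟩ := Nat.isCoprime_iff_coprime.2 h
  have h1 : (1 : 𝓞 K) = (u : 𝓞 K) * (a : 𝓞 K) + (v : 𝓞 K) * (b : 𝓞 K) := by
    have h2 := congrArg (fun z : ℤ => (z : 𝓞 K)) huv
    push_cast at h2
    exact h2.symm
  rw [h1]
  exact P.add_mem (P.mul_mem_left _ ha) (P.mul_mem_left _ hb)

open Pool.Agent.Helper60.FM in
private theorem HfD_acts {f r : ℕ} [NeZero f] [NeZero (f * r)] {g : GQ} {a : (ZMod (f * r))ˣ}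
    (h : AAP.ActsAs (f * r) g (a : ZMod (f * r)).val) :
    AAP.ActsAs f g ((ZMod.unitsMap (dvd_mul_right f r) a : (ZMod f)ˣ) : ZMod f).val := by
  intro ζ hζ
  have h1 : ζ ^ (f * r) = 1 := by rw [pow_mul, hζ, one_pow]
  rw [h ζ h1]
  have h2 : ((ZMod.unitsMap (dvd_mul_right f r) a : (ZMod f)ˣ) : ZMod f) =
      (((a : ZMod (f * r)).val : ℕ) : ZMod f) := by
    rw [ZMod.unitsMap_val, ZMod.natCast_val]
  rw [h2, ZMod.val_natCast]
  have h3 := Nat.div_add_mod (a : ZMod (f * r)).val f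
  rw [← h3, pow_add, pow_mul, hζ, one_pow, one_mul, Nat.mul_add_mod, Nat.mod_mod]

open Pool.Agent.Helper60.FM in
theorem class2A {k : Type} [Field k] [CharP k 2] {f : ℕ} [NeZero f] (hf : 2 < f) (hodd : Odd f)
    (χ : (ZMod f)ˣ →* kˣ) (hprim : FRD.Prim χ) (u₂ : (ZMod f)ˣ) (h₂ : (u₂ : ZMod f) = 2)
    (hχ₂ : χ u₂ ≠ 1) (hD : DD χ⁻¹ ≠ 0) (K : IntermediateField ℚ Qb) [FiniteDimensional ℚ K]
    [IsGalois ℚ K] (ψ : Gal(K/ℚ) →* kˣ) (hψ : Function.Injective ψ)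
    (hcut : ∀ (g : GQ) (a : (ZMod f)ˣ), AAP.ActsAs f g (a : ZMod f).val → ψ (res K g) = χ a)
    (𝔞 : Ideal (𝓞 K)) (h0 : 𝔞 ≠ ⊥)
    (hrel : ∀ n : Gal(K/ℚ) → ℕ, es ψ n = 0 → (∏ σ, (σ • 𝔞) ^ n σ).IsPrincipal) :
    𝔞.IsPrincipal := by
  refine half_cl ψ hψ (fun 𝔟 h𝔟 => half_all ψ hψ ?_ 𝔟 h𝔟) 𝔞 h0 hrel
  intro 𝔭 hP hP0
  by_cases hst : ∃ σ : Gal(K/ℚ), σ • 𝔭 = 𝔭 ∧ ψ σ ≠ 1
  · obtain ⟨σ, h1, h2⟩ := hst
    exact half_stab ψ 𝔭 σ h1 h2
  push Not at hst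
  have hdec : ∀ σ : Gal(K/ℚ), σ • 𝔭 = 𝔭 → σ = 1 := fun σ h => hψ (by rw [hst σ h, map_one])
  obtain ⟨q, hq, hqP⟩ := HfD_prime 𝔭 hP0
  obtain ⟨hl1, hl2⟩ := locQ K χ ψ hψ hcut 𝔭 hP q hq hqP
  have hq2 : q ≠ 2 := by
    rintro rfl
    obtain ⟨σ, h1, h2⟩ := hl1 u₂ (by rw [h₂]; norm_num)
    exact hχ₂ (by rw [← h2, hst σ h1])
  have hqf : ¬ q ∣ f := by
    intro h
    obtain ⟨σ, h1, h2⟩ := hl2 h hprim
    exact h2 (hst σ h1)
  have hχ1 : χ ≠ 1 := by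
    rintro rfl
    exact hχ₂ rfl
  obtain ⟨r, hr, hr4, hrf, hqr, uᵣ, hu, hχr⟩ :=
    dir hodd χ hχ1 q hq hq2 ((Nat.Prime.coprime_iff_not_dvd hq).2 hqf)
  have : Fact r.Prime := ⟨hr⟩
  have : NeZero (f * r) := ⟨mul_ne_zero (NeZero.ne f) hr.ne_zero⟩
  obtain ⟨L, F, hLfin, hLgal, hFfin, hFgal, hFcyc, δ, hKL, hLF, hδL, hδ2, hF, hδg, hfix⟩ :=
    tow hr4 hrf K χ ψ hψ hcut
  let iKL : Algebra K L := (IntermediateField.inclusion hKL).toRingHom.toAlgebra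
  let iLF : Algebra L F := (IntermediateField.inclusion hLF).toRingHom.toAlgebra
  let iKF : Algebra K F := (IntermediateField.inclusion (hKL.trans hLF)).toRingHom.toAlgebra
  have hKLc : ∀ x : K, ((algebraMap K L x : L) : Qb) = (x : Qb) := fun x => rfl
  have hLFc : ∀ x : L, ((algebraMap L F x : F) : Qb) = (x : Qb) := fun x => rfl
  have hKFc : ∀ x : K, ((algebraMap K F x : F) : Qb) = (x : Qb) := fun x => rfl
  have iT : IsScalarTower K L F := IsScalarTower.of_algebraMap_eq fun x => rfl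
  have hsur : ∀ σ : Gal(F/ℚ), ∃ g : GQ, res F g = σ :=
    AlgEquiv.restrictNormalHom_surjective Qb
  have hsurL : ∀ σ : Gal(L/ℚ), ∃ g : GQ, res L g = σ :=
    AlgEquiv.restrictNormalHom_surjective Qb
  have hrK : ∀ g : GQ, rs (K := K) (res F g) = res K g := by
    intro g
    apply AlgEquiv.ext
    intro x
    apply Subtype.ext
    have h1 : algebraMap K F (rs (K := K) (res F g) x) = res F g (algebraMap K F x) :=
      AlgEquiv.restrictNormal_commutes _ _ _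
    rw [coe_res, ← hKFc, h1, coe_res, hKFc]
  have hrL : ∀ g : GQ, rs (K := L) (res F g) = res L g := by
    intro g
    apply AlgEquiv.ext
    intro x
    apply Subtype.ext
    have h1 : algebraMap L F (rs (K := L) (res F g) x) = res F g (algebraMap L F x) :=
      AlgEquiv.restrictNormal_commutes _ _ _
    rw [coe_res, ← hLFc, h1, coe_res, hLFc]
  have hrKL : ∀ g : GQ, rs (K := K) (res L g) = res K g := by
    intro g
    apply AlgEquiv.ext
    intro x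
    apply Subtype.ext
    have h1 : algebraMap K L (rs (K := K) (res L g) x) = res L g (algebraMap K L x) :=
      AlgEquiv.restrictNormal_commutes _ _ _
    rw [coe_res, ← hKLc, h1, coe_res, hKLc]
  have hδ2' : (⟨δ, hδL⟩ : L) ^ 2 = -(r : L) := by
    apply Subtype.ext
    push_cast
    exact hδ2
  have hint : IsIntegral ℤ (⟨δ, hδL⟩ : L) := by
    apply IsIntegral.of_pow (n := 2) two_pos
    rw [hδ2']
    exact (isIntegral_natCast r).neg
  obtain ⟨δ', hδ'⟩ : ∃ y : 𝓞 L, (y : L) = ⟨δ, hδL⟩ := ⟨⟨_, hint⟩, rfl⟩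
  have hcoeL : ∀ (σ : Gal(L/ℚ)) (y : 𝓞 L), ((σ • y : 𝓞 L) : L) = σ (y : L) := fun σ y => rfl
  have hne : ∀ a b : ℕ, Nat.Coprime a b → (a : 𝓞 K) ∈ 𝔭 → (b : 𝓞 K) ∉ 𝔭 :=
    fun a b h1 h2 h3 => HfD_cop 𝔭 h1 h2 h3
  refine half_split (K := K) (L := L) (F := F) hf hodd hr4 hrf χ u₂ uᵣ h₂ hu hχ₂ hχr hD ψ hψ ?_ δ'
    ?_ ?_ ?_ 𝔭 hP hP0 ?_ ?_ ?_ hdec
  · intro σ
    obtain ⟨g, rfl⟩ := hsur σ
    rw [hrK]
    apply hcut
    exact HfD_acts (hF g)
  · apply FaithfulSMul.algebraMap_injective (𝓞 L) L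
    rw [map_pow, map_neg, map_natCast]
    exact (congrArg (fun z : L => z ^ 2) hδ').trans hδ2'
  · intro σ
    obtain ⟨g, rfl⟩ := hsur σ
    rw [hrL]
    apply FaithfulSMul.algebraMap_injective (𝓞 L) L
    rw [map_mul, map_intCast]
    refine (congrArg (fun z : L => res L g z) hδ').trans (Eq.trans ?_
      (congrArg (fun z : L => ((legendreSym r (((AAP.gq (f * r) F (res F g) :
        (ZMod (f * r))ˣ) : ZMod (f * r)).val : ℤ) : ℤ) : L) * z) hδ'.symm))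
    apply Subtype.ext
    rw [coe_res]
    push_cast
    exact hδg g _ (hF g)
  · intro σ h1 h2
    obtain ⟨g, rfl⟩ := hsurL σ
    rw [hrKL] at h1
    have hgK : g ∈ K.fixingSubgroup := by
      rw [IntermediateField.mem_fixingSubgroup_iff]
      intro x hx
      have h3 : g x = ((res K g ⟨x, hx⟩ : K) : Qb) := (coe_res K g ⟨x, hx⟩).symm
      rw [h1] at h3
      exact h3
    have hgδ : g δ = δ := by
      have h3 : (((res L g • δ' : 𝓞 L) : L) : Qb) = ((δ' : L) : Qb) := by rw [h2]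
      rw [hcoeL, hδ', coe_res] at h3
      exact h3
    have hgL := hfix g hgK hgδ
    rw [IntermediateField.mem_fixingSubgroup_iff] at hgL
    apply AlgEquiv.ext
    intro x
    apply Subtype.ext
    rw [coe_res]
    exact hgL _ x.2
  · have h1 := hne q 2 ((Nat.coprime_primes hq Nat.prime_two).2 hq2) hqP
    simpa using h1
  · obtain ⟨c, hc⟩ := hqr
    rw [hc]
    push_cast
    exact Ideal.mul_mem_right _ _ hqP
  · intro h1
    rw [Nat.cast_mul] at h1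
    rcases hP.mem_or_mem h1 with h2 | h2
    · exact hne q f ((Nat.Prime.coprime_iff_not_dvd hq).2 hqf) hqP h2
    · refine hne q r ?_ hqP h2
      rw [Nat.Prime.coprime_iff_not_dvd hq]
      intro h3
      have h4 : q ∣ 1 := (Nat.dvd_add_right h3).1 hqr
      exact hq.one_lt.ne' (Nat.dvd_one.1 h4)

end Pool.Agent.FR2
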