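import Pool.Agent.FR2.Cmb

/-!
# The exponents of the Stickelberger element over `L`

The factors of the product over the units `a` modulo `f r` are grouped according to the restriction
`T a` of `σ_a⁻¹` to `L`, which is `s ρ` or `c * s ρ`. The map `a → -a` exchanges the two cases, so
that `θ ρ + θ' ρ` is the number of elements of a fibre of `T`. The value of `ψ` at `θ'` is the half
Stickelberger element of the module Cmb.
-/

open NumberField Pointwise Finset

namespace Pool.Agent.FR2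

private theorem hfENegOne {k : Type} [Field k] [CharP k 2] {m : ℕ} (φ : (ZMod m)ˣ →* kˣ) :
    φ (-1) = 1 := by
  have h1 : φ (-1) * φ (-1) = 1 := by rw [← map_mul, neg_one_mul, neg_neg, map_one]
  apply Units.ext
  have h2 : ((φ (-1) : kˣ) : k) * ((φ (-1) : kˣ) : k) = 1 := by
    rw [← Units.val_mul, h1, Units.val_one]
  have h3 : (((φ (-1) : kˣ) : k) - 1) * (((φ (-1) : kˣ) : k) - 1) = 0 := by
    have h4 : ((2 : ℕ) : k) = 0 := CharP.cast_eq_zero k 2
    push_cast at h4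
    linear_combination h2 - h4 * ((φ (-1) : kˣ) : k) + h4
  rw [Units.val_one]
  exact sub_eq_zero.1 (mul_self_eq_zero.1 h3)

private theorem hfEFl {m : ℕ} [NeZero m] (hm : Odd m) (hm1 : 1 < m) (a : (ZMod m)ˣ) :
    AAP.fl 2 m a + AAP.fl 2 m (-a) = 1 := by
  have : Fact (1 < m) := ⟨hm1⟩
  have h1 := ZMod.val_lt (a : ZMod m)
  have h0 : (a : ZMod m) ≠ 0 := a.ne_zero
  have h2 : ((-a : (ZMod m)ˣ) : ZMod m).val = m - (a : ZMod m).val := by
    rw [Units.val_neg, ZMod.neg_val, if_neg h0]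
  have h3 : 0 < (a : ZMod m).val := Nat.pos_of_ne_zero fun h => h0 ((ZMod.val_eq_zero _).1 h)
  unfold AAP.fl
  rw [h2]
  have h4 : 2 * (a : ZMod m).val ≠ m := by
    intro h
    have := Nat.odd_iff.1 hm
    omega
  by_cases h5 : 2 * (a : ZMod m).val < m
  · rw [Nat.div_eq_of_lt h5, Nat.div_eq_of_lt_le (k := 1) (by omega) (by omega)]
  · rw [Nat.div_eq_of_lt_le (k := 1) (by omega) (by omega), Nat.div_eq_of_lt (by omega)]

private theorem hfELeg {f r : ℕ} [NeZero (f * r)] [Fact r.Prime] (a : (ZMod (f * r))ˣ) :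
    legendreSym r ((a : ZMod (f * r)).val : ℤ) =
      quadraticChar (ZMod r) ((ZMod.unitsMap (dvd_mul_left r f) a : (ZMod r)ˣ) : ZMod r) := by
  unfold legendreSym
  rw [Int.cast_natCast, ZMod.natCast_val, ZMod.unitsMap_val]

private theorem hfEInv {f r : ℕ} [NeZero (f * r)] [Fact r.Prime] (a : (ZMod (f * r))ˣ) :
    legendreSym r (((a⁻¹ : (ZMod (f * r))ˣ) : ZMod (f * r)).val : ℤ) =
      legendreSym r ((a : ZMod (f * r)).val : ℤ) := by
  rw [hfELeg, hfELeg, map_inv]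
  have h1 : quadraticChar (ZMod r)
        (((ZMod.unitsMap (dvd_mul_left r f) a)⁻¹ : (ZMod r)ˣ) : ZMod r) *
      quadraticChar (ZMod r) ((ZMod.unitsMap (dvd_mul_left r f) a : (ZMod r)ˣ) : ZMod r) = 1 := by
    rw [← map_mul, ← Units.val_mul, inv_mul_cancel, Units.val_one, map_one]
  rcases quadraticChar_dichotomy (ZMod.unitsMap (dvd_mul_left r f) a).ne_zero with h | h
  · rw [h] at h1 ⊢
    linarith
  · rw [h] at h1 ⊢
    linarith

private theorem hfEDich {f r : ℕ} [NeZero (f * r)] [Fact r.Prime] (a : (ZMod (f * r))ˣ) :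
    legendreSym r ((a : ZMod (f * r)).val : ℤ) = 1 ∨
      legendreSym r ((a : ZMod (f * r)).val : ℤ) = -1 := by
  rw [hfELeg]
  exact quadraticChar_dichotomy (ZMod.unitsMap (dvd_mul_left r f) a).ne_zero

private theorem hfENeg {f r : ℕ} [NeZero (f * r)] [Fact r.Prime] (hr4 : r % 4 = 3) :
    legendreSym r ((((-1 : (ZMod (f * r))ˣ)) : ZMod (f * r)).val : ℤ) = -1 := by
  rw [hfELeg]
  have h1 : ((ZMod.unitsMap (dvd_mul_left r f) (-1) : (ZMod r)ˣ) : ZMod r) = -1 := by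
    rw [ZMod.unitsMap_val]
    show (ZMod.castHom (dvd_mul_left r f) (ZMod r)) (((-1 : (ZMod (f * r))ˣ)) : ZMod (f * r)) = -1
    rw [Units.val_neg, map_neg, Units.val_one, map_one]
  rw [h1]
  have h3 := legendreSym.at_neg_one (p := r) (by rintro rfl; omega)
  rw [ZMod.χ₄_nat_three_mod_four hr4] at h3
  unfold legendreSym at h3
  rw [Int.cast_neg, Int.cast_one] at h3
  exact h3

theorem hfE {k : Type} [Field k] [CharP k 2] {f r : ℕ} [NeZero f] [NeZero (f * r)] (hf : 2 < f)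
    (hodd : Odd f) [Fact r.Prime] (hr4 : r % 4 = 3) (hrf : r.Coprime f) (χ : (ZMod f)ˣ →* kˣ)
    (u₂ uᵣ : (ZMod f)ˣ) (h₂ : (u₂ : ZMod f) = 2) (hᵣ : (uᵣ : ZMod f) = r) (hχ₂ : χ u₂ ≠ 1)
    (hχᵣ : χ uᵣ ≠ 1) (hD : DD χ⁻¹ ≠ 0)
    {K L F : Type} [Field K] [NumberField K] [IsGalois ℚ K] [Field L] [NumberField L]
    [IsGalois ℚ L] [Field F] [NumberField F] [IsCyclotomicExtension {f * r} ℚ F] [Algebra K L]
    [Algebra L F] [Algebra K F] [IsScalarTower K L F] (ψ : Gal(K/ℚ) →* kˣ)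
    (hψ : Function.Injective ψ)
    (hcomp : ∀ σ : Gal(F/ℚ), ψ (rs (K := K) σ) =
      χ (ZMod.unitsMap (dvd_mul_right f r) (AAP.gq (f * r) F σ)))
    (δ : 𝓞 L) (hδ0 : δ ≠ 0)
    (hδσ : ∀ σ : Gal(F/ℚ), rs (K := L) σ • δ =
      ((legendreSym r (((AAP.gq (f * r) F σ : (ZMod (f * r))ˣ) : ZMod (f * r)).val : ℤ) : ℤ) :
        𝓞 L) * δ)
    (c : Gal(L/ℚ)) (hcδ : c • δ = -δ) (s : Gal(K/ℚ) →* Gal(L/ℚ))
    (hs : ∀ ρ, rs (K := K) (s ρ) = ρ ∧ s ρ • δ = δ)
    (hs' : ∀ σ : Gal(L/ℚ), (σ • δ = δ → σ = s (rs (K := K) σ)) ∧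
      (σ • δ = -δ → σ = c * s (rs (K := K) σ))) :
    ∃ (θ θ' : Gal(K/ℚ) → ℕ) (A : ℕ), (∀ ρ, θ ρ + θ' ρ = A) ∧ es ψ θ' ≠ 0 ∧
      rs (K := L) ((AAP.gq (f * r) F).symm (-1)) = c ∧
      ∀ Q : Ideal (𝓞 L), ∏ a : (ZMod (f * r))ˣ,
        (rs (K := L) ((AAP.gq (f * r) F).symm a⁻¹) • Q) ^ AAP.fl 2 (f * r) a =
          (∏ ρ, (s ρ • Q) ^ θ ρ) * ∏ ρ, ((c * s ρ) • Q) ^ θ' ρ := by
  classical
  have : IsGalois ℚ F := IsCyclotomicExtension.isGalois {f * r} ℚ F
  have hr : r.Prime := Fact.out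
  have hmodd : Odd (f * r) := hodd.mul (Nat.odd_iff.2 (by omega))
  have hm1 : 1 < f * r := by
    have := hr.one_lt
    nlinarith
  have hδ2 : δ ≠ -δ := by
    intro h
    have h1 : (2 : 𝓞 L) * δ = 0 := by linear_combination h
    rcases mul_eq_zero.1 h1 with h2 | h2
    · exact two_ne_zero h2
    · exact hδ0 h2
  have hKL : ∀ σ : Gal(F/ℚ), rs (K := K) (rs (K := L) σ) = rs (K := K) σ := fun σ =>
    (IsScalarTower.AlgEquiv.restrictNormalHom_comp_apply K L σ).symm
  -- the restriction of `σ_{-1}` is `c`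
  have hψ1 : rs (K := K) ((AAP.gq (f * r) F).symm (-1)) = 1 := by
    apply hψ
    rw [hcomp, MulEquiv.apply_symm_apply, map_one]
    exact hfENegOne (χ.comp (ZMod.unitsMap (dvd_mul_right f r)))
  have hc : rs (K := L) ((AAP.gq (f * r) F).symm (-1)) = c := by
    have h1 : rs (K := L) ((AAP.gq (f * r) F).symm (-1)) • δ = -δ := by
      rw [hδσ, MulEquiv.apply_symm_apply, hfENeg hr4, Int.cast_neg, Int.cast_one, neg_one_mul]
    have h2 := (hs' _).2 h1
    rw [hKL, hψ1, map_one, mul_one] at h2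
    exact h2
  have hcK : rs (K := K) c = 1 := by rw [← hc, hKL, hψ1]
  -- the homomorphism `T`
  let T : (ZMod (f * r))ˣ →* Gal(L/ℚ) :=
    (rs (K := L)).comp ((AAP.gq (f * r) F).symm.toMonoidHom.comp invMonoidHom)
  have hT : ∀ a, T a = rs (K := L) ((AAP.gq (f * r) F).symm a⁻¹) := fun a => rfl
  have hTneg : ∀ a, T (-a) = c * T a := by
    intro a
    rw [← neg_one_mul a, map_mul, hT (-1), inv_neg_one, hc]
  have hTδ : ∀ a, T a • δ = ((legendreSym r ((a : ZMod (f * r)).val : ℤ) : ℤ) : 𝓞 L) * δ := by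
    intro a
    rw [hT, hδσ, MulEquiv.apply_symm_apply, hfEInv]
  have hTK : ∀ a, (ψ (rs (K := K) (T a)) : kˣ) =
      (χ⁻¹) (ZMod.unitsMap (dvd_mul_right f r) a) := by
    intro a
    rw [hT, hKL, hcomp, MulEquiv.apply_symm_apply, map_inv, map_inv, MonoidHom.inv_apply]
  have hpos : ∀ a : (ZMod (f * r))ˣ, legendreSym r ((a : ZMod (f * r)).val : ℤ) = 1 → T a • δ = δ := by
    intro a h
    rw [hTδ, h, Int.cast_one, one_mul]
  have hneg : ∀ a : (ZMod (f * r))ˣ, legendreSym r ((a : ZMod (f * r)).val : ℤ) = -1 → T a • δ = -δ := by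
    intro a h
    rw [hTδ, h, Int.cast_neg, Int.cast_one, neg_one_mul]
  have hsδ' : ∀ ρ, (c * s ρ) • δ = -δ := by
    intro ρ
    rw [mul_smul, (hs ρ).2, hcδ]
  have hsK' : ∀ ρ, rs (K := K) (c * s ρ) = ρ := by
    intro ρ
    rw [map_mul, hcK, one_mul, (hs ρ).1]
  -- the two cases
  have hA : ∀ (a : (ZMod (f * r))ˣ) ρ, T a = s ρ ↔
      (legendreSym r ((a : ZMod (f * r)).val : ℤ) = 1 ∧ ρ = rs (K := K) (T a)) := by
    intro a ρ
    constructor
    · intro h
      refine ⟨?_, by rw [h, (hs ρ).1]⟩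
      rcases hfEDich a with h1 | h1
      · exact h1
      · exact absurd (((hs ρ).2.symm.trans (by rw [← h])).trans (hneg a h1)) hδ2
    · rintro ⟨h, rfl⟩
      exact (hs' _).1 (hpos a h)
  have hB : ∀ (a : (ZMod (f * r))ˣ) ρ, T a = c * s ρ ↔
      (legendreSym r ((a : ZMod (f * r)).val : ℤ) = -1 ∧ ρ = rs (K := K) (T a)) := by
    intro a ρ
    constructor
    · intro h
      refine ⟨?_, by rw [h, hsK']⟩
      rcases hfEDich a with h1 | h1
      · exact absurd ((hpos a h1).symm.trans ((by rw [h] : T a • δ = (c * s ρ) • δ).trans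
          (hsδ' ρ))) hδ2
      · exact h1
    · rintro ⟨h, rfl⟩
      exact (hs' _).2 (hneg a h)
  refine ⟨fun ρ => ∑ a, if T a = s ρ then AAP.fl 2 (f * r) a else 0,
    fun ρ => ∑ a, if T a = c * s ρ then AAP.fl 2 (f * r) a else 0,
    (univ.filter fun a => T a = 1).card, ?_, ?_, hc, ?_⟩
  · intro ρ
    have h1 : ∑ a, (if T a = c * s ρ then AAP.fl 2 (f * r) a else 0) =
        ∑ a, (if T a = s ρ then AAP.fl 2 (f * r) (-a) else 0) := by
      rw [← Equiv.sum_comp (Equiv.neg (ZMod (f * r))ˣ)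
        (fun a => if T a = c * s ρ then AAP.fl 2 (f * r) a else 0)]
      refine Finset.sum_congr rfl fun a _ => ?_
      rw [Equiv.neg_apply, hTneg]
      exact if_congr (mul_right_inj c) rfl rfl
    show (∑ a, if T a = s ρ then AAP.fl 2 (f * r) a else 0) +
      (∑ a, if T a = c * s ρ then AAP.fl 2 (f * r) a else 0) = _
    rw [h1, ← Finset.sum_add_distrib]
    have h2 : ∀ a, (if T a = s ρ then AAP.fl 2 (f * r) a else 0) +
        (if T a = s ρ then AAP.fl 2 (f * r) (-a) else 0) = if T a = s ρ then 1 else 0 := by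
      intro a
      by_cases h : T a = s ρ
      · rw [if_pos h, if_pos h, if_pos h, hfEFl hmodd hm1]
      · rw [if_neg h, if_neg h, if_neg h]
    rw [Finset.sum_congr rfl fun a _ => h2 a, ← Finset.sum_filter, Finset.sum_const, smul_eq_mul,
      mul_one]
    refine MonoidHom.card_fiber_eq_of_mem_range T ?_ ⟨1, map_one T⟩
    obtain ⟨σ, hσ⟩ := AlgEquiv.restrictNormalHom_surjective (F := ℚ) (K₁ := L) F (s ρ)
    refine ⟨(AAP.gq (f * r) F σ)⁻¹, ?_⟩
    rw [hT, inv_inv, MulEquiv.symm_apply_apply]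
    exact hσ
  · have h1 : es ψ (fun ρ => ∑ a, if T a = c * s ρ then AAP.fl 2 (f * r) a else 0) =
        ∑ a : (ZMod (f * r))ˣ, ((χ⁻¹) (ZMod.unitsMap (dvd_mul_right f r) a) : k) *
          (if legendreSym r ((a : ZMod (f * r)).val : ℤ) = -1 then
            ((AAP.fl 2 (f * r) a : ℕ) : k) else 0) := by
      unfold es
      have h2 : ∀ ρ : Gal(K/ℚ), ((∑ a, if T a = c * s ρ then AAP.fl 2 (f * r) a else 0 : ℕ) : k) *
          (ψ ρ : k) = ∑ a, (if T a = c * s ρ then ((AAP.fl 2 (f * r) a : ℕ) : k) * (ψ ρ : k)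
            else 0) := by
        intro ρ
        rw [Nat.cast_sum, Finset.sum_mul]
        refine Finset.sum_congr rfl fun a _ => ?_
        split_ifs
        · rfl
        · rw [Nat.cast_zero, zero_mul]
      rw [Finset.sum_congr rfl fun ρ _ => h2 ρ, Finset.sum_comm]
      refine Finset.sum_congr rfl fun a _ => ?_
      by_cases h3 : legendreSym r ((a : ZMod (f * r)).val : ℤ) = -1
      · rw [Finset.sum_eq_single_of_mem (rs (K := K) (T a)) (Finset.mem_univ _),
          if_pos ((hB a _).2 ⟨h3, rfl⟩), if_pos h3, hTK, mul_comm]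
        intro ρ _ hρ
        exact if_neg fun h => hρ ((hB a ρ).1 h).2
      · rw [if_neg h3, mul_zero]
        exact Finset.sum_eq_zero fun ρ _ => if_neg fun h => h3 ((hB a ρ).1 h).1
    rw [h1]
    refine cmb hf hodd hr4 hrf χ⁻¹ u₂ uᵣ h₂ hᵣ ?_ ?_ hD
    · rw [MonoidHom.inv_apply]
      exact fun h => hχ₂ (inv_eq_one.1 h)
    · rw [MonoidHom.inv_apply]
      exact fun h => hχᵣ (inv_eq_one.1 h)
  · intro Q
    have h1 : ∏ ρ, (s ρ • Q) ^ (∑ a, if T a = s ρ then AAP.fl 2 (f * r) a else 0) =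
        ∏ a : (ZMod (f * r))ˣ, (if legendreSym r ((a : ZMod (f * r)).val : ℤ) = 1 then
          (T a • Q) ^ AAP.fl 2 (f * r) a else 1) := by
      have h2 : ∀ ρ, (s ρ • Q) ^ (∑ a, if T a = s ρ then AAP.fl 2 (f * r) a else 0) =
          ∏ a, (if T a = s ρ then (s ρ • Q) ^ AAP.fl 2 (f * r) a else 1) := by
        intro ρ
        rw [← Finset.prod_pow_eq_pow_sum]
        refine Finset.prod_congr rfl fun a _ => ?_
        split_ifs
        · rfl
        · rw [pow_zero]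
      rw [Finset.prod_congr rfl fun ρ _ => h2 ρ, Finset.prod_comm]
      refine Finset.prod_congr rfl fun a _ => ?_
      by_cases h3 : legendreSym r ((a : ZMod (f * r)).val : ℤ) = 1
      · have h4 := (hA a _).2 ⟨h3, rfl⟩
        rw [Finset.prod_eq_single_of_mem (rs (K := K) (T a)) (Finset.mem_univ _), if_pos h4,
          if_pos h3, ← h4]
        intro ρ _ hρ
        exact if_neg fun h => hρ ((hA a ρ).1 h).2
      · rw [if_neg h3]
        exact Finset.prod_eq_one fun ρ _ => if_neg fun h => h3 ((hA a ρ).1 h).1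
    have h1' : ∏ ρ, ((c * s ρ) • Q) ^ (∑ a, if T a = c * s ρ then AAP.fl 2 (f * r) a else 0) =
        ∏ a : (ZMod (f * r))ˣ, (if legendreSym r ((a : ZMod (f * r)).val : ℤ) = 1 then 1 else
          (T a • Q) ^ AAP.fl 2 (f * r) a) := by
      have h2 : ∀ ρ, ((c * s ρ) • Q) ^ (∑ a, if T a = c * s ρ then AAP.fl 2 (f * r) a else 0) =
          ∏ a, (if T a = c * s ρ then ((c * s ρ) • Q) ^ AAP.fl 2 (f * r) a else 1) := by
        intro ρ
        rw [← Finset.prod_pow_eq_pow_sum]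
        refine Finset.prod_congr rfl fun a _ => ?_
        split_ifs
        · rfl
        · rw [pow_zero]
      rw [Finset.prod_congr rfl fun ρ _ => h2 ρ, Finset.prod_comm]
      refine Finset.prod_congr rfl fun a _ => ?_
      by_cases h3 : legendreSym r ((a : ZMod (f * r)).val : ℤ) = 1
      · rw [if_pos h3]
        refine Finset.prod_eq_one fun ρ _ => if_neg fun h => ?_
        have h5 := ((hB a ρ).1 h).1
        rw [h3] at h5
        norm_num at h5
      · have h6 := (hfEDich a).resolve_left h3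
        have h4 := (hB a _).2 ⟨h6, rfl⟩
        rw [Finset.prod_eq_single_of_mem (rs (K := K) (T a)) (Finset.mem_univ _), if_pos h4,
          if_neg h3, ← h4]
        intro ρ _ hρ
        exact if_neg fun h => hρ ((hB a ρ).1 h).2
    show _ = (∏ ρ, (s ρ • Q) ^ (∑ a, if T a = s ρ then AAP.fl 2 (f * r) a else 0)) *
      ∏ ρ, ((c * s ρ) • Q) ^ (∑ a, if T a = c * s ρ then AAP.fl 2 (f * r) a else 0)
    rw [h1, h1', ← Finset.prod_mul_distrib]
    refine Finset.prod_congr rfl fun a _ => ?_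
    rw [← hT]
    split_ifs
    · rw [mul_one]
    · rw [one_mul]

end Pool.Agent.FR2
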