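import Pool.Agent.FR2.DefsK

/-!
# FR2-LocF: the local functional at two, cyclotomic field

`F = ℚ(ζ_f)`, `f` odd, `𝓞 F = ℤ[ζ]`. With `2^n ≡ 1` modulo `f`, `N₀ = 2^n - 1`, one has `x^(2^n) ≡ x`
modulo `2` for all `x ∈ 𝓞 F`, so `x^N₀ = 1 + 2 d(x)` for the units `x`, and `dF x = θ(d(x))` is additive.
The value at `ζ^a + ζ^(-a)` follows from `1 + ζ^(2a) = (1 + ζ^a)^2 (1 - 2 t)`,
`t = ζ^a / (1 + ζ^a)^2`.
-/

open NumberField Pointwise Finset

namespace Pool.Agent.FR2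

private theorem LocF_gen {m : ℕ} [NeZero m] {K : Type} [Field K] [NumberField K]
    [IsCyclotomicExtension {m} ℚ K] {ζ : 𝓞 K} (hζ : IsPrimitiveRoot ζ m) (S : Subring (𝓞 K))
    (h : ζ ∈ S) (x : 𝓞 K) : x ∈ S := by
  have hz : IsPrimitiveRoot (ζ : K) m := hζ.map_of_injective RingOfIntegers.coe_injective
  have h1 : hz.integralPowerBasis.gen = ζ := by
    rw [IsPrimitiveRoot.integralPowerBasis_gen]
    rfl
  have h2 := hz.integralPowerBasis.adjoin_gen_eq_top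
  rw [h1] at h2
  have h3 : Algebra.adjoin ℤ {ζ} ≤ subalgebraOfSubring S := by
    refine Algebra.adjoin_le ?_
    rintro y rfl
    exact h
  rw [h2] at h3
  exact h3 (Algebra.mem_top (x := x))

private theorem LocF_prim {R F : Type*} [CommRing R] [IsDomain R] [Field F] (π : R →+* F) {m : ℕ}
    (hm : 0 < m) (hmF : (m : F) ≠ 0) {ζ : R} (hζ : IsPrimitiveRoot ζ m) :
    IsPrimitiveRoot (π ζ) m := by
  have : NeZero (m : F) := ⟨hmF⟩
  rw [← Polynomial.isRoot_cyclotomic_iff, ← Polynomial.map_cyclotomic m π]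
  exact (hζ.isRoot_cyclotomic hm).map

private theorem LocF_pow {R : Type*} [CommRing R] (c : R) (m : ℕ) :
    ∃ e, (1 + 2 * c) ^ m = 1 + 2 * (m * c) + 4 * e := by
  induction m with
  | zero => exact ⟨0, by simp⟩
  | succ m ih =>
    obtain ⟨e, he⟩ := ih
    refine ⟨m * c ^ 2 + e + 2 * e * c, ?_⟩
    rw [pow_succ, he]
    push_cast
    ring

/-- the elements which are fixed by the Frobenius power modulo two form a subring -/
private def LocF_S (R : Type*) [CommRing R] (n : ℕ) (hn : n ≠ 0) : Subring R where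
  carrier := {x | (2 : R) ∣ x ^ (2 ^ n) - x}
  mul_mem' := by
    rintro x y ⟨u, hu⟩ ⟨v, hv⟩
    refine ⟨x ^ (2 ^ n) * v + y * u, ?_⟩
    rw [mul_pow]
    linear_combination (x ^ (2 ^ n)) * hv + y * hu
  one_mem' := ⟨0, by simp⟩
  add_mem' := by
    rintro x y ⟨u, hu⟩ ⟨v, hv⟩
    obtain ⟨r, hr⟩ := exists_add_pow_prime_pow_eq Nat.prime_two x y n
    refine ⟨u + v + x * y * r, ?_⟩
    rw [hr]
    push_cast
    linear_combination hu + hv
  zero_mem' := ⟨0, by simp⟩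
  neg_mem' := by
    rintro x ⟨u, hu⟩
    refine ⟨u + x, ?_⟩
    have h1 : (-x) ^ (2 ^ n) = x ^ (2 ^ n) :=
      Even.neg_pow ((Nat.even_pow.2 ⟨even_two, hn⟩)) x
    rw [h1]
    linear_combination hu

private theorem LocF_unit {R : Type*} [CommRing R] [IsDomain R] {f : ℕ} (hf : 2 < f)
    (hodd : Odd f) {η : R} (hη : IsPrimitiveRoot η f) : IsUnit (1 + η) := by
  obtain ⟨c, hc⟩ : (1 - η ^ 2) ∣ 1 - (η ^ 2) ^ ((f + 1) / 2) := by
    have h1 := sub_dvd_pow_sub_pow (1 : R) (η ^ 2) ((f + 1) / 2)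
    rwa [one_pow] at h1
  have h2 : (η ^ 2) ^ ((f + 1) / 2) = η := by
    have h3 : 2 * ((f + 1) / 2) = f + 1 := by
      obtain ⟨k, hk⟩ := hodd
      omega
    rw [← pow_mul, h3, pow_succ, hη.pow_eq_one, one_mul]
  rw [h2] at hc
  have h4 : (1 - η : R) ≠ 0 := by
    intro h
    exact hη.ne_one (by omega) (sub_eq_zero.1 h).symm
  have h5 : (1 + η) * c = 1 := by
    apply mul_left_cancel₀ h4
    linear_combination -hc
  exact IsUnit.of_mul_eq_one c h5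

theorem locF {k : Type} [Field k] [CharP k 2] (f : ℕ) [NeZero f] (hf : 2 < f) (hodd : Odd f)
    (F : Type) [Field F] [NumberField F] [IsCyclotomicExtension {f} ℚ F] (θ : 𝓞 F →+* k) :
    ∃ dF : (𝓞 F)ˣ → k, (∀ x y, dF (x * y) = dF x + dF y) ∧
      (∀ x : (𝓞 F)ˣ, (∃ N : ℕ, Odd N ∧ (4 : 𝓞 F) ∣ (x : 𝓞 F) ^ N - 1) → dF x = 0) ∧
      IsPrimitiveRoot (θ (AAP.zt_spec f F).toInteger) f ∧
      ∀ (a : (ZMod f)ˣ) (x : (𝓞 F)ˣ), ((x : 𝓞 F) : F) =
          AAP.zt f F ^ (a : ZMod f).val + (AAP.zt f F ^ (a : ZMod f).val)⁻¹ →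
        dF x = θ (AAP.zt_spec f F).toInteger ^ (a : ZMod f).val /
          (1 + θ (AAP.zt_spec f F).toInteger ^ (a : ZMod f).val) ^ 2 := by
  classical
  set ζ : 𝓞 F := (AAP.zt_spec f F).toInteger with hζdef
  have hζ : IsPrimitiveRoot ζ f := (AAP.zt_spec f F).toInteger_isPrimitiveRoot
  have hζc : algebraMap (𝓞 F) F ζ = AAP.zt f F := rfl
  -- the characteristic
  have h2k : (2 : k) = 0 := by exact_mod_cast CharP.cast_eq_zero k 2
  have hoddk : ∀ N : ℕ, Odd N → (N : k) = 1 := by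
    rintro N ⟨j, rfl⟩
    push_cast
    rw [h2k, zero_mul, zero_add]
  have h20 : (2 : 𝓞 F) ≠ 0 := two_ne_zero
  have hθ2 : θ 2 = 0 := by
    have : θ ((2 : ℕ) : 𝓞 F) = ((2 : ℕ) : k) := map_natCast θ 2
    push_cast at this
    rw [this, h2k]
  -- the exponent
  obtain ⟨n, hn0, hn⟩ : ∃ n, n ≠ 0 ∧ f ∣ 2 ^ n - 1 := by
    refine ⟨f.totient, (Nat.totient_pos.2 (by omega)).ne', ?_⟩
    have h1 := Nat.ModEq.pow_totient (hodd.coprime_two_left)
    exact (Nat.modEq_iff_dvd' Nat.one_le_two_pow).1 h1.symm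
  set N₀ := 2 ^ n - 1 with hN₀
  have hN1 : 2 ^ n = N₀ + 1 := by
    have : 0 < 2 ^ n := by positivity
    omega
  have hN₀odd : Odd N₀ := by
    have h1 : Even (2 ^ n) := Nat.even_pow.2 ⟨even_two, hn0⟩
    rw [hN1] at h1
    rcases Nat.even_or_odd N₀ with h | h
    · exact absurd h1 (Nat.not_even_iff_odd.2 h.add_one)
    · exact h
  have hζN : ζ ^ N₀ = 1 := (hζ.pow_eq_one_iff_dvd _).2 hn
  have hfrob : ∀ x : 𝓞 F, (2 : 𝓞 F) ∣ x ^ (2 ^ n) - x := by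
    apply LocF_gen hζ (LocF_S (𝓞 F) n hn0)
    show (2 : 𝓞 F) ∣ ζ ^ (2 ^ n) - ζ
    rw [hN1, pow_succ, hζN, one_mul, sub_self]
    exact dvd_zero _
  have hD : ∀ x : (𝓞 F)ˣ, ∃ d : 𝓞 F, (x : 𝓞 F) ^ N₀ = 1 + 2 * d := by
    intro x
    obtain ⟨c, hc⟩ := hfrob (x : 𝓞 F)
    refine ⟨c * ((x⁻¹ : (𝓞 F)ˣ) : 𝓞 F), ?_⟩
    have hx := x.mul_inv
    rw [hN1, pow_succ] at hc
    linear_combination ((x⁻¹ : (𝓞 F)ˣ) : 𝓞 F) * hc + (1 - (x : 𝓞 F) ^ N₀) * hx
  choose D hDs using hD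
  have huniq : ∀ (x : (𝓞 F)ˣ) (d : 𝓞 F), (x : 𝓞 F) ^ N₀ = 1 + 2 * d → D x = d := by
    intro x d hd
    apply mul_left_cancel₀ h20
    have := hDs x
    rw [hd] at this
    exact (add_left_cancel this).symm
  have hadd : ∀ x y, θ (D (x * y)) = θ (D x) + θ (D y) := by
    intro x y
    rw [huniq (x * y) (D x + D y + 2 * (D x * D y)) (by
      rw [Units.val_mul, mul_pow, hDs, hDs]
      ring)]
    rw [map_add, map_add, map_mul, hθ2, zero_mul, add_zero]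
  have hone : θ (D 1) = 0 := by
    have := hadd 1 1
    rw [mul_one] at this
    exact left_eq_add.1 this
  have hpow : ∀ (x : (𝓞 F)ˣ) (N : ℕ), θ (D (x ^ N)) = N * θ (D x) := by
    intro x N
    induction N with
    | zero => rw [pow_zero, hone, Nat.cast_zero, zero_mul]
    | succ N ih =>
      rw [pow_succ, hadd, ih]
      push_cast
      ring
  have hfk : (f : k) ≠ 0 := by
    rw [hoddk f hodd]
    exact one_ne_zero
  refine ⟨fun x => θ (D x), hadd, ?_, LocF_prim θ (by omega) hfk hζ, ?_⟩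
  · rintro x ⟨N, hN, y, hy⟩
    show θ (D x) = 0
    have h1 := hpow x N
    rw [hoddk N hN, one_mul] at h1
    rw [← h1]
    obtain ⟨e, he⟩ := LocF_pow (2 * y) N₀
    rw [huniq (x ^ N) (2 * (N₀ * y + e)) (by
      rw [Units.val_pow_eq_pow_val]
      have h2 : (x : 𝓞 F) ^ N = 1 + 2 * (2 * y) := by linear_combination hy
      rw [h2, he]
      ring)]
    rw [map_mul, hθ2, zero_mul]
  · intro a x hx
    show θ (D x) = _
    set A := (a : ZMod f).val with hA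
    have hη : IsPrimitiveRoot (ζ ^ A) f :=
      hζ.pow_of_coprime A (ZMod.val_coe_unit_coprime a)
    obtain ⟨w, hw⟩ := LocF_unit hf hodd hη
    obtain ⟨uζ, huζ⟩ := hζ.isUnit (by omega)
    have hx2 : ζ ^ A * (x : 𝓞 F) = 1 + ζ ^ (2 * A) := by
      apply RingOfIntegers.coe_injective
      have hz0 : AAP.zt f F ^ A ≠ 0 := pow_ne_zero _ ((AAP.zt_spec f F).ne_zero (by omega))
      have hx' : algebraMap (𝓞 F) F (x : 𝓞 F) =
        AAP.zt f F ^ A + (AAP.zt f F ^ A)⁻¹ := hx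
      rw [map_mul, map_pow, map_add, map_one, map_pow, hζc, hx', mul_comm 2 A, pow_mul, mul_add,
        mul_inv_cancel₀ hz0]
      ring
    set v : (𝓞 F)ˣ := uζ ^ A * x * (w⁻¹) ^ 2 with hv
    set t : 𝓞 F := ζ ^ A * ((w⁻¹ : (𝓞 F)ˣ) : 𝓞 F) ^ 2 with ht
    have hww : (w : 𝓞 F) * ((w⁻¹ : (𝓞 F)ˣ) : 𝓞 F) = 1 := w.mul_inv
    have hvt : (v : 𝓞 F) = 1 + 2 * (-t) := by
      rw [hv, ht]
      push_cast
      rw [huζ]
      have h1 : ζ ^ A * (x : 𝓞 F) = (w : 𝓞 F) ^ 2 - 2 * ζ ^ A := by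
        rw [hx2, hw]
        ring
      have h2 : (w : 𝓞 F) ^ 2 * ((w⁻¹ : (𝓞 F)ˣ) : 𝓞 F) ^ 2 = 1 := by
        rw [← mul_pow, hww, one_pow]
      linear_combination (((w⁻¹ : (𝓞 F)ˣ) : 𝓞 F) ^ 2) * h1 + h2
    have hv1 : θ (D v) = θ (D x) := by
      have hζ0 : θ (D uζ) = 0 := by
        rw [huniq uζ 0 (by rw [huζ, hζN, mul_zero, add_zero]), map_zero]
      rw [hv, hadd, hadd, hpow, hpow, hζ0, mul_zero, zero_add]
      push_cast
      rw [h2k, zero_mul, add_zero]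
    have hv2 : θ (D v) = θ t := by
      obtain ⟨e, he⟩ := LocF_pow (-t) N₀
      rw [huniq v (N₀ * (-t) + 2 * e) (by rw [hvt, he]; ring)]
      rw [map_add, map_mul, map_mul, map_natCast, hoddk N₀ hN₀odd, hθ2, zero_mul, add_zero,
        one_mul, map_neg]
      have h3 : θ t + θ t = 0 := by rw [← two_mul, h2k, zero_mul]
      exact neg_eq_of_add_eq_zero_left h3
    rw [← hv1, hv2, ht, map_mul, map_pow, map_pow]
    have hθw : θ (w : 𝓞 F) = 1 + θ ζ ^ A := by rw [hw, map_add, map_one, map_pow]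
    have hθw2 : θ (w : 𝓞 F) * θ ((w⁻¹ : (𝓞 F)ˣ) : 𝓞 F) = 1 := by rw [← map_mul, hww, map_one]
    have hθw0 : θ (w : 𝓞 F) ≠ 0 := left_ne_zero_of_mul_eq_one hθw2
    rw [← hθw, eq_div_iff (pow_ne_zero _ hθw0), mul_assoc, ← mul_pow, mul_comm (θ _) (θ (w : 𝓞 F)),
      hθw2, one_pow, mul_one]

end Pool.Agent.FR2
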