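import Pool.Agent.FR2.DefsK

/-!
# FR2-Mnk: a Minkowski unit

In a totally real Galois field a unit which is small at all places except one satisfies, up to torsion, no
relation between its conjugates except the norm relation.
-/

open NumberField Pointwise Finset

namespace Pool.Agent.FR2

section

variable {K : Type} [Field K] [NumberField K]

private theorem mnk_val (w : InfinitePlace K) (σ : Gal(K/ℚ)) (ε : (𝓞 K)ˣ) :
    w ((σ • ε : (𝓞 K)ˣ) : K) = (σ⁻¹ • w) (ε : K) := by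
  rw [InfinitePlace.smul_apply]
  rfl

private theorem mnk_inj [IsTotallyReal K] (w : InfinitePlace K) {σ τ : Gal(K/ℚ)}
    (h : σ⁻¹ • w = τ⁻¹ • w) : σ = τ := by
  have h1 : (τ * σ⁻¹) ∈ MulAction.stabilizer Gal(K/ℚ) w := by
    rw [MulAction.mem_stabilizer_iff, mul_smul, h, smul_inv_smul]
  have h2 : InfinitePlace.IsUnramified ℚ w :=
    InfinitePlace.IsReal.isUnramified ℚ (IsTotallyReal.isReal w)
  rw [h2.stabilizer_eq_bot, Subgroup.mem_bot, mul_inv_eq_one] at h1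
  exact h1.symm

private theorem mnk_surj [IsGalois ℚ K] (w v : InfinitePlace K) : ∃ σ : Gal(K/ℚ), σ⁻¹ • w = v := by
  obtain ⟨σ, hσ⟩ := InfinitePlace.exists_smul_eq_of_comap_eq (k := ℚ) (w := w) (w' := v)
    (Subsingleton.elim _ _)
  exact ⟨σ⁻¹, by rw [inv_inv]; exact hσ⟩

private theorem mnk_sum [IsGalois ℚ K] [IsTotallyReal K] (w : InfinitePlace K) (ε : (𝓞 K)ˣ)
    (ρ : Gal(K/ℚ)) : ∑ σ : Gal(K/ℚ), Real.log (w (((ρ * σ) • ε : (𝓞 K)ˣ) : K)) = 0 := by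
  have h0 := Units.sum_mult_mul_log ε
  have h1 : ∑ v : InfinitePlace K, (v.mult : ℝ) * Real.log (v (ε : K)) =
      ∑ v : InfinitePlace K, Real.log (v (ε : K)) := by
    apply Finset.sum_congr rfl
    intro v _
    unfold InfinitePlace.mult
    rw [if_pos (IsTotallyReal.isReal v), Nat.cast_one, one_mul]
  rw [h1] at h0
  rw [(Group.mulLeft_bijective ρ).sum_comp
    (fun σ : Gal(K/ℚ) => Real.log (w ((σ • ε : (𝓞 K)ˣ) : K)))]
  simp only [mnk_val]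
  have hb : Function.Bijective fun σ : Gal(K/ℚ) => σ⁻¹ • w :=
    ⟨fun σ τ h => mnk_inj w h, mnk_surj w⟩
  rw [hb.sum_comp (fun v : InfinitePlace K => Real.log (v (ε : K)))]
  exact h0

private theorem mnk_log (v : InfinitePlace K) (ε : (𝓞 K)ˣ) (t : Gal(K/ℚ) → ℤ)
    (h : ∏ σ, (σ • ε) ^ t σ ∈ Units.torsion K) :
    ∑ σ : Gal(K/ℚ), (t σ : ℝ) * Real.log (v ((σ • ε : (𝓞 K)ˣ) : K)) = 0 := by
  have h1 := (Units.mem_torsion K).1 h v
  have h2 : ∀ s : Finset Gal(K/ℚ), v ((∏ σ ∈ s, (σ • ε) ^ t σ : (𝓞 K)ˣ) : K) =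
      ∏ σ ∈ s, v ((σ • ε : (𝓞 K)ˣ) : K) ^ t σ := by
    classical
    intro s
    induction s using Finset.induction_on with
    | empty => simp
    | insert σ s hσ ih =>
      rw [Finset.prod_insert hσ, Finset.prod_insert hσ, Units.coe_mul, map_mul, ih,
        Units.coe_zpow, map_zpow₀]
  rw [h2] at h1
  have h3 := congrArg Real.log h1
  rw [Real.log_one, Real.log_prod] at h3
  · rw [← h3]
    apply Finset.sum_congr rfl
    intro σ _
    rw [Real.log_zpow]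
  · intro σ _
    exact zpow_ne_zero _ (Units.pos_at_place _ v).ne'

end

theorem mnk (K : Type) [Field K] [NumberField K] [IsGalois ℚ K] [IsTotallyReal K] :
    ∃ ε : (𝓞 K)ˣ, ∀ t : Gal(K/ℚ) → ℤ, ∏ σ, (σ • ε) ^ t σ ∈ Units.torsion K →
      ∀ σ τ, t σ = t τ := by
  obtain ⟨w⟩ : Nonempty (InfinitePlace K) := inferInstance
  obtain ⟨ε, hε⟩ := Units.dirichletUnitTheorem.exists_unit K w
  refine ⟨ε, fun t ht => ?_⟩
  obtain ⟨σ₀, -, hmax⟩ := Finset.exists_max_image (Finset.univ : Finset Gal(K/ℚ)) t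
    ⟨1, Finset.mem_univ _⟩
  have hneg : ∀ σ : Gal(K/ℚ), σ ≠ σ₀ → Real.log (w (((σ₀⁻¹ * σ) • ε : (𝓞 K)ˣ) : K)) < 0 := by
    intro σ hσ
    rw [mnk_val]
    apply hε
    intro h
    apply hσ
    have h1 : (σ₀⁻¹ * σ)⁻¹ • w = (1 : Gal(K/ℚ))⁻¹ • w := by rw [h, inv_one, one_smul]
    have h2 := mnk_inj w h1
    rwa [inv_mul_eq_one, eq_comm] at h2
  have h1 := mnk_sum w ε σ₀⁻¹
  have h2 : ∑ σ : Gal(K/ℚ), (t σ : ℝ) * Real.log (w (((σ₀⁻¹ * σ) • ε : (𝓞 K)ˣ) : K)) = 0 := by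
    have h3 := mnk_log (σ₀ • w) ε t ht
    rw [← h3]
    apply Finset.sum_congr rfl
    intro σ _
    congr 2
  have h3 : ∑ σ : Gal(K/ℚ), ((t σ : ℝ) - t σ₀) *
      Real.log (w (((σ₀⁻¹ * σ) • ε : (𝓞 K)ˣ) : K)) = 0 := by
    have h4 : ∑ σ : Gal(K/ℚ), ((t σ : ℝ) - t σ₀) *
        Real.log (w (((σ₀⁻¹ * σ) • ε : (𝓞 K)ˣ) : K)) =
        ∑ σ : Gal(K/ℚ), (t σ : ℝ) * Real.log (w (((σ₀⁻¹ * σ) • ε : (𝓞 K)ˣ) : K)) -
        (t σ₀ : ℝ) * ∑ σ : Gal(K/ℚ), Real.log (w (((σ₀⁻¹ * σ) • ε : (𝓞 K)ˣ) : K)) := by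
      rw [Finset.mul_sum, ← Finset.sum_sub_distrib]
      apply Finset.sum_congr rfl
      intro σ _
      ring
    rw [h4, h1, h2, mul_zero, sub_zero]
  have h5 : ∀ σ ∈ (Finset.univ : Finset Gal(K/ℚ)), 0 ≤ ((t σ : ℝ) - t σ₀) *
      Real.log (w (((σ₀⁻¹ * σ) • ε : (𝓞 K)ˣ) : K)) := by
    intro σ hσ
    have h6 : (t σ : ℝ) ≤ t σ₀ := by exact_mod_cast hmax σ hσ
    rcases eq_or_ne σ σ₀ with rfl | h7
    · rw [sub_self, zero_mul]
    · have h8 := hneg σ h7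
      nlinarith
  have h6 := (Finset.sum_eq_zero_iff_of_nonneg h5).1 h3
  have h7 : ∀ σ, t σ = t σ₀ := by
    intro σ
    rcases eq_or_ne σ σ₀ with rfl | h7
    · rfl
    · have h8 := h6 σ (Finset.mem_univ _)
      rcases mul_eq_zero.1 h8 with h9 | h9
      · have : (t σ : ℝ) = t σ₀ := by linarith
        exact_mod_cast this
      · exact absurd h9 (hneg σ h7).ne
  intro σ τ
  rw [h7 σ, h7 τ]

end Pool.Agent.FR2
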