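import Pool.Agent.FRD.Lte

/-!
# FR2-OrdSum: sums of conjugates of roots of unity of odd order (copy of FRD/OrdSum)
-/

open Finset

namespace Pool.Agent.FR2

open Pool.Agent.FRD

private theorem ordSum2_dvd (q : ℤ) (m : ℕ) :
    (∀ s : ℕ, s.Prime → s ∣ m → (s : ℤ) ∣ q - 1) → m ≠ 0 → (m : ℤ) ∣ q ^ m - 1 := by
  induction m using Nat.strong_induction_on with
  | _ m ih =>
    intro hd hm
    rcases Nat.eq_zero_or_pos (m - 1) with h1 | h1
    · have : m = 1 := by omega
      subst this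
      simp
    · obtain ⟨s, hs, k, rfl⟩ := Nat.exists_prime_and_dvd (show m ≠ 1 by omega)
      have hk0 : k ≠ 0 := by
        rintro rfl
        simp at hm
      have hlt : k < s * k := by
        have := hs.two_le
        nlinarith [Nat.pos_of_ne_zero hk0]
      have ihk := ih k hlt (fun l hl hlk => hd l hl (hlk.mul_left s)) hk0
      have hsq : (s : ℤ) ∣ q - 1 := hd s hs (dvd_mul_right s k)
      have hsQ : (s : ℤ) ∣ q ^ k - 1 := by
        refine hsq.trans ?_
        have := sub_dvd_pow_sub_pow q 1 k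
        rwa [one_pow] at this
      have hgeo : (∑ j ∈ range s, (q ^ k) ^ j) * (q ^ k - 1) = (q ^ k) ^ s - 1 :=
        geom_sum_mul (q ^ k) s
      have hsum : (s : ℤ) ∣ ∑ j ∈ range s, (q ^ k) ^ j := by
        have h2 : (∑ j ∈ range s, (q ^ k) ^ j) = (∑ j ∈ range s, ((q ^ k) ^ j - 1)) + (s : ℤ) := by
          rw [Finset.sum_sub_distrib]
          simp
        rw [h2]
        refine dvd_add (Finset.dvd_sum fun j _ => ?_) dvd_rfl
        refine hsQ.trans ?_
        have := sub_dvd_pow_sub_pow (q ^ k) 1 j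
        rwa [one_pow] at this
      have h3 : q ^ (s * k) - 1 = (∑ j ∈ range s, (q ^ k) ^ j) * (q ^ k - 1) := by
        rw [hgeo, ← pow_mul, mul_comm]
      rw [h3, Nat.cast_mul]
      exact mul_dvd_mul hsum ihk

private theorem ordSum2_shift {A : Type} [AddCommGroup A] (g : ℕ → A) (m : ℕ) (hg : ∀ i, g (m + i) = g i)
    (k : ℕ) : ∑ i ∈ range m, g (i + k) = ∑ i ∈ range m, g i := by
  induction k with
  | zero => rfl
  | succ k ih =>
    rw [← ih]
    have h1 := Finset.sum_range_succ' (fun i => g (i + k)) m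
    have h2 := Finset.sum_range_succ (fun i => g (i + k)) m
    rw [h1] at h2
    have h3 : g (0 + k) = g (m + k) := by
      rw [zero_add, hg]
    rw [h3] at h2
    have h4 := add_right_cancel h2
    rw [← h4]
    refine Finset.sum_congr rfl fun i _ => ?_
    congr 1
    omega

open Classical in
theorem ord_sum2 {K : Type} [Field K] {m q : ℕ} (hm : (m : K) ≠ 0) (hq : 1 ≤ q)
    (hd : ∀ s : ℕ, s.Prime → s ∣ m → s ∣ q - 1) (h4 : ¬ 2 ∣ m) (ξ : K) (hξ : ξ ^ m = 1) :
    ∑ i ∈ range m, ξ ^ q ^ i = if ξ ^ (q - 1) = 1 then (m : K) * ξ else 0 := by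
  have hm0 : m ≠ 0 := by
    rintro rfl
    simp at hm
  have hξ0 : ξ ≠ 0 := by
    rintro rfl
    rw [zero_pow hm0] at hξ
    exact zero_ne_one hξ
  have hqz : ((q - 1 : ℕ) : ℤ) = (q : ℤ) - 1 := by
    rw [Nat.cast_sub hq, Nat.cast_one]
  -- the criterion
  have hcrit : ∀ n : ℕ, 1 ≤ n → (ξ ^ n = ξ ↔ (orderOf ξ : ℤ) ∣ (n : ℤ) - 1) := by
    intro n hn
    have e1 : ((n - 1 : ℕ) : ℤ) = (n : ℤ) - 1 := by
      rw [Nat.cast_sub hn, Nat.cast_one]
    rw [← e1, Int.natCast_dvd_natCast, orderOf_dvd_iff_pow_eq_one]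
    constructor
    · intro h
      have h2 : ξ ^ (n - 1) * ξ = 1 * ξ := by
        rw [← pow_succ, Nat.sub_add_cancel hn, h, one_mul]
      exact mul_right_cancel₀ hξ0 h2
    · intro h
      calc ξ ^ n = ξ ^ (n - 1) * ξ := by rw [← pow_succ, Nat.sub_add_cancel hn]
        _ = ξ := by rw [h, one_mul]
  have htm : orderOf ξ ∣ m := orderOf_dvd_of_pow_eq_one hξ
  have hdz : ∀ s : ℕ, s.Prime → s ∣ m → (s : ℤ) ∣ (q : ℤ) - 1 := by
    intro s hs hsm
    rw [← hqz]
    exact Int.natCast_dvd_natCast.mpr (hd s hs hsm)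
  have hper : ξ ^ q ^ m = ξ := by
    rw [hcrit _ (Nat.one_le_pow _ _ hq)]
    have h1 := ordSum2_dvd (q : ℤ) m hdz hm0
    rw [Nat.cast_pow]
    exact (Int.natCast_dvd_natCast.mpr htm).trans h1
  split_ifs with hc
  · have hfix : ξ ^ q = ξ := by
      calc ξ ^ q = ξ ^ (q - 1) * ξ := by rw [← pow_succ, Nat.sub_add_cancel hq]
        _ = ξ := by rw [hc, one_mul]
    have hall : ∀ i, ξ ^ q ^ i = ξ := by
      intro i
      induction i with
      | zero => simp
      | succ i ih => rw [pow_succ, pow_mul, ih, hfix]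
    rw [Finset.sum_congr rfl fun i _ => hall i, Finset.sum_const, card_range, nsmul_eq_mul]
  · have hne : ξ ^ q ≠ ξ := by
      intro h
      apply hc
      have h2 : ξ ^ (q - 1) * ξ = 1 * ξ := by
        rw [← pow_succ, Nat.sub_add_cancel hq, h, one_mul]
      exact mul_right_cancel₀ hξ0 h2
    set φ : K → K := fun x => x ^ q with hφ
    have hit : ∀ n, φ^[n] ξ = ξ ^ q ^ n := by
      intro n
      rw [hφ, pow_iterate]
    have hLm : Function.minimalPeriod φ ξ ∣ m := by
      apply Function.IsPeriodicPt.minimalPeriod_dvd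
      unfold Function.IsPeriodicPt Function.IsFixedPt
      rw [hit, hper]
    have hL0 : Function.minimalPeriod φ ξ ≠ 0 := by
      intro h
      rw [h] at hLm
      exact hm0 (zero_dvd_iff.mp hLm)
    have hL1 : Function.minimalPeriod φ ξ ≠ 1 := by
      intro h
      rw [Function.minimalPeriod_eq_one_iff_isFixedPt] at h
      exact hne h
    obtain ⟨s, hs, i₀, hi₀⟩ := Nat.exists_prime_and_dvd hL1
    have hi0 : i₀ ≠ 0 := by
      rintro rfl
      exact hL0 (by rw [hi₀, mul_zero])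
    have hsm : s ∣ m := (Dvd.intro i₀ hi₀.symm).trans hLm
    have hQne : ξ ^ q ^ i₀ ≠ ξ := by
      intro h
      have h1 : Function.IsPeriodicPt φ i₀ ξ := by
        unfold Function.IsPeriodicPt Function.IsFixedPt
        rw [hit, h]
      have h2 := h1.minimalPeriod_dvd
      have h3 := Nat.le_of_dvd (Nat.pos_of_ne_zero hi0) h2
      rw [hi₀] at h3
      have := hs.two_le
      nlinarith [Nat.pos_of_ne_zero hi0]
    have hQs : ξ ^ (q ^ i₀) ^ s = ξ := by
      have h1 := Function.iterate_minimalPeriod (f := φ) (x := ξ)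
      rw [hit, hi₀, mul_comm, pow_mul] at h1
      exact h1
    have hQ1 : 1 ≤ q ^ i₀ := Nat.one_le_pow _ _ hq
    have hqQ : (q : ℤ) - 1 ∣ ((q ^ i₀ : ℕ) : ℤ) - 1 := by
      have := sub_dvd_pow_sub_pow (q : ℤ) 1 i₀
      rw [one_pow] at this
      rwa [Nat.cast_pow]
    have hlte := lte (f := orderOf ξ) (T := s)
      (by
        intro h
        rw [h] at htm
        exact hm0 (zero_dvd_iff.mp htm))
      hs.ne_zero ((q ^ i₀ : ℕ) : ℤ)
      (fun l hl hlt => (hdz l hl (hlt.trans htm)).trans hqQ)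
      (fun h5 => absurd ((show 2 ∣ 4 from ⟨2, rfl⟩).trans (h5.trans htm)) h4)
      (by
        have h1 := (hcrit ((q ^ i₀) ^ s) (Nat.one_le_pow _ _ hQ1)).mp hQs
        rwa [Nat.cast_pow] at h1)
    have hQz : (((q ^ i₀ - 1 : ℕ)) : ℤ) = ((q ^ i₀ : ℕ) : ℤ) - 1 := by
      rw [Nat.cast_sub hQ1, Nat.cast_one]
    rw [← hQz] at hlte
    have hlte' : orderOf ξ ∣ s * (q ^ i₀ - 1) := by exact_mod_cast hlte
    have hθs : (ξ ^ (q ^ i₀ - 1)) ^ s = 1 := by
      rw [← pow_mul, mul_comm]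
      exact orderOf_dvd_iff_pow_eq_one.mp hlte'
    have hQξ : ξ ^ q ^ i₀ = ξ * ξ ^ (q ^ i₀ - 1) := by
      rw [← pow_succ', Nat.sub_add_cancel hQ1]
    set θ : K := ξ ^ (q ^ i₀ - 1) with hθ
    have hθ1 : θ ≠ 1 := by
      intro h
      exact hQne (by rw [hQξ, h, mul_one])
    have hθq1 : θ ^ (q - 1) = 1 := by
      obtain ⟨c, hcc⟩ := hd s hs hsm
      rw [hcc, pow_mul, hθs, one_pow]
    have hθq : θ ^ q = θ := by
      calc θ ^ q = θ ^ (q - 1) * θ := by rw [← pow_succ, Nat.sub_add_cancel hq]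
        _ = θ := by rw [hθq1, one_mul]
    have hθall : ∀ i, θ ^ q ^ i = θ := by
      intro i
      induction i with
      | zero => simp
      | succ i ih => rw [pow_succ, pow_mul, ih, hθq]
    have hsh := ordSum2_shift (fun i => ξ ^ q ^ i) m
      (fun i => by
        show ξ ^ q ^ (m + i) = ξ ^ q ^ i
        rw [pow_add, pow_mul, hper]) i₀
    have hterm : ∀ i, ξ ^ q ^ (i + i₀) = ξ ^ q ^ i * θ := by
      intro i
      rw [add_comm, pow_add, pow_mul, hQξ, mul_pow, hθall]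
    rw [Finset.sum_congr rfl fun i _ => hterm i, ← Finset.sum_mul] at hsh
    have h5 : (∑ i ∈ range m, ξ ^ q ^ i) * (θ - 1) = 0 := by
      rw [mul_sub, hsh, mul_one, sub_self]
    rcases mul_eq_zero.mp h5 with h6 | h6
    · exact h6
    · exact absurd (sub_eq_zero.mp h6) hθ1

end Pool.Agent.FR2
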