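import Pool.Agent.FR2.DefsK

/-!
# Half systems in characteristic two

`k` of characteristic two, `φ : (Z/m)^* → k^*`. The functions `e` with `e(-a) = 1 + e(a)` and the
sums `∑ φ(a) e(a)`, `∑ φ(a) e₁(a) e₂(a)`, in particular for the half system `f < 2 a`.
-/

open NumberField Pointwise Finset

namespace Pool.Agent.FR2

private theorem prNegOne {k : Type} [Field k] [CharP k 2] {m : ℕ} (φ : (ZMod m)ˣ →* kˣ) :
    φ (-1) = 1 := by
  have h1 : φ (-1) * φ (-1) = 1 := by rw [← map_mul, neg_one_mul, neg_neg, map_one]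
  apply Units.ext
  have h2 : ((φ (-1) : kˣ) : k) * ((φ (-1) : kˣ) : k) = 1 := by
    rw [← Units.val_mul, h1, Units.val_one]
  have h3 : (((φ (-1) : kˣ) : k) - 1) * (((φ (-1) : kˣ) : k) - 1) = 0 := by
    have h4 : ((2 : ℕ) : k) = 0 := CharP.cast_eq_zero k 2
    push_cast at h4
    linear_combination h2 - h4 * ((φ (-1) : kˣ) : k) + h4
  rw [Units.val_one]
  exact sub_eq_zero.1 (mul_self_eq_zero.1 h3)

private theorem prNeg {k : Type} [Field k] [CharP k 2] {m : ℕ} (φ : (ZMod m)ˣ →* kˣ)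
    (a : (ZMod m)ˣ) : φ (-a) = φ a := by
  rw [← neg_one_mul a, map_mul, prNegOne, one_mul]

private theorem prTwo (k : Type) [Field k] [CharP k 2] : (2 : k) = 0 := by
  have h4 : ((2 : ℕ) : k) = 0 := CharP.cast_eq_zero k 2
  exact_mod_cast h4

private theorem prNe {m : ℕ} (hm : 2 < m) (a : (ZMod m)ˣ) : -a ≠ a := by
  intro h
  have h1 : -(a : ZMod m) = a := by
    rw [← Units.val_neg, h]
  have h2 : (2 : ZMod m) * a = 0 := by linear_combination -h1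
  have h3 : (2 : ZMod m) = 0 := by
    have h4 := congrArg (· * ((a⁻¹ : (ZMod m)ˣ) : ZMod m)) h2
    simpa [mul_assoc] using h4
  have h4 : ((2 : ℕ) : ZMod m) = 0 := by exact_mod_cast h3
  rw [ZMod.natCast_eq_zero_iff] at h4
  exact absurd (Nat.le_of_dvd (by norm_num) h4) (by omega)

theorem sum_even {k : Type} [Field k] [CharP k 2] {m : ℕ} [NeZero m] (hm : 2 < m)
    (φ : (ZMod m)ˣ →* kˣ) (e : (ZMod m)ˣ → k) (he : ∀ a, e (-a) = e a) :
    ∑ a, (φ a : k) * e a = 0 := by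
  refine Finset.sum_involution (fun a _ => -a) (fun a _ => ?_) (fun a _ _ => prNe hm a)
    (fun a _ => Finset.mem_univ _) (fun a _ => neg_neg a)
  rw [he, prNeg, ← two_mul, prTwo, zero_mul]

theorem sum_odd {k : Type} [Field k] [CharP k 2] {m : ℕ} [NeZero m] (hm : 2 < m)
    (φ : (ZMod m)ˣ →* kˣ) (hφ : φ ≠ 1) (e : (ZMod m)ˣ → k) (he : ∀ a, e (-a) = 1 + e a) :
    ∑ a, (φ a : k) * e a = 0 := by
  obtain ⟨u, hu⟩ : ∃ u, φ u ≠ 1 := by
    by_contra h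
    push Not at h
    exact hφ (MonoidHom.ext h)
  have h1 : ∑ a, (φ a : k) * (e a - e (u * a)) = 0 := sum_even hm φ _ (fun a => by
    rw [mul_neg, he, he]
    ring)
  have h2 : ∑ a, (φ a : k) * e (u * a) = ((φ u)⁻¹ : kˣ) * ∑ a, (φ a : k) * e a := by
    rw [Finset.mul_sum, ← Equiv.sum_comp (Equiv.mulLeft u)
      (fun b => (((φ u)⁻¹ : kˣ) : k) * ((φ b : k) * e b))]
    refine Finset.sum_congr rfl fun a _ => ?_
    rw [Equiv.coe_mulLeft, map_mul, ← mul_assoc, Units.val_mul, ← mul_assoc, Units.inv_mul,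
      one_mul]
  have h3 : (1 - (((φ u)⁻¹ : kˣ) : k)) * ∑ a, (φ a : k) * e a = 0 := by
    rw [sub_mul, one_mul, ← h2, ← Finset.sum_sub_distrib, ← h1]
    refine Finset.sum_congr rfl fun a _ => ?_
    ring
  rcases mul_eq_zero.1 h3 with h4 | h4
  · exfalso
    apply hu
    have h5 : (φ u)⁻¹ = 1 := Units.ext (by rw [Units.val_one]; exact (sub_eq_zero.1 h4).symm)
    exact inv_eq_one.1 h5
  · exact h4

theorem sum_cocycle {k : Type} [Field k] [CharP k 2] {m : ℕ} [NeZero m] (hm : 2 < m)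
    (φ : (ZMod m)ˣ →* kˣ) (hφ : φ ≠ 1) (e₁ e₂ e₃ : (ZMod m)ˣ → k) (h₁ : ∀ a, e₁ (-a) = 1 + e₁ a)
    (h₂ : ∀ a, e₂ (-a) = 1 + e₂ a) (h₃ : ∀ a, e₃ (-a) = 1 + e₃ a) :
    ∑ a, (φ a : k) * (e₁ a * e₂ a) + ∑ a, (φ a : k) * (e₂ a * e₃ a) =
      ∑ a, (φ a : k) * (e₁ a * e₃ a) := by
  have h := sum_odd hm φ hφ (fun a => e₁ a * e₂ a + e₂ a * e₃ a + e₁ a * e₃ a) (fun a => by
    rw [h₁, h₂, h₃]
    linear_combination (e₁ a + e₂ a + e₃ a + 1) * prTwo k)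
  have h5 : ∑ a, (φ a : k) * (e₁ a * e₂ a + e₂ a * e₃ a + e₁ a * e₃ a) =
      ∑ a, (φ a : k) * (e₁ a * e₂ a) + ∑ a, (φ a : k) * (e₂ a * e₃ a) +
        ∑ a, (φ a : k) * (e₁ a * e₃ a) := by
    rw [← Finset.sum_add_distrib, ← Finset.sum_add_distrib]
    refine Finset.sum_congr rfl fun a _ => ?_
    ring
  rw [h5] at h
  linear_combination h - (∑ a, (φ a : k) * (e₁ a * e₃ a)) * prTwo k

private theorem prVal {f : ℕ} [NeZero f] (hf : 2 < f) (a : (ZMod f)ˣ) :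
    0 < (a : ZMod f).val ∧ (a : ZMod f).val < f ∧ ((-a : (ZMod f)ˣ) : ZMod f).val =
      f - (a : ZMod f).val := by
  have : Fact (1 < f) := ⟨by omega⟩
  have h1 : (a : ZMod f) ≠ 0 := a.ne_zero
  have : NeZero (a : ZMod f) := ⟨h1⟩
  refine ⟨Nat.pos_of_ne_zero ((ZMod.val_ne_zero _).2 h1), ZMod.val_lt _, ?_⟩
  rw [Units.val_neg, ZMod.val_neg_of_ne_zero]

theorem ep_neg {k : Type} [Field k] [CharP k 2] {f : ℕ} [NeZero f] (hf : 2 < f) (hodd : Odd f)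
    (a : (ZMod f)ˣ) : (ep (-a) : k) = 1 + ep a := by
  obtain ⟨h1, h2, h3⟩ := prVal hf a
  obtain ⟨r, hr⟩ := hodd
  unfold ep
  rw [h3]
  by_cases h : f < 2 * (a : ZMod f).val
  · rw [if_pos h, if_neg (by omega)]
    linear_combination -prTwo k
  · rw [if_neg h, if_pos (by omega), add_zero]

private theorem prShift {k : Type} [Field k] {m : ℕ} [NeZero m] (φ : (ZMod m)ˣ →* kˣ)
    (u : (ZMod m)ˣ) (g : (ZMod m)ˣ → k) :
    ∑ a, (φ a : k) * g (u * a) = ((φ u)⁻¹ : kˣ) * ∑ a, (φ a : k) * g a := by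
  rw [Finset.mul_sum, ← Equiv.sum_comp (Equiv.mulLeft u)
    (fun b => (((φ u)⁻¹ : kˣ) : k) * ((φ b : k) * g b))]
  refine Finset.sum_congr rfl fun a _ => ?_
  rw [Equiv.coe_mulLeft, map_mul, ← mul_assoc, Units.val_mul, ← mul_assoc, Units.inv_mul,
    one_mul]

private theorem prCocycle {k : Type} [Field k] [CharP k 2] {f : ℕ} [NeZero f] (hf : 2 < f)
    (hodd : Odd f) (φ : (ZMod f)ˣ →* kˣ) (hφ : φ ≠ 1) (u v : (ZMod f)ˣ) :
    ∑ a, (φ a : k) * (ep a * ep (u * v * a)) =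
      ∑ a, (φ a : k) * (ep a * ep (u * a)) +
        ((φ u)⁻¹ : kˣ) * ∑ a, (φ a : k) * (ep a * ep (v * a)) := by
  have hn : ∀ (w a : (ZMod f)ˣ), (ep (w * -a) : k) = 1 + ep (w * a) := fun w a => by
    rw [mul_neg, ep_neg hf hodd]
  have h := sum_cocycle hf φ hφ (fun a => ep a) (fun a => ep (u * a)) (fun a => ep (u * v * a))
    (fun a => ep_neg hf hodd a) (fun a => hn _ _) (fun a => hn _ _)
  have h1 := prShift φ u (fun b => ep b * ep (v * b) : (ZMod f)ˣ → k)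
  rw [← h1, ← h]
  congr 1
  refine Finset.sum_congr rfl fun a _ => ?_
  have h2 : v * (u * a) = u * v * a := by rw [← mul_assoc, mul_comm v u]
  rw [h2]

theorem ww_comm {k : Type} [Field k] [CharP k 2] {f : ℕ} [NeZero f] (hf : 2 < f) (hodd : Odd f)
    (φ : (ZMod f)ˣ →* kˣ) (hφ : φ ≠ 1) (u v : (ZMod f)ˣ) :
    (∑ a, (φ a : k) * (ep a * ep (u * a))) * (1 + ((φ v)⁻¹ : kˣ)) =
      (∑ a, (φ a : k) * (ep a * ep (v * a))) * (1 + ((φ u)⁻¹ : kˣ)) := by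
  have h1 := prCocycle hf hodd φ hφ u v
  have h2 := prCocycle hf hodd φ hφ v u
  rw [mul_comm v u] at h2
  have h3 := h1.symm.trans h2
  linear_combination h3 + ((∑ a, (φ a : k) * (ep a * ep (u * a))) * (((φ v)⁻¹ : kˣ) : k) -
    (((φ u)⁻¹ : kˣ) : k) * ∑ a, (φ a : k) * (ep a * ep (v * a))) * prTwo k

theorem ww_two {k : Type} [Field k] [CharP k 2] {f : ℕ} [NeZero f] (hf : 2 < f) (hodd : Odd f)
    (φ : (ZMod f)ˣ →* kˣ) (u : (ZMod f)ˣ) (hu : (u : ZMod f) = 2) :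
    ∑ a, (φ a : k) * (ep a * ep (u * a)) = DD φ := by
  unfold DD
  symm
  rw [← Equiv.sum_comp (Equiv.neg (ZMod f)ˣ)]
  refine Finset.sum_congr rfl fun a _ => ?_
  rw [Equiv.neg_apply, prNeg]
  congr 1
  symm
  obtain ⟨h1, h2, h3⟩ := prVal hf a
  rw [h3]
  have h4 : ((u * a : (ZMod f)ˣ) : ZMod f).val = ((a : ZMod f).val + (a : ZMod f).val) % f := by
    rw [Units.val_mul, hu, two_mul, ZMod.val_add]
  unfold ep
  rw [h4]
  by_cases h : f < 2 * (a : ZMod f).val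
  · have h5 : ((a : ZMod f).val + (a : ZMod f).val) % f = 2 * (a : ZMod f).val - f := by
      rw [← two_mul, Nat.mod_eq_sub_mod h.le, Nat.mod_eq_of_lt (by omega)]
    rw [h5, if_pos h, one_mul]
    by_cases h6 : 4 * (f - (a : ZMod f).val) < f
    · rw [if_pos h6, if_pos (by omega)]
    · rw [if_neg h6, if_neg (by omega)]
  · rw [if_neg h, zero_mul, if_neg (by omega)]

end Pool.Agent.FR2
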