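import Pool.Agent.FR2.Core

/-!
# FR2-Sin: the non-vanishing theorem, sum over a subset
-/

namespace Pool.Agent.FR2

open Pool.Agent.FRD

theorem core2f (S : Finset ℕ) (hS : ∀ l ∈ S, l.Prime) (h2S : 2 ∉ S) :
    ∃ B : ℕ, ∀ (f : ℕ) [NeZero f], B < f → InS S f →
      ∀ (K : Type) [Field K] [IsAlgClosed K] [CharP K 2] (χ : (ZMod f)ˣ →* Kˣ), Prim χ →
        ∑ r ∈ (Finset.univ : Finset (ZMod f)ˣ).filter (fun r : (ZMod f)ˣ => 4 * (r : ZMod f).val < f),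
          ((χ r : Kˣ) : K) ≠ 0 := by
  obtain ⟨B, hB⟩ := core2 S hS h2S
  refine ⟨B, fun f _ hf hfS K _ _ _ χ hχ => ?_⟩
  have h1 := hB f hf hfS K χ hχ
  rw [Finset.sum_filter]
  refine fun h => h1 ((Finset.sum_congr rfl fun r _ => ?_).trans h)
  split_ifs
  · rw [mul_one]
  · rw [mul_zero]

end Pool.Agent.FR2
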