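import Pool.Agent.AAP.StickP

/-!
# FR2-StA: Stickelberger's theorem for a prime ideal, the generator

As `stickP` (`Pool/Agent/AAP/StickP.lean`), for `c = 2` (`m` odd): the generator is the Jacobi sum
`γ = J(χ, χ)`, `χ` the multiplicative character of `𝓞 K / P` of order `m` with
`χ(x) ≡ x ^ (-(q-1)/m)` modulo `P`. It satisfies `γ * (σ_{-1} γ) = q`, and `σ γ = γ` if `σ P = P`, as
`σ(χ(x)) = χ(s x)` with the automorphism `s` of `𝓞 K / P` induced by `σ`.
-/

open NumberField Pointwise Finset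

namespace Pool.Agent.FR2

open Pool.Agent.AAP Pool.Agent.Helper9.Fermat

/-- elements of small valuation lie in powers of the prime -/
private theorem StA_mem_pow {R Γ : Type*} [CommRing R] [IsDedekindDomain R]
    [LinearOrderedCommGroupWithZero Γ] (v : R → Γ) (hmul : ∀ x y, v (x * y) = v x * v y)
    (hone : v 1 = 1) (hle : ∀ x, v x ≤ 1) {Q : Ideal R} (hQ : ∀ x, x ∉ Q → v x = 1) {p : R}
    (hpQ : p ∈ Q) (hp0 : v p ≠ 0) (hp1 : v p < 1) {x : R} {k : ℕ} (hx : v x ≤ v p ^ k) :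
    x ∈ Q ^ k := by
  have hpow : ∀ n, v (p ^ n) = v p ^ n := by
    intro n
    induction n with
    | zero => rw [pow_zero, pow_zero, hone]
    | succ n ih => rw [pow_succ, pow_succ, hmul, ih]
  have key : ∀ n, n ≤ k → x ∈ Q ^ n := by
    intro n
    induction n with
    | zero => intro _; simp
    | succ n ih =>
      intro hn
      have h1 : Ideal.span {x} ≤ Q ^ n := (Ideal.span_singleton_le_iff_mem _).2 (ih (by omega))
      obtain ⟨J, hJ⟩ := Ideal.dvd_iff_le.2 h1
      by_cases hJQ : J ≤ Q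
      · have h2 : x ∈ Q ^ n * J := by
          rw [← hJ]
          exact Ideal.mem_span_singleton_self x
        rw [pow_succ]
        exact Ideal.mul_mono_right hJQ h2
      · exfalso
        obtain ⟨j, hj, hjQ⟩ := Set.not_subset.1 hJQ
        have h2 : p ^ n * j ∈ Q ^ n * J := Ideal.mul_mem_mul (Ideal.pow_mem_pow hpQ n) hj
        rw [← hJ, Ideal.mem_span_singleton] at h2
        obtain ⟨t, ht⟩ := h2
        have h3 := congrArg v ht
        rw [hmul, hmul, hpow, hQ j hjQ, mul_one] at h3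
        have h4 : v p ^ n ≤ v x := by
          rw [h3]
          exact mul_le_of_le_one_right' (hle t)
        have h5 : v p ^ k < v p ^ n :=
          pow_lt_pow_right_of_lt_one₀ (zero_lt_iff.2 hp0) hp1 (by omega)
        exact absurd (h4.trans hx) (not_le.2 h5)
  exact key k le_rfl

private theorem StA_jac {F : Type} [Field F] [Fintype F] (χ : MulChar F ℂ) (ψ : AddChar F ℂ)
    (j : ℕ) (h : ∀ i, i ≤ j → χ ^ (i + 1) ≠ 1) :
    (∏ i ∈ Finset.range j, jacobiSum χ (χ ^ (i + 1))) * gaussSum (χ ^ (j + 1)) ψ =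
      gaussSum χ ψ ^ (j + 1) := by
  induction j with
  | zero => simp
  | succ j ih =>
    have h1 := ih (fun i hi => h i (by omega))
    have h2 : χ * χ ^ (j + 1) ≠ 1 := by
      rw [← pow_succ']
      exact h (j + 1) le_rfl
    have h3 := jacobiSum_mul_nontrivial h2 ψ
    rw [← pow_succ'] at h3
    rw [Finset.prod_range_succ, mul_assoc, mul_comm (jacobiSum _ _), h3]
    calc _ = ((∏ i ∈ Finset.range j, jacobiSum χ (χ ^ (i + 1))) * gaussSum (χ ^ (j + 1)) ψ) *
          gaussSum χ ψ := by ring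
      _ = _ := by rw [h1, ← pow_succ]

private theorem StA_val {F : Type} [Field F] [Fintype F] (T : Teich F) {p f : ℕ} [Fact p.Prime]
    [CharP F p] (hF : Fintype.card F = p ^ f) {m c d : ℕ} [NeZero m] (hm : 2 < m) (hc : 1 < c)
    (hcm : c < m) (hd : p ^ f - 1 = m * d) (b : (ZMod m)ˣ) :
    T.V.valuation (∏ i ∈ Finset.range (c - 1), jacobiSum (T.η ^ (d * (b : ZMod m).val))
      ((T.η ^ (d * (b : ZMod m).val)) ^ (i + 1))) =
      T.V.valuation (p : ℂ) ^ (∑ i ∈ Finset.range f, c * ((p : ZMod m) ^ i * b).val / m) := by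
  classical
  have hp2 : 2 ≤ p := (Fact.out : p.Prime).two_le
  set n := p ^ f - 1 with hn
  have hcard : Fintype.card F - 1 = n := by rw [hF]
  have hq1 : 1 < p ^ f := by
    rw [← hF]
    exact Fintype.one_lt_card
  have hn0 : 0 < n := by omega
  have hd0 : 0 < d := by
    rcases Nat.eq_zero_or_pos d with h | h
    · rw [h, mul_zero] at hd; omega
    · exact h
  have hmle : m ≤ n := by rw [hd]; exact Nat.le_mul_of_pos_right m hd0
  have hq2 : 2 < p ^ f := by omega
  obtain ⟨ψ, hψ⟩ : ∃ ψ : AddChar F ℂ, ψ ≠ 1 := by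
    obtain ⟨ψ, hψ⟩ := AddChar.exists_apply_ne_zero.2 (one_ne_zero : (1 : F) ≠ 0)
    refine ⟨ψ, ?_⟩
    rintro rfl
    simp at hψ
  have hηn : T.η ^ n = 1 := by rw [← hcard]; exact mulChar_pow_card _
  have hχx : ∀ x : ZMod m, (T.η ^ (d * (b : ZMod m).val)) ^ x.val =
      T.η ^ (d * ((b : ZMod m) * x).val) := by
    intro x
    rw [← pow_mul, ZMod.val_mul, mul_assoc]
    have h1 : d * ((b : ZMod m).val * x.val) =
        d * ((b : ZMod m).val * x.val % m) + n * ((b : ZMod m).val * x.val / m) := by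
      have h2 := Nat.mod_add_div ((b : ZMod m).val * x.val) m
      rw [hd]
      conv_lhs => rw [← h2]
      ring
    rw [h1, pow_add, pow_mul T.η n, hηn, one_pow, mul_one]
  have hax : ∀ x : ZMod m, d * ((b : ZMod m) * x).val < n := by
    intro x
    rw [hd, mul_comm m d]
    exact Nat.mul_lt_mul_of_pos_left (ZMod.val_lt _) hd0
  choose s hs1 hs2 using fun x : ZMod m => T.w_eq hF hq2 hψ (d * ((b : ZMod m) * x).val) (hax x)
  have hsum : ∀ x : ZMod m, m * s x =
      (p - 1) * ∑ i ∈ Finset.range f, ((p : ZMod m) ^ i * (b * x)).val := by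
    intro x
    have h1 := hs2 x
    unfold ds at h1
    have h2 : ∀ i ∈ Finset.range f, p ^ i * (d * ((b : ZMod m) * x).val) % (p ^ f - 1) =
        d * ((p : ZMod m) ^ i * (b * x)).val := by
      intro i _
      rw [← hn, hd, mul_comm m d]
      have h3 : p ^ i * (d * ((b : ZMod m) * x).val) = d * (p ^ i * ((b : ZMod m) * x).val) := by
        ring
      rw [h3, Nat.mul_mod_mul_left]
      congr 1
      have h4 : ((p : ZMod m) ^ i * (b * x)) = ((p ^ i * ((b : ZMod m) * x).val : ℕ) : ZMod m) := by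
        push_cast
        rw [ZMod.natCast_zmod_val]
      rw [h4, ZMod.val_natCast]
    rw [Finset.sum_congr rfl h2, ← Finset.mul_sum, ← hn, hd] at h1
    have h5 : d * ((p - 1) * ∑ i ∈ Finset.range f, ((p : ZMod m) ^ i * (b * x)).val) =
        d * (m * s x) := by
      rw [← mul_assoc d m, mul_comm d m, ← h1]
      ring
    exact (Nat.eq_of_mul_eq_mul_left hd0 h5).symm
  -- the valuation of q
  obtain ⟨s1, ha1, hb1⟩ := T.w_eq hF hq2 hψ 1 (by omega)
  obtain ⟨s2, ha2, hb2⟩ := T.w_eq hF hq2 hψ (p ^ f - 1 - 1) (by omega)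
  have hs12 : s1 + s2 = (p - 1) * f := by
    have h1 := ds_compl (p := p) (f := f) (a := 1) hp2 one_pos (by omega)
    rw [hb1, hb2, ← mul_add] at h1
    have h2 : (p ^ f - 1) * (s1 + s2) = (p ^ f - 1) * ((p - 1) * f) := by rw [h1]; ring
    exact Nat.eq_of_mul_eq_mul_left (by omega) h2
  have hvq : T.V.valuation (Fintype.card F : ℂ) = T.w ψ 1 ^ ((p - 1) * f) := by
    rw [← T.w_compl hψ one_pos (by rw [hcard]; omega), hF, ha2, ← hs12, pow_add, ← ha1]
  have hf0 : f ≠ 0 := by rintro rfl; simp at hq1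
  have hvne : T.V.valuation (Fintype.card F : ℂ) ≠ 0 := by
    rw [Valuation.ne_zero_iff]
    exact Nat.cast_ne_zero.2 Fintype.card_ne_zero
  have hπ0 : T.w ψ 1 ≠ 0 := by
    intro h
    rw [h, zero_pow (Nat.mul_ne_zero (by omega) hf0)] at hvq
    exact hvne hvq
  have hvp : T.V.valuation (p : ℂ) = T.w ψ 1 ^ (p - 1) := by
    rw [hF] at hvq
    push_cast at hvq
    rw [map_pow, pow_mul] at hvq
    exact (pow_left_inj₀ zero_le zero_le hf0).1 hvq
  -- the exponents
  have hcv : (c : ZMod m).val = c := ZMod.val_natCast_of_lt hcm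
  have h1v : (1 : ZMod m).val = 1 := by
    have : Fact (1 < m) := ⟨by omega⟩
    exact ZMod.val_one m
  have hexp : c * s 1 = (p - 1) * (∑ i ∈ Finset.range f, c * ((p : ZMod m) ^ i * b).val / m) +
      s c := by
    have e1 := hsum 1
    have e2 := hsum c
    have e3 : ∀ i ∈ Finset.range f, c * ((p : ZMod m) ^ i * (b * 1)).val =
        m * (c * ((p : ZMod m) ^ i * b).val / m) + ((p : ZMod m) ^ i * (b * (c : ZMod m))).val := by
      intro i _
      have e4 : ((p : ZMod m) ^ i * (b * (c : ZMod m))).val =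
          c * ((p : ZMod m) ^ i * b).val % m := by
        have e5 : ((p : ZMod m) ^ i * (b * (c : ZMod m))) =
            ((c * ((p : ZMod m) ^ i * b).val : ℕ) : ZMod m) := by
          push_cast
          rw [ZMod.natCast_zmod_val]
          ring
        rw [e5, ZMod.val_natCast]
      rw [e4, mul_one, Nat.div_add_mod]
    have e6 : c * ∑ i ∈ Finset.range f, ((p : ZMod m) ^ i * (b * 1)).val =
        m * (∑ i ∈ Finset.range f, c * ((p : ZMod m) ^ i * b).val / m) +
          ∑ i ∈ Finset.range f, ((p : ZMod m) ^ i * (b * (c : ZMod m))).val := by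
      rw [Finset.mul_sum, Finset.sum_congr rfl e3, Finset.sum_add_distrib, Finset.mul_sum]
    have e7 : m * (c * s 1) = m * ((p - 1) *
        (∑ i ∈ Finset.range f, c * ((p : ZMod m) ^ i * b).val / m) + s c) := by
      calc m * (c * s 1) = c * (m * s 1) := by ring
        _ = (p - 1) * (c * ∑ i ∈ Finset.range f, ((p : ZMod m) ^ i * (b * 1)).val) := by
            rw [e1]; ring
        _ = (p - 1) * (m * (∑ i ∈ Finset.range f, c * ((p : ZMod m) ^ i * b).val / m)) +
            m * s c := by rw [e6, mul_add, e2]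
        _ = _ := by ring
    exact Nat.eq_of_mul_eq_mul_left (Nat.pos_of_ne_zero (NeZero.ne m)) e7
  -- the product
  have hbv : 0 < (b : ZMod m).val := by
    rcases Nat.eq_zero_or_pos (b : ZMod m).val with h | h
    · exfalso
      have h2 : (b : ZMod m) = 0 := (ZMod.val_eq_zero _).1 h
      have h3 : Nontrivial (ZMod m) := ZMod.nontrivial_iff.2 (by omega)
      exact b.ne_zero h2
    · exact h
  have hne : ∀ i, i ≤ c - 1 → (T.η ^ (d * (b : ZMod m).val)) ^ (i + 1) ≠ 1 := by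
    intro i hi
    have h1 : (((i + 1 : ℕ) : ZMod m)).val = i + 1 := ZMod.val_natCast_of_lt (by omega)
    have h2 := hχx ((i + 1 : ℕ) : ZMod m)
    rw [h1] at h2
    rw [h2]
    refine T.pow_ne_one (Nat.mul_pos hd0 ?_) (by rw [hcard]; exact hax _)
    rcases Nat.eq_zero_or_pos ((b : ZMod m) * ((i + 1 : ℕ) : ZMod m)).val with h | h
    · exfalso
      have h3 : (b : ZMod m) * ((i + 1 : ℕ) : ZMod m) = 0 := (ZMod.val_eq_zero _).1 h
      have h4 : ((i + 1 : ℕ) : ZMod m) = 0 := by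
        have h5 := congrArg (fun y => ((b⁻¹ : (ZMod m)ˣ) : ZMod m) * y) h3
        simp only [mul_zero, Units.inv_mul_cancel_left] at h5
        exact h5
      rw [h4, ZMod.val_zero] at h1
      omega
    · exact h
  have hJ := StA_jac (T.η ^ (d * (b : ZMod m).val)) ψ (c - 1) hne
  have hcc : c - 1 + 1 = c := by omega
  rw [hcc] at hJ
  have hJv := congrArg T.V.valuation hJ
  rw [map_mul, map_pow] at hJv
  have hg1 : T.V.valuation (gaussSum (T.η ^ (d * (b : ZMod m).val)) ψ) = T.w ψ 1 ^ s 1 := by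
    have := hs1 1
    rw [mul_one] at this
    exact this
  have hgc : T.V.valuation (gaussSum ((T.η ^ (d * (b : ZMod m).val)) ^ c) ψ) =
      T.w ψ 1 ^ s c := by
    have h1 := hχx c
    rw [hcv] at h1
    rw [h1]
    exact hs1 c
  rw [hg1, hgc, ← pow_mul, mul_comm (s 1) c, hexp, pow_add] at hJv
  have h6 := mul_right_cancel₀ (pow_ne_zero _ hπ0) hJv
  rw [h6, hvp, ← pow_mul]

private theorem StA_norm_smul {K : Type} [Field K] [NumberField K] (σ : Gal(K/ℚ))
    (I : Ideal (𝓞 K)) : Ideal.absNorm (σ • I) = Ideal.absNorm I := by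
  rw [Ideal.absNorm_apply, Ideal.absNorm_apply, Submodule.cardQuot_apply,
    Submodule.cardQuot_apply]
  exact Nat.card_congr (Ideal.quotientEquiv I (σ • I)
    (MulSemiringAction.toRingEquiv _ (𝓞 K) σ) rfl).symm.toEquiv

private theorem StA_fl (m c : ℕ) [NeZero m] (hm : 2 < m) (hcop : c.Coprime m) :
    2 * ∑ a : (ZMod m)ˣ, fl c m a = (c - 1) * Fintype.card (ZMod m)ˣ := by
  have hm1 : Nontrivial (ZMod m) := ZMod.nontrivial_iff.2 (by omega)
  have h1 : ∀ a : (ZMod m)ˣ, fl c m a + fl c m (-a) = c - 1 := by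
    intro a
    unfold fl
    have ha0 : (a : ZMod m) ≠ 0 := a.ne_zero
    rw [Units.val_neg, ZMod.neg_val, if_neg ha0]
    have hv : (a : ZMod m).val < m := ZMod.val_lt _
    have hco : Nat.Coprime (a : ZMod m).val m := ZMod.val_coe_unit_coprime a
    set v := (a : ZMod m).val with hvdef
    have hR : ¬ m ∣ c * v := by
      intro h
      have h2 : Nat.Coprime (c * v) m := Nat.Coprime.mul_left hcop hco
      have h3 := Nat.Coprime.eq_one_of_dvd h2.symm h
      omega
    have hR0 : 0 < c * v % m := Nat.pos_of_ne_zero fun h => hR (Nat.dvd_of_mod_eq_zero h)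
    have hRm : c * v % m < m := Nat.mod_lt _ (by omega)
    have hdiv := Nat.div_add_mod (c * v) m
    have hQ : c * v / m < c := by
      rw [Nat.div_lt_iff_lt_mul (by omega)]
      have hc0 : 0 < c := by
        rcases Nat.eq_zero_or_pos c with h | h
        · rw [h, zero_mul, Nat.zero_mod] at hR0
          omega
        · exact h
      exact Nat.mul_lt_mul_of_pos_left hv hc0
    obtain ⟨Q', hQ'⟩ : ∃ Q', c = c * v / m + 1 + Q' := ⟨c - (c * v / m + 1), by omega⟩
    have h4 : c * (m - v) = (m - c * v % m) + m * Q' := by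
      have h5 : c * (m - v) + c * v = c * m := by
        rw [← mul_add, Nat.sub_add_cancel hv.le]
      have h6 : c * m = m * (c * v / m) + m + m * Q' := by
        conv_lhs => rw [hQ']
        ring
      omega
    have h7 : m - c * v % m < m := Nat.sub_lt (by omega) hR0
    rw [h4, Nat.add_mul_div_left _ _ (by omega), Nat.div_eq_of_lt h7]
    generalize c * v / m = A at *
    omega
  have h2 : ∑ a : (ZMod m)ˣ, fl c m (-a) = ∑ a : (ZMod m)ˣ, fl c m a :=
    Equiv.sum_comp (Equiv.neg (ZMod m)ˣ) (fun a => fl c m a)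
  calc 2 * ∑ a : (ZMod m)ˣ, fl c m a = ∑ a : (ZMod m)ˣ, fl c m a +
        ∑ a : (ZMod m)ˣ, fl c m (-a) := by rw [h2, two_mul]
    _ = ∑ a : (ZMod m)ˣ, (c - 1) := by
        rw [← Finset.sum_add_distrib]
        exact Finset.sum_congr rfl fun a _ => h1 a
    _ = _ := by rw [Finset.sum_const, Finset.card_univ, smul_eq_mul, mul_comm]

private theorem StA_prim {R F : Type*} [CommRing R] [IsDomain R] [Field F] (π : R →+* F) {m : ℕ}
    (hm : 0 < m) (hmF : (m : F) ≠ 0) {ζ : R} (hζ : IsPrimitiveRoot ζ m) :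
    IsPrimitiveRoot (π ζ) m := by
  have : NeZero (m : F) := ⟨hmF⟩
  rw [← Polynomial.isRoot_cyclotomic_iff, ← Polynomial.map_cyclotomic m π]
  exact (hζ.isRoot_cyclotomic hm).map

private theorem StA_zeta {R F : Type*} [CommRing R] [IsDomain R] [Field F] (π : R →+* F) {m : ℕ}
    [NeZero m] (hm : 0 < m) (hmF : (m : F) ≠ 0) {ζ : R} (hζ : IsPrimitiveRoot ζ m) {y : F}
    (hy : IsPrimitiveRoot y m) : ∃ ζ' : R, IsPrimitiveRoot ζ' m ∧ π ζ' = y := by
  obtain ⟨k, -, hkc, hk⟩ := (StA_prim π hm hmF hζ).isPrimitiveRoot_iff.1 hy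
  exact ⟨ζ ^ k, hζ.pow_of_coprime k hkc, by rw [map_pow, hk]⟩

private theorem StA_gen {m : ℕ} [NeZero m] {K : Type} [Field K] [NumberField K]
    [IsCyclotomicExtension {m} ℚ K] {ζ : 𝓞 K} (hζ : IsPrimitiveRoot ζ m) (S : Subring (𝓞 K))
    (h : ζ ∈ S) (x : 𝓞 K) : x ∈ S := by
  have hz : IsPrimitiveRoot (ζ : K) m := hζ.map_of_injective RingOfIntegers.coe_injective
  have h1 : hz.integralPowerBasis.gen = ζ := by
    rw [IsPrimitiveRoot.integralPowerBasis_gen]
    rfl
  have h2 := hz.integralPowerBasis.adjoin_gen_eq_top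
  rw [h1] at h2
  have h3 : Algebra.adjoin ℤ {ζ} ≤ subalgebraOfSubring S := by
    refine Algebra.adjoin_le ?_
    rintro y rfl
    exact h
  rw [h2] at h3
  exact h3 (Algebra.mem_top (x := x))

private theorem StA_dvd {R F : Type*} [CommRing R] [IsDomain R] [Field F] [Fintype F]
    (π : R →+* F) {m : ℕ} (hm : 0 < m) (hmF : (m : F) ≠ 0) {ζ : R} (hζ : IsPrimitiveRoot ζ m) :
    m ∣ Fintype.card F - 1 := by
  have h1 := StA_prim π hm hmF hζ
  exact h1.dvd_of_pow_eq_one _ (FiniteField.pow_card_sub_one_eq_one (π ζ) (h1.ne_zero hm.ne'))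

private theorem StA_core {m c : ℕ} [NeZero m] (hm : 2 < m) (hc : 1 < c) (hcm : c < m)
    {K : Type} [Field K] [NumberField K] [IsCyclotomicExtension {m} ℚ K]
    {F : Type} [Field F] [Fintype F] (π : 𝓞 K →+* F) {p f : ℕ} [Fact p.Prime] [CharP F p]
    (hF : Fintype.card F = p ^ f) (hmF : (m : F) ≠ 0) :
    ∃ γ : 𝓞 K, γ * ((gq m K).symm (-1) • γ) = (((p ^ f) ^ (c - 1) : ℕ) : 𝓞 K) ∧
      (∀ (b : (ZMod m)ˣ) (Q : Ideal (𝓞 K)),
        (∀ x, x ∈ Q ↔ π ((gq m K).symm b • x) = 0) →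
          γ ∈ Q ^ (∑ i ∈ Finset.range f, c * ((p : ZMod m) ^ i * b).val / m)) ∧
      ∀ (σ : Gal(K/ℚ)) (s : F ≃+* F), (∀ x, s (π x) = π (σ • x)) → σ • γ = γ := by
  classical
  have hq1 : 1 < p ^ f := by rw [← hF]; exact Fintype.one_lt_card
  have hn0 : 0 < p ^ f - 1 := by omega
  have hm0 : 0 < m := by omega
  obtain ⟨ζ0, hζ0⟩ : ∃ ζ0 : 𝓞 K, IsPrimitiveRoot ζ0 m :=
    ⟨_, (zt_spec m K).toInteger_isPrimitiveRoot⟩
  have hmn : m ∣ p ^ f - 1 := by
    have := StA_dvd π hm0 hmF hζ0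
    rwa [hF] at this
  obtain ⟨d, hd⟩ := id hmn
  have hnm : (p ^ f - 1) / m = d := by rw [hd]; exact Nat.mul_div_cancel_left d hm0
  have : NeZero (p ^ f - 1) := ⟨hn0.ne'⟩
  obtain ⟨g, hg⟩ := IsCyclic.exists_generator (α := Fˣ)
  have hcardU : Fintype.card Fˣ = p ^ f - 1 := by rw [Fintype.card_units, hF]
  have hord : orderOf g⁻¹ = p ^ f - 1 := by
    rw [orderOf_inv, orderOf_eq_card_of_forall_mem_zpowers hg, Nat.card_eq_fintype_card, hcardU]
  have hgi : IsPrimitiveRoot ((g⁻¹ : Fˣ) : F) (p ^ f - 1) := by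
    rw [IsPrimitiveRoot.coe_units_iff, ← hord]
    exact IsPrimitiveRoot.orderOf _
  have hy : IsPrimitiveRoot (((g⁻¹ : Fˣ) : F) ^ d) m := hgi.pow hn0 (by rw [hd, mul_comm])
  obtain ⟨ζ, hζ, hζπ⟩ := StA_zeta π hm0 hmF hζ0 hy
  obtain ⟨ι0⟩ : Nonempty (K →+* ℂ) := inferInstance
  obtain ⟨ι, hιinj⟩ : ∃ ι : 𝓞 K →+* ℂ, Function.Injective ι :=
    ⟨ι0.comp (algebraMap (𝓞 K) K), ι0.injective.comp RingOfIntegers.coe_injective⟩
  have hιζ : IsPrimitiveRoot (ι ζ) m := hζ.map_of_injective hιinj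
  have hζn : ζ ^ (p ^ f - 1) = 1 := by rw [hd, pow_mul, hζ.pow_eq_one, one_pow]
  obtain ⟨uζ, huζ⟩ := hζ.isUnit hm0.ne'
  have hroot : uζ ∈ rootsOfUnity (Fintype.card Fˣ) (𝓞 K) := by
    rw [mem_rootsOfUnity, Units.ext_iff]
    push_cast
    rw [hcardU, huζ, hζn]
  obtain ⟨χ, hχg⟩ : ∃ χ : MulChar F (𝓞 K), χ g = ζ :=
    ⟨MulChar.ofRootOfUnity hroot hg, by rw [MulChar.ofRootOfUnity_spec]; exact huζ⟩
  have hcomp : ∀ ρ : 𝓞 K →+* ℂ, ρ (∏ i ∈ Finset.range (c - 1), jacobiSum χ (χ ^ (i + 1))) =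
      ∏ i ∈ Finset.range (c - 1), jacobiSum (χ.ringHomComp ρ) ((χ.ringHomComp ρ) ^ (i + 1)) := by
    intro ρ
    rw [map_prod]
    refine Finset.prod_congr rfl fun i _ => ?_
    rw [MulChar.ringHomComp_pow, jacobiSum_ringHomComp]
  refine ⟨∏ i ∈ Finset.range (c - 1), jacobiSum χ (χ ^ (i + 1)), ?_, ?_, ?_⟩
  · -- the absolute value
    apply hιinj
    set σ := (gq m K).symm (-1) with hσ
    have h1 : ι (σ • ∏ i ∈ Finset.range (c - 1), jacobiSum χ (χ ^ (i + 1))) =
        (ι.comp (MulSemiringAction.toRingHom Gal(K/ℚ) (𝓞 K) σ))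
          (∏ i ∈ Finset.range (c - 1), jacobiSum χ (χ ^ (i + 1))) := rfl
    have h2 : χ.ringHomComp (ι.comp (MulSemiringAction.toRingHom Gal(K/ℚ) (𝓞 K) σ)) =
        (χ.ringHomComp ι)⁻¹ := by
      apply mulChar_ext_gen hg
      rw [MulChar.inv_apply_eq_inv', MulChar.ringHomComp_apply, MulChar.ringHomComp_apply, hχg]
      have h3 : (ι.comp (MulSemiringAction.toRingHom Gal(K/ℚ) (𝓞 K) σ)) ζ = ι (σ • ζ) := rfl
      have h4 : σ • ζ = ζ ^ (((-1 : (ZMod m)ˣ) : ZMod m)).val := by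
        have h5 := IsCyclotomicExtension.Rat.galEquivZMod_smul_of_pow_eq m K σ hζ.pow_eq_one
        have h6 : IsCyclotomicExtension.Rat.galEquivZMod m K σ = -1 := by
          rw [hσ]
          exact MulEquiv.apply_symm_apply _ _
        rw [h6] at h5
        exact h5
      rw [h3, h4, map_pow]
      have h5 : m ∣ (((-1 : (ZMod m)ˣ) : ZMod m)).val + 1 := by
        rw [← ZMod.natCast_eq_zero_iff]
        push_cast
        rw [ZMod.natCast_zmod_val]
        ring
      have h6 : ι ζ ^ (((-1 : (ZMod m)ˣ) : ZMod m)).val * ι ζ = 1 := by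
        rw [← pow_succ]
        exact (hιζ.pow_eq_one_iff_dvd _).2 h5
      exact eq_inv_of_mul_eq_one_left h6
    have hne : ∀ j, 0 < j → j < m → (χ.ringHomComp ι) ^ j ≠ 1 := by
      intro j hj hjm h
      have h3 := DFunLike.congr_fun h (g : F)
      rw [MulChar.pow_apply_coe, MulChar.ringHomComp_apply, hχg, MulChar.one_apply_coe] at h3
      exact hιζ.pow_ne_one_of_pos_of_lt hj.ne' hjm h3
    have hchar : ringChar ℂ ≠ ringChar F := by
      rw [ringChar.eq ℂ 0, ringChar.eq F p]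
      exact (Fact.out : p.Prime).ne_zero.symm
    rw [map_mul, h1, hcomp, hcomp, h2, ← Finset.prod_mul_distrib, map_natCast]
    push_cast
    rw [Finset.prod_congr rfl (g := fun _ => ((p : ℂ) ^ f)), Finset.prod_const,
      Finset.card_range]
    intro i hi
    rw [Finset.mem_range] at hi
    have h3 := jacobiSum_mul_jacobiSum_inv hchar (χ := χ.ringHomComp ι)
      (φ := (χ.ringHomComp ι) ^ (i + 1)) (by
        have := hne 1 one_pos (by omega)
        rwa [pow_one] at this) (hne _ (by omega) (by omega)) (by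
        rw [← pow_succ']
        exact hne _ (by omega) (by omega))
    rw [inv_pow, h3, hF]
    push_cast
    rfl
  · intro b Q hQ
    obtain ⟨ξ, hξ1, hξ2⟩ := exists_root hmn hιζ b
    rw [hnm] at hξ2
    obtain ⟨T, hT⟩ := exists_teich hF hq1 hξ1 hg
    have hχC : χ.ringHomComp ι = T.η ^ (d * (b : ZMod m).val) := by
      apply mulChar_ext_gen hg
      rw [MulChar.ringHomComp_apply, hχg, MulChar.pow_apply_coe, hT, hξ2]
    have hval := StA_val T hF hm hc hcm hd b
    rw [← hχC, ← hcomp ι] at hval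
    have hιr : ι ζ = ((T.r g ^ (d * (b : ZMod m).val) : T.A) : ℂ) := by
      push_cast
      rw [T.r_eq, hT, hξ2]
    have hA : ∀ x, ι x ∈ T.A := StA_gen hζ (T.A.comap ι) (by
      rw [Subring.mem_comap, hιr]
      exact Subtype.mem _)
    set φ : 𝓞 K →+* T.A := ι.codRestrict T.A hA with hφ
    have hφι : ∀ x, ((φ x : T.A) : ℂ) = ι x := fun x => rfl
    set σ := (gq m K).symm b with hσ
    have hθ : ∀ x, T.θ (φ x) = π (σ • x) := StA_gen hζ
      (RingHom.eqLocus (T.θ.comp φ) (π.comp (MulSemiringAction.toRingHom Gal(K/ℚ) (𝓞 K) σ))) (by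
      show T.θ (φ ζ) = π (σ • ζ)
      have h1 : φ ζ = T.r g ^ (d * (b : ZMod m).val) := Subtype.ext (by rw [hφι, hιr])
      have h4 : σ • ζ = ζ ^ (b : ZMod m).val := by
        have h5 := IsCyclotomicExtension.Rat.galEquivZMod_smul_of_pow_eq m K σ hζ.pow_eq_one
        have h6 : IsCyclotomicExtension.Rat.galEquivZMod m K σ = b := by
          rw [hσ]
          exact MulEquiv.apply_symm_apply _ _
        rw [h6] at h5
        exact h5
      rw [h1, map_pow, T.θ_r, h4, map_pow, hζπ, ← pow_mul]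
      push_cast
      rfl)
    have hlt : ∀ x, T.V.valuation (ι x) < 1 ↔ x ∈ Q := by
      intro x
      rw [hQ x, ← hθ x, ← T.lt, hφι]
    have hle : ∀ x, T.V.valuation (ι x) ≤ 1 := by
      intro x
      rw [← hφι]
      exact T.le _
    have hpQ : (p : 𝓞 K) ∈ Q := by
      rw [hQ]
      have h1 : σ • (p : 𝓞 K) = MulSemiringAction.toRingHom Gal(K/ℚ) (𝓞 K) σ (p : 𝓞 K) := rfl
      rw [h1, map_natCast, map_natCast, CharP.cast_eq_zero]
    refine StA_mem_pow (fun x => T.V.valuation (ι x)) (fun x y => by rw [map_mul, map_mul])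
      (by rw [map_one, map_one]) hle ?_ hpQ ?_ ((hlt _).2 hpQ) ?_
    · intro x hx
      refine le_antisymm (hle x) (not_lt.1 fun h => hx ((hlt x).1 h))
    · rw [map_natCast, Valuation.ne_zero_iff]
      exact_mod_cast (Fact.out : p.Prime).ne_zero
    · rw [map_natCast, hval]
  · -- the decomposition group
    intro σ s hs
    have hπζ : IsPrimitiveRoot (π ζ) m := StA_prim π hm0 hmF hζ
    -- `σ ζ` is a power of `ζ`
    obtain ⟨j, hj⟩ : ∃ j : ℕ, σ • ζ = ζ ^ j :=
      ⟨_, IsCyclotomicExtension.Rat.galEquivZMod_smul_of_pow_eq m K σ hζ.pow_eq_one⟩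
    -- `s g` is a power of `g`
    obtain ⟨t, ht⟩ : ∃ t : ℕ, s (g : F) = (g : F) ^ t := by
      have h1 : Units.map (s : F →* F) g ∈ Submonoid.powers g := by
        rw [mem_powers_iff_mem_zpowers]
        exact hg _
      obtain ⟨t, ht⟩ := h1
      refine ⟨t, ?_⟩
      have h2 := congrArg (Units.val) ht
      rw [Units.val_pow_eq_pow_val] at h2
      exact h2.symm
    have hζt : ζ ^ j = ζ ^ t := by
      have h1 : π ζ ^ j = π ζ ^ t := by
        have h2 := hs ζ
        rw [hj, map_pow, hζπ] at h2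
        rw [hζπ, ← h2]
        have h3 : (((g⁻¹ : Fˣ) : F) ^ d) = ((g : F) ^ d)⁻¹ := by
          rw [Units.val_inv_eq_inv_val, inv_pow]
        rw [h3, map_inv₀, map_pow, ht, inv_pow, ← pow_mul, ← pow_mul, mul_comm]
      have h2 : j % m = t % m := by
        apply hπζ.pow_inj (Nat.mod_lt _ hm0) (Nat.mod_lt _ hm0)
        have h3 := hπζ.eq_orderOf
        conv_lhs => rw [h3]
        conv_rhs => rw [h3]
        rw [pow_mod_orderOf, pow_mod_orderOf, h1]
      have h3 := hζ.eq_orderOf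
      rw [← pow_mod_orderOf ζ j, ← pow_mod_orderOf ζ t, ← h3, h2]
    have hχs : ∀ x : F, σ • (χ x) = χ (s x) := by
      intro x
      by_cases hx : x = 0
      · have h0 : s 0 = 0 := map_zero s
        rw [hx, h0, MulChar.map_zero]
        exact smul_zero σ
      obtain ⟨k, hk⟩ : ∃ k : ℕ, x = (g : F) ^ k := by
        have h1 : Units.mk0 x hx ∈ Submonoid.powers g := by
          rw [mem_powers_iff_mem_zpowers]
          exact hg _
        obtain ⟨k, hk⟩ := h1
        refine ⟨k, ?_⟩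
        have h2 := congrArg (Units.val) hk
        rw [Units.val_pow_eq_pow_val] at h2
        exact h2.symm
      rw [hk, map_pow, map_pow, map_pow, ht, map_pow, hχg, smul_pow', hj, hζt]
    have hχp : ∀ (i : ℕ) (x : F), σ • ((χ ^ (i + 1)) x) = (χ ^ (i + 1)) (s x) := by
      intro i x
      rw [MulChar.pow_apply' χ (Nat.succ_ne_zero i), MulChar.pow_apply' χ (Nat.succ_ne_zero i),
        smul_pow', hχs]
    have hpr : σ • (∏ i ∈ Finset.range (c - 1), jacobiSum χ (χ ^ (i + 1))) =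
        ∏ i ∈ Finset.range (c - 1), σ • jacobiSum χ (χ ^ (i + 1)) :=
      map_prod (MulSemiringAction.toRingHom Gal(K/ℚ) (𝓞 K) σ) _ _
    rw [hpr]
    refine Finset.prod_congr rfl fun i _ => ?_
    unfold jacobiSum
    rw [Finset.smul_sum]
    refine Eq.trans (Finset.sum_congr rfl fun x _ => ?_)
      (Equiv.sum_comp s.toEquiv (fun y => χ y * (χ ^ (i + 1)) (1 - y)))
    show σ • (χ x * (χ ^ (i + 1)) (1 - x)) = χ (s x) * (χ ^ (i + 1)) (1 - s x)
    rw [smul_mul', hχs, hχp, map_sub, map_one]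

private theorem StA_div {m c : ℕ} [NeZero m] {K : Type} [Field K] [NumberField K]
    [IsCyclotomicExtension {m} ℚ K] (P : Ideal (𝓞 K)) [P.IsMaximal] {p f : ℕ}
    [Fact p.Prime] (hpP : (p : 𝓞 K) ∈ P) (hpm : p.Coprime m) (hf : 0 < f)
    (hmf : m ∣ p ^ f - 1) {γ : 𝓞 K}
    (hγ : ∀ b : (ZMod m)ˣ, γ ∈ ((gq m K).symm b⁻¹ • P) ^
      (∑ i ∈ Finset.range f, c * ((p : ZMod m) ^ i * b).val / m)) :
    (∏ a : (ZMod m)ˣ, ((gq m K).symm a⁻¹ • P) ^ fl c m a) ∣ Ideal.span {γ} := by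
  classical
  have hp : p.Prime := Fact.out
  have hlies : P.LiesOver (Ideal.span {(p : ℤ)}) := by
    refine ⟨?_⟩
    have h1 : (Ideal.span {(p : ℤ)}).IsMaximal :=
      PrincipalIdealRing.isMaximal_of_irreducible (Nat.prime_iff_prime_int.1 hp).irreducible
    refine h1.eq_of_le (Ideal.IsPrime.ne_top (Ideal.IsPrime.under ℤ P)) ?_
    rw [Ideal.span_singleton_le_iff_mem]
    show algebraMap ℤ (𝓞 K) (p : ℤ) ∈ P
    rw [map_natCast]
    exact hpP
  have hP0 : P ≠ ⊥ := by
    rintro rfl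
    have h1 : (p : 𝓞 K) = 0 := by simpa using hpP
    exact hp.ne_zero (by exact_mod_cast h1)
  set Q : (ZMod m)ˣ → Ideal (𝓞 K) := fun a => (gq m K).symm a⁻¹ • P with hQ
  set u := ZMod.unitOfCoprime p hpm with hu
  have huf : u ^ f = 1 := by
    ext
    push_cast
    rw [hu, ZMod.coe_unitOfCoprime]
    have h1 : ((p ^ f - 1 : ℕ) : ZMod m) = 0 := (ZMod.natCast_eq_zero_iff _ _).2 hmf
    have h2 : p ^ f = (p ^ f - 1) + 1 := by
      have : 0 < p ^ f := pow_pos hp.pos f
      omega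
    have h3 : ((p ^ f : ℕ) : ZMod m) = 1 := by
      rw [h2]
      push_cast
      rw [h1, zero_add]
    push_cast at h3
    exact h3
  have hQmax : ∀ a, (Q a).IsMaximal := by
    intro a
    have h1 : (Q a).IsPrime := (Ideal.IsPrime.smul_iff _).2 inferInstance
    refine h1.isMaximal fun h2 => hP0 ?_
    have h3 : (gq m K).symm a⁻¹ • P = (gq m K).symm a⁻¹ • (⊥ : Ideal (𝓞 K)) := by
      rw [Ideal.smul_bot]
      exact h2
    exact smul_left_cancel _ h3
  have hstab : ∀ a b, Q a = Q b → ∃ i, i < f ∧ u ^ i * b = a := by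
    intro a b hab
    have h1 : (gq m K).symm (b * a⁻¹) • P = P := by
      rw [map_mul, mul_smul]
      have h2 : (gq m K).symm a⁻¹ • P = (gq m K).symm b⁻¹ • P := hab
      rw [h2, smul_smul, ← map_mul, mul_inv_cancel, map_one, one_smul]
    have h2 := IsCyclotomicExtension.Rat.mem_zpowers_galEquivZMod_of_mem_stabilizer m K p P hpm
      (MulAction.mem_stabilizer_iff.2 h1)
    have h3 : IsCyclotomicExtension.Rat.galEquivZMod m K ((gq m K).symm (b * a⁻¹)) = b * a⁻¹ :=
      MulEquiv.apply_symm_apply _ _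
    rw [h3] at h2
    have h4 : a * b⁻¹ ∈ Subgroup.zpowers u := by
      have := inv_mem h2
      rwa [mul_inv_rev, inv_inv] at this
    rw [← mem_powers_iff_mem_zpowers] at h4
    obtain ⟨k, hk⟩ := h4
    refine ⟨k % f, Nat.mod_lt _ hf, ?_⟩
    have h5 : u ^ k = u ^ (k % f) := by
      conv_lhs => rw [← Nat.div_add_mod k f, pow_add, pow_mul, huf, one_pow, one_mul]
    have h6 : u ^ k = a * b⁻¹ := hk
    rw [← h5, h6, inv_mul_cancel_right]
  rw [← Finset.prod_fiberwise_of_maps_to (s := Finset.univ) (t := Finset.univ.image Q) (g := Q)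
    (fun a _ => Finset.mem_image_of_mem Q (Finset.mem_univ a))]
  have h1 : ∀ J ∈ Finset.univ.image Q,
      ∏ a ∈ Finset.univ.filter (fun a => Q a = J), ((gq m K).symm a⁻¹ • P) ^ fl c m a =
        J ^ (∑ a ∈ Finset.univ.filter (fun a => Q a = J), fl c m a) := by
    intro J _
    rw [← Finset.prod_pow_eq_pow_sum]
    refine Finset.prod_congr rfl fun a ha => ?_
    have h2 : Q a = J := (Finset.mem_filter.1 ha).2
    rw [← h2]
  rw [Finset.prod_congr rfl h1]
  refine Finset.prod_dvd_of_coprime ?_ ?_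
  · intro J hJ J' hJ' hne
    obtain ⟨a, _, rfl⟩ := Finset.mem_image.1 (Finset.mem_coe.1 hJ)
    obtain ⟨a', _, rfl⟩ := Finset.mem_image.1 (Finset.mem_coe.1 hJ')
    refine IsCoprime.pow ?_
    rw [Ideal.isCoprime_iff_sup_eq]
    exact Ideal.IsMaximal.coprime_of_ne (hQmax a) (hQmax a') hne
  · intro J hJ
    obtain ⟨b, _, rfl⟩ := Finset.mem_image.1 hJ
    rw [Ideal.dvd_span_singleton]
    refine Ideal.pow_le_pow_right ?_ (hγ b)
    choose i hi using fun a : {a // Q a = Q b} => hstab a.1 b a.2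
    calc ∑ a ∈ Finset.univ.filter (fun a => Q a = Q b), fl c m a
        = ∑ a : {a // Q a = Q b}, fl c m a.1 := by
          rw [← Finset.sum_subtype_eq_sum_filter, Finset.subtype_univ]
      _ = ∑ a : {a // Q a = Q b}, fl c m (u ^ i a * b) :=
          Finset.sum_congr rfl fun a _ => by rw [(hi a).2]
      _ = ∑ j ∈ Finset.univ.image i, fl c m (u ^ j * b) := by
          rw [Finset.sum_image]
          intro a _ a' _ haa
          have h2 := (hi a).2
          rw [haa, (hi a').2] at h2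
          exact Subtype.ext h2.symm
      _ ≤ ∑ j ∈ Finset.range f, fl c m (u ^ j * b) := by
          refine Finset.sum_le_sum_of_subset ?_
          intro j hj
          obtain ⟨a, _, rfl⟩ := Finset.mem_image.1 hj
          exact Finset.mem_range.2 (hi a).1
      _ = _ := by
          refine Finset.sum_congr rfl fun j _ => ?_
          unfold fl
          push_cast
          rw [hu, ZMod.coe_unitOfCoprime]

theorem stA (m : ℕ) [NeZero m] (hm : 2 < m) (hodd : Odd m)
    (K : Type) [Field K] [NumberField K] [IsCyclotomicExtension {m} ℚ K]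
    (P : Ideal (𝓞 K)) (hP : P.IsPrime) (hP0 : P ≠ ⊥) (hPm : (m : 𝓞 K) ∉ P) :
    ∃ (γ : 𝓞 K) (q : ℕ), 0 < q ∧
      Ideal.span {γ} = ∏ a : (ZMod m)ˣ, ((AAP.gq m K).symm a⁻¹ • P) ^ AAP.fl 2 m a ∧
      γ * ((AAP.gq m K).symm (-1) • γ) = (q : 𝓞 K) ∧
      ∀ σ : Gal(K/ℚ), σ • P = P → σ • γ = γ := by
  classical
  have hPmax : P.IsMaximal := hP.isMaximal hP0
  let _ : Field (𝓞 K ⧸ P) := Ideal.Quotient.field P
  let _ : Fintype (𝓞 K ⧸ P) := Fintype.ofFinite _
  obtain ⟨p, hpc⟩ := CharP.exists (𝓞 K ⧸ P)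
  obtain ⟨f, hpp, hF⟩ := FiniteField.card (𝓞 K ⧸ P) p
  have : Fact p.Prime := ⟨hpp⟩
  have hmF : ((m : ℕ) : 𝓞 K ⧸ P) ≠ 0 := by
    intro h
    apply hPm
    rw [← Ideal.Quotient.eq_zero_iff_mem, map_natCast]
    exact h
  have hpP : (p : 𝓞 K) ∈ P := by
    rw [← Ideal.Quotient.eq_zero_iff_mem, map_natCast]
    exact CharP.cast_eq_zero _ p
  have hpm : p.Coprime m := by
    rw [hpp.coprime_iff_not_dvd]
    intro h
    exact hmF ((CharP.cast_eq_zero_iff _ p m).2 h)
  have hm0 : 0 < m := by omega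
  have hmf : m ∣ p ^ (f : ℕ) - 1 := by
    have := StA_dvd (Ideal.Quotient.mk P) hm0 hmF (zt_spec m K).toInteger_isPrimitiveRoot
    rwa [hF] at this
  have hc : 1 < 2 := one_lt_two
  have hcop : Nat.Coprime 2 m := hodd.coprime_two_left
  obtain ⟨γ, hγ1, hγ2, hγ3⟩ := StA_core hm hc hm (Ideal.Quotient.mk P) hF hmF
  have hdiv := StA_div (c := 2) P hpP hpm f.pos hmf (γ := γ) (fun b => hγ2 b _ fun x => by
    rw [Ideal.Quotient.eq_zero_iff_mem, map_inv]
    exact Ideal.mem_inv_pointwise_smul_iff)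
  -- the norms
  have hNP : Ideal.absNorm P = p ^ (f : ℕ) := by
    rw [Ideal.absNorm_apply, Submodule.cardQuot_apply, Nat.card_eq_fintype_card, hF]
  set I := ∏ a : (ZMod m)ˣ, ((gq m K).symm a⁻¹ • P) ^ fl 2 m a with hI
  have hNI : Ideal.absNorm I = (p ^ (f : ℕ)) ^ (∑ a : (ZMod m)ˣ, fl 2 m a) := by
    rw [hI, map_prod, ← Finset.prod_pow_eq_pow_sum]
    refine Finset.prod_congr rfl fun a _ => ?_
    rw [map_pow, StA_norm_smul, hNP]
  have hrank : Module.finrank ℤ (𝓞 K) = Fintype.card (ZMod m)ˣ := by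
    rw [RingOfIntegers.rank, ZMod.card_units_eq_totient]
    exact IsCyclotomicExtension.finrank K
      (Polynomial.cyclotomic.irreducible_rat (Nat.pos_of_ne_zero (NeZero.ne m)))
  have hNγ : Ideal.absNorm (Ideal.span {γ}) ^ 2 = Ideal.absNorm I ^ 2 := by
    have h1 : Ideal.span {γ} * ((gq m K).symm (-1) • Ideal.span {γ}) =
        Ideal.span {(((p ^ (f : ℕ)) ^ (2 - 1) : ℕ) : 𝓞 K)} := by
      rw [← hγ1, Ideal.smul_closure, Set.smul_set_singleton,
        Ideal.span_singleton_mul_span_singleton]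
    have h2 := congrArg Ideal.absNorm h1
    rw [map_mul, StA_norm_smul, Ideal.absNorm_span_natCast, hrank, ← pow_two] at h2
    rw [h2, hNI, ← pow_mul (p ^ (f : ℕ)) (2 - 1), ← pow_mul (p ^ (f : ℕ)) _ 2, mul_comm _ 2,
      StA_fl m 2 hm hcop]
  have hNγ' : Ideal.absNorm (Ideal.span {γ}) = Ideal.absNorm I :=
    Nat.pow_left_injective (n := 2) (by norm_num) hNγ
  obtain ⟨J, hJ⟩ := hdiv
  have hI0 : Ideal.absNorm I ≠ 0 := by
    rw [hNI]
    exact pow_ne_zero _ (pow_ne_zero _ hpp.ne_zero)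
  have hJ1 : Ideal.absNorm J = 1 := by
    have h1 := congrArg Ideal.absNorm hJ
    rw [map_mul, hNγ'] at h1
    exact Nat.eq_of_mul_eq_mul_left (Nat.pos_of_ne_zero hI0) (by rw [mul_one]; exact h1.symm)
  rw [Ideal.absNorm_eq_one_iff] at hJ1
  rw [hJ1, Ideal.mul_top] at hJ
  refine ⟨γ, (p ^ (f : ℕ)) ^ (2 - 1), pow_pos (pow_pos hpp.pos _) _, hJ, hγ1, ?_⟩
  intro σ hσ
  refine hγ3 σ (Ideal.quotientEquiv P P (MulSemiringAction.toRingEquiv _ (𝓞 K) σ) ?_) ?_
  · exact hσ.symm
  · intro x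
    rfl

end Pool.Agent.FR2
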