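import Pool.Agent.FR2.DefsK

/-!
# FR2-StB: the prime ideals of a cyclotomic field over a prime ideal of a subfield

`F = ℚ(ζ_m)`, `L` a subfield, `P` a prime ideal of `𝓞 F` not containing `m`, `Q = P ∩ 𝓞 L`. The prime ideals
over `Q` are the conjugates `τ P` under the group of all `τ` trivial on `L`, and `Q` is unramified in `F`, so
`Q 𝓞 F` is the product of the different `τ P`.
-/

open NumberField Pointwise Finset

namespace Pool.Agent.FR2

section

variable {L M : Type} [Field L] [NumberField L] [Field M] [NumberField M] [Algebra L M]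

/-- primes not containing `m` are unramified -/
private theorem stb_unr (m : ℕ) [NeZero m] [IsCyclotomicExtension {m} ℚ M] (Q : Ideal (𝓞 L))
    [Q.IsMaximal] (h0 : Q ≠ ⊥) (hmQ : (m : 𝓞 L) ∉ Q) :
    Q.map (algebraMap (𝓞 L) (𝓞 M)) = ∏ P ∈ Q.primesOver (𝓞 M), P := by
  rw [Ideal.map_algebraMap_eq_finsetProd_pow h0]
  refine Finset.prod_congr rfl fun P hP => ?_
  rw [Set.mem_toFinset] at hP
  have h1 := hP.1
  have h2 := hP.2
  suffices h : P.ramificationIdx (𝓞 L) = 1 by rw [h, pow_one]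
  have hP0 : P ≠ ⊥ := by
    rintro rfl
    apply h0
    rw [h2.over]
    exact Ideal.comap_bot_of_injective _ (FaithfulSMul.algebraMap_injective (𝓞 L) (𝓞 M))
  have hmP : (m : 𝓞 M) ∉ P := by
    intro h
    apply hmQ
    rw [h2.over, Ideal.mem_comap, map_natCast]
    exact h
  have hu0 : P.under ℤ ≠ ⊥ := Ideal.IsIntegral.comap_ne_bot ℤ hP0
  have hup : (P.under ℤ).IsPrime := inferInstance
  obtain ⟨p, hp, hpu⟩ : ∃ p : ℕ, p.Prime ∧ P.under ℤ = Ideal.span {(p : ℤ)} := by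
    obtain ⟨n, hn⟩ := (IsPrincipalIdealRing.principal (P.under ℤ)).principal
    have hn' : P.under ℤ = Ideal.span {n} := hn
    have hn0 : n ≠ 0 := by
      rintro rfl
      apply hu0
      rw [hn', Ideal.span_singleton_eq_bot]
    have hpr : Prime n := (Ideal.span_singleton_prime hn0).1 (hn' ▸ hup)
    refine ⟨n.natAbs, Int.prime_iff_natAbs_prime.1 hpr, ?_⟩
    rw [hn', Int.span_natAbs]
  have : Fact p.Prime := ⟨hp⟩
  have hlies : P.LiesOver (Ideal.span {(p : ℤ)}) := ⟨hpu.symm⟩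
  have hpm : ¬ p ∣ m := by
    rintro ⟨d, hd⟩
    apply hmP
    have h3 : (p : 𝓞 M) ∈ P := by
      have h4 : (p : ℤ) ∈ P.under ℤ := by rw [hpu]; exact Ideal.mem_span_singleton_self _
      rw [Ideal.mem_comap, map_natCast] at h4
      exact h4
    rw [hd]
    push_cast
    exact P.mul_mem_right _ h3
  have h3 := IsCyclotomicExtension.Rat.ramificationIdx_eq_of_not_dvd (m := m) p M P hpm
  have h4 : P.ramificationIdx (𝓞 L) ∣ P.ramificationIdx ℤ :=
    Ideal.ramificationIdx_above_dvd (R := ℤ) Q P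
  rw [h3] at h4
  exact Nat.dvd_one.1 h4

end

/-- an automorphism over `L` restricts to the identity of `L` -/
private theorem stb_rs {L F : Type} [Field L] [NumberField L] [IsGalois ℚ L] [Field F]
    [NumberField F] [Algebra L F] (g : Gal(F/L)) :
    rs (K := L) (g.restrictScalars ℚ : Gal(F/ℚ)) = 1 := by
  apply AlgEquiv.ext
  intro x
  apply (algebraMap L F).injective
  have h1 : algebraMap L F (rs (K := L) (g.restrictScalars ℚ : Gal(F/ℚ)) x) =
      (g.restrictScalars ℚ : Gal(F/ℚ)) (algebraMap L F x) :=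
    AlgEquiv.restrictNormal_commutes (g.restrictScalars ℚ : Gal(F/ℚ)) L x
  rw [h1]
  exact g.commutes x

/-- an automorphism which restricts to the identity of `L` is an automorphism over `L` -/
private theorem stb_lift {L F : Type} [Field L] [NumberField L] [IsGalois ℚ L] [Field F]
    [NumberField F] [Algebra L F] (ρ : Gal(F/ℚ)) (h : rs (K := L) ρ = 1) :
    ∃ g : Gal(F/L), (g.restrictScalars ℚ : Gal(F/ℚ)) = ρ := by
  refine ⟨AlgEquiv.ofRingEquiv (f := ρ.toRingEquiv) ?_, ?_⟩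
  · intro x
    have h1 : algebraMap L F (rs (K := L) ρ x) = ρ (algebraMap L F x) :=
      AlgEquiv.restrictNormal_commutes ρ L x
    rw [h] at h1
    exact h1.symm
  · apply AlgEquiv.ext
    intro x
    rfl

theorem stB (m : ℕ) [NeZero m] (F L : Type) [Field F] [NumberField F]
    [IsCyclotomicExtension {m} ℚ F] [Field L] [NumberField L] [IsGalois ℚ L] [Algebra L F]
    (P : Ideal (𝓞 F)) (hP : P.IsPrime) (hP0 : P ≠ ⊥) (hPm : (m : 𝓞 F) ∉ P)
    (hdec : ∀ σ : Gal(F/ℚ), σ • P = P → rs (K := L) σ = 1) :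
    ∃ T : Finset Gal(F/ℚ), (∀ τ ∈ T, rs (K := L) τ = 1) ∧
      (∀ ρ : Gal(F/ℚ), rs (K := L) ρ = 1 → ∃! τ, τ ∈ T ∧ (τ⁻¹ * ρ) • P = P) ∧
      (P.comap (algebraMap (𝓞 L) (𝓞 F))).map (algebraMap (𝓞 L) (𝓞 F)) = ∏ τ ∈ T, τ • P := by
  classical
  have hgF : IsGalois ℚ F := IsCyclotomicExtension.isGalois {m} ℚ F
  have hgLF : IsGalois L F := IsGalois.tower_top_of_isGalois ℚ L F
  obtain ⟨Q, hQ⟩ : ∃ Q, Q = P.comap (algebraMap (𝓞 L) (𝓞 F)) := ⟨_, rfl⟩
  have hQp : Q.IsPrime := by rw [hQ]; exact Ideal.comap_isPrime _ P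
  have hQ0 : Q ≠ ⊥ := by rw [hQ]; exact Ideal.IsIntegral.comap_ne_bot (𝓞 L) hP0
  have hQm : Q.IsMaximal := hQp.isMaximal hQ0
  have hmQ : (m : 𝓞 L) ∉ Q := by
    intro h
    apply hPm
    rw [hQ, Ideal.mem_comap, map_natCast] at h
    exact h
  have hPQ : P.LiesOver Q := ⟨hQ⟩
  let ρ : Gal(F/L) → Gal(F/ℚ) := fun h => h.restrictScalars ℚ
  have hρI : ∀ (h : Gal(F/L)) (I : Ideal (𝓞 F)), h • I = ρ h • I := fun _ _ => rfl
  have hex : ∀ P' : Ideal (𝓞 F), ∃ h : Gal(F/L), P' ∈ Q.primesOver (𝓞 F) → h • P = P' := by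
    intro P'
    by_cases hP' : P' ∈ Q.primesOver (𝓞 F)
    · have h4 := hP'.1
      have h5 := hP'.2
      obtain ⟨g, hg⟩ := Ideal.exists_smul_eq_of_isGaloisGroup Q P P' Gal(F/L)
      exact ⟨g, fun _ => hg⟩
    · exact ⟨1, fun h => absurd h hP'⟩
  choose η hη using hex
  have hη' : ∀ P' ∈ Q.primesOver (𝓞 F), ρ (η P') • P = P' := by
    intro P' hP'
    rw [← hρI]
    exact hη P' hP'
  obtain ⟨S, hS⟩ : ∃ S, S = (Q.primesOver (𝓞 F)).toFinset := ⟨_, rfl⟩
  have hSm : ∀ P', P' ∈ S ↔ P' ∈ Q.primesOver (𝓞 F) := fun P' => by rw [hS, Set.mem_toFinset]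
  refine ⟨S.image fun P' => ρ (η P'), ?_, ?_, ?_⟩
  · intro τ hτ
    obtain ⟨P', -, rfl⟩ := Finset.mem_image.1 hτ
    exact stb_rs _
  · intro σ hσ
    obtain ⟨g, hg⟩ := stb_lift σ hσ
    have hgP : g • P ∈ Q.primesOver (𝓞 F) := ⟨inferInstance, inferInstance⟩
    have hσP : σ • P ∈ Q.primesOver (𝓞 F) := by
      rw [← hg]
      exact hgP
    refine ⟨ρ (η (σ • P)), ⟨Finset.mem_image.2 ⟨σ • P, (hSm _).2 hσP, rfl⟩, ?_⟩, ?_⟩
    · rw [mul_smul, inv_smul_eq_iff]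
      exact (hη' _ hσP).symm
    · rintro τ ⟨hτ, hτP⟩
      obtain ⟨P', hP', rfl⟩ := Finset.mem_image.1 hτ
      rw [mul_smul, inv_smul_eq_iff, hη' P' ((hSm _).1 hP')] at hτP
      rw [hτP]
  · rw [← hQ, stb_unr m Q hQ0 hmQ, Finset.prod_image]
    · rw [← hS]
      exact (Finset.prod_congr rfl fun P' hP' => hη' P' ((hSm _).1 hP')).symm
    · intro P1 h1 P2 h2 h
      rw [← hη' P1 ((hSm _).1 h1), ← hη' P2 ((hSm _).1 h2)]
      exact congrArg (· • P) h

end Pool.Agent.FR2
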